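import Pool.Agent.MP_c45d35_ag.FinC

/-! # The adjoint groups: finite generation of the rings of `PSp_N` -/

namespace Pool.Agent.MP_c45d35_ag

open Matrix

section adj
variable {N b : ℕ}

theorem ad_le : MTringAd N b ≤ MTring N b := by
  rintro F ⟨h1, h2⟩
  exact ⟨h1, fun y y' h hh hp hs hg => h2 y y' h hh (Or.inl hp) hs hg⟩

theorem isG_neg (hN : ¬ Odd N) {g : Matrix (Fin N) (Fin N) ℂ} (hg : IsG g) : IsG (-g) := by
  refine ⟨?_, fun h => absurd h hN⟩
  rw [Matrix.transpose_neg, Matrix.neg_mul, Matrix.neg_mul, Matrix.mul_neg, neg_neg]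
  exact hg.1

/-- negating the first group element -/
def negPt (hN : ¬ Odd N) (y : Pt N (b + 1)) : Pt N (b + 1) :=
  (fun a => if a = 0 then ⟨-(y.1 a).1, isG_neg hN (y.1 a).2⟩ else y.1 a, y.2)

theorem negPt_val (hN : ¬ Odd N) (y : Pt N (b + 1)) (a : Fin (b + 1)) :
    ((negPt hN y).1 a).1 = if a = 0 then -(y.1 a).1 else (y.1 a).1 := by
  unfold negPt
  simp only
  split_ifs <;> rfl

theorem negPt_negPt (hN : ¬ Odd N) (y : Pt N (b + 1)) : negPt hN (negPt hN y) = y := by
  refine Prod.ext (funext fun a => Subtype.ext ?_) rfl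
  rw [negPt_val, negPt_val]
  split_ifs <;> simp

theorem prod_ofFn_neg (h : Fin (b + 1) → Matrix (Fin N) (Fin N) ℂ) :
    (List.ofFn fun a => if a = 0 then - h a else h a).prod = - (List.ofFn h).prod := by
  rw [List.ofFn_succ, List.ofFn_succ, List.prod_cons, List.prod_cons, if_pos rfl,
    Matrix.neg_mul]
  congr 3

/-- the involution of the ring -/
theorem negPt_mem (hN : ¬ Odd N) {F : Pt N (b + 1) → ℂ} (hF : F ∈ MTring N (b + 1)) :
    (fun y => F (negPt hN y)) ∈ MTring N (b + 1) := by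
  obtain ⟨⟨P, hP⟩, h2⟩ := hF
  refine ⟨?_, ?_⟩
  · refine ⟨MvPolynomial.bind₁ (Sum.elim
      (fun p => if p.1 = 0 then - MvPolynomial.X (Sum.inl p) else MvPolynomial.X (Sum.inl p))
      (fun p => MvPolynomial.X (Sum.inr p))) P, fun y => ?_⟩
    show F (negPt hN y) = _
    rw [hP, MvPolynomial.eval, MvPolynomial.eval, MvPolynomial.eval₂Hom_bind₁]
    refine congrArg (fun v => MvPolynomial.eval₂Hom (RingHom.id ℂ) v P) ?_
    funext i
    rcases i with ⟨a, i, j⟩ | ⟨i, j⟩
    · simp only [co, Sum.elim_inl, negPt_val]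
      split_ifs <;> simp
    · simp only [co, Sum.elim_inr]
      simp [negPt]
  · intro y y' h hh hp hs hg
    refine h2 (negPt hN y) (negPt hN y') h hh hp hs fun a => ?_
    rw [negPt_val, negPt_val, hg a]
    split_ifs
    · rw [Matrix.neg_mul]
    · rfl

/-- behaviour under elements with product `-1` -/
theorem eval_neg (hN : ¬ Odd N) {F : Pt N (b + 1) → ℂ} (hF : F ∈ MTring N (b + 1))
    (y y' : Pt N (b + 1)) (h : Fin (b + 1) → Matrix (Fin N) (Fin N) ℂ)
    (hh : ∀ a, IsG (h a) ∧ Commute (h a) y.2.1) (hp : (List.ofFn h).prod = -1)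
    (hs : y'.2 = y.2) (hg : ∀ a, (y'.1 a).1 = (y.1 a).1 * h a) : F y' = F (negPt hN y) := by
  refine hF.2 (negPt hN y) y' (fun a => if a = 0 then - h a else h a) (fun a => ?_) ?_ hs
    fun a => ?_
  · by_cases ha : a = 0
    · rw [if_pos ha]
      exact ⟨isG_neg hN (hh a).1, (hh a).2.neg_left⟩
    · rw [if_neg ha]
      exact hh a
  · rw [prod_ofFn_neg, hp, neg_neg]
  · rw [negPt_val, hg a]
    split_ifs <;> simp

theorem sym_mem (hN : ¬ Odd N) {F F' : Pt N (b + 1) → ℂ} (hF : F ∈ MTring N (b + 1))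
    (hF' : F' = fun y => F (negPt hN y)) : F + F' ∈ MTringAd N (b + 1) ∧
      F * F' ∈ MTringAd N (b + 1) := by
  have hF2 : F' ∈ MTring N (b + 1) := by rw [hF']; exact negPt_mem hN hF
  have key : ∀ (y y' : Pt N (b + 1)) (h : Fin (b + 1) → Matrix (Fin N) (Fin N) ℂ),
      (∀ a, IsG (h a) ∧ Commute (h a) y.2.1) →
      ((List.ofFn h).prod = 1 ∨ (List.ofFn h).prod = -1) → y'.2 = y.2 →
      (∀ a, (y'.1 a).1 = (y.1 a).1 * h a) →
      (F y' = F y ∧ F' y' = F' y) ∨ (F y' = F' y ∧ F' y' = F y) := by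
    intro y y' h hh hp hs hg
    rcases hp with hp | hp
    · exact Or.inl ⟨hF.2 y y' h hh hp hs hg, hF2.2 y y' h hh hp hs hg⟩
    · refine Or.inr ⟨?_, ?_⟩
      · rw [eval_neg hN hF y y' h hh hp hs hg, hF']
      · rw [eval_neg hN hF2 y y' h hh hp hs hg, hF']
        show F (negPt hN (negPt hN y)) = F y
        rw [negPt_negPt]
  constructor
  · refine ⟨((MTring N (b + 1)).add_mem hF hF2).1, fun y y' h hh hp hs hg => ?_⟩
    rcases key y y' h hh hp hs hg with ⟨h1, h2⟩ | ⟨h1, h2⟩
    · simp only [Pi.add_apply, h1, h2]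
    · simp only [Pi.add_apply, h1, h2]
      exact add_comm _ _
  · refine ⟨((MTring N (b + 1)).mul_mem hF hF2).1, fun y y' h hh hp hs hg => ?_⟩
    rcases key y y' h hh hp hs hg with ⟨h1, h2⟩ | ⟨h1, h2⟩
    · simp only [Pi.mul_apply, h1, h2]
    · simp only [Pi.mul_apply, h1, h2]
      exact mul_comm _ _

theorem fg_of_invol {C : Type*} [CommRing C] [IsReduced C] [Algebra ℂ C]
    (hC : Algebra.FiniteType ℂ C) (σ : C → C) (B : Subalgebra ℂ C)
    (hσB : ∀ F, F + σ F ∈ B ∧ F * σ F ∈ B) : B.FG := by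
  classical
  obtain ⟨T, hT⟩ := hC.out
  obtain ⟨R, hR⟩ : ∃ R : Subalgebra ℂ C, R = Algebra.adjoin ℂ
    (((T.image fun F => F + σ F) ∪ (T.image fun F => F * σ F) : Finset C) : Set C) := ⟨_, rfl⟩
  have hRB : R ≤ B := by
    rw [hR]
    refine Algebra.adjoin_le ?_
    intro x hx
    rcases Finset.mem_union.1 (Finset.mem_coe.1 hx) with h | h
    · obtain ⟨F, _, rfl⟩ := Finset.mem_image.1 h
      exact (hσB F).1
    · obtain ⟨F, _, rfl⟩ := Finset.mem_image.1 h
      exact (hσB F).2
  have hgen : ∀ F ∈ T, IsIntegral R F := by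
    intro F hF
    have h1 : F + σ F ∈ R := by
      rw [hR]
      exact Algebra.subset_adjoin (Finset.mem_coe.2
        (Finset.mem_union_left _ (Finset.mem_image_of_mem _ hF)))
    have h2 : F * σ F ∈ R := by
      rw [hR]
      exact Algebra.subset_adjoin (Finset.mem_coe.2
        (Finset.mem_union_right _ (Finset.mem_image_of_mem (fun F => F * σ F) hF)))
    obtain ⟨p, hp⟩ : ∃ p : Polynomial ↥R, p = Polynomial.X ^ 2 -
      Polynomial.C (⟨F + σ F, h1⟩ : ↥R) * Polynomial.X + Polynomial.C (⟨F * σ F, h2⟩ : ↥R) :=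
      ⟨_, rfl⟩
    refine ⟨p, ?_, ?_⟩
    · rw [hp]
      monicity!
    · rw [hp, Polynomial.eval₂_add, Polynomial.eval₂_sub, Polynomial.eval₂_mul,
        Polynomial.eval₂_pow, Polynomial.eval₂_X, Polynomial.eval₂_C, Polynomial.eval₂_C]
      have h3 : F ^ 2 - (F + σ F) * F + F * σ F = 0 := by ring
      exact h3
  have hle : (⊤ : Subalgebra ℂ C) ≤ (integralClosure R C).restrictScalars ℂ := by
    rw [← hT]
    exact Algebra.adjoin_le fun F hF => hgen F hF
  refine fg_of_integral hC R B ?_ hRB fun c _ => hle Algebra.mem_top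
  rw [hR]
  exact Subalgebra.fg_adjoin_finset _

/-- Finite generation passes to the adjoint group (even `N`). -/
theorem ad_fg_even (hN : ¬ Odd N) : (MTringAd N (b + 1)).FG := by
  have hCfin : Algebra.FiniteType ℂ ↥(MTring N (b + 1)) :=
    Subalgebra.fg_iff_finiteType _ |>.1 (mt_fg N (b + 1))
  have hBmap : ((MTringAd N (b + 1)).comap (MTring N (b + 1)).val).map (MTring N (b + 1)).val =
      MTringAd N (b + 1) := by
    ext F
    rw [Subalgebra.mem_map]
    constructor
    · rintro ⟨f, hf, rfl⟩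
      exact hf
    · intro hF
      exact ⟨⟨F, ad_le hF⟩, hF, rfl⟩
  have hred : IsReduced ↥(MTring N (b + 1)) :=
    isReduced_of_injective (MTring N (b + 1)).val Subtype.val_injective
  have hBfg : ((MTringAd N (b + 1)).comap (MTring N (b + 1)).val).FG :=
    fg_of_invol hCfin (fun F => ⟨fun y => F.1 (negPt hN y), negPt_mem hN F.2⟩) _
      fun F => sym_mem hN F.2 (F' := fun y => F.1 (negPt hN y)) rfl
  rw [← hBmap]
  exact hBfg.map _

/-- the ring of the adjoint group is finitely generated -/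
theorem ad_fg (N b : ℕ) : (MTringAd N b).FG := by
  by_cases hN : Odd N
  · have : MTringAd N b = MTring N b := by
      refine le_antisymm ad_le ?_
      rintro F ⟨h1, h2⟩
      refine ⟨h1, fun y y' h hh hp hs hg => h2 y y' h hh ?_ hs hg⟩
      rcases hp with hp | hp
      · exact hp
      · exfalso
        have hdet : ∀ l : List (Matrix (Fin N) (Fin N) ℂ), (∀ x ∈ l, x.det = 1) →
            l.prod.det = 1 := by
          intro l
          induction l with
          | nil => intro _; simp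
          | cons x l ih =>
            intro hl
            rw [List.prod_cons, Matrix.det_mul, hl x List.mem_cons_self,
              ih fun z hz => hl z (List.mem_cons_of_mem _ hz), one_mul]
        have h3 := hdet (List.ofFn h) (fun x hx => by
          obtain ⟨a, rfl⟩ := (List.mem_ofFn' h x).1 hx
          exact (hh a).1.2 hN)
        rw [hp, Matrix.det_neg, Matrix.det_one, Fintype.card_fin, hN.neg_one_pow] at h3
        norm_num at h3
    rw [this]
    exact mt_fg N b
  · cases b with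
    | zero =>
      have : MTringAd N 0 = MTring N 0 := by
        refine le_antisymm ad_le ?_
        rintro F ⟨h1, h2⟩
        refine ⟨h1, fun y y' h hh hp hs hg => ?_⟩
        have : y' = y := Prod.ext (Subsingleton.elim _ _) hs
        rw [this]
      rw [this]
      exact mt_fg N 0
    | succ b => exact ad_fg_even hN

end adj

end Pool.Agent.MP_c45d35_ag
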