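import Pool.Agent.MP_c45d35_ag.Defs

namespace Pool.Agent.MP_c45d35_ag

open Matrix

section basic
variable {R : Type*} [CommRing R] {N : ℕ}

theorem Jm_apply (i j : Fin N) : Jm R N i j = if j = Fin.rev i then (-1) ^ (i : ℕ) else 0 := rfl

theorem Jm_mul_apply (A : Matrix (Fin N) (Fin N) R) (i j : Fin N) :
    (Jm R N * A) i j = (-1) ^ (i : ℕ) * A (Fin.rev i) j := by
  rw [Matrix.mul_apply, Finset.sum_eq_single (Fin.rev i)]
  · simp [Jm_apply]
  · intro k _ hk
    simp [Jm_apply, hk]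
  · simp

theorem mul_Jm_apply (A : Matrix (Fin N) (Fin N) R) (i j : Fin N) :
    (A * Jm R N) i j = A i (Fin.rev j) * (-1) ^ ((Fin.rev j : Fin N) : ℕ) := by
  rw [Matrix.mul_apply, Finset.sum_eq_single (Fin.rev j)]
  · simp [Jm_apply]
  · intro k _ hk
    have : j ≠ Fin.rev k := by
      rintro rfl
      simp at hk
    simp [Jm_apply, this]
  · simp

theorem JmT_mul_apply (A : Matrix (Fin N) (Fin N) R) (i j : Fin N) :
    ((Jm R N)ᵀ * A) i j = (-1) ^ ((Fin.rev i : Fin N) : ℕ) * A (Fin.rev i) j := by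
  rw [Matrix.mul_apply, Finset.sum_eq_single (Fin.rev i)]
  · simp [Jm_apply]
  · intro k _ hk
    have : i ≠ Fin.rev k := by
      rintro rfl
      simp at hk
    simp [Jm_apply, this]
  · simp

theorem Jm_mul_transpose : Jm R N * (Jm R N)ᵀ = 1 := by
  ext i j
  rw [Jm_mul_apply, Matrix.transpose_apply, Jm_apply, Matrix.one_apply]
  by_cases h : i = j
  · subst h
    simp [← pow_add, ← two_mul, pow_mul]
  · have : Fin.rev i ≠ Fin.rev j := fun h' => h (Fin.rev_injective h')
    simp [this, h]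

theorem Jm_transpose_mul : (Jm R N)ᵀ * Jm R N = 1 :=
  mul_eq_one_comm.mp Jm_mul_transpose

theorem neg_one_pow_rev (i : Fin N) :
    (-1 : R) ^ ((Fin.rev i : Fin N) : ℕ) = (-1) ^ (N + 1) * (-1) ^ (i : ℕ) := by
  have h := i.2
  rw [← pow_add, Fin.val_rev]
  have : N + 1 + (i : ℕ) = (N - (i + 1)) + 2 * (i + 1) := by omega
  rw [this, pow_add, pow_mul]
  simp

theorem Jm_transpose : (Jm R N)ᵀ = (-1 : R) ^ (N + 1) • Jm R N := by
  ext i j
  rw [Matrix.transpose_apply, Matrix.smul_apply, Jm_apply, Jm_apply]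
  by_cases h : j = Fin.rev i
  · subst h
    rw [if_pos (Fin.rev_rev i).symm, if_pos rfl, neg_one_pow_rev, smul_eq_mul]
  · have : i ≠ Fin.rev j := by
      rintro rfl
      simp at h
    simp [this, h]

theorem Jm_mul_self : Jm R N * Jm R N = (-1 : R) ^ (N + 1) • (1 : Matrix (Fin N) (Fin N) R) := by
  have h : Jm R N = (-1 : R) ^ (N + 1) • (Jm R N)ᵀ := by
    rw [Jm_transpose, smul_smul, ← pow_add, ← two_mul, pow_mul]
    simp
  nth_rewrite 2 [h]
  rw [Matrix.mul_smul, Jm_mul_transpose]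

/-- conjugate-transposition by `J` in coordinates -/
theorem star_apply (X : Matrix (Fin N) (Fin N) R) (i j : Fin N) :
    ((Jm R N)ᵀ * Xᵀ * Jm R N) i j = (-1) ^ ((i : ℕ) + (j : ℕ)) * X (Fin.rev j) (Fin.rev i) := by
  rw [mul_Jm_apply, JmT_mul_apply, Matrix.transpose_apply, neg_one_pow_rev, neg_one_pow_rev,
    pow_add]
  have : ((-1 : R) ^ (N + 1)) * (-1) ^ (N + 1) = 1 := by
    rw [← pow_add, ← two_mul, pow_mul]; simp
  linear_combination ((-1) ^ (i : ℕ) * (-1) ^ (j : ℕ) * X (Fin.rev j) (Fin.rev i)) * this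

/-- the anti-involution `X ↦ Jᵀ Xᵀ J` -/
def st (X : Matrix (Fin N) (Fin N) R) : Matrix (Fin N) (Fin N) R := (Jm R N)ᵀ * Xᵀ * Jm R N

theorem st_apply (X : Matrix (Fin N) (Fin N) R) (i j : Fin N) :
    st X i j = (-1) ^ ((i : ℕ) + (j : ℕ)) * X (Fin.rev j) (Fin.rev i) := star_apply X i j

theorem st_mul (X Y : Matrix (Fin N) (Fin N) R) : st (X * Y) = st Y * st X := by
  have h := Jm_mul_transpose (R := R) (N := N)
  simp only [st, Matrix.transpose_mul]
  calc (Jm R N)ᵀ * (Yᵀ * Xᵀ) * Jm R N = (Jm R N)ᵀ * Yᵀ * 1 * Xᵀ * Jm R N := by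
        simp only [Matrix.mul_one, Matrix.mul_assoc]
    _ = _ := by rw [← h]; simp only [Matrix.mul_assoc]

theorem st_st (X : Matrix (Fin N) (Fin N) R) : st (st X) = X := by
  ext i j
  rw [st_apply, st_apply, Fin.rev_rev, Fin.rev_rev, pow_add, pow_add, neg_one_pow_rev,
    neg_one_pow_rev]
  have h1 : ((-1 : R) ^ (N + 1)) * (-1) ^ (N + 1) = 1 := by
    rw [← pow_add, ← two_mul, pow_mul]; simp
  have h2 : ((-1 : R) ^ (i : ℕ)) * (-1) ^ (i : ℕ) = 1 := by
    rw [← pow_add, ← two_mul, pow_mul]; simp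
  have h3 : ((-1 : R) ^ (j : ℕ)) * (-1) ^ (j : ℕ) = 1 := by
    rw [← pow_add, ← two_mul, pow_mul]; simp
  linear_combination (X i j) * h1 + (X i j) * ((-1 : R) ^ (N + 1)) * (-1) ^ (N + 1) * h2 +
    (X i j) * ((-1 : R) ^ (N + 1)) * (-1) ^ (N + 1) * ((-1 : R) ^ (i : ℕ)) * (-1) ^ (i : ℕ) * h3

theorem st_one : st (1 : Matrix (Fin N) (Fin N) R) = 1 := by
  simp [st, Jm_transpose_mul]

theorem st_add (X Y : Matrix (Fin N) (Fin N) R) : st (X + Y) = st X + st Y := by
  simp [st, Matrix.mul_add, Matrix.add_mul]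

theorem st_sub (X Y : Matrix (Fin N) (Fin N) R) : st (X - Y) = st X - st Y := by
  simp [st, Matrix.mul_sub, Matrix.sub_mul]

theorem st_neg (X : Matrix (Fin N) (Fin N) R) : st (-X) = - st X := by
  simp [st]

theorem st_smul (c : R) (X : Matrix (Fin N) (Fin N) R) : st (c • X) = c • st X := by
  simp [st]

theorem isLie_iff (X : Matrix (Fin N) (Fin N) R) :
    IsLie X ↔ (Jm R N)ᵀ * Xᵀ * Jm R N = - X := by
  have h1 := Jm_transpose_mul (R := R) (N := N)
  have h2 := Jm_mul_transpose (R := R) (N := N)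
  constructor
  · intro h
    have : (Jm R N)ᵀ * (Xᵀ * Jm R N + Jm R N * X) = 0 := by rw [h, Matrix.mul_zero]
    rw [Matrix.mul_add, ← Matrix.mul_assoc, ← Matrix.mul_assoc, h1, Matrix.one_mul] at this
    exact eq_neg_of_add_eq_zero_left this
  · intro h
    have : Jm R N * ((Jm R N)ᵀ * Xᵀ * Jm R N) = Jm R N * (-X) := by rw [h]
    rw [← Matrix.mul_assoc, ← Matrix.mul_assoc, h2, Matrix.one_mul, Matrix.mul_neg] at this
    unfold IsLie
    rw [this]; simp

theorem isLie_iff_st (X : Matrix (Fin N) (Fin N) R) : IsLie X ↔ st X = - X := isLie_iff X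

theorem isG_iff_st (g : Matrix (Fin N) (Fin N) R) :
    IsG g ↔ st g * g = 1 ∧ (Odd N → g.det = 1) := by
  have h1 := Jm_transpose_mul (R := R) (N := N)
  have h2 := Jm_mul_transpose (R := R) (N := N)
  unfold IsG st
  refine and_congr_left fun _ => ⟨fun h => ?_, fun h => ?_⟩
  · calc (Jm R N)ᵀ * gᵀ * Jm R N * g = (Jm R N)ᵀ * (gᵀ * Jm R N * g) := by
          simp only [Matrix.mul_assoc]
      _ = 1 := by rw [h, h1]
  · calc gᵀ * Jm R N * g = (Jm R N * (Jm R N)ᵀ) * (gᵀ * Jm R N * g) := by rw [h2, Matrix.one_mul]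
      _ = Jm R N * ((Jm R N)ᵀ * gᵀ * Jm R N * g) := by simp only [Matrix.mul_assoc]
      _ = Jm R N := by rw [h, Matrix.mul_one]

theorem isG_one : IsG (1 : Matrix (Fin N) (Fin N) R) := by
  rw [isG_iff_st]; simp [st_one]

theorem st_det (g : Matrix (Fin N) (Fin N) R) : (st g).det = g.det := by
  unfold st
  rw [Matrix.det_mul, Matrix.det_mul, Matrix.det_transpose, Matrix.det_transpose]
  have h : (Jm R N).det * (Jm R N).det = 1 := by
    have := congrArg Matrix.det (Jm_mul_transpose (R := R) (N := N))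
    rwa [Matrix.det_mul, Matrix.det_transpose, Matrix.det_one] at this
  linear_combination g.det * h

theorem IsG.isUnit_det {g : Matrix (Fin N) (Fin N) R} (hg : IsG g) : IsUnit g.det := by
  have h := ((isG_iff_st g).1 hg).1
  have h' := congrArg Matrix.det h
  rw [Matrix.det_mul, Matrix.det_one, st_det] at h'
  exact IsUnit.of_mul_eq_one _ h'

theorem IsG.inv_eq {g : Matrix (Fin N) (Fin N) R} (hg : IsG g) :
    g⁻¹ = (Jm R N)ᵀ * gᵀ * Jm R N :=
  Matrix.inv_eq_left_inv ((isG_iff_st g).1 hg).1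

theorem IsG.st_mul_self {g : Matrix (Fin N) (Fin N) R} (hg : IsG g) : st g * g = 1 :=
  ((isG_iff_st g).1 hg).1

theorem IsG.self_mul_st {g : Matrix (Fin N) (Fin N) R} (hg : IsG g) : g * st g = 1 :=
  mul_eq_one_comm.mp hg.st_mul_self

theorem IsG.inv_eq_st {g : Matrix (Fin N) (Fin N) R} (hg : IsG g) : g⁻¹ = st g :=
  Matrix.inv_eq_left_inv ((isG_iff_st g).1 hg).1

theorem IsG.inv_mul {g : Matrix (Fin N) (Fin N) R} (hg : IsG g) : g⁻¹ * g = 1 := by
  rw [hg.inv_eq_st, hg.st_mul_self]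

theorem IsG.mul_inv {g : Matrix (Fin N) (Fin N) R} (hg : IsG g) : g * g⁻¹ = 1 := by
  rw [hg.inv_eq_st, hg.self_mul_st]

theorem IsG.mul {g h : Matrix (Fin N) (Fin N) R} (hg : IsG g) (hh : IsG h) : IsG (g * h) := by
  rw [isG_iff_st]
  refine ⟨?_, fun hN => ?_⟩
  · rw [st_mul]
    calc st h * st g * (g * h) = st h * (st g * g) * h := by simp only [Matrix.mul_assoc]
      _ = 1 := by rw [hg.st_mul_self, Matrix.mul_one, hh.st_mul_self]
  · rw [Matrix.det_mul, hg.2 hN, hh.2 hN, mul_one]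

theorem IsG.inv {g : Matrix (Fin N) (Fin N) R} (hg : IsG g) : IsG g⁻¹ := by
  rw [isG_iff_st, hg.inv_eq_st, st_st]
  refine ⟨hg.self_mul_st, fun hN => ?_⟩
  rw [st_det, hg.2 hN]

theorem Jm_map {S : Type*} [CommRing S] (φ : R →+* S) : (Jm R N).map φ = Jm S N := by
  ext i j
  simp only [Matrix.map_apply, Jm_apply]
  split_ifs <;> simp

theorem em_map {S : Type*} [CommRing S] (φ : R →+* S) : (em R N).map φ = em S N := by
  ext i j
  simp only [Matrix.map_apply, em, Matrix.of_apply]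
  split_ifs <;> simp

theorem xx_map {S : Type*} [CommRing S] (φ : R →+* S) (x : Fin (N / 2) → R) (i : Fin N) :
    φ (xx x i) = xx (fun k => φ (x k)) i := by
  simp [xx]

theorem Dx_map {S : Type*} [CommRing S] (φ : R →+* S) (x : Fin (N / 2) → R) :
    (Dx x : Matrix (Fin N) (Fin N) R).map φ = Dx (fun k => φ (x k)) := by
  unfold Dx
  rw [Matrix.diagonal_map (map_zero φ)]
  congr 1
  funext i
  exact xx_map φ x i

theorem IsG.map {S : Type*} [CommRing S] (φ : R →+* S) {g : Matrix (Fin N) (Fin N) R}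
    (hg : IsG g) : IsG (g.map φ) := by
  refine ⟨?_, fun hN => ?_⟩
  · have := congrArg (fun M : Matrix (Fin N) (Fin N) R => M.map φ) hg.1
    simp only [Matrix.map_mul, Jm_map] at this
    rw [Matrix.transpose_map] at this
    exact this
  · have h := hg.2 hN
    have h' := (RingHom.map_det φ g).symm
    rw [h, map_one] at h'
    exact h'

theorem IsLie.map {S : Type*} [CommRing S] (φ : R →+* S) {g : Matrix (Fin N) (Fin N) R}
    (hg : IsLie g) : IsLie (g.map φ) := by
  have := congrArg (fun M : Matrix (Fin N) (Fin N) R => M.map φ) hg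
  simp only [Matrix.map_add φ (map_add φ), Matrix.map_mul, Jm_map, Matrix.map_zero φ (map_zero φ)] at this
  rw [Matrix.transpose_map] at this
  exact this

theorem IsLie.add {X Y : Matrix (Fin N) (Fin N) R} (hX : IsLie X) (hY : IsLie Y) :
    IsLie (X + Y) := by
  rw [isLie_iff_st] at *
  rw [st_add, hX, hY]; abel

theorem IsLie.sub {X Y : Matrix (Fin N) (Fin N) R} (hX : IsLie X) (hY : IsLie Y) :
    IsLie (X - Y) := by
  rw [isLie_iff_st] at *
  rw [st_sub, hX, hY]; abel

theorem IsLie.conj {g X : Matrix (Fin N) (Fin N) R} (hg : IsG g) (hX : IsLie X) :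
    IsLie (g * X * g⁻¹) := by
  rw [isLie_iff_st] at *
  rw [hg.inv_eq_st, st_mul, st_mul, st_st, hX]
  simp only [Matrix.mul_neg, Matrix.neg_mul, Matrix.mul_assoc]

theorem isLie_em : IsLie (em R N) := by
  rw [isLie_iff_st]
  ext i j
  rw [st_apply, Matrix.neg_apply]
  simp only [em, Matrix.of_apply, Fin.val_rev]
  have hi := i.2
  have hj := j.2
  by_cases h : (j : ℕ) = (i : ℕ) + 1
  · have h' : N - ((i : ℕ) + 1) = N - ((j : ℕ) + 1) + 1 := by omega
    rw [if_pos h', if_pos h, h]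
    have : (i : ℕ) + (i + 1) = 2 * i + 1 := by ring
    rw [this, pow_succ, pow_mul]
    simp
  · have h' : ¬ (N - ((i : ℕ) + 1) = N - ((j : ℕ) + 1) + 1) := by omega
    rw [if_neg h', if_neg h]
    simp

theorem wt_rev (i : Fin N) : wt N (Fin.rev i) = - wt N i := by
  funext k
  simp [wt, Fin.rev_rev]

theorem xx_rev (x : Fin (N / 2) → R) (i : Fin N) : xx x (Fin.rev i) = - xx x i := by
  simp [xx, wt_rev, Finset.sum_neg_distrib]

theorem st_diagonal (d : Fin N → R) :
    st (Matrix.diagonal d) = Matrix.diagonal (fun i => d (Fin.rev i)) := by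
  ext i j
  rw [st_apply, Matrix.diagonal_apply, Matrix.diagonal_apply]
  by_cases h : i = j
  · subst h
    simp [← two_mul, pow_mul]
  · have : Fin.rev j ≠ Fin.rev i := fun h' => h (Fin.rev_injective h').symm
    simp [h, this]

theorem isLie_Dx (x : Fin (N / 2) → R) : IsLie (Dx x : Matrix (Fin N) (Fin N) R) := by
  rw [isLie_iff_st, Dx, st_diagonal]
  ext i j
  rw [Matrix.neg_apply, Matrix.diagonal_apply, Matrix.diagonal_apply]
  split_ifs
  · exact xx_rev x i
  · simp

theorem chi_neg {n : ℕ} {M : Type*} [CommGroup M] (μ : Fin n → ℤ) (t : Fin n → M) :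
    chi (-μ) t = (chi μ t)⁻¹ := by
  simp [chi, Finset.prod_inv_distrib]

theorem chi_add {n : ℕ} {M : Type*} [CommGroup M] (μ ν : Fin n → ℤ) (t : Fin n → M) :
    chi (μ + ν) t = chi μ t * chi ν t := by
  simp [chi, _root_.zpow_add, Finset.prod_mul_distrib]

theorem chi_zero {n : ℕ} {M : Type*} [CommGroup M] (t : Fin n → M) :
    chi (0 : Fin n → ℤ) t = 1 := by
  simp [chi]

theorem chi_mul {n : ℕ} {M : Type*} [CommGroup M] (μ : Fin n → ℤ) (t t' : Fin n → M) :
    chi μ (t * t') = chi μ t * chi μ t' := by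
  simp [chi, mul_zpow, Finset.prod_mul_distrib]

theorem chi_one {n : ℕ} {M : Type*} [CommGroup M] (μ : Fin n → ℤ) :
    chi μ (1 : Fin n → M) = 1 := by
  simp [chi]

theorem chi_inv {n : ℕ} {M : Type*} [CommGroup M] (μ : Fin n → ℤ) (t : Fin n → M) :
    chi μ t⁻¹ = (chi μ t)⁻¹ := by
  simp [chi, Finset.prod_inv_distrib]

theorem chi_pow {n : ℕ} {M : Type*} [CommGroup M] (μ : Fin n → ℤ) (t : Fin n → M) (j : ℕ) :
    chi μ (t ^ j) = chi μ t ^ j := by
  induction j with
  | zero => simp [chi_one]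
  | succ j ih => rw [pow_succ, chi_mul, ih, pow_succ]

theorem chi_map {n : ℕ} {M M' : Type*} [CommGroup M] [CommGroup M'] (φ : M →* M')
    (μ : Fin n → ℤ) (t : Fin n → M) : φ (chi μ t) = chi μ (fun k => φ (t k)) := by
  simp [chi, map_prod, map_zpow]

theorem Tt_mul (t t' : Fin (N / 2) → Rˣ) :
    (Tt (t * t') : Matrix (Fin N) (Fin N) R) = Tt t * Tt t' := by
  simp only [Tt, Matrix.diagonal_mul_diagonal, chi_mul, Units.val_mul]

theorem Tt_one : (Tt (1 : Fin (N / 2) → Rˣ) : Matrix (Fin N) (Fin N) R) = 1 := by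
  simp [Tt, chi_one]

theorem det_Tt (t : Fin (N / 2) → Rˣ) : (Tt t : Matrix (Fin N) (Fin N) R).det = 1 := by
  rw [Tt, Matrix.det_diagonal, ← Units.coe_prod]
  have h : ∏ i : Fin N, chi (wt N i) t = 1 := by
    have h1 : (∏ i : Fin N, chi (wt N i) t) = chi (∑ i : Fin N, wt N i) t := by
      classical
      induction (Finset.univ : Finset (Fin N)) using Finset.induction_on with
      | empty => simp [chi_zero]
      | insert a s ha ih => rw [Finset.prod_insert ha, Finset.sum_insert ha, chi_add, ih]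
    rw [h1]
    have h2 : (∑ i : Fin N, wt N i) = 0 := by
      funext k
      simp only [Finset.sum_apply, wt, Finset.sum_sub_distrib, Pi.zero_apply]
      have : ∑ x : Fin N, (if ((Fin.rev x : Fin N) : ℕ) = (k : ℕ) then (1 : ℤ) else 0) =
          ∑ x : Fin N, (if ((x : Fin N) : ℕ) = (k : ℕ) then (1 : ℤ) else 0) :=
        Equiv.sum_comp Fin.revPerm (fun x : Fin N => if ((x : Fin N) : ℕ) = (k : ℕ) then (1 : ℤ) else 0)
      rw [this, sub_self]
    rw [h2, chi_zero]
  rw [h, Units.val_one]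

theorem isG_Tt (t : Fin (N / 2) → Rˣ) : IsG (Tt t : Matrix (Fin N) (Fin N) R) := by
  rw [isG_iff_st]
  refine ⟨?_, fun _ => det_Tt t⟩
  rw [Tt, st_diagonal, Matrix.diagonal_mul_diagonal, ← Matrix.diagonal_one]
  congr 1
  funext i
  rw [wt_rev, chi_neg]
  simp

theorem LowUni.det {u : Matrix (Fin N) (Fin N) R} (hu : LowUni u) : u.det = 1 := by
  rw [Matrix.det_of_isLowerTriangular u (fun i j h => hu.1 i j h)]
  simp [hu.2]

theorem UpUni.det {u : Matrix (Fin N) (Fin N) R} (hu : UpUni u) : u.det = 1 := by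
  rw [Matrix.det_of_isUpperTriangular (M := u) (fun i j h => hu.1 i j h)]
  simp [hu.2]

theorem UpUni.mul {u v : Matrix (Fin N) (Fin N) R} (hu : UpUni u) (hv : UpUni v) :
    UpUni (u * v) := by
  constructor
  · intro i j hij
    rw [Matrix.mul_apply]
    refine Finset.sum_eq_zero fun k _ => ?_
    by_cases h : k < i
    · rw [hu.1 i k h, zero_mul]
    · rw [hv.1 k j (lt_of_lt_of_le hij (not_lt.1 h)), mul_zero]
  · intro i
    rw [Matrix.mul_apply, Finset.sum_eq_single i]
    · rw [hu.2, hv.2, mul_one]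
    · intro k _ hk
      rcases lt_or_gt_of_ne hk with h | h
      · rw [hu.1 i k h, zero_mul]
      · rw [hv.1 k i h, mul_zero]
    · simp

theorem LowUni.transpose {u : Matrix (Fin N) (Fin N) R} (hu : LowUni u) : UpUni uᵀ :=
  ⟨fun i j h => hu.1 j i h, fun i => hu.2 i⟩

theorem UpUni.transpose {u : Matrix (Fin N) (Fin N) R} (hu : UpUni u) : LowUni uᵀ :=
  ⟨fun i j h => hu.1 j i h, fun i => hu.2 i⟩

theorem LowUni.mul {u v : Matrix (Fin N) (Fin N) R} (hu : LowUni u) (hv : LowUni v) :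
    LowUni (u * v) := by
  have := (hv.transpose.mul hu.transpose).transpose
  rwa [← Matrix.transpose_mul, Matrix.transpose_transpose] at this

theorem UpUni.inv {u : Matrix (Fin N) (Fin N) R} (hu : UpUni u) : UpUni u⁻¹ := by
  have hdet : IsUnit u.det := by rw [hu.det]; exact isUnit_one
  have h1 : u * u⁻¹ = 1 := Matrix.mul_nonsing_inv u hdet
  -- rows from the bottom
  have key : ∀ d : ℕ, ∀ i : Fin N, N - 1 - (i : ℕ) ≤ d → (∀ j, j < i → u⁻¹ i j = 0) ∧ u⁻¹ i i = 1 := by
    intro d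
    induction d with
    | zero =>
      intro i hi
      have hrow : ∀ j, (u * u⁻¹) i j = u⁻¹ i j := by
        intro j
        rw [Matrix.mul_apply, Finset.sum_eq_single i]
        · rw [hu.2, one_mul]
        · intro k _ hk
          have : k < i := by
            rcases lt_or_gt_of_ne hk with h | h
            · exact h
            · exfalso
              have h' : (i : ℕ) < (k : ℕ) := h
              have := k.2
              omega
          rw [hu.1 i k this, zero_mul]
        · simp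
      refine ⟨fun j hj => ?_, ?_⟩
      · rw [← hrow j, h1, Matrix.one_apply_ne (ne_of_gt hj)]
      · rw [← hrow i, h1, Matrix.one_apply_eq]
    | succ d ih =>
      intro i hi
      have hrow : ∀ j, j ≤ i → (u * u⁻¹) i j = u⁻¹ i j := by
        intro j hj
        rw [Matrix.mul_apply, Finset.sum_eq_single i]
        · rw [hu.2, one_mul]
        · intro k _ hk
          rcases lt_or_gt_of_ne hk with h | h
          · rw [hu.1 i k h, zero_mul]
          · have h' : (i : ℕ) < (k : ℕ) := h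
            rw [(ih k (by omega)).1 j (lt_of_le_of_lt hj h), mul_zero]
        · simp
      refine ⟨fun j hj => ?_, ?_⟩
      · rw [← hrow j hj.le, h1, Matrix.one_apply_ne (ne_of_gt hj)]
      · rw [← hrow i le_rfl, h1, Matrix.one_apply_eq]
  exact ⟨fun i j h => (key _ i le_rfl).1 j h, fun i => (key _ i le_rfl).2⟩

theorem LowUni.inv {u : Matrix (Fin N) (Fin N) R} (hu : LowUni u) : LowUni u⁻¹ := by
  have := (hu.transpose.inv).transpose
  rwa [Matrix.transpose_nonsing_inv, Matrix.transpose_transpose] at this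

/-- `J`-conjugate transpose of unipotents -/
theorem LowUni.star {u : Matrix (Fin N) (Fin N) R} (hu : LowUni u) :
    LowUni ((Jm R N)ᵀ * uᵀ * Jm R N) := by
  constructor
  · intro i j h
    rw [star_apply, hu.1 _ _ (Fin.rev_lt_rev.2 h), mul_zero]
  · intro i
    rw [star_apply, hu.2, ← two_mul, pow_mul]; simp

theorem UpUni.star {u : Matrix (Fin N) (Fin N) R} (hu : UpUni u) :
    UpUni ((Jm R N)ᵀ * uᵀ * Jm R N) := by
  constructor
  · intro i j h
    rw [star_apply, hu.1 _ _ (Fin.rev_lt_rev.2 h), mul_zero]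
  · intro i
    rw [star_apply, hu.2, ← two_mul, pow_mul]; simp

theorem LowUni.mul_inv {u : Matrix (Fin N) (Fin N) R} (hu : LowUni u) : u * u⁻¹ = 1 :=
  Matrix.mul_nonsing_inv u (by rw [hu.det]; exact isUnit_one)

theorem LowUni.inv_mul {u : Matrix (Fin N) (Fin N) R} (hu : LowUni u) : u⁻¹ * u = 1 :=
  Matrix.nonsing_inv_mul u (by rw [hu.det]; exact isUnit_one)

theorem UpUni.mul_inv {u : Matrix (Fin N) (Fin N) R} (hu : UpUni u) : u * u⁻¹ = 1 :=
  Matrix.mul_nonsing_inv u (by rw [hu.det]; exact isUnit_one)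

theorem UpUni.inv_mul {u : Matrix (Fin N) (Fin N) R} (hu : UpUni u) : u⁻¹ * u = 1 :=
  Matrix.nonsing_inv_mul u (by rw [hu.det]; exact isUnit_one)

theorem UpUni.one : UpUni (1 : Matrix (Fin N) (Fin N) R) :=
  ⟨fun i j h => Matrix.one_apply_ne (ne_of_gt h), fun i => Matrix.one_apply_eq i⟩

theorem LowUni.one : LowUni (1 : Matrix (Fin N) (Fin N) R) :=
  ⟨fun i j h => Matrix.one_apply_ne (ne_of_lt h), fun i => Matrix.one_apply_eq i⟩

theorem Yp_upper [Algebra ℂ R] (Z : Matrix (Fin N) (Fin N) R) :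
    ∀ i j, j ≤ i → Yp Z i j = 0 := by
  intro i j h
  simp [Yp, not_lt.2 h]

theorem isLie_Yp [Algebra ℂ R] (Z : Matrix (Fin N) (Fin N) R) : IsLie (Yp Z) := by
  rw [isLie_iff_st]
  ext i j
  rw [st_apply, Matrix.neg_apply]
  simp only [Yp, Matrix.of_apply, Fin.rev_rev]
  by_cases h : i < j
  · have h' : Fin.rev j < Fin.rev i := Fin.rev_lt_rev.2 h
    rw [if_pos h, if_pos h']
    have h1 : ((-1 : R) ^ ((i : ℕ) + (j : ℕ))) * (-1) ^ (((Fin.rev j : Fin N) : ℕ) + ((Fin.rev i : Fin N) : ℕ)) = 1 := by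
      rw [← pow_add]
      have hi := i.2
      have hj := j.2
      have : ((i : ℕ) + (j : ℕ)) + (((Fin.rev j : Fin N) : ℕ) + ((Fin.rev i : Fin N) : ℕ)) = 2 * (N - 1) := by
        rw [Fin.val_rev, Fin.val_rev]; omega
      rw [this, pow_mul]; simp
    rw [mul_smul_comm, ← smul_neg]
    congr 1
    linear_combination (- Z i j) * h1
  · have h' : ¬ Fin.rev j < Fin.rev i := fun h'' => h (Fin.rev_lt_rev.1 h'')
    rw [if_neg h, if_neg h']
    simp

/-- an upper triangular element of the Lie algebra is its diagonal part plus `Yp` -/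
theorem IsLie.eq_diag_add_Yp [Algebra ℂ R] {M : Matrix (Fin N) (Fin N) R} (hM : IsLie M)
    (hu : ∀ i j, j < i → M i j = 0) : M = Matrix.diagonal (fun i => M i i) + Yp M := by
  rw [isLie_iff_st] at hM
  ext i j
  rw [Matrix.add_apply, Matrix.diagonal_apply]
  simp only [Yp, Matrix.of_apply]
  have h := congrFun (congrFun hM i) j
  rw [st_apply, Matrix.neg_apply] at h
  rcases lt_trichotomy i j with hij | hij | hij
  · rw [if_neg hij.ne, if_pos hij, zero_add]
    rw [h, sub_neg_eq_add, ← two_mul]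
    have h2 : (2 : R) = algebraMap ℂ R 2 := (map_ofNat _ 2).symm
    rw [h2, Algebra.smul_def, ← mul_assoc, ← map_mul]
    norm_num
  · subst hij
    simp
  · rw [if_neg (ne_of_gt hij), if_neg (not_lt.2 hij.le), hu i j hij]
    simp

end basic

end Pool.Agent.MP_c45d35_ag
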