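import Mathlib

/-!
# MP_c45d35_ag : definitions

`N` is the size of the matrices.  The group is `Sp_N` for even `N` and `SO_N` for odd `N`,
realised as the isometry group of the antidiagonal form with alternating signs, so that the
standard principal nilpotent `em` (ones on the superdiagonal) lies in the Lie algebra.
-/

namespace Pool.Agent.MP_c45d35_ag

open Matrix

section general

variable (R : Type*) [CommRing R] (N : ℕ)

/-- The bilinear form: `J i j = (-1)^i` if `j = N - 1 - i`, and `0` otherwise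
(antisymmetric for even `N`, symmetric for odd `N`). -/
def Jm : Matrix (Fin N) (Fin N) R :=
  Matrix.of fun i j => if j = Fin.rev i then (-1) ^ (i : ℕ) else 0

/-- The principal nilpotent `e = ∑ E_{i,i+1}`. -/
def em : Matrix (Fin N) (Fin N) R :=
  Matrix.of fun i j => if (j : ℕ) = (i : ℕ) + 1 then 1 else 0

/-- The nilpotent `f = ∑ i (N - i) E_{i,i-1}` of the standard principal `sl_2`-triple. -/
def fm : Matrix (Fin N) (Fin N) R :=
  Matrix.of fun i j => if (i : ℕ) = (j : ℕ) + 1 then (((i : ℕ) * (N - (i : ℕ)) : ℕ) : R) else 0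

end general

section general'

variable {R : Type*} [CommRing R] {N : ℕ}

/-- The group: isometries of `J`, of determinant one when `N` is odd
(`Sp_N` for even `N`, `SO_N` for odd `N`). -/
def IsG (g : Matrix (Fin N) (Fin N) R) : Prop :=
  gᵀ * Jm R N * g = Jm R N ∧ (Odd N → g.det = 1)

/-- The Lie algebra. -/
def IsLie (X : Matrix (Fin N) (Fin N) R) : Prop :=
  Xᵀ * Jm R N + Jm R N * X = 0

/-- Lower unipotent matrices. -/
def LowUni (u : Matrix (Fin N) (Fin N) R) : Prop :=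
  (∀ i j, i < j → u i j = 0) ∧ ∀ i, u i i = 1

/-- Upper unipotent matrices. -/
def UpUni (u : Matrix (Fin N) (Fin N) R) : Prop :=
  (∀ i j, j < i → u i j = 0) ∧ ∀ i, u i i = 1

/-- Hessenberg matrices: ones on the superdiagonal, zeros above it. -/
def IsHess (M : Matrix (Fin N) (Fin N) R) : Prop :=
  (∀ i j : Fin N, (j : ℕ) = (i : ℕ) + 1 → M i j = 1) ∧
    ∀ i j : Fin N, (i : ℕ) + 1 < (j : ℕ) → M i j = 0

end general'

/-- The weight `ε_i` of the `i`-th coordinate: `ε_i` for `i < N/2`, `-ε_{N-1-i}` for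
`N-1-i < N/2`, and `0` for the middle index (`N` odd). -/
def wt (N : ℕ) (i : Fin N) : Fin (N / 2) → ℤ :=
  fun k => (if (i : ℕ) = (k : ℕ) then 1 else 0) - (if ((Fin.rev i : Fin N) : ℕ) = (k : ℕ) then 1 else 0)

/-- The `N` eigenvalues `(x_0, …, x_{n-1}, (0), -x_{n-1}, …, -x_0)`. -/
def xx {R : Type*} [CommRing R] {N : ℕ} (x : Fin (N / 2) → R) (i : Fin N) : R :=
  ∑ k, (wt N i k : R) * x k

/-- The Cartan element with coordinates `x`. -/
def Dx {R : Type*} [CommRing R] {N : ℕ} (x : Fin (N / 2) → R) : Matrix (Fin N) (Fin N) R :=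
  Matrix.diagonal (xx x)

/-- The character `t ↦ ∏ t_k ^ μ_k`. -/
def chi {n : ℕ} {M : Type*} [CommGroup M] (μ : Fin n → ℤ) (t : Fin n → M) : M :=
  ∏ k, t k ^ μ k

/-- The torus element with coordinates `t`: `diag(t_0, …, t_{n-1}, (1), t_{n-1}⁻¹, …, t_0⁻¹)`. -/
def Tt {R : Type*} [CommRing R] {N : ℕ} (t : Fin (N / 2) → Rˣ) : Matrix (Fin N) (Fin N) R :=
  Matrix.diagonal fun i => ((chi (wt N i) t : Rˣ) : R)

/-- The strictly upper triangular part of the projection of `Z` to the Lie algebra. -/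
noncomputable def Yp {R : Type*} [CommRing R] [Algebra ℂ R] {N : ℕ} (Z : Matrix (Fin N) (Fin N) R) :
    Matrix (Fin N) (Fin N) R :=
  Matrix.of fun i j => if i < j then
    ((1 / 2 : ℂ)) • (Z i j - (-1) ^ ((i : ℕ) + (j : ℕ)) * Z (Fin.rev j) (Fin.rev i)) else 0

/-- The Slodowy slice `e + 𝔤_f`. -/
def slice (N : ℕ) : Set (Matrix (Fin N) (Fin N) ℂ) :=
  {s | IsLie s ∧ Commute (s - em ℂ N) (fm ℂ N)}

/-- Index set of the coordinates on `Mat^b × Mat`. -/
abbrev Idx (N b : ℕ) := (Fin b × Fin N × Fin N) ⊕ (Fin N × Fin N)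

/-- Coordinates of a point of `Mat^b × Mat`. -/
def co {R : Type*} {N b : ℕ} (g : Fin b → Matrix (Fin N) (Fin N) R) (s : Matrix (Fin N) (Fin N) R) :
    Idx N b → R :=
  Sum.elim (fun p => g p.1 p.2.1 p.2.2) (fun p => s p.1 p.2)

/-- Points of the group. -/
abbrev GG (N : ℕ) := {g : Matrix (Fin N) (Fin N) ℂ // IsG g}

/-- Regular points of the Cartan subalgebra: all `N` eigenvalues are distinct. -/
def IsRegx {N : ℕ} (x : Fin (N / 2) → ℂ) : Prop := ∀ i j : Fin N, i ≠ j → xx x i ≠ xx x j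

/-- Points of `G^b × S`. -/
abbrev Pt (N b : ℕ) := (Fin b → GG N) × (slice N)

/-- The Moore–Tachikawa ring: regular functions on `G^b × S` that are invariant under
`(g_a) ↦ (g_a h_a)` for all `h_a ∈ Z_G(s)` with `∏ h_a = 1`. -/
def MTring (N b : ℕ) : Subalgebra ℂ (Pt N b → ℂ) where
  carrier := {F | (∃ P : MvPolynomial (Idx N b) ℂ, ∀ y : Pt N b,
      F y = MvPolynomial.eval (co (fun a => (y.1 a).1) y.2.1) P) ∧
    ∀ (y y' : Pt N b) (h : Fin b → Matrix (Fin N) (Fin N) ℂ),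
      (∀ a, IsG (h a) ∧ Commute (h a) y.2.1) → (List.ofFn h).prod = 1 → y'.2 = y.2 →
      (∀ a, (y'.1 a).1 = (y.1 a).1 * h a) → F y' = F y}
  mul_mem' := by
    rintro F F' ⟨⟨P, hP⟩, h1⟩ ⟨⟨P', hP'⟩, h1'⟩
    refine ⟨⟨P * P', fun y => by simp [hP, hP']⟩, fun y y' h hh hp hs hg => ?_⟩
    simp only [Pi.mul_apply]
    rw [h1 y y' h hh hp hs hg, h1' y y' h hh hp hs hg]
  add_mem' := by
    rintro F F' ⟨⟨P, hP⟩, h1⟩ ⟨⟨P', hP'⟩, h1'⟩
    refine ⟨⟨P + P', fun y => by simp [hP, hP']⟩, fun y y' h hh hp hs hg => ?_⟩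
    simp only [Pi.add_apply]
    rw [h1 y y' h hh hp hs hg, h1' y y' h hh hp hs hg]
  algebraMap_mem' := by
    intro r
    exact ⟨⟨MvPolynomial.C r, fun y => by simp [Pi.algebraMap_apply]⟩, fun _ _ _ _ _ _ _ => rfl⟩

/-- The Moore–Tachikawa ring of the adjoint group `G / {±1}` (`PSp_N` for even `N`, and `SO_N`
itself for odd `N`): regular functions on `G^b × S` that are invariant under
`(g_a) ↦ (g_a h_a)` for all `h_a ∈ Z_G(s)` with `∏ h_a = ±1`. -/
def MTringAd (N b : ℕ) : Subalgebra ℂ (Pt N b → ℂ) where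
  carrier := {F | (∃ P : MvPolynomial (Idx N b) ℂ, ∀ y : Pt N b,
      F y = MvPolynomial.eval (co (fun a => (y.1 a).1) y.2.1) P) ∧
    ∀ (y y' : Pt N b) (h : Fin b → Matrix (Fin N) (Fin N) ℂ),
      (∀ a, IsG (h a) ∧ Commute (h a) y.2.1) →
      ((List.ofFn h).prod = 1 ∨ (List.ofFn h).prod = -1) → y'.2 = y.2 →
      (∀ a, (y'.1 a).1 = (y.1 a).1 * h a) → F y' = F y}
  mul_mem' := by
    rintro F F' ⟨⟨P, hP⟩, h1⟩ ⟨⟨P', hP'⟩, h1'⟩
    refine ⟨⟨P * P', fun y => by simp [hP, hP']⟩, fun y y' h hh hp hs hg => ?_⟩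
    simp only [Pi.mul_apply]
    rw [h1 y y' h hh hp hs hg, h1' y y' h hh hp hs hg]
  add_mem' := by
    rintro F F' ⟨⟨P, hP⟩, h1⟩ ⟨⟨P', hP'⟩, h1'⟩
    refine ⟨⟨P + P', fun y => by simp [hP, hP']⟩, fun y y' h hh hp hs hg => ?_⟩
    simp only [Pi.add_apply]
    rw [h1 y y' h hh hp hs hg, h1' y y' h hh hp hs hg]
  algebraMap_mem' := by
    intro r
    exact ⟨⟨MvPolynomial.C r, fun y => by simp [Pi.algebraMap_apply]⟩, fun _ _ _ _ _ _ _ => rfl⟩

/-! ## Auxiliary definitions used in the proof only -/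

/-- The weight `λ(m)` with coordinates `∑_{k ≥ i} m_k` (so `λ(single k 1) = ε_0 + ⋯ + ε_k`). -/
def lam {n : ℕ} (m : Fin n →₀ ℕ) : Fin n → ℤ := fun i => ∑ k, if i ≤ k then (m k : ℤ) else 0

/-- `E_k(x) = ∏_{i < k ≤ j} (x_i - x_j)`, the indices running over all `N` eigenvalues. -/
def Ek {R : Type*} [CommRing R] {N : ℕ} (k : ℕ) (x : Fin (N / 2) → R) : R :=
  ∏ i : Fin N, ∏ j : Fin N, if (i : ℕ) < k ∧ k ≤ (j : ℕ) then xx x i - xx x j else 1

/-- `Eu_m(x) = ∏_k E_{k+1}(x)^{m_k}`. -/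
def Eu {R : Type*} [CommRing R] {N : ℕ} (m : Fin (N / 2) →₀ ℕ) (x : Fin (N / 2) → R) : R :=
  ∏ k : Fin (N / 2), Ek (N := N) ((k : ℕ) + 1) x ^ m k

/-- The polynomials `p_0 = 1`, `p_{i+1} = X p_i - ∑_{l ≤ i} M_{il} p_l`. -/
noncomputable def hp {R : Type*} [CommRing R] {N : ℕ} (M : Matrix (Fin N) (Fin N) R) :
    ℕ → Polynomial R
  | 0 => 1
  | (i + 1) => Polynomial.X * hp M i - ∑ l : Fin (i + 1),
      Polynomial.C (if h : i < N then M ⟨i, h⟩ ⟨l, by omega⟩ else 0) * hp M l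
termination_by i => i
decreasing_by
  · omega
  · exact l.2

/-- Index set of the coordinates on `Mat^b × 𝔱`. -/
abbrev IdxX (N b : ℕ) := (Fin b × Fin N × Fin N) ⊕ Fin (N / 2)

/-- Regular points of the Cartan subalgebra, as a type. -/
abbrev RegX (N : ℕ) := {x : Fin (N / 2) → ℂ // IsRegx (N := N) x}

/-- Points of `G^b × 𝔱^reg`. -/
abbrev XX (N b : ℕ) := (Fin b → GG N) × RegX N

/-- Coordinates of a point of `Mat^b × 𝔱`. -/
def coX {R : Type*} {N b : ℕ} (g : Fin b → Matrix (Fin N) (Fin N) R) (x : Fin (N / 2) → R) :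
    IdxX N b → R :=
  Sum.elim (fun p => g p.1 p.2.1 p.2.2) x

/-- Restriction of polynomials to `G^b × 𝔱^reg`. -/
noncomputable def evX (N b : ℕ) : MvPolynomial (IdxX N b) ℂ →ₐ[ℂ] (XX N b → ℂ) :=
  MvPolynomial.aeval fun i => fun y : XX N b => coX (fun a => (y.1 a).1) y.2.1 i

/-- The algebra of polynomial functions on `G^b × 𝔱^reg`. -/
noncomputable def Gam (N b : ℕ) : Subalgebra ℂ (XX N b → ℂ) := (evX N b).range

/-- The same algebra, as a type with its own instances. -/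
def GamT (N b : ℕ) : Type := ↥(Gam N b)

noncomputable instance (N b : ℕ) : CommRing (GamT N b) := inferInstanceAs (CommRing ↥(Gam N b))

noncomputable instance (N b : ℕ) : Algebra ℂ (GamT N b) := inferInstanceAs (Algebra ℂ ↥(Gam N b))

/-- The underlying function. -/
noncomputable def GamT.fn {N b : ℕ} : GamT N b →ₐ[ℂ] (XX N b → ℂ) := (Gam N b).val

/-- The pole bound property of a function `f` on `G^b × 𝔱^reg` of weight `λ(m)`: on points
`g_a = k_a u_a T(t_a)`, where `u_a` is the upper unipotent matrix conjugating `x` into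
`x + Y(Z_a)`, it is `∏ λ(t_a)` times a polynomial in `(k, Z, x)`. -/
def PB (N b : ℕ) (m : Fin (N / 2) →₀ ℕ) (f : XX N b → ℂ) : Prop :=
  ∃ H : MvPolynomial ((Fin b × Fin N × Fin N) ⊕ IdxX N b) ℂ,
    ∀ (k g : Fin b → GG N) (Z u : Fin b → Matrix (Fin N) (Fin N) ℂ)
      (t : Fin b → Fin (N / 2) → ℂˣ) (x : RegX N),
      (∀ a, UpUni (u a) ∧ u a * Dx x.1 = (Dx x.1 + Yp (Z a)) * u a ∧
        (g a).1 = (k a).1 * u a * Tt (t a)) →
      f (g, x) = ((∏ a, chi (lam m) (t a) : ℂˣ) : ℂ) *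
        MvPolynomial.eval (Sum.elim (fun p => (k p.1).1 p.2.1 p.2.2) (coX Z x.1)) H

end Pool.Agent.MP_c45d35_ag
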