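import Pool.Agent.MP_c45d35_ag.Basic

set_option autoImplicit false

/-! # Block A (HESS): Hessenberg matrices -/

namespace Pool.Agent.MP_c45d35_ag

open Matrix

section hess
variable {R : Type*} [CommRing R] {N : ℕ}

theorem hp_zero (M : Matrix (Fin N) (Fin N) R) : hp M 0 = 1 := by
  rw [hp]

theorem hp_succ (M : Matrix (Fin N) (Fin N) R) (i : ℕ) :
    hp M (i + 1) = Polynomial.X * hp M i - ∑ l : Fin (i + 1),
      Polynomial.C (if h : i < N then M ⟨i, h⟩ ⟨l, by omega⟩ else 0) * hp M l := by
  rw [hp]

/-- The recursion for `i < N`. -/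
theorem hp_succ' (M : Matrix (Fin N) (Fin N) R) (i : ℕ) (hi : i < N) :
    hp M (i + 1) = Polynomial.X * hp M i - ∑ l : Fin (i + 1),
      Polynomial.C (M ⟨i, hi⟩ ⟨l, by omega⟩) * hp M l := by
  rw [hp_succ]
  simp only [dif_pos hi]

theorem hp_monic_natDegree [Nontrivial R] (M : Matrix (Fin N) (Fin N) R) (i : ℕ) :
    (hp M i).Monic ∧ (hp M i).natDegree = i := by
  induction i using Nat.strong_induction_on with
  | _ i ih =>
  cases i with
  | zero =>
    rw [hp_zero]
    exact ⟨Polynomial.monic_one, Polynomial.natDegree_one⟩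
  | succ i =>
    obtain ⟨h1, h2⟩ := ih i (Nat.lt_succ_self i)
    have hX : (Polynomial.X * hp M i).Monic := Polynomial.monic_X.mul h1
    have hXd : (Polynomial.X * hp M i).natDegree = i + 1 := by
      rw [Polynomial.monic_X.natDegree_mul h1, Polynomial.natDegree_X, h2, add_comm]
    have hs : (∑ l : Fin (i + 1), Polynomial.C (if h : i < N then M ⟨i, h⟩ ⟨l, by omega⟩ else 0) *
        hp M l).natDegree < i + 1 := by
      refine lt_of_le_of_lt (Polynomial.natDegree_sum_le_of_forall_le _ _ (n := i) ?_)
        (Nat.lt_succ_self i)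
      intro l _
      refine (Polynomial.natDegree_C_mul_le _ _).trans ?_
      rw [(ih l l.2).2]
      have := l.2
      omega
    rw [hp_succ]
    constructor
    · apply hX.sub_of_left
      apply Polynomial.degree_lt_degree
      rw [hXd]
      exact hs
    · rw [Polynomial.natDegree_sub_eq_left_of_natDegree_lt, hXd]
      rw [hXd]
      exact hs

theorem hp_natDegree [Nontrivial R] (M : Matrix (Fin N) (Fin N) R) (i : ℕ) :
    (hp M i).natDegree = i := (hp_monic_natDegree M i).2

theorem hp_monic (M : Matrix (Fin N) (Fin N) R) (i : ℕ) : (hp M i).Monic := by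
  rcases subsingleton_or_nontrivial R with h | h
  · exact Polynomial.monic_of_subsingleton _
  · exact (hp_monic_natDegree M i).1

theorem hp_natDegree_le (M : Matrix (Fin N) (Fin N) R) (i : ℕ) :
    (hp M i).natDegree ≤ i := by
  rcases subsingleton_or_nontrivial R with h | h
  · rw [Polynomial.natDegree_of_subsingleton]
    exact Nat.zero_le _
  · exact (hp_natDegree M i).le

theorem hp_coeff_self (M : Matrix (Fin N) (Fin N) R) (i : ℕ) : (hp M i).coeff i = 1 := by
  rcases subsingleton_or_nontrivial R with h | h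
  · exact Subsingleton.elim _ _
  · have h1 := hp_monic M i
    rw [Polynomial.Monic, Polynomial.leadingCoeff, hp_natDegree] at h1
    exact h1

theorem hp_coeff_of_lt (M : Matrix (Fin N) (Fin N) R) {i m : ℕ} (h : i < m) :
    (hp M i).coeff m = 0 :=
  Polynomial.coeff_eq_zero_of_natDegree_lt (lt_of_le_of_lt (hp_natDegree_le M i) h)

theorem hp_map {S : Type*} [CommRing S] (φ : R →+* S) (M : Matrix (Fin N) (Fin N) R) (i : ℕ) :
    hp (M.map φ) i = (hp M i).map φ := by
  induction i using Nat.strong_induction_on with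
  | _ i ih =>
  cases i with
  | zero => rw [hp_zero, hp_zero, Polynomial.map_one]
  | succ i =>
    rw [hp_succ, hp_succ, Polynomial.map_sub, Polynomial.map_mul, Polynomial.map_X,
      Polynomial.map_sum, ih i (Nat.lt_succ_self i)]
    congr 1
    refine Finset.sum_congr rfl fun l _ => ?_
    rw [Polynomial.map_mul, Polynomial.map_C, ih l l.2]
    congr 2
    split_ifs with h
    · rfl
    · rw [map_zero]

/-- Splitting of the sum in row `i` of a Hessenberg matrix. -/
theorem hess_sum {M : Matrix (Fin N) (Fin N) R} (hM : IsHess M) (i : Fin N) (f : Fin N → R) :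
    ∑ l, M i l * f l = (∑ l : Fin ((i : ℕ) + 1), M i ⟨l, by omega⟩ * f ⟨l, by omega⟩) +
      (if h : (i : ℕ) + 1 < N then f ⟨(i : ℕ) + 1, h⟩ else 0) := by
  classical
  rw [← Finset.sum_filter_add_sum_filter_not Finset.univ (fun l : Fin N => (l : ℕ) < (i : ℕ) + 1)]
  congr 1
  · symm
    refine Finset.sum_bij (fun (l : Fin ((i : ℕ) + 1)) _ => (⟨l, by omega⟩ : Fin N)) ?_ ?_ ?_ ?_
    · intro l _
      simp only [Finset.mem_filter, Finset.mem_univ, true_and]
      exact l.2
    · intro l _ l' _ h
      have := congrArg Fin.val h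
      exact Fin.ext this
    · intro l hl
      simp only [Finset.mem_filter, Finset.mem_univ, true_and] at hl
      exact ⟨⟨l, hl⟩, Finset.mem_univ _, rfl⟩
    · intro l _
      rfl
  · split_ifs with h
    · rw [Finset.sum_eq_single (⟨(i : ℕ) + 1, h⟩ : Fin N)]
      · rw [hM.1 i _ rfl, one_mul]
      · intro l hl hne
        simp only [Finset.mem_filter, Finset.mem_univ, true_and, not_lt] at hl
        have hne' : (l : ℕ) ≠ (i : ℕ) + 1 := fun h' => hne (Fin.ext h')
        rw [hM.2 i l (by omega), zero_mul]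
      · intro h'
        exfalso
        apply h'
        simp only [Finset.mem_filter, Finset.mem_univ, true_and, not_lt]
        exact le_rfl
    · apply Finset.sum_eq_zero
      intro l hl
      simp only [Finset.mem_filter, Finset.mem_univ, true_and, not_lt] at hl
      have := l.2
      omega

/-- Powers of Hessenberg matrices. -/
theorem hess_pow {M : Matrix (Fin N) (Fin N) R} (hM : IsHess M) (m : ℕ) (i j : Fin N) :
    ((i : ℕ) + m < (j : ℕ) → (M ^ m) i j = 0) ∧ ((j : ℕ) = (i : ℕ) + m → (M ^ m) i j = 1) := by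
  induction m generalizing j with
  | zero =>
    constructor
    · intro h
      rw [pow_zero, Matrix.one_apply, if_neg]
      intro h'
      rw [h'] at h
      omega
    · intro h
      rw [pow_zero, Matrix.one_apply, if_pos]
      exact (Fin.ext (by omega)).symm
  | succ m ih =>
    constructor
    · intro h
      rw [pow_succ, Matrix.mul_apply]
      apply Finset.sum_eq_zero
      intro k _
      by_cases hk : (i : ℕ) + m < (k : ℕ)
      · rw [(ih k).1 hk, zero_mul]
      · rw [hM.2 k j (by omega), mul_zero]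
    · intro h
      rw [pow_succ, Matrix.mul_apply]
      have hlt : (i : ℕ) + m < N := by
        have := j.2
        omega
      rw [Finset.sum_eq_single (⟨(i : ℕ) + m, hlt⟩ : Fin N)]
      · rw [(ih _).2 rfl, hM.1 _ _ (by simp only; omega), one_mul]
      · intro k _ hne
        have hne' : (k : ℕ) ≠ (i : ℕ) + m := fun h' => hne (Fin.ext h')
        by_cases hk : (i : ℕ) + m < (k : ℕ)
        · rw [(ih k).1 hk, zero_mul]
        · rw [hM.2 k j (by omega), mul_zero]
      · intro h'
        exact absurd (Finset.mem_univ _) h'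

theorem aeval_entry (M : Matrix (Fin N) (Fin N) R) (Q : Polynomial R) (i j : Fin N) :
    (Polynomial.aeval M Q) i j = ∑ m ∈ Finset.range (Q.natDegree + 1), Q.coeff m * (M ^ m) i j := by
  rw [Polynomial.aeval_eq_sum_range, Matrix.sum_apply]
  refine Finset.sum_congr rfl fun m _ => ?_
  rw [Matrix.smul_apply, smul_eq_mul]

/-- Entries of `Q(M)` in row `0`, for `Q` of degree at most `d`. -/
theorem hess_aeval_entry {M : Matrix (Fin N) (Fin N) R} (hM : IsHess M) (Q : Polynomial R)
    (z j : Fin N) (hz : (z : ℕ) = 0) (hd : Q.natDegree ≤ (j : ℕ)) :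
    (Polynomial.aeval M Q) z j = Q.coeff j := by
  rw [aeval_entry]
  by_cases h : Q.natDegree = (j : ℕ)
  · rw [Finset.sum_eq_single (j : ℕ)]
    · rw [(hess_pow hM j z j).2 (by omega), mul_one]
    · intro m hm hne
      rw [Finset.mem_range] at hm
      rw [(hess_pow hM m z j).1 (by omega), mul_zero]
    · intro h'
      exfalso
      apply h'
      rw [Finset.mem_range]
      omega
  · rw [Polynomial.coeff_eq_zero_of_natDegree_lt (by omega)]
    apply Finset.sum_eq_zero
    intro m hm
    rw [Finset.mem_range] at hm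
    rw [(hess_pow hM m z j).1 (by omega), mul_zero]

/-- A polynomial of degree less than `N` is determined by the first row of `Q(M)`. -/
theorem hess_row_inj {M : Matrix (Fin N) (Fin N) R} (hM : IsHess M) (Q : Polynomial R)
    (z : Fin N) (hz : (z : ℕ) = 0) (hd : Q.natDegree < N)
    (h : ∀ j, (Polynomial.aeval M Q) z j = 0) : Q = 0 := by
  have h1 := hess_aeval_entry hM Q z ⟨Q.natDegree, hd⟩ hz le_rfl
  rw [h] at h1
  exact Polynomial.leadingCoeff_eq_zero.1 h1.symm

theorem hp_row_le {M : Matrix (Fin N) (Fin N) R} (hM : IsHess M) (z : Fin N)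
    (hz : (z : ℕ) = 0) (i : ℕ) (hi : i ≤ N) (j : Fin N) :
    (Polynomial.aeval M (hp M i)) z j = if (j : ℕ) = i then 1 else 0 := by
  induction i using Nat.strong_induction_on generalizing j with
  | _ i ih =>
  cases i with
  | zero =>
    rw [hp_zero, map_one, Matrix.one_apply]
    by_cases h : z = j
    · rw [if_pos h, if_pos (by rw [← h]; exact hz)]
    · rw [if_neg h, if_neg]
      intro h'
      exact h (Fin.ext (by omega))
  | succ i =>
    have hiN : i < N := hi
    rw [hp_succ' M i hiN, mul_comm, map_sub, map_mul, Polynomial.aeval_X, map_sum,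
      Matrix.sub_apply, Matrix.mul_apply, Matrix.sum_apply]
    have h1 : ∑ k, (Polynomial.aeval M (hp M i)) z k * M k j = M ⟨i, hiN⟩ j := by
      rw [Finset.sum_eq_single (⟨i, hiN⟩ : Fin N)]
      · rw [ih i (Nat.lt_succ_self i) hiN.le, if_pos rfl, one_mul]
      · intro k _ hne
        rw [ih i (Nat.lt_succ_self i) hiN.le, if_neg, zero_mul]
        intro h'
        exact hne (Fin.ext h')
      · intro h'
        exact absurd (Finset.mem_univ _) h'
    have h2 : ∀ l : Fin (i + 1), (Polynomial.aeval M (Polynomial.C (M ⟨i, hiN⟩ ⟨l, by omega⟩) *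
        hp M l)) z j = M ⟨i, hiN⟩ ⟨l, by omega⟩ * if (j : ℕ) = l then 1 else 0 := by
      intro l
      rw [← Polynomial.smul_eq_C_mul, map_smul, Matrix.smul_apply, smul_eq_mul,
        ih l l.2 (by omega)]
    rw [h1, Finset.sum_congr rfl fun l _ => h2 l]
    by_cases hj : (j : ℕ) < i + 1
    · rw [Finset.sum_eq_single (⟨(j : ℕ), hj⟩ : Fin (i + 1))]
      · rw [if_pos rfl, mul_one, if_neg (by omega), sub_eq_zero]
      · intro l _ hne
        rw [if_neg, mul_zero]
        intro h'
        exact hne (Fin.ext h'.symm)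
      · intro h'
        exact absurd (Finset.mem_univ _) h'
    · rw [Finset.sum_eq_zero, sub_zero]
      · by_cases hj' : (j : ℕ) = i + 1
        · rw [if_pos hj', hM.1 _ _ hj']
        · rw [if_neg hj', hM.2 _ _ (by simp only; omega)]
      · intro l _
        have := l.2
        rw [if_neg (by omega), mul_zero]

/-- row `0` of `p_i(M)` is `e_i` -/
theorem hp_row {M : Matrix (Fin N) (Fin N) R} (hM : IsHess M) (z i j : Fin N)
    (hz : (z : ℕ) = 0) :
    (Polynomial.aeval M (hp M i)) z j = if j = i then 1 else 0 := by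
  rw [hp_row_le hM z hz i i.2.le j]
  by_cases h : j = i
  · rw [if_pos h, if_pos (by rw [h])]
  · rw [if_neg h, if_neg]
    intro h'
    exact h (Fin.ext h')

theorem charpoly_eq_hp {M : Matrix (Fin N) (Fin N) R} (hM : IsHess M) :
    M.charpoly = hp M N := by
  rcases subsingleton_or_nontrivial R with hR | hR
  · exact Subsingleton.elim _ _
  rcases Nat.eq_zero_or_pos N with h0 | h0
  · subst h0
    rw [hp_zero, Matrix.charpoly, Matrix.det_isEmpty]
  · rw [← sub_eq_zero]
    apply hess_row_inj hM _ ⟨0, h0⟩ rfl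
    · have h1 : M.charpoly.natDegree = N := by
        rw [Matrix.charpoly_natDegree_eq_dim, Fintype.card_fin]
      have h2 : (M.charpoly - hp M N).degree < N := by
        have h3 := Polynomial.degree_sub_lt_left (p := M.charpoly) (q := hp M N) ?_ ?_ ?_
        · rwa [Polynomial.degree_eq_natDegree (Matrix.charpoly_monic M).ne_zero, h1] at h3
        · rw [Polynomial.degree_eq_natDegree (Matrix.charpoly_monic M).ne_zero, h1,
            Polynomial.degree_eq_natDegree (hp_monic M N).ne_zero, hp_natDegree]
        · exact (Matrix.charpoly_monic M).ne_zero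
        · rw [(Matrix.charpoly_monic M).leadingCoeff, (hp_monic M N).leadingCoeff]
      by_cases h4 : M.charpoly - hp M N = 0
      · rw [h4, Polynomial.natDegree_zero]
        exact h0
      · exact (Polynomial.natDegree_lt_iff_degree_lt h4).2 h2
    · intro j
      rw [map_sub, Matrix.aeval_self_charpoly, zero_sub, Matrix.neg_apply,
        hp_row_le hM _ rfl N le_rfl, if_neg, neg_zero]
      have := j.2
      omega

theorem hess_mulVec {M : Matrix (Fin N) (Fin N) R} (hM : IsHess M) (z : R) (i : Fin N) :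
    (M.mulVec (fun l : Fin N => (hp M l).eval z)) i =
      z * (hp M i).eval z - (if (i : ℕ) + 1 = N then (hp M N).eval z else 0) := by
  have h1 : (M.mulVec (fun l : Fin N => (hp M l).eval z)) i =
      ∑ l, M i l * (hp M l).eval z := rfl
  have h2 : (hp M ((i : ℕ) + 1)).eval z = z * (hp M i).eval z -
      ∑ l : Fin ((i : ℕ) + 1), M i ⟨l, by omega⟩ * (hp M l).eval z := by
    rw [hp_succ' M i i.2, Polynomial.eval_sub, Polynomial.eval_mul, Polynomial.eval_X,
      Polynomial.eval_finsetSum]
    congr 1
    refine Finset.sum_congr rfl fun l _ => ?_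
    rw [Polynomial.eval_mul, Polynomial.eval_C]
  rw [h1, hess_sum hM i]
  have h3 : (∑ l : Fin ((i : ℕ) + 1), M i ⟨l, by omega⟩ * (hp M l).eval z) =
      z * (hp M i).eval z - (hp M ((i : ℕ) + 1)).eval z := by
    rw [h2]
    ring
  rw [h3]
  by_cases h : (i : ℕ) + 1 = N
  · rw [dif_neg (by omega), if_pos h, add_zero, h]
  · have h' : (i : ℕ) + 1 < N := by
      have := i.2
      omega
    rw [dif_pos h', if_neg h]
    ring

theorem hess_eigen_unique {M : Matrix (Fin N) (Fin N) R} (hM : IsHess M) (z : R)
    (v : Fin N → R) (hv : M.mulVec v = z • v) (i0 i : Fin N) (h0 : (i0 : ℕ) = 0) :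
    v i = v i0 * (hp M i).eval z := by
  have key : ∀ n : ℕ, ∀ hn : n < N, v ⟨n, hn⟩ = v i0 * (hp M n).eval z := by
    intro n
    induction n using Nat.strong_induction_on with
    | _ n ih =>
    intro hn
    cases n with
    | zero =>
      rw [hp_zero, Polynomial.eval_one, mul_one]
      congr 1
      exact Fin.ext h0.symm
    | succ n =>
      have hn' : n < N := by omega
      have h1 : ∑ l, M ⟨n, hn'⟩ l * v l = z * v ⟨n, hn'⟩ := congrFun hv ⟨n, hn'⟩
      rw [hess_sum hM ⟨n, hn'⟩] at h1
      simp only at h1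
      rw [dif_pos hn, ih n (Nat.lt_succ_self n) hn'] at h1
      rw [hp_succ' M n hn', Polynomial.eval_sub, Polynomial.eval_mul, Polynomial.eval_X,
        Polynomial.eval_finsetSum, mul_sub, Finset.mul_sum]
      have h2 : ∑ l : Fin (n + 1), M ⟨n, hn'⟩ ⟨l, by omega⟩ * v ⟨l, by omega⟩ =
          ∑ l : Fin (n + 1), v i0 * Polynomial.eval z
            (Polynomial.C (M ⟨n, hn'⟩ ⟨l, by omega⟩) * hp M l) := by
        refine Finset.sum_congr rfl fun l _ => ?_
        rw [ih l l.2 (by omega), Polynomial.eval_mul, Polynomial.eval_C]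
        ring
      rw [← h2]
      linear_combination h1
  exact key i i.2

theorem hess_intertwiner {M M' : Matrix (Fin N) (Fin N) R} (hM : IsHess M) (hM' : IsHess M')
    (h : M.charpoly = M'.charpoly) : ∃ u, LowUni u ∧ u * M = M' * u := by
  rcases Nat.eq_zero_or_pos N with h0 | h0
  · subst h0
    exact ⟨1, ⟨fun i => i.elim0, fun i => i.elim0⟩, Subsingleton.elim _ _⟩
  set z : Fin N := ⟨0, h0⟩ with hz
  obtain ⟨U, hU⟩ : ∃ U : Matrix (Fin N) (Fin N) R,
      ∀ i j, U i j = (Polynomial.aeval M (hp M' i)) z j := ⟨fun i j => _, fun _ _ => rfl⟩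
  refine ⟨U, ⟨?_, ?_⟩, ?_⟩
  · intro i j hij
    rw [hU, hess_aeval_entry hM _ z j rfl
      ((hp_natDegree_le M' i).trans (le_of_lt hij)), hp_coeff_of_lt M' hij]
  · intro i
    rw [hU, hess_aeval_entry hM _ z i rfl (hp_natDegree_le M' i), hp_coeff_self]
  · ext i j
    have h1 : (U * M) i j = (Polynomial.aeval M (Polynomial.X * hp M' i)) z j := by
      rw [mul_comm, map_mul, Polynomial.aeval_X, Matrix.mul_apply, Matrix.mul_apply]
      exact Finset.sum_congr rfl fun k _ => by rw [hU]
    rw [h1, Matrix.mul_apply, hess_sum hM' i (fun l => U l j)]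
    have h2 : (∑ l : Fin ((i : ℕ) + 1), M' i ⟨l, by omega⟩ * U ⟨l, by omega⟩ j) =
        (Polynomial.aeval M (Polynomial.X * hp M' i - hp M' ((i : ℕ) + 1))) z j := by
      rw [hp_succ' M' i i.2, sub_sub_cancel, map_sum, Matrix.sum_apply]
      refine Finset.sum_congr rfl fun l _ => ?_
      rw [← Polynomial.smul_eq_C_mul, map_smul, Matrix.smul_apply, smul_eq_mul, hU]
    rw [h2]
    by_cases hi : (i : ℕ) + 1 < N
    · rw [dif_pos hi, hU, ← Matrix.add_apply, ← map_add, sub_add_cancel]
    · have hi' : (i : ℕ) + 1 = N := by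
        have := i.2
        omega
      rw [dif_neg hi, add_zero, map_sub, hi', ← charpoly_eq_hp hM', ← h,
        Matrix.aeval_self_charpoly, sub_zero]

theorem hess_intertwiner_unique {M M' u u' : Matrix (Fin N) (Fin N) R} (hM : IsHess M)
    (hM' : IsHess M') (hu : LowUni u) (hu' : LowUni u') (h : u * M = M' * u)
    (h' : u' * M = M' * u') : u = u' := by
  have key : ∀ n : ℕ, ∀ hn : n < N, ∀ j, u ⟨n, hn⟩ j = u' ⟨n, hn⟩ j := by
    intro n
    induction n using Nat.strong_induction_on with
    | _ n ih =>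
    intro hn j
    cases n with
    | zero =>
      by_cases hj : j = ⟨0, hn⟩
      · rw [hj, hu.2, hu'.2]
      · have hj' : (⟨0, hn⟩ : Fin N) < j := by
          rw [Fin.lt_def]
          have : (j : ℕ) ≠ 0 := fun h'' => hj (Fin.ext h'')
          simp only
          omega
        rw [hu.1 _ _ hj', hu'.1 _ _ hj']
    | succ n =>
      have hn' : n < N := by omega
      have h1 : (u * M) ⟨n, hn'⟩ j = (M' * u) ⟨n, hn'⟩ j := by rw [h]
      have h2 : (u' * M) ⟨n, hn'⟩ j = (M' * u') ⟨n, hn'⟩ j := by rw [h']
      rw [Matrix.mul_apply, Matrix.mul_apply, hess_sum hM' ⟨n, hn'⟩ (fun l => u l j)] at h1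
      rw [Matrix.mul_apply, Matrix.mul_apply, hess_sum hM' ⟨n, hn'⟩ (fun l => u' l j)] at h2
      simp only at h1 h2
      rw [dif_pos hn] at h1 h2
      have h3 : ∑ l, u ⟨n, hn'⟩ l * M l j = ∑ l, u' ⟨n, hn'⟩ l * M l j :=
        Finset.sum_congr rfl fun l _ => by rw [ih n (Nat.lt_succ_self n) hn']
      have h4 : ∑ l : Fin (n + 1), M' ⟨n, hn'⟩ ⟨l, by omega⟩ * u ⟨l, by omega⟩ j =
          ∑ l : Fin (n + 1), M' ⟨n, hn'⟩ ⟨l, by omega⟩ * u' ⟨l, by omega⟩ j :=
        Finset.sum_congr rfl fun l _ => by rw [ih l l.2 (by omega)]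
      rw [h3, h4] at h1
      exact add_left_cancel (h1.symm.trans h2)
  ext i j
  exact key i i.2 j

theorem hess_intertwiner_isG {M M' u : Matrix (Fin N) (Fin N) R} (hM : IsHess M)
    (hM' : IsHess M') (hL : IsLie M) (hL' : IsLie M') (hu : LowUni u) (h : u * M = M' * u) :
    IsG u := by
  have hs : LowUni (st u) := hu.star
  have h1 : M * st u = st u * M' := by
    have h2 : st (u * M) = st (M' * u) := by rw [h]
    rw [st_mul, st_mul, (isLie_iff_st M).1 hL, (isLie_iff_st M').1 hL', Matrix.neg_mul,
      Matrix.mul_neg] at h2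
    exact neg_injective h2
  have h3 : (st u)⁻¹ * M = M' * (st u)⁻¹ := by
    calc (st u)⁻¹ * M = (st u)⁻¹ * (M * st u) * (st u)⁻¹ := by
          rw [Matrix.mul_assoc, Matrix.mul_assoc, hs.mul_inv, Matrix.mul_one]
      _ = ((st u)⁻¹ * st u) * M' * (st u)⁻¹ := by
          rw [h1]
          simp only [Matrix.mul_assoc]
      _ = M' * (st u)⁻¹ := by rw [hs.inv_mul, Matrix.one_mul]
  have h4 := hess_intertwiner_unique hM hM' hu hs.inv h h3
  rw [isG_iff_st]
  refine ⟨?_, fun _ => hu.det⟩
  calc st u * u = st u * (st u)⁻¹ := by rw [← h4]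
    _ = 1 := hs.mul_inv

theorem hess_commute {M h : Matrix (Fin N) (Fin N) R} (hM : IsHess M) (hc : Commute h M) :
    ∃ Q : Polynomial R, h = Polynomial.aeval M Q := by
  rcases Nat.eq_zero_or_pos N with h0 | h0
  · subst h0
    exact ⟨0, Subsingleton.elim _ _⟩
  set z : Fin N := ⟨0, h0⟩ with hz
  have hcomm : ∀ Q : Polynomial R, Commute h (Polynomial.aeval M Q) := by
    intro Q
    rw [Polynomial.aeval_eq_sum_range]
    refine Commute.sum_right _ _ _ fun m _ => ?_
    exact (hc.pow_right m).smul_right _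
  set Q : Polynomial R := ∑ l : Fin N, Polynomial.C (h z l) * hp M l with hQ
  have hrow : ∀ j, (Polynomial.aeval M Q) z j = h z j := by
    intro j
    rw [hQ, map_sum, Matrix.sum_apply, Finset.sum_eq_single j]
    · rw [← Polynomial.smul_eq_C_mul, map_smul, Matrix.smul_apply, smul_eq_mul,
        hp_row hM z j j rfl, if_pos rfl, mul_one]
    · intro l _ hne
      rw [← Polynomial.smul_eq_C_mul, map_smul, Matrix.smul_apply, smul_eq_mul,
        hp_row hM z l j rfl, if_neg (Ne.symm hne), mul_zero]
    · intro h'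
      exact absurd (Finset.mem_univ _) h'
  refine ⟨Q, ?_⟩
  have hsel : ∀ (X : Matrix (Fin N) (Fin N) R) (i j : Fin N),
      (Polynomial.aeval M (hp M i) * X) z j = X i j := by
    intro X i j
    rw [Matrix.mul_apply, Finset.sum_eq_single i]
    · rw [hp_row hM z i i rfl, if_pos rfl, one_mul]
    · intro l _ hne
      rw [hp_row hM z i l rfl, if_neg hne, zero_mul]
    · intro h'
      exact absurd (Finset.mem_univ _) h'
  ext i j
  rw [← hsel h i j, ← hsel (Polynomial.aeval M Q) i j, ← (hcomm (hp M i)).eq, ← map_mul,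
    mul_comm (hp M i), map_mul, Matrix.mul_apply, Matrix.mul_apply]
  exact Finset.sum_congr rfl fun l _ => by rw [hrow]

/-- leading difference of the characteristic polynomials of two Hessenberg matrices that agree
above the `j`-th subdiagonal -/
theorem hess_diff {M M' : Matrix (Fin N) (Fin N) R} (hM : IsHess M) (hM' : IsHess M') (j : ℕ)
    (hj : j < N) (h : ∀ i l : Fin N, (i : ℕ) < (l : ℕ) + j → M i l = M' i l) :
    (∀ m, N < m + j + 1 → (M.charpoly - M'.charpoly).coeff m = 0) ∧
    (M.charpoly - M'.charpoly).coeff (N - 1 - j) =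
      - ∑ l : Fin (N - j), (M ⟨l + j, by omega⟩ ⟨l, by omega⟩ - M' ⟨l + j, by omega⟩ ⟨l, by omega⟩) := by
  set d : ℕ → R := fun l => if h : l + j < N then
    M ⟨l + j, h⟩ ⟨l, by omega⟩ - M' ⟨l + j, h⟩ ⟨l, by omega⟩ else 0 with hd
  have key : ∀ i, i ≤ N → (∀ m, i < m + j + 1 → (hp M i - hp M' i).coeff m = 0) ∧
      (j < i → (hp M i - hp M' i).coeff (i - 1 - j) = - ∑ l ∈ Finset.range (i - j), d l) := by
    intro i
    induction i using Nat.strong_induction_on with
    | _ i ih =>
    intro hi
    cases i with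
    | zero =>
      rw [hp_zero, hp_zero, sub_self]
      exact ⟨fun m _ => Polynomial.coeff_zero m, fun h' => absurd h' (Nat.not_lt_zero _)⟩
    | succ i =>
      have hiN : i < N := hi
      have hrec : hp M (i + 1) - hp M' (i + 1) = Polynomial.X * (hp M i - hp M' i) -
          ∑ l : Fin (i + 1), (Polynomial.C (M ⟨i, hiN⟩ ⟨l, by omega⟩) * (hp M l - hp M' l) +
            Polynomial.C (M ⟨i, hiN⟩ ⟨l, by omega⟩ - M' ⟨i, hiN⟩ ⟨l, by omega⟩) * hp M' l) := by
        rw [hp_succ' M i hiN, hp_succ' M' i hiN]
        have : ∀ l : Fin (i + 1), Polynomial.C (M ⟨i, hiN⟩ ⟨l, by omega⟩) * (hp M l - hp M' l) +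
            Polynomial.C (M ⟨i, hiN⟩ ⟨l, by omega⟩ - M' ⟨i, hiN⟩ ⟨l, by omega⟩) * hp M' l =
            Polynomial.C (M ⟨i, hiN⟩ ⟨l, by omega⟩) * hp M l -
              Polynomial.C (M' ⟨i, hiN⟩ ⟨l, by omega⟩) * hp M' l := by
          intro l
          rw [Polynomial.C_sub]
          ring
        rw [Finset.sum_congr rfl fun l _ => this l, Finset.sum_sub_distrib]
        ring
      constructor
      · intro m hm
        rw [hrec, Polynomial.coeff_sub, Polynomial.finsetSum_coeff]
        have h1 : (Polynomial.X * (hp M i - hp M' i)).coeff m = 0 := by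
          cases m with
          | zero => rw [Polynomial.coeff_X_mul_zero]
          | succ m =>
            rw [Polynomial.coeff_X_mul]
            exact (ih i (Nat.lt_succ_self i) hiN.le).1 m (by omega)
        rw [h1, zero_sub, neg_eq_zero]
        apply Finset.sum_eq_zero
        intro l _
        have hl := l.2
        rw [Polynomial.coeff_add, Polynomial.coeff_C_mul, Polynomial.coeff_C_mul,
          (ih l l.2 (by omega)).1 m (by omega), mul_zero, zero_add]
        by_cases hl' : i < (l : ℕ) + j
        · rw [h ⟨i, hiN⟩ ⟨l, by omega⟩ hl', sub_self, zero_mul]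
        · rw [hp_coeff_of_lt M' (by omega), mul_zero]
      · intro hji
        have e1 : i + 1 - 1 - j = i - j := by omega
        have e2 : i + 1 - j = (i - j) + 1 := by omega
        rw [e1, e2, hrec, Polynomial.coeff_sub, Polynomial.finsetSum_coeff,
          Finset.sum_range_succ]
        have h1 : (Polynomial.X * (hp M i - hp M' i)).coeff (i - j) =
            - ∑ l ∈ Finset.range (i - j), d l := by
          by_cases hij : i = j
          · have : i - j = 0 := by omega
            rw [this, Polynomial.coeff_X_mul_zero, Finset.range_zero, Finset.sum_empty, neg_zero]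
          · have e3 : i - j = (i - 1 - j) + 1 := by omega
            rw [e3, Polynomial.coeff_X_mul, (ih i (Nat.lt_succ_self i) hiN.le).2 (by omega), ← e3]
        have h2 : ∑ l : Fin (i + 1),
            (Polynomial.C (M ⟨i, hiN⟩ ⟨l, by omega⟩) * (hp M l - hp M' l) +
            Polynomial.C (M ⟨i, hiN⟩ ⟨l, by omega⟩ - M' ⟨i, hiN⟩ ⟨l, by omega⟩) *
              hp M' l).coeff (i - j) = d (i - j) := by
          rw [Finset.sum_eq_single (⟨i - j, by omega⟩ : Fin (i + 1))]
          · rw [Polynomial.coeff_add, Polynomial.coeff_C_mul, Polynomial.coeff_C_mul,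
              (ih _ (Fin.is_lt _) (by simp only; omega)).1 (i - j) (by simp only; omega), mul_zero,
              zero_add, hp_coeff_self, mul_one, hd]
            simp only
            rw [dif_pos (by omega)]
            have e4 : i - j + j = i := by omega
            congr 2
            · exact Fin.ext e4.symm
            · exact Fin.ext e4.symm
          · intro l _ hne
            have hl := l.2
            have hne' : (l : ℕ) ≠ i - j := fun h' => hne (Fin.ext h')
            rw [Polynomial.coeff_add, Polynomial.coeff_C_mul, Polynomial.coeff_C_mul,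
              (ih l l.2 (by omega)).1 (i - j) (by omega), mul_zero, zero_add]
            by_cases hl' : i < (l : ℕ) + j
            · rw [h ⟨i, hiN⟩ ⟨l, by omega⟩ hl', sub_self, zero_mul]
            · rw [hp_coeff_of_lt M' (by omega), mul_zero]
          · intro h'
            exact absurd (Finset.mem_univ _) h'
        rw [h1, h2]
        ring
  rw [charpoly_eq_hp hM, charpoly_eq_hp hM']
  refine ⟨(key N le_rfl).1, ?_⟩
  rw [(key N le_rfl).2 hj, Finset.sum_range]
  congr 1
  refine Finset.sum_congr rfl fun l _ => ?_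
  have := l.2
  rw [hd]
  simp only
  rw [dif_pos (by omega)]

end hess

end Pool.Agent.MP_c45d35_ag
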