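import Pool.Agent.MP_c45d35_ag.Basic
import Pool.Agent.MP_c45d35_ag.Hess

/-!
# MP_c45d35_ag, block B: the Kostant–Slodowy slice
-/

set_option autoImplicit false

namespace Pool.Agent.MP_c45d35_ag

open Matrix

namespace SL

section fmpow

variable {R : Type*} [CommRing R] {N : ℕ}

/-- product of the entries of `f` in the rows `j + 1, …, j + k` -/
def Fk (N k j : ℕ) : ℕ := ∏ l ∈ Finset.range k, (j + 1 + l) * (N - (j + 1 + l))

theorem Fk_pos {N k j : ℕ} (h : j + k < N) : 0 < Fk N k j := by
  refine Finset.prod_pos fun l hl => ?_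
  have := Finset.mem_range.1 hl
  exact Nat.mul_pos (by omega) (by omega)

theorem fm_apply (i j : Fin N) : fm R N i j =
    if (i : ℕ) = (j : ℕ) + 1 then (((i : ℕ) * (N - (i : ℕ)) : ℕ) : R) else 0 := rfl

theorem fm_pow_apply (k : ℕ) (i j : Fin N) :
    (fm R N ^ k) i j = if (i : ℕ) = (j : ℕ) + k then ((Fk N k j : ℕ) : R) else 0 := by
  induction k generalizing j with
  | zero =>
    rw [pow_zero, Matrix.one_apply]
    by_cases h : i = j
    · subst h
      simp [Fk]
    · rw [if_neg h, if_neg]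
      intro h'
      exact h (Fin.ext (by simpa using h'))
  | succ k ih =>
    rw [pow_succ, Matrix.mul_apply]
    by_cases hj : (j : ℕ) + 1 < N
    · rw [Finset.sum_eq_single ⟨(j : ℕ) + 1, hj⟩]
      · rw [ih, fm_apply, if_pos rfl]
        by_cases h : (i : ℕ) = (j : ℕ) + (k + 1)
        · rw [if_pos (by simp only; omega), if_pos h, ← Nat.cast_mul]
          congr 1
          unfold Fk
          rw [Finset.prod_range_succ']
          congr 1
          refine Finset.prod_congr rfl fun l _ => ?_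
          have e : (j : ℕ) + 1 + 1 + l = (j : ℕ) + 1 + (l + 1) := by omega
          rw [e]
        · rw [if_neg (by simp only; omega), if_neg h, zero_mul]
      · intro b _ hb
        rw [fm_apply, if_neg, mul_zero]
        intro h
        exact hb (Fin.ext h)
      · intro h
        exact absurd (Finset.mem_univ _) h
    · rw [Finset.sum_eq_zero, if_neg]
      · have := i.2
        omega
      · intro l _
        rw [fm_apply, if_neg, mul_zero]
        have := l.2
        omega

theorem fm_map {S : Type*} [CommRing S] (φ : R →+* S) : (fm R N).map φ = fm S N := by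
  ext i j
  rw [Matrix.map_apply, fm_apply, fm_apply]
  split_ifs <;> simp

theorem st_fm : st (fm R N) = - fm R N := by
  ext i j
  rw [st_apply, Matrix.neg_apply, fm_apply, fm_apply]
  have hi := i.2
  have hj := j.2
  rw [Fin.val_rev, Fin.val_rev]
  by_cases h : (i : ℕ) = (j : ℕ) + 1
  · rw [if_pos (by omega), if_pos h]
    have e1 : (i : ℕ) + (j : ℕ) = 2 * (j : ℕ) + 1 := by omega
    have e2 : (N - ((j : ℕ) + 1)) * (N - (N - ((j : ℕ) + 1))) = (i : ℕ) * (N - (i : ℕ)) := by
      have e3 : N - (N - ((j : ℕ) + 1)) = (i : ℕ) := by omega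
      rw [e3, h, mul_comm]
    rw [e1, e2, pow_succ, pow_mul]
    simp
  · rw [if_neg (by omega), if_neg h]
    simp

theorem st_pow (X : Matrix (Fin N) (Fin N) R) (k : ℕ) : st (X ^ k) = (st X) ^ k := by
  induction k with
  | zero => simp [st_one]
  | succ k ih => rw [pow_succ, st_mul, ih, ← pow_succ']

theorem st_zero : st (0 : Matrix (Fin N) (Fin N) R) = 0 := by
  simp [st]

theorem st_sum {ι : Type*} (t : Finset ι) (f : ι → Matrix (Fin N) (Fin N) R) :
    st (∑ i ∈ t, f i) = ∑ i ∈ t, st (f i) := by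
  classical
  induction t using Finset.induction_on with
  | empty => simp [st_zero]
  | insert a t ha ih => rw [Finset.sum_insert ha, Finset.sum_insert ha, st_add, ih]

/-- The elements `e + ∑ a_m f^(2m+1)`. -/
noncomputable def Sl (a : Fin (N / 2) → R) : Matrix (Fin N) (Fin N) R :=
  em R N + ∑ m, a m • (fm R N) ^ (2 * (m : ℕ) + 1)

theorem Sl_apply (a : Fin (N / 2) → R) (i l : Fin N) : Sl a i l = em R N i l +
    ∑ m, a m * (if (i : ℕ) = (l : ℕ) + (2 * (m : ℕ) + 1) then
      ((Fk N (2 * (m : ℕ) + 1) l : ℕ) : R) else 0) := by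
  unfold Sl
  rw [Matrix.add_apply, Matrix.sum_apply]
  congr 1
  refine Finset.sum_congr rfl fun m _ => ?_
  rw [Matrix.smul_apply, fm_pow_apply, smul_eq_mul]

theorem isHess_Sl (a : Fin (N / 2) → R) : IsHess (Sl a) := by
  constructor
  · intro i j h
    rw [Sl_apply, Finset.sum_eq_zero, add_zero]
    · simp [em, h]
    · intro m _
      rw [if_neg (by omega), mul_zero]
  · intro i j h
    rw [Sl_apply, Finset.sum_eq_zero, add_zero]
    · simp only [em, Matrix.of_apply]
      rw [if_neg (by omega)]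
    · intro m _
      rw [if_neg (by omega), mul_zero]

theorem isLie_Sl (a : Fin (N / 2) → R) : IsLie (Sl a) := by
  rw [isLie_iff_st]
  unfold Sl
  rw [st_add, (isLie_iff_st _).1 isLie_em, st_sum, neg_add, ← Finset.sum_neg_distrib]
  congr 1
  refine Finset.sum_congr rfl fun m _ => ?_
  rw [st_smul, st_pow, st_fm, Odd.neg_pow ⟨(m : ℕ), rfl⟩, smul_neg]

theorem Sl_map {S : Type*} [CommRing S] (φ : R →+* S) (a : Fin (N / 2) → R) :
    (Sl a).map φ = Sl (fun m => φ (a m)) := by
  ext i l
  rw [Matrix.map_apply, Sl_apply, Sl_apply, map_add, map_sum]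
  congr 1
  · have := congrFun (congrFun (em_map (N := N) φ) i) l
    rwa [Matrix.map_apply] at this
  · refine Finset.sum_congr rfl fun m _ => ?_
    rw [map_mul]
    congr 1
    split_ifs <;> simp

theorem commute_Sl_sub (a : Fin (N / 2) → R) : Commute (Sl a - em R N) (fm R N) := by
  unfold Sl
  rw [add_sub_cancel_left]
  refine Commute.sum_left _ _ _ fun m _ => ?_
  exact ((Commute.refl (fm R N)).pow_left _).smul_left _

end fmpow

/-! ### The centralizer of `f` -/

section centralizer

variable {N : ℕ}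

theorem mul_fm_apply (X : Matrix (Fin N) (Fin N) ℂ) (i j : Fin N) (hj : (j : ℕ) + 1 < N) :
    (X * fm ℂ N) i j = X i ⟨(j : ℕ) + 1, hj⟩ *
      ((((j : ℕ) + 1) * (N - ((j : ℕ) + 1)) : ℕ) : ℂ) := by
  rw [Matrix.mul_apply, Finset.sum_eq_single ⟨(j : ℕ) + 1, hj⟩]
  · rw [fm_apply, if_pos rfl]
  · intro b _ hb
    rw [fm_apply, if_neg, mul_zero]
    intro h
    exact hb (Fin.ext h)
  · intro h
    exact absurd (Finset.mem_univ _) h

theorem fm_mul_apply_zero (X : Matrix (Fin N) (Fin N) ℂ) (i j : Fin N)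
    (h : ∀ l : Fin N, (i : ℕ) = (l : ℕ) + 1 → X l j = 0) : (fm ℂ N * X) i j = 0 := by
  rw [Matrix.mul_apply]
  refine Finset.sum_eq_zero fun l _ => ?_
  rw [fm_apply]
  by_cases hl : (i : ℕ) = (l : ℕ) + 1
  · rw [h l hl, mul_zero]
  · rw [if_neg hl, zero_mul]

theorem commute_step {X : Matrix (Fin N) (Fin N) ℂ} (h : Commute X (fm ℂ N)) (i : Fin N) (j : ℕ)
    (hj : j + 1 < N) (h0 : ∀ l : Fin N, (i : ℕ) = (l : ℕ) + 1 → X l ⟨j, by omega⟩ = 0) :
    X i ⟨j + 1, hj⟩ = 0 := by
  have h1 := congrFun (congrFun h.eq i) ⟨j, by omega⟩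
  rw [mul_fm_apply X i ⟨j, by omega⟩ hj, fm_mul_apply_zero X i ⟨j, by omega⟩ h0] at h1
  rcases mul_eq_zero.1 h1 with h2 | h2
  · exact h2
  · exfalso
    rw [Nat.cast_eq_zero, Nat.mul_eq_zero] at h2
    simp only at h2
    omega

theorem commute_upper {X : Matrix (Fin N) (Fin N) ℂ} (h : Commute X (fm ℂ N)) (j : ℕ)
    (hj : j < N) (i : Fin N) (hij : (i : ℕ) < j) : X i ⟨j, hj⟩ = 0 := by
  induction j generalizing i with
  | zero => omega
  | succ j ih =>
    refine commute_step h i j hj fun l hl => ?_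
    exact ih (by omega) l (by omega)

theorem commute_eq_zero {X : Matrix (Fin N) (Fin N) ℂ} (h : Commute X (fm ℂ N))
    (h0 : ∀ i z : Fin N, (z : ℕ) = 0 → X i z = 0) : X = 0 := by
  have key : ∀ (j : ℕ) (hj : j < N) (i : Fin N), X i ⟨j, hj⟩ = 0 := by
    intro j
    induction j with
    | zero => intro hj i; exact h0 i ⟨0, hj⟩ rfl
    | succ j ih =>
      intro hj i
      exact commute_step h i j hj fun l _ => ih (by omega) l
  ext i j
  exact key j j.2 i

theorem commute_pow_sum {ι : Type*} (t : Finset ι) (c : ι → ℂ) (k : ι → ℕ) :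
    Commute (∑ i ∈ t, c i • (fm ℂ N) ^ k i) (fm ℂ N) :=
  Commute.sum_left _ _ _ fun _ _ => ((Commute.refl (fm ℂ N)).pow_left _).smul_left _

/-- the even part of the first column of an element of the Lie algebra commuting with `f`
vanishes -/
theorem even_col {X : Matrix (Fin N) (Fin N) ℂ} (h : Commute X (fm ℂ N)) (hs : st X = -X)
    (i z : Fin N) (hz : (z : ℕ) = 0) (hi : Even (i : ℕ)) : X i z = 0 := by
  set c : Fin N → ℂ := fun j => X j z / ((Fk N j 0 : ℕ) : ℂ) with hc
  have hF : ∀ j : Fin N, ((Fk N j 0 : ℕ) : ℂ) ≠ 0 := by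
    intro j
    have := Fk_pos (N := N) (k := j) (j := 0) (by have := j.2; omega)
    exact_mod_cast this.ne'
  have hcol : ∀ (d : Fin N → ℂ) (i : Fin N) (w : Fin N), (w : ℕ) = 0 →
      (∑ j : Fin N, d j • (fm ℂ N) ^ (j : ℕ)) i w = d i * ((Fk N i 0 : ℕ) : ℂ) := by
    intro d i w hw
    rw [Matrix.sum_apply, Finset.sum_eq_single i]
    · rw [Matrix.smul_apply, fm_pow_apply, if_pos (by omega), smul_eq_mul, hw]
    · intro b _ hb
      rw [Matrix.smul_apply, fm_pow_apply, if_neg, smul_zero]
      intro h'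
      exact hb (Fin.ext (by omega))
    · intro h'
      exact absurd (Finset.mem_univ _) h'
  have hX : X = ∑ j : Fin N, c j • (fm ℂ N) ^ (j : ℕ) := by
    have h1 : Commute (X - ∑ j : Fin N, c j • (fm ℂ N) ^ (j : ℕ)) (fm ℂ N) :=
      h.sub_left (commute_pow_sum _ _ _)
    have h2 := commute_eq_zero h1 (by
      intro i w hw
      have hwz : w = z := Fin.ext (by omega)
      rw [Matrix.sub_apply, hcol c i w hw, hwz, hc]
      simp only
      rw [div_mul_cancel₀ _ (hF i), sub_self])
    exact sub_eq_zero.1 h2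
  have h3 : st X = ∑ j : Fin N, ((-1) ^ (j : ℕ) * c j) • (fm ℂ N) ^ (j : ℕ) := by
    conv_lhs => rw [hX]
    rw [st_sum]
    refine Finset.sum_congr rfl fun j _ => ?_
    rw [st_smul, st_pow, st_fm]
    rcases Nat.even_or_odd (j : ℕ) with hj | hj
    · rw [hj.neg_pow, hj.neg_one_pow, one_mul]
    · rw [hj.neg_pow, hj.neg_one_pow, smul_neg, neg_one_mul, neg_smul]
  have h4 := congrFun (congrFun hs i) z
  rw [h3, hcol _ i z hz, Matrix.neg_apply] at h4
  have h5 : X i z = c i * ((Fk N i 0 : ℕ) : ℂ) := by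
    rw [hc]
    simp only
    rw [div_mul_cancel₀ _ (hF i)]
  rw [hi.neg_one_pow, one_mul, ← h5] at h4
  have h6 : (2 : ℂ) * X i z = 0 := by linear_combination h4
  rcases mul_eq_zero.1 h6 with h7 | h7
  · norm_num at h7
  · exact h7

theorem exists_Sl {s : Matrix (Fin N) (Fin N) ℂ} (hs : s ∈ slice N) :
    ∃ a : Fin (N / 2) → ℂ, s = Sl a := by
  obtain ⟨hL, hc⟩ := hs
  rcases Nat.eq_zero_or_pos N with h0 | h0
  · subst h0
    exact ⟨fun _ => 0, Subsingleton.elim _ _⟩
  set z : Fin N := ⟨0, h0⟩ with hz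
  set a : Fin (N / 2) → ℂ := fun m =>
    (s - em ℂ N) ⟨2 * (m : ℕ) + 1, by have := m.2; omega⟩ z /
      ((Fk N (2 * (m : ℕ) + 1) 0 : ℕ) : ℂ) with ha
  have hst : st (s - em ℂ N) = -(s - em ℂ N) := (isLie_iff_st _).1 (hL.sub isLie_em)
  refine ⟨a, ?_⟩
  have h1 : Commute ((s - em ℂ N) - ∑ m, a m • (fm ℂ N) ^ (2 * (m : ℕ) + 1)) (fm ℂ N) :=
    hc.sub_left (commute_pow_sum _ _ _)
  have h2 := commute_eq_zero h1 (by
    intro i w hw
    have hwz : w = z := Fin.ext (by rw [hw, hz])
    subst hwz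
    rw [Matrix.sub_apply, Matrix.sum_apply]
    rcases Nat.even_or_odd (i : ℕ) with hi | hi
    · rw [even_col hc hst i z (by rw [hz]) hi, Finset.sum_eq_zero, sub_self]
      intro m _
      rw [Matrix.smul_apply, fm_pow_apply, if_neg, smul_zero]
      intro h'
      rw [hz] at h'
      simp only [zero_add] at h'
      rw [h'] at hi
      exact (Nat.not_even_iff_odd.2 ⟨(m : ℕ), rfl⟩) hi
    · obtain ⟨m, hm⟩ := hi
      have hmN : m < N / 2 := by have := i.2; omega
      rw [Finset.sum_eq_single ⟨m, hmN⟩]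
      · rw [Matrix.smul_apply, fm_pow_apply, if_pos (by rw [hz, hm]; simp), smul_eq_mul, ha]
        simp only
        have hF : ((Fk N (2 * m + 1) z : ℕ) : ℂ) ≠ 0 := by
          have := Fk_pos (N := N) (k := 2 * m + 1) (j := 0) (by have := i.2; omega)
          exact_mod_cast this.ne'
        have hi' : (⟨2 * m + 1, by have := i.2; omega⟩ : Fin N) = i := Fin.ext hm.symm
        rw [hi']
        rw [show ((Fk N (2 * m + 1) 0 : ℕ) : ℂ) = ((Fk N (2 * m + 1) z : ℕ) : ℂ) from rfl,
          div_mul_cancel₀ _ hF, sub_self]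
      · intro b _ hb
        rw [Matrix.smul_apply, fm_pow_apply, if_neg, smul_zero]
        intro h'
        apply hb
        rw [hz, hm] at h'
        simp only [zero_add] at h'
        exact Fin.ext (by simp only; omega)
      · intro h'
        exact absurd (Finset.mem_univ _) h')
  have h3 := sub_eq_zero.1 h2
  unfold Sl
  rw [← h3]
  abel

theorem Sl_mem_slice (a : Fin (N / 2) → ℂ) : Sl a ∈ slice N := ⟨isLie_Sl a, commute_Sl_sub a⟩

end centralizer

/-! ### Characteristic polynomials -/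

section charpoly

variable {R : Type*} [CommRing R] {N : ℕ}

theorem charpoly_st (M : Matrix (Fin N) (Fin N) R) : (st M).charpoly = M.charpoly := by
  unfold st
  rw [Matrix.charpoly_mul_comm, ← Matrix.mul_assoc, Jm_mul_transpose, Matrix.one_mul,
    Matrix.charpoly_transpose]

theorem charpoly_coeff_of_lt {m : ℕ} (M : Matrix (Fin N) (Fin N) R) (h : N < m) :
    M.charpoly.coeff m = 0 := by
  rcases subsingleton_or_nontrivial R with hR | hR
  · exact Subsingleton.elim _ _
  · apply Polynomial.coeff_eq_zero_of_natDegree_lt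
    rwa [Matrix.charpoly_natDegree_eq_dim, Fintype.card_fin]

theorem charpoly_coeff_self (M : Matrix (Fin N) (Fin N) R) : M.charpoly.coeff N = 1 := by
  rcases subsingleton_or_nontrivial R with hR | hR
  · exact Subsingleton.elim _ _
  · have h := M.charpoly_monic
    rwa [Polynomial.Monic, Polynomial.leadingCoeff, Matrix.charpoly_natDegree_eq_dim,
      Fintype.card_fin] at h

variable [Algebra ℂ R]

theorem isUnit_natCast {n : ℕ} (hn : n ≠ 0) : IsUnit (n : R) := by
  have h : IsUnit (n : ℂ) := isUnit_iff_ne_zero.2 (Nat.cast_ne_zero.2 hn)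
  have h' := h.map (algebraMap ℂ R)
  rwa [map_natCast] at h'

/-- parity of the characteristic polynomial of an element of the Lie algebra -/
theorem charpoly_parity {M : Matrix (Fin N) (Fin N) R} (hM : IsLie M) {m : ℕ}
    (hm : Odd (N + m)) : M.charpoly.coeff m = 0 := by
  by_cases hmN : m ≤ N
  · obtain ⟨k, hk, rfl⟩ : ∃ k, k ≤ N ∧ m = N - k := ⟨N - m, by omega, by omega⟩
    have hkodd : Odd k := by
      rcases Nat.even_or_odd k with h | h
      · exfalso
        obtain ⟨a, ha⟩ := h
        obtain ⟨b, hb⟩ := hm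
        omega
      · exact h
    have h1 := Matrix.charpoly_coeff_eq_sum_minors M k (by rwa [Fintype.card_fin])
    have h2 := Matrix.charpoly_coeff_eq_sum_minors (-M) k (by rwa [Fintype.card_fin])
    rw [Fintype.card_fin] at h1 h2
    have h3 : (-M).charpoly = M.charpoly := by
      rw [← (isLie_iff_st M).1 hM, charpoly_st]
    rw [h3] at h2
    have h4 : ∑ s ∈ Finset.univ.powersetCard k,
        ((-M).submatrix (Subtype.val : s → Fin N) (Subtype.val : s → Fin N)).det =
        - ∑ s ∈ Finset.univ.powersetCard k,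
        (M.submatrix (Subtype.val : s → Fin N) (Subtype.val : s → Fin N)).det := by
      rw [← Finset.sum_neg_distrib]
      refine Finset.sum_congr rfl fun s hs => ?_
      have e : (-M).submatrix (Subtype.val : s → Fin N) (Subtype.val : s → Fin N) =
          -(M.submatrix (Subtype.val : s → Fin N) (Subtype.val : s → Fin N)) := rfl
      rw [e, Matrix.det_neg, Fintype.card_coe, (Finset.mem_powersetCard.1 hs).2,
        hkodd.neg_one_pow]
      ring
    rw [h4, mul_neg, ← h1] at h2
    have h5 : (2 : R) * M.charpoly.coeff (N - k) = 0 := by linear_combination h2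
    have h6 : IsUnit (2 : R) := by
      have := isUnit_natCast (R := R) (n := 2) (by norm_num)
      exact_mod_cast this
    exact (h6.mul_right_eq_zero).1 h5
  · exact charpoly_coeff_of_lt M (by omega)

/-- the sum of the entries of `f^k` -/
theorem isUnit_sum_Fk {k : ℕ} (hk : k < N) :
    IsUnit (∑ l : Fin (N - k), ((Fk N k l : ℕ) : R)) := by
  rw [← Nat.cast_sum]
  apply isUnit_natCast
  have h : 0 < ∑ l : Fin (N - k), Fk N k l := by
    refine Finset.sum_pos (fun l _ => Fk_pos (by have := l.2; omega)) ?_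
    exact ⟨⟨0, by omega⟩, Finset.mem_univ _⟩
  omega

omit [Algebra ℂ R] in
theorem Sl_sub_apply (a a' : Fin (N / 2) → R) (i l : Fin N) : Sl a i l - Sl a' i l =
    ∑ m, (a m - a' m) * (if (i : ℕ) = (l : ℕ) + (2 * (m : ℕ) + 1) then
      ((Fk N (2 * (m : ℕ) + 1) l : ℕ) : R) else 0) := by
  rw [Sl_apply, Sl_apply, add_sub_add_left_eq_sub, ← Finset.sum_sub_distrib]
  refine Finset.sum_congr rfl fun m _ => ?_
  ring

omit [Algebra ℂ R] in
/-- effect of changing the coordinates from the index `m` on -/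
theorem Sl_diff (a a' : Fin (N / 2) → R) (m : Fin (N / 2)) (h : ∀ m' < m, a m' = a' m') :
    (∀ k, N < k + (2 * (m : ℕ) + 1) + 1 → ((Sl a).charpoly - (Sl a').charpoly).coeff k = 0) ∧
    ((Sl a).charpoly - (Sl a').charpoly).coeff (N - 1 - (2 * (m : ℕ) + 1)) =
      - ((a m - a' m) * ∑ l : Fin (N - (2 * (m : ℕ) + 1)),
        ((Fk N (2 * (m : ℕ) + 1) l : ℕ) : R)) := by
  have hm := m.2
  have hj : 2 * (m : ℕ) + 1 < N := by omega
  have key : ∀ i l : Fin N, (i : ℕ) < (l : ℕ) + (2 * (m : ℕ) + 1) → Sl a i l = Sl a' i l := by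
    intro i l hil
    rw [← sub_eq_zero, Sl_sub_apply]
    refine Finset.sum_eq_zero fun m' _ => ?_
    by_cases hm' : m' < m
    · rw [h m' hm', sub_self, zero_mul]
    · rw [if_neg, mul_zero]
      have : (m : ℕ) ≤ (m' : ℕ) := by
        rw [not_lt] at hm'
        exact hm'
      omega
  have h2 := hess_diff (isHess_Sl a) (isHess_Sl a') (2 * (m : ℕ) + 1) hj key
  refine ⟨h2.1, ?_⟩
  rw [h2.2, Finset.mul_sum]
  congr 1
  refine Finset.sum_congr rfl fun l _ => ?_
  rw [Sl_sub_apply, Finset.sum_eq_single m]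
  · rw [if_pos rfl]
  · intro b _ hb
    rw [if_neg, mul_zero]
    intro h'
    apply hb
    apply Fin.ext
    simp only at h'
    omega
  · intro h'
    exact absurd (Finset.mem_univ _) h'

theorem Sl_injective {a a' : Fin (N / 2) → R} (h : (Sl a).charpoly = (Sl a').charpoly) :
    a = a' := by
  have key : ∀ (n : ℕ) (hn : n < N / 2), a ⟨n, hn⟩ = a' ⟨n, hn⟩ := by
    intro n
    induction n using Nat.strong_induction_on with
    | _ n ih =>
    intro hn
    have h1 := (Sl_diff a a' ⟨n, hn⟩ (fun m' hm' => ih m' hm' m'.2)).2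
    rw [h, sub_self, Polynomial.coeff_zero] at h1
    have h2 : (a ⟨n, hn⟩ - a' ⟨n, hn⟩) * ∑ l : Fin (N - (2 * n + 1)),
        ((Fk N (2 * n + 1) l : ℕ) : R) = 0 := by
      rw [← neg_eq_zero]
      exact h1.symm
    have h3 := isUnit_sum_Fk (R := R) (N := N) (k := 2 * n + 1) (by omega)
    exact sub_eq_zero.1 ((h3.mul_left_eq_zero).1 h2)
  funext m
  exact key m m.2

theorem exists_Sl_charpoly (M : Matrix (Fin N) (Fin N) R) (hM : IsLie M) :
    ∃ a : Fin (N / 2) → R, (Sl a).charpoly = M.charpoly := by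
  have key : ∀ t : ℕ, t ≤ N / 2 → ∃ a : Fin (N / 2) → R, ∀ m, N ≤ m + 2 * t →
      ((Sl a).charpoly - M.charpoly).coeff m = 0 := by
    intro t
    induction t with
    | zero =>
      intro _
      refine ⟨fun _ => 0, fun m hm => ?_⟩
      rw [Polynomial.coeff_sub]
      rcases Nat.lt_or_ge N m with h | h
      · rw [charpoly_coeff_of_lt _ h, charpoly_coeff_of_lt _ h, sub_zero]
      · have : m = N := by omega
        subst this
        rw [charpoly_coeff_self, charpoly_coeff_self, sub_self]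
    | succ t ih =>
      intro ht
      obtain ⟨a, ha⟩ := ih (by omega)
      have htN : t < N / 2 := by omega
      obtain ⟨v, hv⟩ := isUnit_sum_Fk (R := R) (N := N) (k := 2 * t + 1) (by omega)
      set D := ((Sl a).charpoly - M.charpoly).coeff (N - 1 - (2 * t + 1)) with hD
      set τ : R := D * ((v⁻¹ : Rˣ) : R) with hτ
      refine ⟨Function.update a ⟨t, htN⟩ (a ⟨t, htN⟩ + τ), fun m hm => ?_⟩
      have h1 := Sl_diff (Function.update a ⟨t, htN⟩ (a ⟨t, htN⟩ + τ)) a ⟨t, htN⟩
        (fun m' hm' => Function.update_of_ne (ne_of_lt hm') _ _)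
      have e : ∀ k, ((Sl (Function.update a ⟨t, htN⟩ (a ⟨t, htN⟩ + τ))).charpoly -
          M.charpoly).coeff k = ((Sl (Function.update a ⟨t, htN⟩ (a ⟨t, htN⟩ + τ))).charpoly -
          (Sl a).charpoly).coeff k + ((Sl a).charpoly - M.charpoly).coeff k := by
        intro k
        rw [← Polynomial.coeff_add, sub_add_sub_cancel]
      by_cases hm1 : N ≤ m + 2 * t
      · rw [e, ha m hm1, h1.1 m (by simp only; omega), add_zero]
      · by_cases hm2 : m = N - 1 - (2 * t + 1)
        · have h2 := h1.2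
          simp only at h2
          rw [← hm2] at h2
          rw [e, h2, hm2, ← hD, Function.update_self, add_sub_cancel_left, ← hv, hτ, mul_assoc,
            Units.inv_mul, mul_one, neg_add_cancel]
        · have hodd : Odd (N + m) := ⟨m + t, by omega⟩
          rw [Polynomial.coeff_sub, charpoly_parity (isLie_Sl _) hodd, charpoly_parity hM hodd,
            sub_zero]
  obtain ⟨a, ha⟩ := key (N / 2) le_rfl
  refine ⟨a, ?_⟩
  rw [← sub_eq_zero]
  ext m
  rw [Polynomial.coeff_zero]
  by_cases hm : N ≤ m + 2 * (N / 2)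
  · exact ha m hm
  · have hodd : Odd (N + m) := ⟨N / 2 + m, by omega⟩
    rw [Polynomial.coeff_sub, charpoly_parity (isLie_Sl _) hodd, charpoly_parity hM hodd,
      sub_zero]

end charpoly

/-! ### Factorization of polynomials with parity -/

section roots

variable {R : Type*} [CommRing R] {N : ℕ}

theorem xx_low (x : Fin (N / 2) → R) (i : Fin N) (h : (i : ℕ) < N / 2) :
    xx x i = x ⟨i, h⟩ := by
  unfold xx
  rw [Finset.sum_eq_single ⟨i, h⟩]
  · have h2 : ¬ (((Fin.rev i : Fin N) : ℕ) = ((⟨i, h⟩ : Fin (N / 2)) : ℕ)) := by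
      rw [Fin.val_rev]
      simp only
      omega
    simp only [wt, if_neg h2]
    simp
  · intro k _ hk
    have hk2 := k.2
    have h1 : ¬ ((i : ℕ) = (k : ℕ)) := fun h' => hk (Fin.ext h'.symm)
    have h2 : ¬ (((Fin.rev i : Fin N) : ℕ) = (k : ℕ)) := by rw [Fin.val_rev]; omega
    simp only [wt, if_neg h1, if_neg h2]
    simp
  · intro h'
    exact absurd (Finset.mem_univ _) h'

theorem xx_mid (x : Fin (N / 2) → R) (i : Fin N) (h : N / 2 ≤ (i : ℕ))
    (h' : N / 2 ≤ ((Fin.rev i : Fin N) : ℕ)) : xx x i = 0 := by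
  unfold xx
  refine Finset.sum_eq_zero fun k _ => ?_
  have hk2 := k.2
  have h1 : ¬ ((i : ℕ) = (k : ℕ)) := by omega
  have h2 : ¬ (((Fin.rev i : Fin N) : ℕ) = (k : ℕ)) := by omega
  simp only [wt, if_neg h1, if_neg h2]
  simp

theorem prod_xx (x : Fin (N / 2) → ℂ) :
    (∏ i : Fin N, (Polynomial.X - Polynomial.C (xx x i)) : Polynomial ℂ) =
      Polynomial.X ^ (N % 2) *
        ∏ k : Fin (N / 2), (Polynomial.X ^ 2 - Polynomial.C (x k ^ 2)) := by
  set G : ℕ → Polynomial ℂ := fun t =>
    if h : t < N then Polynomial.X - Polynomial.C (xx x ⟨t, h⟩) else 1 with hG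
  have e0 : (∏ i : Fin N, (Polynomial.X - Polynomial.C (xx x i)) : Polynomial ℂ) =
      ∏ t ∈ Finset.range N, G t := by
    rw [← Fin.prod_univ_eq_prod_range]
    refine Finset.prod_congr rfl fun i _ => ?_
    rw [hG]
    simp only
    rw [dif_pos i.2]
  have e1 : ∏ t ∈ Finset.range (N / 2), G t =
      ∏ k : Fin (N / 2), (Polynomial.X - Polynomial.C (x k)) := by
    rw [← Fin.prod_univ_eq_prod_range]
    refine Finset.prod_congr rfl fun k _ => ?_
    have hk := k.2
    rw [hG]
    simp only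
    rw [dif_pos (by omega), xx_low x ⟨(k : ℕ), by omega⟩ hk]
  have e2 : ∏ t ∈ Finset.range (N % 2), G (N / 2 + t) = Polynomial.X ^ (N % 2) := by
    rw [Finset.prod_congr rfl (g := fun _ => Polynomial.X), Finset.prod_const, Finset.card_range]
    intro t ht
    have ht' := Finset.mem_range.1 ht
    rw [hG]
    simp only
    rw [dif_pos (by omega), xx_mid x ⟨N / 2 + t, by omega⟩ (by simp)
      (by rw [Fin.val_rev]; simp only; omega), Polynomial.C_0, sub_zero]
  have e3 : ∏ t ∈ Finset.range (N / 2), G (N / 2 + (N % 2 + t)) =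
      ∏ k : Fin (N / 2), (Polynomial.X + Polynomial.C (x k)) := by
    rw [← Finset.prod_range_reflect, ← Fin.prod_univ_eq_prod_range
      (fun j => G (N / 2 + (N % 2 + (N / 2 - 1 - j))))]
    refine Finset.prod_congr rfl fun k _ => ?_
    have hk := k.2
    rw [hG]
    simp only
    rw [dif_pos (by omega)]
    have e : (⟨N / 2 + (N % 2 + (N / 2 - 1 - (k : ℕ))), by omega⟩ : Fin N) =
        Fin.rev ⟨(k : ℕ), by omega⟩ := by
      apply Fin.ext
      rw [Fin.val_rev]
      simp only
      omega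
    rw [e, xx_rev, xx_low x ⟨(k : ℕ), by omega⟩ hk, Polynomial.C_neg, sub_neg_eq_add]
  have e4 : ∏ t ∈ Finset.range N, G t = (∏ t ∈ Finset.range (N / 2), G t) *
      ((∏ t ∈ Finset.range (N % 2), G (N / 2 + t)) *
        ∏ t ∈ Finset.range (N / 2), G (N / 2 + (N % 2 + t))) := by
    have hN : N = N / 2 + (N % 2 + N / 2) := by omega
    conv_lhs => rw [hN]
    rw [Finset.prod_range_add, Finset.prod_range_add]
  rw [e0, e4, e1, e2, e3, mul_left_comm, ← Finset.prod_mul_distrib]
  congr 1
  refine Finset.prod_congr rfl fun k _ => ?_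
  rw [Polynomial.C_pow]
  ring

/-- A monic complex polynomial of degree `n` is a product over `Fin n`. -/
theorem exists_prod (Q : Polynomial ℂ) (hQ : Q.Monic) (n : ℕ) (hn : Q.natDegree = n) :
    ∃ w : Fin n → ℂ, Q = ∏ k, (Polynomial.X - Polynomial.C (w k)) := by
  have h1 := (IsAlgClosed.splits Q).eq_prod_roots_of_monic hQ
  have h2 : Q.roots.toList.length = n := by
    rw [Multiset.length_toList, IsAlgClosed.card_roots_eq_natDegree, hn]
  subst h2
  refine ⟨fun k => Q.roots.toList[(k : ℕ)], ?_⟩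
  rw [Fin.prod_univ_fun_getElem Q.roots.toList (fun a => Polynomial.X - Polynomial.C a)]
  conv_lhs => rw [h1]
  conv_lhs => rw [← Multiset.coe_toList Q.roots]
  rw [Multiset.map_coe, Multiset.prod_coe]

theorem exists_roots (Q : Polynomial ℂ) (hQ : Q.Monic) (hd : Q.natDegree = N)
    (hpar : ∀ m, Odd (N + m) → Q.coeff m = 0) :
    ∃ x : Fin (N / 2) → ℂ, Q = ∏ i : Fin N, (Polynomial.X - Polynomial.C (xx x i)) := by
  set Q' : Polynomial ℂ := ∑ m ∈ Finset.range (N / 2 + 1),
    Polynomial.C (Q.coeff (2 * m + N % 2)) * Polynomial.X ^ m with hQ'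
  have hc : ∀ m, Q'.coeff m = Q.coeff (2 * m + N % 2) := by
    intro m
    rw [hQ', Polynomial.finsetSum_coeff]
    simp only [Polynomial.coeff_C_mul_X_pow]
    by_cases hm : m < N / 2 + 1
    · rw [Finset.sum_eq_single m]
      · rw [if_pos rfl]
      · intro b _ hb
        rw [if_neg (Ne.symm hb)]
      · intro h'
        exact absurd (Finset.mem_range.2 hm) h'
    · rw [Finset.sum_eq_zero]
      · rw [Polynomial.coeff_eq_zero_of_natDegree_lt]
        omega
      · intro b hb
        have := Finset.mem_range.1 hb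
        rw [if_neg (by omega)]
  have hexp : Q = Polynomial.X ^ (N % 2) * Polynomial.expand ℂ 2 Q' := by
    ext m
    rw [Polynomial.coeff_X_pow_mul', Polynomial.coeff_expand (by norm_num)]
    by_cases h1 : N % 2 ≤ m
    · rw [if_pos h1]
      by_cases h2 : 2 ∣ (m - N % 2)
      · rw [if_pos h2, hc]
        congr 1
        omega
      · rw [if_neg h2]
        apply hpar
        rw [Nat.odd_iff]
        omega
    · rw [if_neg h1]
      apply hpar
      rw [Nat.odd_iff]
      omega
  have hdeg : Q'.natDegree ≤ N / 2 := by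
    rw [Polynomial.natDegree_le_iff_coeff_eq_zero]
    intro m hm
    rw [hc, Polynomial.coeff_eq_zero_of_natDegree_lt]
    omega
  have hc1 : Q'.coeff (N / 2) = 1 := by
    rw [hc]
    have e : 2 * (N / 2) + N % 2 = Q.natDegree := by omega
    rw [e]
    exact hQ
  have hmon : Q'.Monic := Polynomial.monic_of_natDegree_le_of_coeff_eq_one _ hdeg hc1
  have hdeg' : Q'.natDegree = N / 2 :=
    Polynomial.natDegree_eq_of_le_of_coeff_ne_zero hdeg (by rw [hc1]; exact one_ne_zero)
  obtain ⟨w, hw⟩ := exists_prod Q' hmon (N / 2) hdeg'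
  have hsq : ∀ k, ∃ z : ℂ, z ^ 2 = w k := fun k => IsAlgClosed.exists_pow_nat_eq (w k) (by norm_num)
  choose x hx using hsq
  refine ⟨x, ?_⟩
  rw [prod_xx, hexp, hw, map_prod]
  congr 1
  refine Finset.prod_congr rfl fun k _ => ?_
  rw [map_sub, Polynomial.expand_X, Polynomial.expand_C, hx]

end roots

end SL

theorem isHess_of_mem_slice {N : ℕ} {s : Matrix (Fin N) (Fin N) ℂ} (hs : s ∈ slice N) :
    IsHess s := by
  obtain ⟨a, rfl⟩ := SL.exists_Sl hs
  exact SL.isHess_Sl a

theorem exists_slice_param (N : ℕ) :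
    ∃ sx px : Matrix (Fin N) (Fin N) (MvPolynomial (Fin (N / 2)) ℂ),
      LowUni px ∧ IsG px ∧ px * (em _ N + Dx MvPolynomial.X) = sx * px ∧
      (∀ x : Fin (N / 2) → ℂ, sx.map (MvPolynomial.eval x) ∈ slice N) ∧
      (∀ s ∈ slice N, ∃ x : Fin (N / 2) → ℂ, s = sx.map (MvPolynomial.eval x)) ∧
      (∀ x x' : Fin (N / 2) → ℂ,
        (∏ i : Fin N, (Polynomial.X - Polynomial.C (xx x i)) : Polynomial ℂ) =
          ∏ i : Fin N, (Polynomial.X - Polynomial.C (xx x' i)) →
        sx.map (MvPolynomial.eval x) = sx.map (MvPolynomial.eval x')) := by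
  set M : Matrix (Fin N) (Fin N) (MvPolynomial (Fin (N / 2)) ℂ) :=
    em _ N + Dx MvPolynomial.X with hM
  have hML : IsLie M := isLie_em.add (isLie_Dx _)
  have hMH : IsHess M := by
    constructor
    · intro i j h
      rw [hM, Matrix.add_apply, Dx, Matrix.diagonal_apply_ne _ (by
        intro h'
        rw [h'] at h
        omega)]
      simp [em, h]
    · intro i j h
      rw [hM, Matrix.add_apply, Dx, Matrix.diagonal_apply_ne _ (by
        intro h'
        rw [h'] at h
        omega)]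
      simp only [em, Matrix.of_apply]
      rw [if_neg (by omega), add_zero]
  obtain ⟨a, ha⟩ := SL.exists_Sl_charpoly M hML
  obtain ⟨px, hpx, hpx'⟩ := hess_intertwiner hMH (SL.isHess_Sl a) ha.symm
  have hmap : ∀ x : Fin (N / 2) → ℂ, (SL.Sl a).map (MvPolynomial.eval x) =
      SL.Sl (fun m => MvPolynomial.eval x (a m)) := fun x => SL.Sl_map _ _
  have hchar : ∀ x : Fin (N / 2) → ℂ, (SL.Sl (fun m => MvPolynomial.eval x (a m))).charpoly =
      ∏ i : Fin N, (Polynomial.X - Polynomial.C (xx x i)) := by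
    intro x
    rw [← hmap, Matrix.charpoly_map, ha, hM, Matrix.charpoly_of_isUpperTriangular,
      Polynomial.map_prod]
    · refine Finset.prod_congr rfl fun i _ => ?_
      rw [Polynomial.map_sub, Polynomial.map_X, Polynomial.map_C]
      congr 2
      rw [Matrix.add_apply, Dx, Matrix.diagonal_apply_eq, map_add, xx_map]
      simp [em]
    · intro i j hij
      have hij' : (j : ℕ) < (i : ℕ) := hij
      rw [Matrix.add_apply, Dx, Matrix.diagonal_apply_ne _ (by
        intro h'
        rw [h'] at hij'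
        omega)]
      simp only [em, Matrix.of_apply]
      rw [if_neg (by omega), add_zero]
  refine ⟨SL.Sl a, px, hpx, hess_intertwiner_isG hMH (SL.isHess_Sl a) hML (SL.isLie_Sl a) hpx hpx',
    hpx', ?_, ?_, ?_⟩
  · intro x
    rw [hmap]
    exact SL.Sl_mem_slice _
  · intro s hs
    obtain ⟨c, rfl⟩ := SL.exists_Sl hs
    obtain ⟨x, hx⟩ := SL.exists_roots (N := N) (SL.Sl c).charpoly (Matrix.charpoly_monic _)
      (by rw [Matrix.charpoly_natDegree_eq_dim, Fintype.card_fin])
      (fun m hm => SL.charpoly_parity (SL.isLie_Sl c) hm)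
    refine ⟨x, ?_⟩
    rw [hmap]
    congr 1
    apply SL.Sl_injective
    rw [hchar, hx]
  · intro x x' h
    rw [hmap, hmap]
    congr 1
    apply SL.Sl_injective
    rw [hchar, hchar, h]

end Pool.Agent.MP_c45d35_ag
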