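import Pool.Agent.MP_c45d35_ag.Hess
import Pool.Agent.MP_c45d35_ag.Slice

/-!
# Block E : the fundamental invariants `F^{(k)}`
-/

namespace Pool.Agent.MP_c45d35_ag

open Matrix Polynomial

namespace FK

section one

variable {A : Type*} [CommRing A] {k N : ℕ}

/-- The bidiagonal matrix with diagonal `z` and ones above. -/
def Tm (z : Fin k → A) : Matrix (Fin k) (Fin k) A :=
  Matrix.of fun i j => if i = j then z i else if (j : ℕ) = (i : ℕ) + 1 then 1 else 0

/-- Newton polynomials `∏_{i<l} (X - z_i)` at `z_j`. -/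
def Um (z : Fin k → A) : Matrix (Fin k) (Fin k) A :=
  Matrix.of fun l j => ∏ i ∈ Finset.univ.filter (· < l), (z j - z i)

/-- The Vandermonde determinant. -/
def Vd (z : Fin k → A) : A := ∏ i, ∏ j ∈ Finset.Ioi i, (z j - z i)

/-- The discriminant `∏_{i ≠ j} (z_i - z_j)`. -/
def V2 (z : Fin k → A) : A := ∏ i, ∏ j ∈ Finset.univ.erase i, (z i - z j)

theorem Um_det (z : Fin k → A) : (Um z).det = Vd z := by
  rw [Matrix.det_of_isUpperTriangular]
  · unfold Um Vd
    simp only [Matrix.of_apply]
    rw [Finset.prod_comm' (t' := Finset.univ) (s' := fun i => Finset.Ioi i)]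
    intro x y
    simp
  · intro l j hlj
    simp only [Um, Matrix.of_apply]
    apply Finset.prod_eq_zero (i := j)
    · simpa using hlj
    · simp

theorem V2_eq (z : Fin k → A) :
    V2 z = (∏ i, ∏ j ∈ Finset.Ioi i, (z i - z j)) * Vd z := by
  have h : ∀ i : Fin k, ∏ j ∈ Finset.univ.erase i, (z i - z j) =
      (∏ j ∈ Finset.Ioi i, (z i - z j)) * ∏ j ∈ Finset.Iio i, (z i - z j) := by
    intro i
    rw [← Finset.prod_union]
    · apply Finset.prod_congr _ (fun _ _ => rfl)
      ext j
      simp only [Finset.mem_erase, Finset.mem_univ, and_true, Finset.mem_union, Finset.mem_Ioi,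
        Finset.mem_Iio]
      constructor
      · intro h
        rcases lt_trichotomy i j with h1 | h1 | h1
        · exact Or.inl h1
        · exact absurd h1.symm h
        · exact Or.inr h1
      · rintro (h1 | h1)
        · exact h1.ne'
        · exact h1.ne
    · rw [Finset.disjoint_left]
      intro j hj hj'
      simp only [Finset.mem_Ioi, Finset.mem_Iio] at hj hj'
      exact absurd hj (not_lt.mpr hj'.le)
  unfold V2
  rw [Finset.prod_congr rfl (fun i _ => h i), Finset.prod_mul_distrib]
  congr 1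
  unfold Vd
  apply Finset.prod_comm'
  intro x y
  simp

/-- Columns of `Um` are eigenvectors of `Tm`. -/
theorem Tm_mul_Um (z : Fin k → A) : Tm z * Um z = Um z * Matrix.diagonal z := by
  ext l j
  rw [Matrix.mul_diagonal, Matrix.mul_apply]
  have hU : ∀ (l : Fin k), Um z l j = ∏ i ∈ Finset.univ.filter (· < l), (z j - z i) := fun _ => rfl
  by_cases hl : (l : ℕ) + 1 < k
  · have hne : l ≠ (⟨(l : ℕ) + 1, hl⟩ : Fin k) := by
      intro h
      have := congrArg Fin.val h
      simp at this
    have hsum : ∑ m, Tm z l m * Um z m j = Tm z l l * Um z l j +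
        Tm z l ⟨(l : ℕ) + 1, hl⟩ * Um z ⟨(l : ℕ) + 1, hl⟩ j := by
      rw [← Finset.sum_subset (Finset.subset_univ {l, (⟨(l : ℕ) + 1, hl⟩ : Fin k)}),
        Finset.sum_pair hne]
      intro m _ hm
      simp only [Finset.mem_insert, Finset.mem_singleton, not_or] at hm
      have h1 : ¬ (l = m) := fun h => hm.1 h.symm
      have h2 : ¬ ((m : ℕ) = (l : ℕ) + 1) := fun h => hm.2 (Fin.ext h)
      simp [Tm, h1, h2]
    rw [hsum]
    have h3 : Tm z l l = z l := by simp [Tm]
    have h4 : Tm z l ⟨(l : ℕ) + 1, hl⟩ = 1 := by simp [Tm, hne]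
    have h5 : Um z ⟨(l : ℕ) + 1, hl⟩ j = (z j - z l) * Um z l j := by
      rw [hU, hU]
      have : Finset.univ.filter (· < (⟨(l : ℕ) + 1, hl⟩ : Fin k)) =
          insert l (Finset.univ.filter (· < l)) := by
        ext m
        simp only [Finset.mem_filter, Finset.mem_univ, true_and, Finset.mem_insert, Fin.lt_def,
          Fin.ext_iff]
        omega
      rw [this, Finset.prod_insert (by simp)]
    rw [h3, h4, h5]
    ring
  · have hsum : ∑ m, Tm z l m * Um z m j = Tm z l l * Um z l j := by
      apply Finset.sum_eq_single l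
      · intro m _ hm
        have h1 : ¬ (l = m) := fun h => hm h.symm
        have h2 : ¬ ((m : ℕ) = (l : ℕ) + 1) := by
          have := m.isLt
          omega
        simp [Tm, h1, h2]
      · simp
    rw [hsum]
    have h3 : Tm z l l = z l := by simp [Tm]
    rw [h3]
    have h6 : (z j - z l) * Um z l j = 0 := by
      rw [hU, ← Finset.prod_insert (f := fun i => z j - z i) (by simp)]
      apply Finset.prod_eq_zero (i := j)
      · simp only [Finset.mem_insert, Finset.mem_filter, Finset.mem_univ, true_and]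
        rcases lt_or_ge j l with h | h
        · exact Or.inr h
        · left
          apply le_antisymm
          · rw [Fin.le_def]
            have := j.isLt
            omega
          · exact h
      · simp
    linear_combination (-1 : A) * h6

/-- Intertwiners intertwine polynomials. -/
theorem aeval_intertwine {m n : Type*} [Fintype m] [DecidableEq m] [Fintype n] [DecidableEq n]
    (X : Matrix m m A) (Y : Matrix n n A) (C : Matrix m n A)
    (h : X * C = C * Y) (p : A[X]) : aeval X p * C = C * aeval Y p := by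
  induction p using Polynomial.induction_on' with
  | add p q hp hq => rw [map_add, map_add, Matrix.add_mul, Matrix.mul_add, hp, hq]
  | monomial i a =>
    have hpow : ∀ i : ℕ, X ^ i * C = C * Y ^ i := by
      intro i
      induction i with
      | zero => simp
      | succ i ih =>
        rw [pow_succ, Matrix.mul_assoc, h, ← Matrix.mul_assoc, ih, Matrix.mul_assoc, ← pow_succ]
    rw [aeval_monomial, aeval_monomial, Matrix.mul_assoc, hpow]
    rw [Algebra.algebraMap_eq_smul_one, Algebra.algebraMap_eq_smul_one]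
    simp

theorem aeval_diagonal (z : Fin k → A) (p : A[X]) :
    aeval (Matrix.diagonal z) p = Matrix.diagonal fun i => p.eval (z i) := by
  induction p using Polynomial.induction_on' with
  | add p q hp hq => rw [map_add, hp, hq, Matrix.diagonal_add]; simp
  | monomial i a =>
    rw [aeval_monomial, Matrix.diagonal_pow, Matrix.algebraMap_eq_diagonal,
      Matrix.diagonal_mul_diagonal]
    congr 1
    ext j
    simp

/-- Upper triangular matrices with given diagonal. -/
def UT (M : Matrix (Fin k) (Fin k) A) (d : Fin k → A) : Prop :=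
  (∀ i j, j < i → M i j = 0) ∧ ∀ i, M i i = d i

theorem UT.mul {M M' : Matrix (Fin k) (Fin k) A} {d d' : Fin k → A} (h : UT M d)
    (h' : UT M' d') : UT (M * M') (fun i => d i * d' i) := by
  constructor
  · intro i j hij
    rw [Matrix.mul_apply]
    apply Finset.sum_eq_zero
    intro l _
    rcases lt_or_ge l i with hl | hl
    · rw [h.1 i l hl, zero_mul]
    · rw [h'.1 l j (lt_of_lt_of_le hij hl), mul_zero]
  · intro i
    rw [Matrix.mul_apply, Finset.sum_eq_single i, h.2, h'.2]
    · intro l _ hl
      rcases lt_or_gt_of_ne hl with hl | hl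
      · rw [h.1 i l hl, zero_mul]
      · rw [h'.1 l i hl, mul_zero]
    · simp

theorem UT.pow {M : Matrix (Fin k) (Fin k) A} {d : Fin k → A} (h : UT M d) (n : ℕ) :
    UT (M ^ n) (fun i => d i ^ n) := by
  induction n with
  | zero =>
    constructor
    · intro i j hij
      rw [pow_zero, Matrix.one_apply_ne hij.ne']
    · intro i
      simp
  | succ n ih =>
    have := ih.mul h
    simp only [pow_succ]
    exact this

theorem UT.aeval {M : Matrix (Fin k) (Fin k) A} {d : Fin k → A} (h : UT M d) (p : A[X]) :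
    UT (Polynomial.aeval M p) (fun i => p.eval (d i)) := by
  induction p using Polynomial.induction_on' with
  | add p q hp hq =>
    constructor
    · intro i j hij
      rw [map_add, Matrix.add_apply, hp.1 i j hij, hq.1 i j hij, add_zero]
    · intro i
      rw [map_add, Matrix.add_apply, hp.2 i, hq.2 i]
      exact (Polynomial.eval_add).symm
  | monomial n a =>
    have hp := h.pow n
    constructor
    · intro i j hij
      rw [aeval_monomial, Matrix.algebraMap_eq_diagonal, Matrix.diagonal_mul, hp.1 i j hij,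
        mul_zero]
    · intro i
      rw [aeval_monomial, Matrix.algebraMap_eq_diagonal, Matrix.diagonal_mul, hp.2 i]
      simp

theorem UT.det {M : Matrix (Fin k) (Fin k) A} {d : Fin k → A} (h : UT M d) :
    M.det = ∏ i, d i := by
  rw [Matrix.det_of_isUpperTriangular]
  · exact Finset.prod_congr rfl fun i _ => h.2 i
  · intro i j hij
    exact h.1 i j hij

theorem UT_Tm (z : Fin k → A) : UT (Tm z) z := by
  constructor
  · intro i j hij
    have h1 : ¬ (i = j) := hij.ne'
    have h2 : ¬ ((j : ℕ) = (i : ℕ) + 1) := by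
      rw [Fin.lt_def] at hij
      omega
    simp [Tm, h1, h2]
  · intro i
    simp [Tm]

theorem det_aeval_Tm (z : Fin k → A) (p : A[X]) :
    (aeval (Tm z) p).det = ∏ i, p.eval (z i) := ((UT_Tm z).aeval p).det


/-! ### The matrix of divided differences -/

/-- Rows `e_0^T p_i(T)`, the divided differences of `p_i` at `z_0, ..., z_l`. -/
noncomputable def Cm (s : Matrix (Fin N) (Fin N) A) (z : Fin k → A) : Matrix (Fin N) (Fin k) A :=
  Matrix.of fun i l => (aeval (Tm z) (hp s i)) ⟨0, l.pos⟩ l

/-- The values `p_i(z_j)`. -/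
noncomputable def Vm (s : Matrix (Fin N) (Fin N) A) (z : Fin k → A) : Matrix (Fin N) (Fin k) A :=
  Matrix.of fun i j => (hp s i).eval (z j)

theorem Um_zero (z : Fin k → A) (j : Fin k) (i : Fin k) (hi : (i : ℕ) = 0) : Um z i j = 1 := by
  unfold Um
  simp only [Matrix.of_apply]
  apply Finset.prod_eq_one
  intro l hl
  simp only [Finset.mem_filter, Finset.mem_univ, true_and] at hl
  rw [Fin.lt_def] at hl
  omega

/-- Newton interpolation. -/
theorem aeval_Tm_Um (z : Fin k → A) (p : A[X]) (j : Fin k) :
    ∑ l, (aeval (Tm z) p) ⟨0, j.pos⟩ l * Um z l j = p.eval (z j) := by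
  have h := aeval_intertwine (Tm z) (Matrix.diagonal z) (Um z) (Tm_mul_Um z) p
  have h1 := congrFun (congrFun h ⟨0, j.pos⟩) j
  rw [aeval_diagonal, Matrix.mul_diagonal, Matrix.mul_apply, Um_zero z j _ rfl, one_mul] at h1
  exact h1

theorem Cm_mul_Um (s : Matrix (Fin N) (Fin N) A) (z : Fin k → A) :
    Cm s z * Um z = Vm s z := by
  ext i j
  rw [Matrix.mul_apply]
  exact aeval_Tm_Um z (hp s i) j

/-- The recursion of the polynomials `p_i` as an identity of polynomials. -/
theorem hp_rec {s : Matrix (Fin N) (Fin N) A} (hs : IsHess s) (i : Fin N) :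
    ∑ l, Polynomial.C (s i l) * hp s l =
      hp s i * Polynomial.X - (if (i : ℕ) + 1 = N then hp s N else 0) := by
  have hs' : IsHess (s.map (Polynomial.C : A →+* A[X])) := by
    constructor
    · intro i j hij
      simp [hs.1 i j hij]
    · intro i j hij
      simp [hs.2 i j hij]
  have h := hess_mulVec hs' Polynomial.X i
  have he : ∀ n : ℕ, (hp (s.map (Polynomial.C : A →+* A[X])) n).eval Polynomial.X = hp s n := by
    intro n
    rw [hp_map, Polynomial.eval_map, Polynomial.eval₂_C_X]
  simp only [he] at h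
  rw [mul_comm (hp s i), ← h]
  simp [Matrix.mulVec, dotProduct]

/-- `s C = C T` when the first row of `p_N(T)` vanishes. -/
theorem mul_Cm {s : Matrix (Fin N) (Fin N) A} (hs : IsHess s) (z : Fin k → A)
    (h0 : ∀ l : Fin k, (aeval (Tm z) (hp s N)) ⟨0, l.pos⟩ l = 0) :
    s * Cm s z = Cm s z * Tm z := by
  ext i l
  have h := congrArg (fun p : A[X] => (aeval (Tm z) p) ⟨0, l.pos⟩ l) (hp_rec hs i)
  simp only [map_sum, map_mul, Matrix.sum_apply, map_sub, Matrix.sub_apply, aeval_C,
    Matrix.algebraMap_eq_diagonal, aeval_X] at h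
  have h1 : (aeval (Tm z) (if (i : ℕ) + 1 = N then hp s N else 0)) ⟨0, l.pos⟩ l = 0 := by
    split_ifs
    · exact h0 l
    · simp
  rw [h1, sub_zero] at h
  have h3 : ∀ c : Fin N, (Matrix.diagonal ((algebraMap A (Fin k → A)) (s i c)) *
      (aeval (Tm z)) (hp s c)) ⟨0, l.pos⟩ l = s i c * Cm s z c l := by
    intro c
    rw [Matrix.diagonal_mul]
    rfl
  rw [Finset.sum_congr rfl (fun c _ => h3 c)] at h
  rw [Matrix.mul_apply, h, Matrix.mul_apply, Matrix.mul_apply]
  rfl

/-- The reduced minor: `det ((g v(z_j))_{I_i})` divided by the Vandermonde determinant. -/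
noncomputable def Wm (I : Fin k → Fin N) (g s : Matrix (Fin N) (Fin N) A) (z : Fin k → A) : A :=
  ((g * Cm s z).submatrix I id).det

theorem Wm_mul_Vd (I : Fin k → Fin N) (g s : Matrix (Fin N) (Fin N) A) (z : Fin k → A) :
    Wm I g s z * Vd z = ((g * Vm s z).submatrix I id).det := by
  rw [Wm, ← Um_det, ← Matrix.det_mul, ← Cm_mul_Um, ← Matrix.mul_assoc]
  rfl

theorem Wm_mul_aeval {s : Matrix (Fin N) (Fin N) A} {z : Fin k → A}
    (h : s * Cm s z = Cm s z * Tm z) (I : Fin k → Fin N) (g : Matrix (Fin N) (Fin N) A)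
    (Q : A[X]) : Wm I (g * aeval s Q) s z = Wm I g s z * ∏ l, Q.eval (z l) := by
  rw [Wm, Wm, ← det_aeval_Tm, ← Matrix.det_mul, Matrix.mul_assoc,
    aeval_intertwine s (Tm z) (Cm s z) h Q, ← Matrix.mul_assoc]
  rfl

theorem map_aeval {B : Type*} [CommRing B] (φ : A →+* B) {n : ℕ} (T : Matrix (Fin n) (Fin n) A)
    (p : A[X]) : (aeval T p).map φ = aeval (T.map φ) (p.map φ) := by
  rw [Polynomial.aeval_def, Polynomial.aeval_def, Polynomial.eval₂_map]
  have h := Polynomial.hom_eval₂ p (algebraMap A (Matrix (Fin n) (Fin n) A)) φ.mapMatrix T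
  rw [RingHom.mapMatrix_apply] at h
  rw [h]
  congr 1
  ext a i j
  simp [Matrix.algebraMap_matrix_apply]
  split_ifs <;> simp

theorem map_Tm {B : Type*} [CommRing B] (φ : A →+* B) (z : Fin k → A) :
    (Tm z).map φ = Tm (fun i => φ (z i)) := by
  ext i j
  simp only [Matrix.map_apply, Tm, Matrix.of_apply]
  split_ifs <;> simp

theorem map_Cm {B : Type*} [CommRing B] (φ : A →+* B) (s : Matrix (Fin N) (Fin N) A)
    (z : Fin k → A) : (Cm s z).map φ = Cm (s.map φ) (fun i => φ (z i)) := by
  ext i l
  simp only [Matrix.map_apply, Cm, Matrix.of_apply]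
  rw [hp_map, ← map_Tm, ← map_aeval]
  rfl

theorem map_Wm {B : Type*} [CommRing B] (φ : A →+* B) (I : Fin k → Fin N)
    (g s : Matrix (Fin N) (Fin N) A) (z : Fin k → A) :
    φ (Wm I g s z) = Wm I (g.map φ) (s.map φ) (fun i => φ (z i)) := by
  rw [Wm, Wm, ← map_Cm, RingHom.map_det, RingHom.mapMatrix_apply, ← Matrix.map_mul]
  rfl

theorem map_V2 {B : Type*} [CommRing B] (φ : A →+* B) (z : Fin k → A) :
    φ (V2 z) = V2 (fun i => φ (z i)) := by
  simp [V2]

end one

/-! ### The functional `ρ` -/

section rho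

variable {R : Type*} [CommRing R] {k N : ℕ}

/-- The linear form on polynomials with moments `c`, in each variable. -/
noncomputable def rho (c : ℕ → R) : MvPolynomial (Fin k) R →ₗ[R] R :=
  (MvPolynomial.basisMonomials (Fin k) R).constr R (fun m => ∏ j, c (m j))

theorem rho_monomial (c : ℕ → R) (m : Fin k →₀ ℕ) (a : R) :
    rho c (MvPolynomial.monomial m a) = a * ∏ j, c (m j) := by
  have h1 : MvPolynomial.monomial m a = a • (MvPolynomial.basisMonomials (Fin k) R m) := by
    rw [MvPolynomial.coe_basisMonomials, MvPolynomial.smul_monomial, smul_eq_mul, mul_one]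
  rw [h1, map_smul, rho, Module.Basis.constr_basis, smul_eq_mul]

theorem rho_map {R' : Type*} [CommRing R'] (φ : R →+* R') (c : ℕ → R)
    (f : MvPolynomial (Fin k) R) :
    rho (fun n => φ (c n)) (MvPolynomial.map φ f) = φ (rho c f) := by
  induction f using MvPolynomial.induction_on' with
  | add p q hp hq => simp only [map_add, hp, hq]
  | monomial m a => rw [MvPolynomial.map_monomial, rho_monomial, rho_monomial, map_mul, map_prod]

theorem rho_sum {ι : Type*} [Fintype ι] [DecidableEq ι] (w x : ι → R)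
    (f : MvPolynomial (Fin k) R) :
    rho (fun n => ∑ r, w r * x r ^ n) f =
      ∑ r : Fin k → ι, (∏ j, w (r j)) * MvPolynomial.eval (fun j => x (r j)) f := by
  induction f using MvPolynomial.induction_on' with
  | add p q hp hq => simp only [map_add, hp, hq, mul_add, Finset.sum_add_distrib]
  | monomial m a =>
    rw [rho_monomial, Finset.prod_univ_sum, Finset.mul_sum]
    rw [Fintype.piFinset_univ]
    apply Finset.sum_congr rfl
    intro r _
    rw [MvPolynomial.eval_monomial, Finset.prod_mul_distrib, Finsupp.prod_fintype]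
    · ring
    · simp

theorem rho_kill (c : ℕ → R) (T : R[X])
    (hT : ∀ m, ∑ i ∈ Finset.range (T.natDegree + 1), T.coeff i * c (m + i) = 0) (j : Fin k)
    (f : MvPolynomial (Fin k) R) : rho c (f * aeval (MvPolynomial.X j) T) = 0 := by
  induction f using MvPolynomial.induction_on' with
  | add p q hp hq => rw [add_mul, map_add, hp, hq, add_zero]
  | monomial m a =>
    rw [Polynomial.aeval_eq_sum_range, Finset.mul_sum, map_sum]
    have h : ∀ i, rho c (MvPolynomial.monomial m a * T.coeff i • MvPolynomial.X j ^ i) =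
        (a * ∏ l ∈ Finset.univ.erase j, c (m l)) * (T.coeff i * c (m j + i)) := by
      intro i
      have h1 : MvPolynomial.monomial m a * T.coeff i • (MvPolynomial.X j : MvPolynomial (Fin k) R) ^ i
          = MvPolynomial.monomial (m + Finsupp.single j i) (a * T.coeff i) := by
        rw [MvPolynomial.X_pow_eq_monomial, MvPolynomial.smul_monomial,
          MvPolynomial.monomial_mul, smul_eq_mul, mul_one]
      rw [h1, rho_monomial, ← Finset.mul_prod_erase Finset.univ _ (Finset.mem_univ j)]
      have h2 : ∏ l ∈ Finset.univ.erase j, c ((m + Finsupp.single j i) l) =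
          ∏ l ∈ Finset.univ.erase j, c (m l) := by
        apply Finset.prod_congr rfl
        intro l hl
        rw [Finset.mem_erase] at hl
        rw [Finsupp.add_apply, Finsupp.single_eq_of_ne hl.1, add_zero]
      rw [h2, Finsupp.add_apply, Finsupp.single_eq_same]
      ring
    rw [Finset.sum_congr rfl (fun i _ => h i), ← Finset.mul_sum, hT, mul_zero]

/-- The moments `(s^m)_{0,N-1}`. -/
noncomputable def mom (s : Matrix (Fin N) (Fin N) R) (m : ℕ) : R :=
  if h : 0 < N then (s ^ m) ⟨0, h⟩ ⟨N - 1, by omega⟩ else 0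

theorem mom_map {R' : Type*} [CommRing R'] (φ : R →+* R') (s : Matrix (Fin N) (Fin N) R)
    (m : ℕ) : mom (s.map φ) m = φ (mom s m) := by
  unfold mom
  split_ifs
  · rw [← Matrix.map_pow]
    rfl
  · simp

theorem mom_pos (s : Matrix (Fin N) (Fin N) R) (h : 0 < N) (m : ℕ) :
    mom s m = (s ^ m) ⟨0, h⟩ ⟨N - 1, by omega⟩ := dif_pos h

theorem mom_kill (s : Matrix (Fin N) (Fin N) R) (T : R[X]) (hT : aeval s T = 0) (m : ℕ) :
    ∑ i ∈ Finset.range (T.natDegree + 1), T.coeff i * mom s (m + i) = 0 := by
  by_cases h : 0 < N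
  · have h1 : (s ^ m * aeval s T) ⟨0, h⟩ ⟨N - 1, by omega⟩ = 0 := by
      rw [hT, mul_zero, Matrix.zero_apply]
    rw [Polynomial.aeval_eq_sum_range, Finset.mul_sum, Matrix.sum_apply] at h1
    rw [← h1]
    apply Finset.sum_congr rfl
    intro i _
    rw [Matrix.mul_smul, ← pow_add, Matrix.smul_apply, smul_eq_mul, mom_pos s h]
  · apply Finset.sum_eq_zero
    intro i _
    rw [mom, dif_neg h, mul_zero]

end rho

/-! ### The function `F` and its invariance -/

section phi

variable {R : Type*} [CommRing R] {k N b : ℕ}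

/-- The product of the reduced minors, over the polynomial ring in `z`. -/
noncomputable def Wp (I : Fin b → Fin k → Fin N) (g : Fin b → Matrix (Fin N) (Fin N) R)
    (s : Matrix (Fin N) (Fin N) R) : MvPolynomial (Fin k) R :=
  ∏ a, Wm (I a) ((g a).map (MvPolynomial.C : R →+* MvPolynomial (Fin k) R))
    (s.map (MvPolynomial.C : R →+* MvPolynomial (Fin k) R)) MvPolynomial.X

/-- The function `F`. -/
noncomputable def Phi (I : Fin b → Fin k → Fin N) (g : Fin b → Matrix (Fin N) (Fin N) R)
    (s : Matrix (Fin N) (Fin N) R) : R :=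
  rho (mom s) (V2 (MvPolynomial.X : Fin k → MvPolynomial (Fin k) R) * Wp I g s)

theorem Phi_map {R' : Type*} [CommRing R'] (φ : R →+* R') (I : Fin b → Fin k → Fin N)
    (g : Fin b → Matrix (Fin N) (Fin N) R) (s : Matrix (Fin N) (Fin N) R) :
    φ (Phi I g s) = Phi I (fun a => (g a).map φ) (s.map φ) := by
  have hm : mom (s.map φ) = fun n => φ (mom s n) := funext fun n => mom_map φ s n
  rw [Phi, Phi, hm, ← rho_map, map_mul, map_V2, Wp, map_prod, Wp]
  congr 2
  · congr 1
    ext i
    simp
  · apply Finset.prod_congr rfl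
    intro a _
    rw [map_Wm]
    congr 1
    · ext i j
      simp
    · ext i j
      simp
    · ext i
      simp

/-- The ideal of the polynomials whose multiples by `V2` are killed by `ρ`. -/
noncomputable def Kid (k : ℕ) (c : ℕ → R) : Ideal (MvPolynomial (Fin k) R) where
  carrier := {f | ∀ g, rho c (V2 MvPolynomial.X * f * g) = 0}
  add_mem' := by
    intro f f' hf hf' g
    rw [mul_add, add_mul, map_add, hf g, hf' g, add_zero]
  zero_mem' := by
    intro g
    simp
  smul_mem' := by
    intro a f hf g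
    have h := hf (a * g)
    rw [← h]
    congr 1
    rw [smul_eq_mul]
    ring

theorem mem_Kid {c : ℕ → R} {f : MvPolynomial (Fin k) R} :
    f ∈ Kid k c ↔ ∀ g, rho c (V2 MvPolynomial.X * f * g) = 0 := Iff.rfl

theorem aeval_mem_Kid (s : Matrix (Fin N) (Fin N) R) (T : R[X]) (hT : aeval s T = 0)
    (j : Fin k) : aeval (MvPolynomial.X j) T ∈ Kid k (mom s) := by
  intro g
  have h := rho_kill (mom s) T (mom_kill s T hT) j (V2 MvPolynomial.X * g)
  rw [← h]
  congr 1
  ring

/-- The first row of `p_N(T)` is in the ideal. -/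
theorem row_mem_Kid {s : Matrix (Fin N) (Fin N) R} (hs : IsHess s) (l : Fin k) :
    (aeval (Tm (MvPolynomial.X : Fin k → MvPolynomial (Fin k) R))
      (hp (s.map (MvPolynomial.C : R →+* MvPolynomial (Fin k) R)) N)) ⟨0, l.pos⟩ l ∈
        Kid k (mom s) := by
  have hch : aeval s (hp s N) = 0 := by
    rw [← charpoly_eq_hp hs]
    exact Matrix.aeval_self_charpoly s
  set P : Polynomial (MvPolynomial (Fin k) R) :=
    hp (s.map (MvPolynomial.C : R →+* MvPolynomial (Fin k) R)) N with hP
  set z : Fin k → MvPolynomial (Fin k) R := MvPolynomial.X with hz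
  set ρ : Fin k → MvPolynomial (Fin k) R := fun l => (aeval (Tm z) P) ⟨0, l.pos⟩ l with hρ
  have h1 : ρ ᵥ* Um z = fun j => P.eval (z j) := by
    ext1 j
    exact aeval_Tm_Um z P j
  have h2 : (fun j => P.eval (z j)) ᵥ* (Um z).adjugate = Vd z • ρ := by
    rw [← h1, Matrix.vecMul_vecMul, Matrix.mul_adjugate, Um_det, Matrix.vecMul_smul,
      Matrix.vecMul_one]
  have h3 : Vd z * ρ l = ∑ j, P.eval (z j) * (Um z).adjugate j l := by
    have := congrFun h2 l
    rw [Pi.smul_apply, smul_eq_mul] at this
    rw [← this]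
    rfl
  have h4 : ∀ j, P.eval (z j) = aeval (MvPolynomial.X j) (hp s N) := by
    intro j
    rw [hP, hp_map, Polynomial.eval_map]
    rfl
  show ρ l ∈ Kid k (mom s)
  intro g
  have h5 : V2 (MvPolynomial.X : Fin k → MvPolynomial (Fin k) R) * ρ l * g =
      ∑ j, ((∏ i, ∏ j ∈ Finset.Ioi i, (z i - z j)) * (Um z).adjugate j l * g) *
        aeval (MvPolynomial.X j) (hp s N) := by
    rw [V2_eq, ← hz, mul_assoc _ (Vd z), h3, Finset.mul_sum, Finset.sum_mul]
    apply Finset.sum_congr rfl
    intro j _
    rw [h4]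
    ring
  rw [h5, map_sum]
  exact Finset.sum_eq_zero fun j _ => rho_kill (mom s) _ (mom_kill s _ hch) j _

theorem Phi_inv (I : Fin b → Fin k → Fin N) (g : Fin b → Matrix (Fin N) (Fin N) R)
    {s : Matrix (Fin N) (Fin N) R} (hs : IsHess s) (Q : Fin b → R[X])
    (hQ : aeval s (∏ a, Q a) = 1) :
    Phi I (fun a => g a * aeval s (Q a)) s = Phi I g s := by
  set θ : MvPolynomial (Fin k) R →+* MvPolynomial (Fin k) R ⧸ Kid k (mom s) :=
    Ideal.Quotient.mk (Kid k (mom s)) with hθ
  set ψ : R →+* MvPolynomial (Fin k) R ⧸ Kid k (mom s) :=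
    θ.comp (MvPolynomial.C : R →+* MvPolynomial (Fin k) R) with hψ
  set z' : Fin k → MvPolynomial (Fin k) R ⧸ Kid k (mom s) := fun j => θ (MvPolynomial.X j)
    with hz'
  have hs' : IsHess (s.map ψ) := by
    constructor
    · intro i j hij
      rw [Matrix.map_apply, hs.1 i j hij, map_one]
    · intro i j hij
      rw [Matrix.map_apply, hs.2 i j hij, map_zero]
  have hmm : ∀ M : Matrix (Fin N) (Fin N) R,
      (M.map (MvPolynomial.C : R →+* MvPolynomial (Fin k) R)).map θ = M.map ψ := by
    intro M
    ext i j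
    rfl
  have h0 : ∀ l : Fin k, (aeval (Tm z') (hp (s.map ψ) N)) ⟨0, l.pos⟩ l = 0 := by
    intro l
    have h := row_mem_Kid (k := k) hs l
    rw [← Ideal.Quotient.eq_zero_iff_mem] at h
    rw [← hmm, hp_map, hz', ← map_Tm, ← map_aeval]
    exact h
  have hC : s.map ψ * Cm (s.map ψ) z' = Cm (s.map ψ) z' * Tm z' := mul_Cm hs' z' h0
  have key : θ (Wp I (fun a => g a * aeval s (Q a)) s) = θ (Wp I g s) := by
    rw [Wp, Wp, map_prod, map_prod]
    have h1 : ∀ a, θ (Wm (I a) ((g a * aeval s (Q a)).map
        (MvPolynomial.C : R →+* MvPolynomial (Fin k) R))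
        (s.map (MvPolynomial.C : R →+* MvPolynomial (Fin k) R)) MvPolynomial.X) =
        θ (Wm (I a) ((g a).map (MvPolynomial.C : R →+* MvPolynomial (Fin k) R))
          (s.map (MvPolynomial.C : R →+* MvPolynomial (Fin k) R)) MvPolynomial.X) *
          ∏ l, θ (aeval (MvPolynomial.X l) (Q a)) := by
      intro a
      rw [map_Wm, map_Wm, hmm, hmm, hmm, Matrix.map_mul, map_aeval, Wm_mul_aeval hC]
      congr 1
      apply Finset.prod_congr rfl
      intro l _
      rw [Polynomial.eval_map, Polynomial.aeval_def, Polynomial.hom_eval₂]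
      rfl
    rw [Finset.prod_congr rfl (fun a _ => h1 a), Finset.prod_mul_distrib, Finset.prod_comm]
    have h2 : ∀ l : Fin k, ∏ a, θ (aeval (MvPolynomial.X l) (Q a)) = 1 := by
      intro l
      rw [← map_prod, ← map_prod]
      have h3 : aeval (MvPolynomial.X l) (∏ a, Q a - 1) ∈ Kid k (mom s) := by
        apply aeval_mem_Kid
        rw [map_sub, hQ, map_one, sub_self]
      rw [← Ideal.Quotient.eq_zero_iff_mem, map_sub, map_sub, map_one, map_one, sub_eq_zero] at h3
      exact h3
    rw [Finset.prod_congr rfl (fun l _ => h2 l)]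
    simp
  rw [Ideal.Quotient.eq] at key
  have h := key 1
  rw [mul_one, mul_sub, map_sub, sub_eq_zero] at h
  exact h

end phi

/-! ### The explicit formula -/

section formula

variable {K : Type*} [Field K] {k N b : ℕ}

theorem hess_pow {s : Matrix (Fin N) (Fin N) K} (hs : IsHess s) (i0 : Fin N)
    (h0 : (i0 : ℕ) = 0) (m : ℕ) :
    (∀ j : Fin N, m < (j : ℕ) → (s ^ m) i0 j = 0) ∧
      ∀ j : Fin N, (j : ℕ) = m → (s ^ m) i0 j = 1 := by
  induction m with
  | zero =>
    constructor
    · intro j hj
      rw [pow_zero, Matrix.one_apply_ne]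
      intro h
      rw [← h] at hj
      omega
    · intro j hj
      have : i0 = j := Fin.ext (by omega)
      rw [pow_zero, this, Matrix.one_apply_eq]
  | succ m ih =>
    constructor
    · intro j hj
      rw [pow_succ, Matrix.mul_apply]
      apply Finset.sum_eq_zero
      intro l _
      by_cases hl : m < (l : ℕ)
      · rw [ih.1 l hl, zero_mul]
      · rw [hs.2 l j (by omega), mul_zero]
    · intro j hj
      have hm : m < N := by
        have := j.isLt
        omega
      rw [pow_succ, Matrix.mul_apply, Finset.sum_eq_single (⟨m, hm⟩ : Fin N)]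
      · rw [ih.2 ⟨m, hm⟩ rfl, hs.1 ⟨m, hm⟩ j hj, one_mul]
      · intro l _ hl
        by_cases hl' : m < (l : ℕ)
        · rw [ih.1 l hl', zero_mul]
        · have : (l : ℕ) ≠ m := fun h => hl (Fin.ext h)
          rw [hs.2 l j (by omega), mul_zero]
      · simp

/-- A monic polynomial of degree `N-1` has `(0, N-1)` entry `1` at a Hessenberg matrix. -/
theorem hess_aeval_monic {s : Matrix (Fin N) (Fin N) K} (hs : IsHess s) (h : 0 < N) (f : K[X])
    (hf : f.Monic) (hd : f.natDegree = N - 1) :
    (aeval s f) ⟨0, h⟩ ⟨N - 1, by omega⟩ = 1 := by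
  rw [Polynomial.aeval_eq_sum_range, hd, Matrix.sum_apply, Finset.sum_range_succ,
    Finset.sum_eq_zero]
  · rw [zero_add, Matrix.smul_apply, (hess_pow hs ⟨0, h⟩ rfl (N - 1)).2 ⟨N - 1, by omega⟩ rfl,
      ← hd, hf.coeff_natDegree]
    simp
  · intro i hi
    rw [Finset.mem_range] at hi
    rw [Matrix.smul_apply, (hess_pow hs ⟨0, h⟩ rfl i).1 ⟨N - 1, by omega⟩ hi, smul_zero]

theorem aeval_conj {s q : Matrix (Fin N) (Fin N) K} {x : Fin N → K} (hq : IsUnit q.det)
    (h : q * Matrix.diagonal x = s * q) (f : K[X]) :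
    aeval s f = q * Matrix.diagonal (fun i => f.eval (x i)) * q⁻¹ := by
  have h1 := aeval_intertwine s (Matrix.diagonal x) q h.symm f
  rw [aeval_diagonal] at h1
  rw [← h1, Matrix.mul_assoc, Matrix.mul_nonsing_inv _ hq, Matrix.mul_one]

theorem conj_entry (q q' : Matrix (Fin N) (Fin N) K) (d : Fin N → K) (i j : Fin N) :
    (q * Matrix.diagonal d * q') i j = ∑ r, (q i r * q' r j) * d r := by
  rw [Matrix.mul_apply]
  apply Finset.sum_congr rfl
  intro r _
  rw [Matrix.mul_diagonal]
  ring

/-- The weights. -/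
noncomputable def wr (x : Fin N → K) (r : Fin N) : K :=
  (∏ l ∈ Finset.univ.erase r, (x r - x l))⁻¹

theorem mom_eq {s q : Matrix (Fin N) (Fin N) K} {x : Fin N → K} (hs : IsHess s)
    (hx : Function.Injective x) (hq : IsUnit q.det) (h : q * Matrix.diagonal x = s * q) (m : ℕ) :
    mom s m = ∑ r, wr x r * x r ^ m := by
  by_cases hN : 0 < N
  · rw [mom_pos s hN]
    have h1 : s ^ m = aeval s (Polynomial.X ^ m : K[X]) := by simp
    rw [h1, aeval_conj hq h, conj_entry]
    apply Finset.sum_congr rfl
    intro r _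
    rw [Polynomial.eval_pow, Polynomial.eval_X]
    congr 1
    -- the weight
    have h2 := hess_aeval_monic hs hN (∏ l ∈ Finset.univ.erase r, (Polynomial.X - Polynomial.C (x l)))
      (Polynomial.monic_prod_of_monic _ _ fun l _ => Polynomial.monic_X_sub_C _) (by
        rw [Polynomial.natDegree_prod_of_monic _ _ fun l _ => Polynomial.monic_X_sub_C _]
        simp)
    rw [aeval_conj hq h, conj_entry, Finset.sum_eq_single r] at h2
    · rw [Polynomial.eval_prod] at h2
      simp only [Polynomial.eval_sub, Polynomial.eval_X, Polynomial.eval_C] at h2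
      exact eq_inv_of_mul_eq_one_left h2
    · intro r' _ hr'
      have h3 : (∏ l ∈ Finset.univ.erase r,
          (Polynomial.X - Polynomial.C (x l))).eval (x r') = 0 := by
        rw [Polynomial.eval_prod]
        exact Finset.prod_eq_zero (i := r') (by simp [hr']) (by simp)
      exact mul_eq_zero_of_right _ h3
    · simp
  · have : N = 0 := by omega
    subst this
    rw [mom, dif_neg hN]
    simp

/-- The coefficient `A_r`. -/
noncomputable def Ar (b : ℕ) (r : Fin k → Fin N) (x : Fin N → K) : K :=
  (∏ j, wr x (r j)) * V2 (fun j => x (r j)) *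
    ((∏ j, ∏ l ∈ Finset.univ.filter (· < r j), (x (r j) - x l)) / Vd (fun j => x (r j))) ^ b

theorem V2_eq_zero {A : Type*} [CommRing A] {z : Fin k → A} (h : ¬ Function.Injective z) :
    V2 z = 0 := by
  rw [Function.Injective] at h
  push Not at h
  obtain ⟨i, j, hij, hne⟩ := h
  apply Finset.prod_eq_zero (Finset.mem_univ i)
  apply Finset.prod_eq_zero (i := j)
  · simp [hne.symm]
  · rw [hij, sub_self]

theorem Vd_ne_zero {z : Fin k → K} (h : Function.Injective z) : Vd z ≠ 0 := by
  rw [Vd, Finset.prod_ne_zero_iff]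
  intro i _
  rw [Finset.prod_ne_zero_iff]
  intro j hj
  rw [sub_ne_zero]
  intro h'
  rw [Finset.mem_Ioi] at hj
  exact hj.ne' (h h')

theorem Ar_eq_zero (b : ℕ) {r : Fin k → Fin N} (h : ¬ Function.Injective r) (x : Fin N → K) :
    Ar b r x = 0 := by
  have h1 : ¬ Function.Injective (fun j => x (r j)) := by
    intro h2
    apply h
    intro i j hij
    exact h2 (by simp [hij])
  rw [Ar, V2_eq_zero h1]
  ring

theorem Phi_formula (I : Fin b → Fin k → Fin N) (g : Fin b → Matrix (Fin N) (Fin N) K)
    {s q : Matrix (Fin N) (Fin N) K} {x : Fin N → K} (hs : IsHess s)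
    (hx : Function.Injective x) (hq : IsUnit q.det) (h : q * Matrix.diagonal x = s * q)
    (h0 : ∀ i0 r : Fin N, (i0 : ℕ) = 0 →
      q i0 r * ∏ l ∈ Finset.univ.filter (· < r), (x r - x l) = 1) :
    Phi I (fun a => g a * q⁻¹) s =
      ∑ r : Fin k → Fin N, Ar b r x * ∏ a, Matrix.det (fun i j => g a (I a i) (r j)) := by
  have hm : mom s = fun m => ∑ r, wr x r * x r ^ m := funext fun m => mom_eq hs hx hq h m
  rw [Phi, hm, rho_sum]
  apply Finset.sum_congr rfl
  intro r _
  by_cases hr : Function.Injective r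
  · have hxr : Function.Injective (fun j => x (r j)) := hx.comp hr
    have hV := Vd_ne_zero hxr
    rw [map_mul, map_V2, Ar]
    have hz : (fun i => (MvPolynomial.eval fun j => x (r j)) (MvPolynomial.X i)) =
        fun j => x (r j) := by
      ext i
      simp
    rw [hz, ← mul_assoc, mul_assoc _ (_ ^ b)]
    congr 1
    rw [Wp, map_prod]
    have hW : ∀ a, (MvPolynomial.eval fun j => x (r j))
        (Wm (I a) ((g a * q⁻¹).map (MvPolynomial.C : K →+* MvPolynomial (Fin k) K))
          (s.map (MvPolynomial.C : K →+* MvPolynomial (Fin k) K)) MvPolynomial.X) =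
        ((∏ j, ∏ l ∈ Finset.univ.filter (· < r j), (x (r j) - x l)) / Vd (fun j => x (r j))) *
          Matrix.det (fun i j => g a (I a i) (r j)) := by
      intro a
      rw [map_Wm, hz]
      have hmm : ∀ M : Matrix (Fin N) (Fin N) K,
          (M.map (MvPolynomial.C : K →+* MvPolynomial (Fin k) K)).map
            (MvPolynomial.eval fun j => x (r j)) = M := by
        intro M
        ext i j
        simp
      rw [hmm, hmm, div_mul_eq_mul_div, eq_div_iff hV, Wm_mul_Vd]
      -- the eigenvectors
      have hVm : Vm s (fun j => x (r j)) = Matrix.of fun i j =>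
          q i (r j) * ∏ l ∈ Finset.univ.filter (· < r j), (x (r j) - x l) := by
        ext i j
        have hN : 0 < N := (i.pos)
        have hev : s.mulVec (fun i => q i (r j)) = x (r j) • fun i => q i (r j) := by
          ext i'
          have := congrFun (congrFun h i') (r j)
          rw [Matrix.mul_diagonal, Matrix.mul_apply] at this
          rw [Matrix.mulVec, dotProduct, ← this, Pi.smul_apply, smul_eq_mul, mul_comm]
        have h1 := hess_eigen_unique hs (x (r j)) _ hev ⟨0, hN⟩ i rfl
        have h2 := h0 ⟨0, hN⟩ (r j) rfl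
        simp only [Vm, Matrix.of_apply]
        rw [h1]
        linear_combination (-(Polynomial.eval (x (r j)) (hp s ↑i))) * h2
      have h3 : (g a * q⁻¹ * Vm s (fun j => x (r j))).submatrix (I a) id =
          (Matrix.of fun i j => g a (I a i) (r j)) * Matrix.diagonal (fun j =>
            ∏ l ∈ Finset.univ.filter (· < r j), (x (r j) - x l)) := by
        have h4 : Vm s (fun j => x (r j)) = q.submatrix id r * Matrix.diagonal (fun j =>
            ∏ l ∈ Finset.univ.filter (· < r j), (x (r j) - x l)) := by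
          rw [hVm]
          ext i j
          rw [Matrix.mul_diagonal]
          rfl
        have h5 : g a * q⁻¹ * q.submatrix id r = (g a).submatrix id r := by
          have : g a * q⁻¹ * q = g a := by
            rw [Matrix.mul_assoc, Matrix.nonsing_inv_mul _ hq, Matrix.mul_one]
          conv_rhs => rw [← this]
          rfl
        rw [h4, ← Matrix.mul_assoc, h5]
        ext i j
        rw [Matrix.submatrix_apply, Matrix.mul_diagonal, Matrix.mul_diagonal]
        rfl
      rw [h3, Matrix.det_mul, Matrix.det_diagonal, mul_comm]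
      rfl
    rw [Finset.prod_congr rfl (fun a _ => hW a), Finset.prod_mul_distrib, Finset.prod_const,
      Finset.card_univ, Fintype.card_fin]
  · rw [Ar_eq_zero b hr]
    rw [map_mul, map_V2, V2_eq_zero]
    · ring
    · intro h2
      apply hr
      intro i j hij
      exact h2 (by simp [hij])

/-! ### The leading coefficients -/

theorem Vd_perm {A : Type*} [CommRing A] (y : Fin k → A) (π : Equiv.Perm (Fin k)) :
    Vd (fun j => y (π j)) = ((Equiv.Perm.sign π : ℤˣ) : ℤ) * Vd y := by
  have h1 : Vd y = (Matrix.vandermonde y).det := (Matrix.det_vandermonde y).symm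
  have h2 : Vd (fun j => y (π j)) = (Matrix.vandermonde (fun j => y (π j))).det :=
    (Matrix.det_vandermonde _).symm
  have h3 : Matrix.vandermonde (fun j => y (π j)) = (Matrix.vandermonde y).submatrix π id := by
    ext i j
    simp [Matrix.vandermonde_apply]
  rw [h2, h3, Matrix.det_permute, h1]

theorem V2_perm {A : Type*} [CommRing A] (y : Fin k → A) (π : Equiv.Perm (Fin k)) :
    V2 (fun j => y (π j)) = V2 y := by
  unfold V2
  rw [← Equiv.prod_comp π (fun i => ∏ j ∈ Finset.univ.erase i, (y i - y j))]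
  apply Finset.prod_congr rfl
  intro i _
  apply Finset.prod_equiv π
  · intro j
    simp
  · intro j _
    rfl

theorem prod_c (hkN : k ≤ N) (x : Fin N → K) (j : Fin k) :
    ∏ l ∈ Finset.univ.filter (· < Fin.castLE hkN j), (x (Fin.castLE hkN j) - x l) =
      ∏ l ∈ Finset.univ.filter (· < j), (x (Fin.castLE hkN j) - x (Fin.castLE hkN l)) := by
  symm
  apply Finset.prod_bij (fun l _ => Fin.castLE hkN l)
  · intro l hl
    simp only [Finset.mem_filter, Finset.mem_univ, true_and, Fin.lt_def, Fin.val_castLE] at hl ⊢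
    exact hl
  · intro l _ l' _ h
    exact Fin.castLE_injective hkN h
  · intro l hl
    simp only [Finset.mem_filter, Finset.mem_univ, true_and, Fin.lt_def, Fin.val_castLE] at hl
    refine ⟨⟨l, by omega⟩, ?_, ?_⟩
    · simp only [Finset.mem_filter, Finset.mem_univ, true_and, Fin.lt_def]
      exact hl
    · ext
      rfl
  · intro l _
    rfl

theorem prod_erase (hkN : k ≤ N) (x : Fin N → K) (j : Fin k) :
    ∏ l ∈ Finset.univ.erase (Fin.castLE hkN j), (x (Fin.castLE hkN j) - x l) =
      (∏ l ∈ Finset.univ.erase j, (x (Fin.castLE hkN j) - x (Fin.castLE hkN l))) *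
        ∏ l ∈ Finset.univ.filter (fun l : Fin N => k ≤ (l : ℕ)), (x (Fin.castLE hkN j) - x l) := by
  have h1 : (Finset.univ.erase (Fin.castLE hkN j) : Finset (Fin N)) =
      (Finset.univ.erase j).map (Fin.castLEEmb hkN) ∪
        Finset.univ.filter (fun l : Fin N => k ≤ (l : ℕ)) := by
    ext l
    simp only [Finset.mem_erase, Finset.mem_univ, and_true, Finset.mem_union, Finset.mem_map,
      Finset.mem_filter, true_and]
    constructor
    · intro h
      by_cases hl : k ≤ (l : ℕ)
      · exact Or.inr hl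
      · left
        refine ⟨⟨l, by omega⟩, ?_, ?_⟩
        · intro h2
          apply h
          rw [← h2]
          ext
          rfl
        · ext
          rfl
    · rintro (⟨l', hl', h2⟩ | h2)
      · intro h3
        apply hl'
        apply Fin.castLE_injective hkN
        rw [← h3, ← h2]
        rfl
      · intro h3
        rw [h3, Fin.val_castLE] at h2
        exact absurd j.isLt (not_lt.mpr h2)
  rw [h1, Finset.prod_union, Finset.prod_map]
  · rfl
  · rw [Finset.disjoint_left]
    intro l hl hl'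
    rw [Finset.mem_map] at hl
    obtain ⟨l', _, h2⟩ := hl
    rw [Finset.mem_filter] at hl'
    rw [← h2] at hl'
    have := hl'.2
    have h3 : ((Fin.castLEEmb hkN) l' : ℕ) = (l' : ℕ) := rfl
    rw [h3] at this
    exact absurd l'.isLt (not_lt.mpr this)

theorem prod_E (hkN : k ≤ N) (x : Fin N → K) :
    (∏ i : Fin N, ∏ j : Fin N, if (i : ℕ) < k ∧ k ≤ (j : ℕ) then x i - x j else 1) =
      ∏ j : Fin k, ∏ l ∈ Finset.univ.filter (fun l : Fin N => k ≤ (l : ℕ)),
        (x (Fin.castLE hkN j) - x l) := by
  have h1 : ∀ i : Fin N, (∏ j : Fin N, if (i : ℕ) < k ∧ k ≤ (j : ℕ) then x i - x j else 1) =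
      if (i : ℕ) < k then ∏ l ∈ Finset.univ.filter (fun l : Fin N => k ≤ (l : ℕ)),
        (x i - x l) else 1 := by
    intro i
    by_cases hi : (i : ℕ) < k
    · simp only [hi, true_and, if_true]
      rw [Finset.prod_filter]
    · simp [hi]
  rw [Finset.prod_congr rfl (fun i _ => h1 i), ← Finset.prod_filter]
  symm
  apply Finset.prod_bij (fun l _ => Fin.castLE hkN l)
  · intro l _
    simp
  · intro l _ l' _ h
    exact Fin.castLE_injective hkN h
  · intro l hl
    simp only [Finset.mem_filter, Finset.mem_univ, true_and] at hl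
    exact ⟨⟨l, hl⟩, Finset.mem_univ _, by ext; rfl⟩
  · intro l _
    rfl

theorem Ar_mul_E (b : ℕ) (hkN : k ≤ N) {x : Fin N → K} (hx : Function.Injective x)
    (π : Equiv.Perm (Fin k)) :
    Ar b (fun j => Fin.castLE hkN (π j)) x *
      (∏ i : Fin N, ∏ j : Fin N, if (i : ℕ) < k ∧ k ≤ (j : ℕ) then x i - x j else 1) =
      (((Equiv.Perm.sign π : ℤˣ) : ℤ) : K) ^ b := by
  set y : Fin k → K := fun j => x (Fin.castLE hkN j) with hy
  have hyi : Function.Injective y := hx.comp (Fin.castLE_injective hkN)
  have h1 : (∏ j, ∏ l ∈ Finset.univ.filter (· < Fin.castLE hkN (π j)),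
      (x (Fin.castLE hkN (π j)) - x l)) = Vd y := by
    rw [Equiv.prod_comp π (fun j => ∏ l ∈ Finset.univ.filter (· < Fin.castLE hkN j),
      (x (Fin.castLE hkN j) - x l))]
    rw [Finset.prod_congr rfl (fun j _ => prod_c hkN x j), Vd]
    apply Finset.prod_comm'
    intro x y
    simp
  have h2 : (∏ j, wr x (Fin.castLE hkN (π j))) * (V2 y *
      ∏ i : Fin N, ∏ j : Fin N, if (i : ℕ) < k ∧ k ≤ (j : ℕ) then x i - x j else 1) = 1 := by
    rw [Equiv.prod_comp π (fun j => wr x (Fin.castLE hkN j)), prod_E hkN, V2,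
      ← Finset.prod_mul_distrib, ← Finset.prod_mul_distrib]
    apply Finset.prod_eq_one
    intro j _
    rw [wr, prod_erase hkN]
    apply inv_mul_cancel₀
    rw [← prod_erase hkN x j, Finset.prod_ne_zero_iff]
    intro l hl
    rw [sub_ne_zero]
    intro h
    rw [Finset.mem_erase] at hl
    exact hl.1 (hx h).symm
  have h3 : V2 (fun j => x (Fin.castLE hkN (π j))) = V2 y := V2_perm y π
  have h4 : Vd (fun j => x (Fin.castLE hkN (π j))) = ((Equiv.Perm.sign π : ℤˣ) : ℤ) * Vd y :=
    Vd_perm y π
  have hsgn : (((Equiv.Perm.sign π : ℤˣ) : ℤ) : K) * (((Equiv.Perm.sign π : ℤˣ) : ℤ) : K) = 1 := by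
    rw [← Int.cast_mul, ← Units.val_mul, Int.units_mul_self]
    simp
  have hV := Vd_ne_zero hyi
  rw [Ar, h1, h3, h4]
  have h5 : Vd y / ((((Equiv.Perm.sign π : ℤˣ) : ℤ) : K) * Vd y) =
      (((Equiv.Perm.sign π : ℤˣ) : ℤ) : K) := by
    rw [div_eq_iff (mul_ne_zero (left_ne_zero_of_mul_eq_one hsgn) hV), ← mul_assoc, hsgn, one_mul]
  rw [h5]
  linear_combination ((((Equiv.Perm.sign π : ℤˣ) : ℤ) : K) ^ b) * h2

end formula

end FK

/-! ## The statement -/

open FK in
theorem exists_F (N b k : ℕ) (hk : k ≤ N / 2) (hkN : k ≤ N) (I : Fin b → Fin k → Fin N) :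
    ∃ P : MvPolynomial (Idx N b) ℂ,
      (∀ (g : Fin b → Matrix (Fin N) (Fin N) ℂ) (s : Matrix (Fin N) (Fin N) ℂ), s ∈ slice N →
        ∀ h : Fin b → Matrix (Fin N) (Fin N) ℂ, (∀ a, Commute (h a) s) →
        (List.ofFn h).prod = 1 →
        MvPolynomial.eval (co (fun a => g a * h a) s) P = MvPolynomial.eval (co g s) P) ∧
      ∃ A : (Fin k → Fin N) → (Fin (N / 2) → ℂ) → ℂ,
        (∀ x : Fin (N / 2) → ℂ, IsRegx (N := N) x →
          ∀ (s q : Matrix (Fin N) (Fin N) ℂ), s ∈ slice N → IsUnit q.det → q * Dx x = s * q →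
          (∀ i0 r : Fin N, (i0 : ℕ) = 0 →
            q i0 r * ∏ l ∈ Finset.univ.filter (· < r), (xx x r - xx x l) = 1) →
          ∀ g : Fin b → Matrix (Fin N) (Fin N) ℂ,
            MvPolynomial.eval (co (fun a => g a * q⁻¹) s) P =
              ∑ r : Fin k → Fin N, A r x * ∏ a, Matrix.det (fun i j => g a (I a i) (r j))) ∧
        (∀ r, ¬ Function.Injective r → ∀ x, A r x = 0) ∧
        (∀ x : Fin (N / 2) → ℂ, IsRegx (N := N) x → ∀ π : Equiv.Perm (Fin k),
          A (fun j => Fin.castLE hkN (π j)) x * Ek (N := N) k x =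
            (((Equiv.Perm.sign π : ℤˣ) : ℤ) : ℂ) ^ b) := by
  classical
  set G : Fin b → Matrix (Fin N) (Fin N) (MvPolynomial (Idx N b) ℂ) := fun a =>
    Matrix.of fun i j => MvPolynomial.X (Sum.inl (a, i, j)) with hG
  set S : Matrix (Fin N) (Fin N) (MvPolynomial (Idx N b) ℂ) :=
    Matrix.of fun i j => MvPolynomial.X (Sum.inr (i, j)) with hS
  have hP : ∀ (g : Fin b → Matrix (Fin N) (Fin N) ℂ) (s : Matrix (Fin N) (Fin N) ℂ),
      MvPolynomial.eval (co g s) (Phi I G S) = Phi I g s := by
    intro g s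
    rw [Phi_map]
    have h1 : (fun a => (G a).map (MvPolynomial.eval (co g s))) = g := by
      ext a i j
      simp [hG, co]
    have h2 : S.map (MvPolynomial.eval (co g s)) = s := by
      ext i j
      simp [hS, co]
    rw [h1, h2]
  refine ⟨Phi I G S, ?_, fun r x => Ar b r (xx x), ?_, ?_, ?_⟩
  · intro g s hs h hc hp
    have hs' := isHess_of_mem_slice hs
    choose Q hQ using fun a => hess_commute hs' (hc a)
    rw [hP, hP]
    have h1 : (fun a => g a * h a) = fun a => g a * aeval s (Q a) := by
      ext1 a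
      rw [← hQ a]
    rw [h1]
    apply Phi_inv I g hs' Q
    rw [← hp, ← List.prod_ofFn, map_list_prod, List.map_ofFn]
    congr 2
    ext1 a
    exact (hQ a).symm
  · intro x hx s q hs hq hqs h0 g
    rw [hP]
    have hinj : Function.Injective (xx x : Fin N → ℂ) := by
      intro i j hij
      by_contra hne
      exact hx i j hne hij
    exact Phi_formula I g (isHess_of_mem_slice hs) hinj hq hqs h0
  · intro r hr x
    exact Ar_eq_zero b hr _
  · intro x hx π
    have hinj : Function.Injective (xx x : Fin N → ℂ) := by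
      intro i j hij
      by_contra hne
      exact hx i j hne hij
    exact Ar_mul_E b hkN hinj π

end Pool.Agent.MP_c45d35_ag
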