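import Pool.Agent.MP_c45d35_ag.Defs

/-! Block F (GEN): finitely many bad Cayley parameters (by helper29). -/

namespace Pool.Agent.MP_c45d35_ag

open Polynomial in
theorem gen_finite {ι : Type*} [Fintype ι] (y : ι → ℂ) (h0 : ∀ i, y i ≠ 0)
    (h1 : ∀ i j, i ≠ j → y i ≠ y j ∧ y i ≠ - y j) (ς : ℂ) (hς : ς ^ 2 = 1) (ν : ι → ℤ)
    (hν : ν ≠ 0) :
    {c : ℂ | (∀ i, c ≠ y i ∧ c ≠ - y i) ∧
      ∏ i, (ς * ((c + y i) / (c - y i))) ^ ν i = 1}.Finite := by
  classical
  obtain ⟨l, hl⟩ : ∃ l, ν l ≠ 0 := by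
    by_contra h
    push Not at h
    exact hν (funext h)
  have hς0 : ς ≠ 0 := by
    rintro rfl
    norm_num at hς
  have hςi : ς⁻¹ = ς := by
    rw [inv_eq_iff_eq_inv, eq_comm, inv_eq_of_mul_eq_one_left]
    rw [← pow_two, hς]
  set z : ι → ℂ := fun i => if 0 ≤ ν i then y i else - y i with hz
  have hzc : ∀ i, z i = y i ∨ z i = - y i := by
    intro i
    by_cases h : 0 ≤ ν i
    · left; simp [hz, h]
    · right; simp [hz, h]
  set D : ℂ[X] := ∏ i, (C ς * (X + C (z i))) ^ (ν i).natAbs -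
    ∏ i, (X - C (z i)) ^ (ν i).natAbs with hD
  have hDe : ∀ c : ℂ, D.eval c = ∏ i, (ς * (c + z i)) ^ (ν i).natAbs -
      ∏ i, (c - z i) ^ (ν i).natAbs := by
    intro c
    simp [hD, eval_prod]
  have hD0 : D ≠ 0 := by
    intro h
    have h2 := hDe (- z l)
    rw [h, eval_zero] at h2
    have h3 : ∏ i, (ς * (- z l + z i)) ^ (ν i).natAbs = 0 := by
      refine Finset.prod_eq_zero (Finset.mem_univ l) ?_
      have : (ν l).natAbs ≠ 0 := Int.natAbs_ne_zero.2 hl
      simp [this]
    rw [h3, zero_sub, eq_comm, neg_eq_zero, Finset.prod_eq_zero_iff] at h2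
    obtain ⟨i, -, hi⟩ := h2
    have h4 : - z l - z i = 0 := by
      by_contra hne
      exact pow_ne_zero _ hne hi
    have h5 : z l = - z i := by linear_combination -h4
    by_cases hli : l = i
    · subst hli
      have h6 : z l = 0 := by
        have : (2 : ℂ) * z l = 0 := by linear_combination h5
        simpa using this
      rcases hzc l with h7 | h7
      · exact h0 l (by rw [← h7, h6])
      · exact h0 l (by rw [h6] at h7; exact (neg_eq_zero.1 h7.symm))
    · have h8 := h1 l i hli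
      rcases hzc l with h7 | h7 <;> rcases hzc i with h9 | h9
      · exact h8.2 (by rw [← h7, h5, h9])
      · exact h8.1 (by rw [← h7, h5, h9, neg_neg])
      · exact h8.1 (by rw [h7, h9] at h5; exact neg_injective h5)
      · exact h8.2 (by rw [h7, h9] at h5; exact neg_injective h5)
  refine Set.Finite.subset (D.roots.toFinset.finite_toSet) ?_
  rintro c ⟨hc1, hc2⟩
  simp only [Finset.mem_coe, Multiset.mem_toFinset, mem_roots hD0, IsRoot.def]
  rw [hDe]
  have hcz : ∀ i, c - z i ≠ 0 := by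
    intro i
    rcases hzc i with h | h
    · rw [h]; exact sub_ne_zero.2 (hc1 i).1
    · rw [h]; exact sub_ne_zero.2 (hc1 i).2
  have hterm : ∀ i, (ς * ((c + y i) / (c - y i))) ^ ν i =
      (ς * (c + z i)) ^ (ν i).natAbs / (c - z i) ^ (ν i).natAbs := by
    intro i
    rw [← div_pow, mul_div_assoc]
    by_cases h : 0 ≤ ν i
    · have hzi : z i = y i := by simp [hz, h]
      rw [hzi]
      conv_lhs => rw [← Int.natAbs_of_nonneg h]
      rw [zpow_natCast]
    · have hzi : z i = - y i := by simp [hz, h]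
      rw [hzi]
      have h' : ν i = -((ν i).natAbs : ℤ) := by
        push Not at h
        omega
      conv_lhs => rw [h']
      rw [zpow_neg, zpow_natCast, ← inv_pow, mul_inv, hςi, inv_div, ← sub_eq_add_neg,
        sub_neg_eq_add]
  have h2 : ∏ i, ((ς * (c + z i)) ^ (ν i).natAbs / (c - z i) ^ (ν i).natAbs) = 1 := by
    rw [← hc2]
    exact Finset.prod_congr rfl fun i _ => (hterm i).symm
  rw [Finset.prod_div_distrib, div_eq_one_iff_eq
    (Finset.prod_ne_zero_iff.2 fun i _ => pow_ne_zero _ (hcz i))] at h2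
  rw [h2, sub_self]

end Pool.Agent.MP_c45d35_ag
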