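import Pool.Agent.MP_c45d35_ag.Red

/-! Block C (TRI), third part: the pairs `(Y, x0)` to which `goodAt` applies are dense
(MP_c45d35_ag). -/

namespace Pool.Agent.MP_c45d35_ag

open Matrix

section kcol

variable {R : Type*} [CommRing R] {N : ℕ}

/-- The vectors `∏_{l > N-1-m} (M - ξ_l) e_{N-1}`. -/
def kcol (M : Matrix (Fin N) (Fin N) R) (ξ : Fin N → R) : ℕ → Fin N → R
  | 0 => fun i => if (i : ℕ) + 1 = N then 1 else 0
  | (m + 1) => fun i => if h : N - 1 - m < N then
      M.mulVec (kcol M ξ m) i - ξ ⟨N - 1 - m, h⟩ * kcol M ξ m i else 0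

theorem kcol_succ (M : Matrix (Fin N) (Fin N) R) (ξ : Fin N → R) (m : ℕ) (j : Fin N)
    (hj : (j : ℕ) = N - 1 - m) (i : Fin N) :
    kcol M ξ (m + 1) i = M.mulVec (kcol M ξ m) i - ξ j * kcol M ξ m i := by
  have h : N - 1 - m < N := hj ▸ j.2
  have h' : (⟨N - 1 - m, h⟩ : Fin N) = j := Fin.ext hj.symm
  simp only [kcol, dif_pos h, h']

theorem kcol_support (M : Matrix (Fin N) (Fin N) R) (ξ : Fin N → R)
    (hM : ∀ i j, j < i → M i j = 0) (hd : ∀ i, M i i = ξ i) (m : ℕ) (hm : m ≤ N) :
    ∀ i : Fin N, N ≤ (i : ℕ) + m → kcol M ξ m i = 0 := by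
  induction m with
  | zero => intro i hi; have := i.2; omega
  | succ m ih =>
    intro i hi
    have ih' := ih (by omega)
    have hN : 0 < N := lt_of_le_of_lt (Nat.zero_le _) i.2
    have h1 : N - 1 - m < N := by omega
    rw [kcol_succ M ξ m ⟨N - 1 - m, h1⟩ rfl]
    have h2 : M.mulVec (kcol M ξ m) i = ξ i * kcol M ξ m i := by
      rw [Matrix.mulVec, dotProduct, Finset.sum_eq_single i]
      · rw [hd]
      · intro l _ hl
        rcases lt_or_gt_of_ne hl with h | h
        · rw [hM i l h, zero_mul]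
        · have : (i : ℕ) < l := h
          rw [ih' l (by omega), mul_zero]
      · simp
    rw [h2]
    by_cases h3 : (i : ℕ) = N - 1 - m
    · have : (⟨N - 1 - m, h1⟩ : Fin N) = i := Fin.ext h3.symm
      rw [this, sub_self]
    · rw [ih' i (by omega)]; ring

/-- The polynomial intertwiner. -/
def c0 (Y : Matrix (Fin N) (Fin N) R) (x : Fin (N / 2) → R) : Matrix (Fin N) (Fin N) R :=
  Matrix.of fun i j => kcol (Dx x + Y) (xx x) (N - 1 - (j : ℕ)) i

theorem c0_intertwines (Y : Matrix (Fin N) (Fin N) R) (hY : ∀ i j, j ≤ i → Y i j = 0)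
    (x : Fin (N / 2) → R) : c0 Y x * (em R N + Dx x) = (Dx x + Y) * c0 Y x := by
  have hM : ∀ i j, j < i → (Dx x + Y) i j = 0 := by
    intro i j hij
    rw [Matrix.add_apply, hY i j hij.le, Dx, Matrix.diagonal_apply_ne _ (ne_of_gt hij), add_zero]
  have hd : ∀ i, (Dx x + Y) i i = xx x i := by
    intro i
    rw [Matrix.add_apply, hY i i le_rfl, Dx, Matrix.diagonal_apply_eq, add_zero]
  set M := Dx x + Y with hMdef
  ext i j
  have hj := j.2
  have h1 : (M * c0 Y x) i j = M.mulVec (kcol M (xx x) (N - 1 - (j : ℕ))) i := rfl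
  have h2 : (c0 Y x * (em R N + Dx x)) i j =
      kcol M (xx x) (N - 1 - (j : ℕ) + 1) i + kcol M (xx x) (N - 1 - (j : ℕ)) i * xx x j := by
    rw [Matrix.mul_add, Matrix.add_apply, Dx, Matrix.mul_diagonal]
    congr 1
    rw [Matrix.mul_apply]
    by_cases h0 : (j : ℕ) = 0
    · have h3 : N - 1 - (j : ℕ) + 1 = N := by omega
      rw [h3, kcol_support M (xx x) hM hd N le_rfl i (by omega)]
      refine Finset.sum_eq_zero fun l _ => ?_
      have : ¬ ((j : ℕ) = (l : ℕ) + 1) := by omega
      simp only [em, Matrix.of_apply, if_neg this, mul_zero]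
    · rw [Finset.sum_eq_single ⟨(j : ℕ) - 1, by omega⟩]
      · have h4 : (j : ℕ) = ((j : ℕ) - 1) + 1 := by omega
        have h5 : N - 1 - ((j : ℕ) - 1) = N - 1 - (j : ℕ) + 1 := by omega
        simp only [em, Matrix.of_apply, if_pos h4, mul_one, c0, h5]
        rfl
      · intro l _ hl
        have : ¬ ((j : ℕ) = (l : ℕ) + 1) := by
          intro h'
          apply hl
          ext
          show (l : ℕ) = (j : ℕ) - 1
          omega
        simp only [em, Matrix.of_apply, if_neg this, mul_zero]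
      · simp
  rw [h1, h2, kcol_succ M (xx x) (N - 1 - (j : ℕ)) j (by omega)]
  ring

theorem kcol_map {S : Type*} [CommRing S] (φ : R →+* S) (M : Matrix (Fin N) (Fin N) R)
    (ξ : Fin N → R) (m : ℕ) (i : Fin N) :
    φ (kcol M ξ m i) = kcol (M.map φ) (fun l => φ (ξ l)) m i := by
  induction m generalizing i with
  | zero => simp only [kcol]; split_ifs <;> simp
  | succ m ih =>
    simp only [kcol]
    split_ifs with h
    · rw [map_sub, map_mul, ih]
      congr 1
      simp only [Matrix.mulVec, dotProduct, map_sum, map_mul, ih, Matrix.map_apply]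
    · simp

theorem c0_map {S : Type*} [CommRing S] (φ : R →+* S) (Y : Matrix (Fin N) (Fin N) R)
    (x : Fin (N / 2) → R) : (c0 Y x).map φ = c0 (Y.map φ) (fun k => φ (x k)) := by
  ext i j
  have h1 : (Dx x + Y).map φ = Dx (fun k => φ (x k)) + Y.map φ := by
    rw [Matrix.map_add φ (map_add φ), Dx_map]
  show φ (kcol (Dx x + Y) (xx x) (N - 1 - (j : ℕ)) i) = kcol _ (xx fun k => φ (x k)) (N - 1 - (j : ℕ)) i
  rw [kcol_map, h1]
  congr 1
  funext l
  exact xx_map φ x l

theorem c0_em (x : Fin (N / 2) → R) : c0 (em R N) x = 1 := by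
  have key : ∀ m : ℕ, m < N → ∀ i : Fin N, kcol (Dx x + em R N) (xx x) m i =
      if (i : ℕ) + m + 1 = N then 1 else 0 := by
    intro m
    induction m with
    | zero => intro _ i; simp [kcol]
    | succ m ih =>
      intro hm i
      have h1 : N - 1 - m < N := by omega
      rw [kcol_succ _ _ m ⟨N - 1 - m, h1⟩ rfl, Matrix.add_mulVec, Pi.add_apply, Dx,
        Matrix.mulVec_diagonal]
      have h2 : (em R N).mulVec (kcol (diagonal (xx x) + em R N) (xx x) m) i =
          if (i : ℕ) + (m + 1) + 1 = N then 1 else 0 := by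
        rw [Matrix.mulVec, dotProduct]
        by_cases h : (i : ℕ) + 1 < N
        · rw [Finset.sum_eq_single ⟨(i : ℕ) + 1, h⟩]
          · have := ih (by omega) ⟨(i : ℕ) + 1, h⟩
            rw [Dx] at this
            rw [this]
            have e1 : (((⟨(i : ℕ) + 1, h⟩ : Fin N) : ℕ) + m + 1 = N) ↔ ((i : ℕ) + (m + 1) + 1 = N) := by
              show ((i : ℕ) + 1 + m + 1 = N) ↔ _
              omega
            simp only [em, Matrix.of_apply, if_true, one_mul, e1]
          · intro l _ hl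
            have : ¬ ((l : ℕ) = (i : ℕ) + 1) := fun h' => hl (Fin.ext h')
            simp only [em, Matrix.of_apply, if_neg this, zero_mul]
          · simp
        · rw [if_neg (by omega)]
          refine Finset.sum_eq_zero fun l _ => ?_
          have : ¬ ((l : ℕ) = (i : ℕ) + 1) := by have := l.2; omega
          simp only [em, Matrix.of_apply, if_neg this, zero_mul]
      rw [h2]
      have h3 := ih (by omega) i
      rw [Dx] at h3
      rw [h3]
      by_cases h4 : (i : ℕ) + m + 1 = N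
      · have : (⟨N - 1 - m, h1⟩ : Fin N) = i := by
          ext; show N - 1 - m = (i : ℕ); omega
        rw [this]; ring
      · rw [if_neg h4]; ring
  ext i j
  show kcol (Dx x + em R N) (xx x) (N - 1 - (j : ℕ)) i = _
  have hj := j.2
  rw [key _ (by omega), Matrix.one_apply]
  have : ((i : ℕ) + (N - 1 - (j : ℕ)) + 1 = N) ↔ (i = j) := by
    rw [Fin.ext_iff]; omega
  simp only [this]

end kcol

section line

open Polynomial

variable {N : ℕ}

/-- Regularity along a line. -/
theorem finite_nonregular (Y : Matrix (Fin N) (Fin N) ℂ) (hY : ∀ i j, j ≤ i → Y i j = 0)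
    (x0 v : Fin (N / 2) → ℂ) :
    {s : ℂ | ¬ ∃ g : Matrix (Fin N) (Fin N) ℂ, IsUnit g.det ∧
      g * (em ℂ N + Dx (x0 + s • v)) = (Dx (x0 + s • v) + (Y + s • (em ℂ N - Y))) * g}.Finite := by
  let xs : Fin (N / 2) → ℂ[X] := fun k => C (x0 k) + X * C (v k)
  let Ys : Matrix (Fin N) (Fin N) ℂ[X] := Matrix.of fun i j =>
    C (Y i j) + X * C (em ℂ N i j - Y i j)
  let D : ℂ[X] := (c0 Ys xs).det
  have hmapY : ∀ s : ℂ, Ys.map (evalRingHom s) = Y + s • (em ℂ N - Y) := by
    intro s
    ext i j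
    simp [Ys]
  have hmapx : ∀ s : ℂ, (fun k => evalRingHom s (xs k)) = x0 + s • v := by
    intro s
    funext k
    simp only [xs, coe_evalRingHom, eval_add, eval_C, eval_mul, eval_X, Pi.add_apply, Pi.smul_apply,
      smul_eq_mul]
  have hmap : ∀ s : ℂ, (c0 Ys xs).map (evalRingHom s) = c0 (Y + s • (em ℂ N - Y)) (x0 + s • v) := by
    intro s
    rw [c0_map, hmapY, hmapx]
  have hdet : ∀ s : ℂ, D.eval s = (c0 (Y + s • (em ℂ N - Y)) (x0 + s • v)).det := by
    intro s
    rw [← hmap s]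
    exact RingHom.map_det (evalRingHom s) _
  have hD1 : D.eval 1 = 1 := by
    rw [hdet, one_smul, add_sub_cancel, c0_em, Matrix.det_one]
  have hD : D ≠ 0 := by
    intro h
    rw [h] at hD1
    simp at hD1
  refine (D.roots.toFinset.finite_toSet).subset ?_
  intro s hs
  by_contra hcon
  apply hs
  refine ⟨c0 (Y + s • (em ℂ N - Y)) (x0 + s • v), ?_, c0_intertwines _ ?_ _⟩
  · rw [← hdet]
    apply IsUnit.mk0
    intro h0
    apply hcon
    simp only [Finset.mem_coe, Multiset.mem_toFinset, mem_roots hD]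
    exact h0
  · intro i j hij
    have : ¬ ((j : ℕ) = (i : ℕ) + 1) := by have : (j : ℕ) ≤ i := hij; omega
    simp [hY i j hij, em, this]

theorem Gen.finite {v : Fin (N / 2) → ℂ} {p q : Fin N} (hv : Gen v p q) (x0 : Fin (N / 2) → ℂ)
    (h0 : xx x0 p = xx x0 q) : {s : ℂ | ¬ Gen (x0 + s • v) p q}.Finite := by
  have hadd : ∀ (s : ℂ) (k : Fin N), xx (x0 + s • v) k = xx x0 k + s * xx v k := by
    intro s k
    simp only [xx, Pi.add_apply, Pi.smul_apply, smul_eq_mul, mul_add, Finset.sum_add_distrib,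
      Finset.mul_sum]
    congr 1
    refine Finset.sum_congr rfl fun i _ => ?_
    ring
  have hfin : (⋃ k : Fin N, ⋃ l : Fin N,
      {s : ℂ | xx v k ≠ xx v l ∧ xx x0 k + s * xx v k = xx x0 l + s * xx v l}).Finite := by
    refine Set.finite_iUnion fun k => Set.finite_iUnion fun l => ?_
    refine (Set.finite_singleton ((xx x0 l - xx x0 k) / (xx v k - xx v l))).subset ?_
    rintro s ⟨h1, h2⟩
    have h3 : xx v k - xx v l ≠ 0 := sub_ne_zero.mpr h1
    simp only [Set.mem_singleton_iff]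
    rw [eq_div_iff h3]
    linear_combination h2
  refine hfin.subset ?_
  intro s hs
  by_contra hcon
  apply hs
  refine ⟨hv.1, ?_, ?_⟩
  · rw [hadd, hadd, h0, hv.2.1]
  · intro k l hkl hx
    rw [hadd, hadd] at hx
    by_cases h : xx v k = xx v l
    · exact hv.2.2 k l hkl h
    · exfalso
      apply hcon
      simp only [Set.mem_iUnion]
      exact ⟨k, l, h, hx⟩

theorem xx_eq {R : Type*} [CommRing R] (w : Fin (N / 2) → R) (k : Fin N) :
    xx w k = if h : (k : ℕ) < N / 2 then w ⟨k, h⟩ else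
      if h : N - 1 - (k : ℕ) < N / 2 then - w ⟨N - 1 - (k : ℕ), h⟩ else 0 := by
  unfold xx
  have hk := k.2
  have hrev : ((Fin.rev k : Fin N) : ℕ) = N - 1 - (k : ℕ) := by rw [Fin.val_rev]; omega
  by_cases h : (k : ℕ) < N / 2
  · rw [dif_pos h, Finset.sum_eq_single ⟨k, h⟩]
    · have : ¬ (((Fin.rev k : Fin N) : ℕ) = (k : ℕ)) := by omega
      simp only [wt, if_neg this, if_true]
      simp
    · intro m _ hm
      have e1 : ¬ ((k : ℕ) = (m : ℕ)) := fun h' => hm (Fin.ext h'.symm)
      have e2 : ¬ (((Fin.rev k : Fin N) : ℕ) = (m : ℕ)) := by have := m.2; omega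
      simp only [wt, if_neg e1, if_neg e2]
      simp
    · simp
  · rw [dif_neg h]
    by_cases h' : N - 1 - (k : ℕ) < N / 2
    · rw [dif_pos h', Finset.sum_eq_single ⟨N - 1 - (k : ℕ), h'⟩]
      · have e1 : ¬ ((k : ℕ) = N - 1 - (k : ℕ)) := by omega
        simp only [wt, if_neg e1, hrev, if_true]
        simp
      · intro m _ hm
        have e1 : ¬ ((k : ℕ) = (m : ℕ)) := by have := m.2; omega
        have e2 : ¬ (((Fin.rev k : Fin N) : ℕ) = (m : ℕ)) := fun h'' => hm (Fin.ext (by
          show (m : ℕ) = N - 1 - (k : ℕ)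
          omega))
        simp only [wt, if_neg e1, if_neg e2]
        simp
      · simp
    · rw [dif_neg h']
      refine Finset.sum_eq_zero fun m _ => ?_
      have e1 : ¬ ((k : ℕ) = (m : ℕ)) := by have := m.2; omega
      have e2 : ¬ (((Fin.rev k : Fin N) : ℕ) = (m : ℕ)) := by have := m.2; omega
      simp only [wt, if_neg e1, if_neg e2]
      simp

/-- reduction of `Gen` to integral vectors -/
theorem gen_int (w : Fin (N / 2) → ℤ) (p q : Fin N) (h1 : p < q) (h2 : xx w p = xx w q)
    (h3 : ∀ k l : Fin N, k < l → xx w k = xx w l →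
      (k = p ∧ l = q) ∨ (k = Fin.rev q ∧ l = Fin.rev p) ∨ (Odd N ∧ l = Fin.rev k)) :
    Gen (fun m => ((w m : ℤ) : ℂ)) p q := by
  have hc : ∀ k : Fin N, xx (fun m => ((w m : ℤ) : ℂ)) k = ((xx w k : ℤ) : ℂ) := fun k =>
    (xx_map (Int.castRingHom ℂ) w k).symm
  refine ⟨h1, by rw [hc, hc, h2], fun k l hkl h => h3 k l hkl ?_⟩
  rw [hc, hc] at h
  exact_mod_cast h

theorem exists_gen_A (p q : Fin N) (hpq : p < q) (hp : Fin.rev p ≠ p) (hq : Fin.rev q ≠ q)
    (hpq' : q ≠ Fin.rev p) : ∃ v, Gen v p q := by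
  have hp2 := p.2
  have hq2 := q.2
  have a1 : N - 1 - (p : ℕ) ≠ (p : ℕ) := by
    intro h; apply hp; ext; rw [Fin.val_rev]; omega
  have a2 : N - 1 - (q : ℕ) ≠ (q : ℕ) := by
    intro h; apply hq; ext; rw [Fin.val_rev]; omega
  have a3 : (q : ℕ) ≠ N - 1 - (p : ℕ) := by
    intro h; apply hpq'; ext; rw [Fin.val_rev]; omega
  have hlt : (p : ℕ) < q := hpq
  by_cases c1 : (q : ℕ) < N / 2
  · refine ⟨_, gen_int (fun m => if (m : ℕ) = q then (p : ℤ) + 1 else (m : ℤ) + 1) p q hpq ?_ ?_⟩
    · rw [xx_eq, xx_eq]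
      split_ifs <;> simp_all <;> omega
    · intro k l hkl h
      have hk := k.2
      have hl := l.2
      have hkl' : (k : ℕ) < l := hkl
      have : ((k : ℕ) = p ∧ (l : ℕ) = q) ∨ ((k : ℕ) = N - 1 - q ∧ (l : ℕ) = N - 1 - p) := by
        rw [xx_eq, xx_eq] at h
        split_ifs at h <;> simp only [] at * <;> omega
      rcases this with h' | h'
      · left; exact ⟨Fin.ext h'.1, Fin.ext h'.2⟩
      · right; left
        exact ⟨Fin.ext (by rw [Fin.val_rev]; omega), Fin.ext (by rw [Fin.val_rev]; omega)⟩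
  · by_cases c2 : (p : ℕ) < N / 2
    · -- `rev q < N / 2`
      have c3 : N - 1 - (q : ℕ) < N / 2 := by omega
      refine ⟨_, gen_int (fun m => if (m : ℕ) = N - 1 - q then -((p : ℤ) + 1) else (m : ℤ) + 1)
        p q hpq ?_ ?_⟩
      · rw [xx_eq, xx_eq]
        split_ifs <;> simp_all <;> omega
      · intro k l hkl h
        have hk := k.2
        have hl := l.2
        have hkl' : (k : ℕ) < l := hkl
        have : ((k : ℕ) = p ∧ (l : ℕ) = q) ∨ ((k : ℕ) = N - 1 - q ∧ (l : ℕ) = N - 1 - p) := by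
          rw [xx_eq, xx_eq] at h
          split_ifs at h <;> simp only [] at * <;> omega
        rcases this with h' | h'
        · left; exact ⟨Fin.ext h'.1, Fin.ext h'.2⟩
        · right; left
          exact ⟨Fin.ext (by rw [Fin.val_rev]; omega), Fin.ext (by rw [Fin.val_rev]; omega)⟩
    · refine ⟨_, gen_int (fun m => if (m : ℕ) = N - 1 - q then ((N - 1 - p : ℕ) : ℤ) + 1 else (m : ℤ) + 1)
        p q hpq ?_ ?_⟩
      · rw [xx_eq, xx_eq]
        split_ifs <;> simp_all <;> omega
      · intro k l hkl h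
        have hk := k.2
        have hl := l.2
        have hkl' : (k : ℕ) < l := hkl
        have : ((k : ℕ) = p ∧ (l : ℕ) = q) ∨ ((k : ℕ) = N - 1 - q ∧ (l : ℕ) = N - 1 - p) := by
          rw [xx_eq, xx_eq] at h
          split_ifs at h <;> simp only [] at * <;> omega
        rcases this with h' | h'
        · left; exact ⟨Fin.ext h'.1, Fin.ext h'.2⟩
        · right; left
          exact ⟨Fin.ext (by rw [Fin.val_rev]; omega), Fin.ext (by rw [Fin.val_rev]; omega)⟩

/-- `N` even, the hyperplane `x_p = 0` -/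
theorem exists_gen_B (p : Fin N) (hN : ¬ Odd N) (hp : (p : ℕ) < N / 2) :
    ∃ v, Gen v p (Fin.rev p) := by
  have hp2 := p.2
  have hN' : 2 * (N / 2) = N := by
    rw [Nat.not_odd_iff_even] at hN
    exact Nat.two_mul_div_two_of_even hN
  refine ⟨_, gen_int (fun m => if (m : ℕ) = p then 0 else (m : ℤ) + 1) p (Fin.rev p) ?_ ?_ ?_⟩
  · show (p : ℕ) < ((Fin.rev p : Fin N) : ℕ)
    rw [Fin.val_rev]; omega
  · rw [xx_rev, xx_eq, dif_pos hp]
    simp
  · intro k l hkl h
    have hk := k.2
    have hl := l.2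
    have hkl' : (k : ℕ) < l := hkl
    have : ((k : ℕ) = p ∧ (l : ℕ) = N - 1 - p) := by
      rw [xx_eq, xx_eq] at h
      split_ifs at h <;> simp only [] at * <;> omega
    left
    exact ⟨Fin.ext this.1, Fin.ext (by rw [Fin.val_rev]; omega)⟩

/-- `N` odd, the hyperplane `x_p = 0` -/
theorem exists_gen_C (p q : Fin N) (hp : (p : ℕ) < N / 2) (hq : Fin.rev q = q) :
    ∃ v, Gen v p q := by
  have hp2 := p.2
  have hq2 := q.2
  have hq' : N - 1 - (q : ℕ) = q := by
    have := congrArg Fin.val hq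
    rw [Fin.val_rev] at this
    omega
  have hN : Odd N := ⟨q, by omega⟩
  refine ⟨_, gen_int (fun m => if (m : ℕ) = p then 0 else (m : ℤ) + 1) p q ?_ ?_ ?_⟩
  · show (p : ℕ) < (q : ℕ)
    omega
  · rw [xx_eq, xx_eq, dif_pos hp, dif_neg (by omega), dif_neg (by omega)]
    simp
  · intro k l hkl h
    have hk := k.2
    have hl := l.2
    have hkl' : (k : ℕ) < l := hkl
    have : ((k : ℕ) = p ∧ (l : ℕ) = q) ∨ ((k : ℕ) = q ∧ (l : ℕ) = N - 1 - p) ∨
        ((k : ℕ) = p ∧ (l : ℕ) = N - 1 - p) := by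
      rw [xx_eq, xx_eq] at h
      split_ifs at h <;> simp only [] at * <;> omega
    rcases this with h' | h' | h'
    · left; exact ⟨Fin.ext h'.1, Fin.ext h'.2⟩
    · right; left
      exact ⟨Fin.ext (by rw [Fin.val_rev]; omega), Fin.ext (by rw [Fin.val_rev]; omega)⟩
    · right; right
      exact ⟨hN, Fin.ext (by rw [Fin.val_rev]; omega)⟩

/-- Every root hyperplane has generic points. -/
theorem exists_gen (i j : Fin N) (hij : i ≠ j) :
    ∃ (p q : Fin N) (v : Fin (N / 2) → ℂ), Gen v p q ∧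
      ∀ x : Fin (N / 2) → ℂ, xx x i = xx x j ↔ xx x p = xx x q := by
  have hmid : ∀ (x : Fin (N / 2) → ℂ) (k : Fin N), Fin.rev k = k → xx x k = 0 := by
    intro x k hk
    have h1 := xx_rev x k
    rw [hk] at h1
    have h2 : (2 : ℂ) * xx x k = 0 := by linear_combination h1
    simpa using h2
  -- the hyperplane of a non middle index
  have hone : ∀ (a b : Fin N), Fin.rev b = b → Fin.rev a ≠ a →
      ∃ (p q : Fin N) (v : Fin (N / 2) → ℂ), Gen v p q ∧
        ∀ x : Fin (N / 2) → ℂ, xx x a = 0 ↔ xx x p = xx x q := by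
    intro a b hb ha
    have ha2 := a.2
    by_cases h : (a : ℕ) < N / 2
    · obtain ⟨v, hv⟩ := exists_gen_C a b h hb
      exact ⟨a, b, v, hv, fun x => by rw [hmid x b hb]⟩
    · have ha' : N - 1 - (a : ℕ) ≠ (a : ℕ) := by
        intro h; apply ha; ext; rw [Fin.val_rev]; omega
      have h' : ((Fin.rev a : Fin N) : ℕ) < N / 2 := by rw [Fin.val_rev]; omega
      obtain ⟨v, hv⟩ := exists_gen_C (Fin.rev a) b h' hb
      exact ⟨Fin.rev a, b, v, hv, fun x => by rw [hmid x b hb, xx_rev, neg_eq_zero]⟩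
  by_cases hi : Fin.rev i = i
  · have hj : Fin.rev j ≠ j := by
      intro hj
      apply hij
      have h1 := congrArg Fin.val hi
      have h2 := congrArg Fin.val hj
      rw [Fin.val_rev] at h1 h2
      have := i.2
      have := j.2
      ext; omega
    obtain ⟨p, q, v, hv, hx⟩ := hone j i hi hj
    refine ⟨p, q, v, hv, fun x => ?_⟩
    rw [← hx x, hmid x i hi, eq_comm]
  · by_cases hj : Fin.rev j = j
    · obtain ⟨p, q, v, hv, hx⟩ := hone i j hj hi
      refine ⟨p, q, v, hv, fun x => ?_⟩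
      rw [← hx x, hmid x j hj]
    · by_cases hji : j = Fin.rev i
      · have hx0 : ∀ x : Fin (N / 2) → ℂ, xx x i = xx x j ↔ xx x i = 0 := by
          intro x
          rw [hji, xx_rev]
          constructor
          · intro h
            have h2 : (2 : ℂ) * xx x i = 0 := by linear_combination h
            simpa using h2
          · intro h; rw [h, neg_zero]
        by_cases hN : Odd N
        · obtain ⟨m, hm⟩ := hN
          have hb : Fin.rev (⟨m, by omega⟩ : Fin N) = ⟨m, by omega⟩ := by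
            ext; rw [Fin.val_rev]; show N - (m + 1) = m; omega
          obtain ⟨p, q, v, hv, hx⟩ := hone i ⟨m, by omega⟩ hb hi
          exact ⟨p, q, v, hv, fun x => by rw [hx0, hx]⟩
        · have hi2 := i.2
          by_cases h : (i : ℕ) < N / 2
          · obtain ⟨v, hv⟩ := exists_gen_B i hN h
            exact ⟨i, Fin.rev i, v, hv, fun x => by rw [hji]⟩
          · have h' : ((Fin.rev i : Fin N) : ℕ) < N / 2 := by
              rw [Fin.val_rev]
              rw [Nat.not_odd_iff_even] at hN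
              have := Nat.two_mul_div_two_of_even hN
              omega
            obtain ⟨v, hv⟩ := exists_gen_B (Fin.rev i) hN h'
            refine ⟨Fin.rev i, Fin.rev (Fin.rev i), v, hv, fun x => ?_⟩
            rw [Fin.rev_rev, hji]
            exact eq_comm
      · rcases lt_or_gt_of_ne hij with h | h
        · obtain ⟨v, hv⟩ := exists_gen_A i j h hi hj hji
          exact ⟨i, j, v, hv, fun x => Iff.rfl⟩
        · have hij' : i ≠ Fin.rev j := by
            intro h'; apply hji; rw [h', Fin.rev_rev]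
          obtain ⟨v, hv⟩ := exists_gen_A j i h hj hi hij'
          exact ⟨j, i, v, hv, fun x => eq_comm⟩

/-- On every root hyperplane, `goodAt` applies at all but finitely many points of a line through
any given pair `(Y, x0)`. -/
theorem exists_line (i j : Fin N) (hij : i ≠ j) :
    ∃ (p q : Fin N) (v : Fin (N / 2) → ℂ), Gen v p q ∧
      (∀ x : Fin (N / 2) → ℂ, xx x i = xx x j ↔ xx x p = xx x q) ∧
      ∀ x0 : Fin (N / 2) → ℂ, xx x0 i = xx x0 j → ∀ Y : Matrix (Fin N) (Fin N) ℂ,
        (∀ i j, j ≤ i → Y i j = 0) → IsLie Y →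
        {s : ℂ | ¬ (Gen (x0 + s • v) p q ∧
          GoodAt (Y + s • (em ℂ N - Y)) (x0 + s • v))}.Finite := by
  obtain ⟨p, q, v, hv, hx⟩ := exists_gen i j hij
  refine ⟨p, q, v, hv, hx, fun x0 h0 Y hY hL => ?_⟩
  refine ((hv.finite x0 ((hx x0).mp h0)).union (finite_nonregular Y hY x0 v)).subset ?_
  intro s hs
  by_contra hcon
  apply hs
  simp only [Set.mem_union, Set.mem_setOf_eq, not_or, not_not] at hcon
  refine ⟨hcon.1, goodAt hcon.1 _ ?_ ?_ hcon.2⟩
  · intro k l hkl
    have : ¬ ((l : ℕ) = (k : ℕ) + 1) := by have : (l : ℕ) ≤ k := hkl; omega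
    simp [hY k l hkl, em, this]
  · rw [isLie_iff_st, st_add, st_smul, st_sub, (isLie_iff_st _).mp hL,
      (isLie_iff_st _).mp isLie_em]
    rw [neg_add, ← smul_neg]
    congr 2
    abel

end line

end Pool.Agent.MP_c45d35_ag
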