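import Mathlib

set_option autoImplicit false

/-! # MP_c45d35_ag, Block G : finite generation from integrality -/

namespace Pool.Agent.MP_c45d35_ag

namespace BlockG

open TensorProduct

/-- The integral closure of a Noetherian normal domain of characteristic zero in a finitely
generated domain containing it is a Noetherian module. -/
theorem g_core (A D : Type*) [CommRing A] [IsDomain A] [IsIntegrallyClosed A]
    [IsNoetherianRing A] [CharZero A] [CommRing D] [IsDomain D] [Algebra A D]
    [Algebra.FiniteType A D] (hinj : Function.Injective (algebraMap A D)) :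
    IsNoetherian A (integralClosure A D) := by
  let F := FractionRing A
  let T := F ⊗[A] D
  have hfin : Algebra.FiniteType F T := inferInstance
  have hA : Function.Injective (Algebra.ofId A (FractionRing D)) := by
    have h1 : Function.Injective (algebraMap A (FractionRing D)) := by
      rw [IsScalarTower.algebraMap_eq A D (FractionRing D)]
      exact (IsFractionRing.injective D (FractionRing D)).comp hinj
    exact h1
  let f : F →ₐ[A] FractionRing D := IsFractionRing.liftAlgHom hA
  let φ : T →ₐ[A] FractionRing D :=
    Algebra.TensorProduct.lift f (IsScalarTower.toAlgHom A D (FractionRing D))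
      (fun _ _ => Commute.all _ _)
  have : Nontrivial T := φ.toRingHom.domain_nontrivial
  obtain ⟨m, hm⟩ := Ideal.exists_maximal T
  let K' := T ⧸ m
  let : Field K' := Ideal.Quotient.field m
  have : Algebra.FiniteType F K' := inferInstance
  have : Module.Finite F K' := finite_of_finite_type_of_isJacobsonRing F K'
  have : CharZero F := inferInstance
  have : PerfectField F := inferInstance
  have : Algebra.IsAlgebraic F K' := Algebra.IsAlgebraic.of_finite F K'
  have : Algebra.IsSeparable F K' := Algebra.IsAlgebraic.isSeparable_of_perfectField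
  have : IsScalarTower A F K' := inferInstance
  let ψ : D →ₐ[A] K' := (Ideal.Quotient.mkₐ A m).comp Algebra.TensorProduct.includeRight
  have hK : Function.Injective (algebraMap A K') := by
    rw [IsScalarTower.algebraMap_eq A F K']
    exact (algebraMap F K').injective.comp (IsFractionRing.injective A F)
  let χ : integralClosure A D →ₐ[A] K' := ψ.comp (integralClosure A D).val
  have hker : RingHom.ker χ.toRingHom = ⊥ := by
    apply Ideal.eq_bot_of_comap_eq_bot (R := A)
    rw [RingHom.comap_ker]
    rw [← RingHom.injective_iff_ker_eq_bot]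
    have : χ.toRingHom.comp (algebraMap A (integralClosure A D)) = algebraMap A K' :=
      χ.comp_algebraMap
    rw [this]
    exact hK
  have hχ : Function.Injective χ := (RingHom.injective_iff_ker_eq_bot χ.toRingHom).mpr hker
  have : IsNoetherian A (integralClosure A K') :=
    IsIntegralClosure.isNoetherian A F K' (integralClosure A K')
  let χ' : integralClosure A D →ₗ[A] Subalgebra.toSubmodule (integralClosure A K') :=
    χ.toLinearMap.codRestrict (Subalgebra.toSubmodule (integralClosure A K')) (fun x => by
      have h1 : IsIntegral A (x : D) := x.2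
      have h2 : IsIntegral A (ψ (x : D)) := h1.map ψ
      exact h2)
  have h3 : Function.Injective χ' := by
    intro x y hxy
    apply hχ
    exact congrArg Subtype.val hxy
  have : IsNoetherian A (Subalgebra.toSubmodule (integralClosure A K')) :=
    inferInstanceAs (IsNoetherian A (integralClosure A K'))
  exact isNoetherian_of_injective χ' h3

theorem g_int (R D : Type*) [CommRing R] [Algebra ℂ R] [Algebra.FiniteType ℂ R] [CommRing D]
    [IsDomain D] [Algebra ℂ D] [Algebra.FiniteType ℂ D] [Algebra R D] [IsScalarTower ℂ R D] :
    IsNoetherian R (integralClosure R D) := by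
  let θ : R →ₐ[ℂ] D := IsScalarTower.toAlgHom ℂ R D
  have : Algebra.FiniteType ℂ θ.range :=
    Algebra.FiniteType.of_surjective θ.rangeRestrict θ.rangeRestrict_surjective
  obtain ⟨s, g, hg, hgi⟩ := exists_integral_inj_algHom_of_fg ℂ θ.range
  have hex : ∀ i : Fin s, ∃ r : R, θ r = (g (MvPolynomial.X i) : D) := fun i =>
    (g (MvPolynomial.X i)).2
  choose r hr using hex
  let g' : MvPolynomial (Fin s) ℂ →ₐ[ℂ] R := MvPolynomial.aeval r
  have hg' : θ.comp g' = θ.range.val.comp g := by
    apply MvPolynomial.algHom_ext
    intro i
    simp [g', hr]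
  have hg'' : ∀ a, algebraMap R D (g' a) = (g a : D) := fun a => DFunLike.congr_fun hg' a
  let : Algebra (MvPolynomial (Fin s) ℂ) R := g'.toRingHom.toAlgebra
  let : Algebra (MvPolynomial (Fin s) ℂ) D :=
    ((algebraMap R D).comp g'.toRingHom).toAlgebra
  have : IsScalarTower (MvPolynomial (Fin s) ℂ) R D :=
    IsScalarTower.of_algebraMap_eq (fun _ => rfl)
  have : IsScalarTower ℂ (MvPolynomial (Fin s) ℂ) D := IsScalarTower.of_algebraMap_eq (by
    intro c
    show algebraMap ℂ D c = algebraMap R D (g' (algebraMap ℂ _ c))
    rw [g'.commutes, ← IsScalarTower.algebraMap_apply])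
  have : Algebra.FiniteType (MvPolynomial (Fin s) ℂ) D :=
    Algebra.FiniteType.of_restrictScalars_finiteType ℂ (MvPolynomial (Fin s) ℂ) D
  have hinj : Function.Injective (algebraMap (MvPolynomial (Fin s) ℂ) D) := by
    intro a b hab
    have h1 : algebraMap R D (g' a) = algebraMap R D (g' b) := hab
    rw [hg'', hg''] at h1
    exact hg (Subtype.ext h1)
  have hcore := g_core (MvPolynomial (Fin s) ℂ) D hinj
  -- integral over `R` implies integral over the polynomial ring
  let : Algebra R θ.range := θ.rangeRestrict.toRingHom.toAlgebra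
  have : IsScalarTower R θ.range D := IsScalarTower.of_algebraMap_eq (fun _ => rfl)
  let : Algebra (MvPolynomial (Fin s) ℂ) θ.range := g.toRingHom.toAlgebra
  have : IsScalarTower (MvPolynomial (Fin s) ℂ) θ.range D :=
    IsScalarTower.of_algebraMap_eq (fun a => hg'' a)
  have : Algebra.IsIntegral (MvPolynomial (Fin s) ℂ) θ.range := ⟨hgi⟩
  have hint : ∀ x : D, IsIntegral R x → IsIntegral (MvPolynomial (Fin s) ℂ) x := by
    intro x hx
    have h1 : IsIntegral θ.range x := hx.tower_top
    exact isIntegral_trans x h1
  let ι : integralClosure R D →ₗ[MvPolynomial (Fin s) ℂ]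
      Subalgebra.toSubmodule (integralClosure (MvPolynomial (Fin s) ℂ) D) :=
    { toFun := fun x => ⟨(x : D), hint x x.2⟩
      map_add' := fun x y => rfl
      map_smul' := fun c x => rfl }
  have hι : Function.Injective ι := by
    intro x y hxy
    apply Subtype.ext
    have h6 : ((ι x : Subalgebra.toSubmodule (integralClosure (MvPolynomial (Fin s) ℂ) D)) : D) =
      ((ι y : Subalgebra.toSubmodule (integralClosure (MvPolynomial (Fin s) ℂ) D)) : D) :=
      congrArg Subtype.val hxy
    exact h6
  have : IsNoetherian (MvPolynomial (Fin s) ℂ)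
      (Subalgebra.toSubmodule (integralClosure (MvPolynomial (Fin s) ℂ) D)) := hcore
  have h5 : IsNoetherian (MvPolynomial (Fin s) ℂ) (integralClosure R D) :=
    isNoetherian_of_injective ι hι
  exact isNoetherian_of_tower (MvPolynomial (Fin s) ℂ) h5

end BlockG

theorem fg_of_integral {C : Type*} [CommRing C] [IsReduced C] [Algebra ℂ C]
    (hC : Algebra.FiniteType ℂ C) (R B : Subalgebra ℂ C) (hR : R.FG) (hRB : R ≤ B)
    (hint : ∀ b ∈ B, IsIntegral R b) : B.FG := by
  have : Algebra.FiniteType ℂ R := (Subalgebra.fg_iff_finiteType R).mp hR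
  let : Algebra R B := (Subalgebra.inclusion hRB).toRingHom.toAlgebra
  have : IsScalarTower ℂ R B := IsScalarTower.of_algebraMap_eq (fun _ => rfl)
  have : IsNoetherianRing C := Algebra.FiniteType.isNoetherianRing ℂ C
  have : IsNoetherianRing R := Algebra.FiniteType.isNoetherianRing ℂ R
  have : Finite (minimalPrimes C) := (minimalPrimes.finite_of_isNoetherianRing C).to_subtype
  have hprime : ∀ p : minimalPrimes C, (p : Ideal C).IsPrime := fun p =>
    p.2.1.1
  have : ∀ p : minimalPrimes C, IsNoetherian R (integralClosure R (C ⧸ (p : Ideal C))) := by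
    intro p
    have : Algebra.FiniteType ℂ (C ⧸ (p : Ideal C)) := inferInstance
    exact BlockG.g_int R (C ⧸ (p : Ideal C))
  let Φ : B →ₗ[R] (∀ p : minimalPrimes C, integralClosure R (C ⧸ (p : Ideal C))) :=
    { toFun := fun b p => ⟨Ideal.Quotient.mk (p : Ideal C) (b : C), by
        have h1 := hint b b.2
        exact h1.map (Ideal.Quotient.mkₐ R (p : Ideal C))⟩
      map_add' := fun x y => rfl
      map_smul' := fun c x => rfl }
  have hΦ : Function.Injective Φ := by
    rw [← LinearMap.ker_eq_bot, LinearMap.ker_eq_bot']
    intro b hb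
    have h1 : ∀ p : minimalPrimes C, (b : C) ∈ (p : Ideal C) := by
      intro p
      have h2 := congrArg Subtype.val (congrFun hb p)
      exact Ideal.Quotient.eq_zero_iff_mem.mp h2
    have h3 : (b : C) ∈ nilradical C := by
      rw [nilradical, ← Ideal.sInf_minimalPrimes, Submodule.mem_sInf]
      intro p hp
      exact h1 ⟨p, hp⟩
    rw [nilradical_eq_zero] at h3
    exact Subtype.ext h3
  have : IsNoetherian R B := isNoetherian_of_injective Φ hΦ
  have : Module.Finite R B := inferInstance
  have : Algebra.FiniteType R B := inferInstance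
  have : Algebra.FiniteType ℂ B := Algebra.FiniteType.trans ‹Algebra.FiniteType ℂ R› this
  exact (Subalgebra.fg_iff_finiteType B).mpr this

end Pool.Agent.MP_c45d35_ag
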