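import Pool.Agent.MP_c45d35_ag.Basic

namespace Pool.Agent.MP_c45d35_ag

open Matrix

namespace BlockD

section up
variable {R : Type*} [CommRing R] {N : ℕ}

/-- upper triangular -/
def Up (M : Matrix (Fin N) (Fin N) R) : Prop := ∀ i j, j < i → M i j = 0

theorem Up.mul {A B : Matrix (Fin N) (Fin N) R} (hA : Up A) (hB : Up B) : Up (A * B) := by
  intro i j hij
  rw [Matrix.mul_apply]
  refine Finset.sum_eq_zero fun k _ => ?_
  by_cases h : k < i
  · rw [hA i k h, zero_mul]
  · rw [hB k j (lt_of_lt_of_le hij (not_lt.1 h)), mul_zero]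

theorem Up.diag_mul {A B : Matrix (Fin N) (Fin N) R} (hA : Up A) (hB : Up B) (i : Fin N) :
    (A * B) i i = A i i * B i i := by
  rw [Matrix.mul_apply, Finset.sum_eq_single i]
  · intro k _ hk
    rcases lt_or_gt_of_ne hk with h | h
    · rw [hA i k h, zero_mul]
    · rw [hB k i h, mul_zero]
  · simp

theorem Up.inv {A : Matrix (Fin N) (Fin N) R} (hA : Up A) (hd : IsUnit A.det) : Up A⁻¹ := by
  have : Invertible A := Matrix.invertibleOfIsUnitDet A hd
  have h1 : A.BlockTriangular id := fun i j h => hA i j h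
  have h2 := Matrix.blockTriangular_inv_of_blockTriangular h1
  exact fun i j h => h2 h

theorem Up.st {A : Matrix (Fin N) (Fin N) R} (hA : Up A) : Up (st A) := by
  intro i j hij
  rw [st_apply, hA _ _ (Fin.rev_lt_rev.2 hij), mul_zero]

theorem Up.det {A : Matrix (Fin N) (Fin N) R} (hA : Up A) : A.det = ∏ i, A i i :=
  Matrix.det_of_isUpperTriangular (M := A) (fun i j h => hA i j h)

theorem Up.diagonal (d : Fin N → R) : Up (Matrix.diagonal d) := by
  intro i j hij
  exact Matrix.diagonal_apply_ne _ (ne_of_gt hij)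

theorem st_map {S : Type*} [CommRing S] (φ : R →+* S) (X : Matrix (Fin N) (Fin N) R) :
    st (X.map φ) = (st X).map φ := by
  ext i j
  rw [st_apply, Matrix.map_apply, Matrix.map_apply, st_apply]
  simp

/-- the symmetric unipotent normal form -/
theorem exists_sqrt (h2 : R) (hh : 2 * h2 = 1) : ∀ n d : ℕ, N ≤ d + n → 1 ≤ d →
    ∀ A : Matrix (Fin N) (Fin N) R, UpUni A → st A = A →
      (∀ i j : Fin N, i < j → (j : ℕ) < (i : ℕ) + d → A i j = 0) →
      ∃ c : Matrix (Fin N) (Fin N) R, UpUni c ∧ st c * A * c = 1 := by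
  intro n
  induction n with
  | zero =>
    intro d hd _ A hA _ hz
    refine ⟨1, UpUni.one, ?_⟩
    rw [st_one, one_mul, mul_one]
    ext i j
    rcases lt_trichotomy i j with h | h | h
    · rw [hz i j h (by have := j.2; omega), Matrix.one_apply_ne (ne_of_lt h)]
    · subst h
      rw [hA.2, Matrix.one_apply_eq]
    · rw [hA.1 i j h, Matrix.one_apply_ne (ne_of_gt h)]
  | succ n ih =>
    intro d hd hd1 A hA hst hz
    set U : Matrix (Fin N) (Fin N) R := A - 1 with hU
    have hAU : A = 1 + U := by rw [hU]; abel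
    set c1 : Matrix (Fin N) (Fin N) R := 1 - h2 • U with hc1
    have hstU : st U = U := by rw [hU, st_sub, hst, st_one]
    have hstc : st c1 = c1 := by rw [hc1, st_sub, st_one, st_smul, hstU]
    have hUz : ∀ i j : Fin N, (j : ℕ) < (i : ℕ) + d → U i j = 0 := by
      intro i j hij
      rw [hU, Matrix.sub_apply]
      rcases lt_trichotomy i j with h | h | h
      · rw [hz i j h hij, Matrix.one_apply_ne (ne_of_lt h), sub_zero]
      · subst h
        rw [hA.2, Matrix.one_apply_eq, sub_self]
      · rw [hA.1 i j h, Matrix.one_apply_ne (ne_of_gt h), sub_zero]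
    have hUU : ∀ i j : Fin N, (j : ℕ) < (i : ℕ) + (d + 1) → (U * U) i j = 0 := by
      intro i j hij
      rw [Matrix.mul_apply]
      refine Finset.sum_eq_zero fun k _ => ?_
      by_cases h : (k : ℕ) < (i : ℕ) + d
      · rw [hUz i k h, zero_mul]
      · rw [hUz k j (by omega), mul_zero]
    have hc1U : UpUni c1 := by
      constructor
      · intro i j hij
        have h' : (j : ℕ) < (i : ℕ) := hij
        rw [hc1, Matrix.sub_apply, Matrix.smul_apply, hUz i j (by omega),
          Matrix.one_apply_ne (ne_of_gt hij), smul_zero, sub_zero]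
      · intro i
        rw [hc1, Matrix.sub_apply, Matrix.smul_apply, hUz i i (by omega),
          Matrix.one_apply_eq, smul_zero, sub_zero]
    have hA2 : st c1 * A * c1 = 1 + (U * U) * (-(3 * h2 * h2) • 1 + (h2 * h2) • U) := by
      rw [hstc, hAU, hc1]
      have e1 : (1 - h2 • U) * (1 + U) * (1 - h2 • U) =
          1 + (1 - 2 * h2) • U + (h2 * h2 - 2 * h2) • (U * U) + (h2 * h2) • (U * U * U) := by
        simp only [sub_mul, mul_sub, add_mul, mul_add, one_mul, mul_one, Matrix.smul_mul,
          Matrix.mul_smul, smul_smul, Matrix.mul_assoc]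
        module
      rw [e1, hh, sub_self, zero_smul, add_zero, mul_add, Matrix.mul_smul, Matrix.mul_smul,
        mul_one]
      have e2 : h2 * h2 - 1 = -(3 * h2 * h2) := by linear_combination (2 * h2 + 1) * hh
      rw [e2, add_assoc]
    have hA2z : ∀ i j : Fin N, (j : ℕ) < (i : ℕ) + (d + 1) →
        ((U * U) * (-(3 * h2 * h2) • 1 + (h2 * h2) • U)) i j = 0 := by
      intro i j hij
      rw [Matrix.mul_apply]
      refine Finset.sum_eq_zero fun k _ => ?_
      by_cases h : (k : ℕ) < (i : ℕ) + (d + 1)
      · rw [hUU i k h, zero_mul]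
      · have hne : k ≠ j := by
          rintro rfl
          omega
        rw [Matrix.add_apply, Matrix.smul_apply, Matrix.smul_apply, hUz k j (by omega),
          Matrix.one_apply_ne hne, smul_zero, smul_zero, add_zero, mul_zero]
    have hA2U : UpUni (st c1 * A * c1) := by
      rw [hstc]
      exact (hc1U.mul hA).mul hc1U
    have hA2s : st (st c1 * A * c1) = st c1 * A * c1 := by
      rw [st_mul, st_mul, st_st, hst, Matrix.mul_assoc]
    obtain ⟨c2, hc2, hc2'⟩ := ih (d + 1) (by omega) (by omega) (st c1 * A * c1) hA2U hA2s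
      (by
        intro i j hij hlt
        rw [hA2, Matrix.add_apply, hA2z i j hlt, Matrix.one_apply_ne (ne_of_lt hij), add_zero])
    refine ⟨c1 * c2, hc1U.mul hc2, ?_⟩
    rw [st_mul, ← hc2']
    simp only [Matrix.mul_assoc]

end up


/-! ### triangulation over the valuation ring -/

section gl
variable {K : Type*} [Field K] {N : ℕ}

theorem det_zero_of_col {h : Matrix (Fin N) (Fin N) K} (m : Fin N)
    (h1 : ∀ i j : Fin N, j < m → j < i → h i j = 0) (h2 : ∀ i, m ≤ i → h i m = 0) :
    h.det = 0 := by
  classical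
  rw [Matrix.twoBlockTriangular_det h (fun i => i ≤ m)]
  · have h3 : (Matrix.toSquareBlockProp h (fun i => i ≤ m)).det = 0 := by
      rw [Matrix.det_of_isUpperTriangular]
      · apply Finset.prod_eq_zero (Finset.mem_univ (⟨m, le_refl m⟩ : {i // i ≤ m}))
        exact h2 m le_rfl
      · intro i j hij
        have hij' : (j : Fin N) < (i : Fin N) := hij
        rcases lt_or_eq_of_le j.2 with h4 | h4
        · exact h1 i j h4 hij'
        · show h (i : Fin N) (j : Fin N) = 0
          exact absurd (lt_of_lt_of_le hij' i.2) (by rw [h4]; exact lt_irrefl _)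
    rw [h3, zero_mul]
  · intro i hi j hj
    rw [not_le] at hi
    rcases lt_or_eq_of_le hj with h4 | h4
    · exact h1 i j h4 (lt_trans h4 hi)
    · rw [h4]
      exact h2 i hi.le

theorem exists_triang (V : ValuationSubring K) (g : Matrix (Fin N) (Fin N) K) (hg : g.det ≠ 0) :
    ∀ m : ℕ, m ≤ N → ∃ k : Matrix (Fin N) (Fin N) V, IsUnit k.det ∧
      ∀ i j : Fin N, (j : ℕ) < m → j < i → (k.map (algebraMap V K) * g) i j = 0 := by
  intro m
  induction m with
  | zero => exact fun _ => ⟨1, by simp, fun i j h => absurd h (Nat.not_lt_zero _)⟩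
  | succ m ih =>
    intro hm
    obtain ⟨k, hk, hk0⟩ := ih (by omega)
    set h := k.map (algebraMap V K) * g with hh
    have hdet : h.det ≠ 0 := by
      rw [hh, Matrix.det_mul]
      refine mul_ne_zero ?_ hg
      have := (RingHom.map_det (algebraMap V K) k).symm
      rw [RingHom.mapMatrix_apply] at this
      rw [this]
      have hu := hk.map (algebraMap V K)
      exact hu.ne_zero
    set p : Fin N := ⟨m, by omega⟩ with hp
    -- pivot
    obtain ⟨i0, hi0, hmax⟩ := Finset.exists_max_image (Finset.univ.filter (fun i : Fin N => p ≤ i))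
      (fun i => V.valuation (h i p)) ⟨p, by simp⟩
    rw [Finset.mem_filter] at hi0
    have hne : h i0 p ≠ 0 := by
      intro h0
      apply hdet
      apply det_zero_of_col p
      · intro i j hj hji
        exact hk0 i j hj hji
      · intro i hi
        have h1 := hmax i (by simp [hi])
        rw [h0, map_zero] at h1
        have h2 : V.valuation (h i p) = 0 := le_antisymm h1 zero_le
        exact (map_eq_zero _).1 h2
    -- swap
    set h' : Matrix (Fin N) (Fin N) K := Matrix.swap K p i0 * h with hh'
    have hpp : h' p p = h i0 p := by rw [hh', Matrix.swap_mul_apply_left]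
    have h'z : ∀ i j : Fin N, j < p → j < i → h' i j = 0 := by
      intro i j hj hji
      by_cases h1 : i = p
      · subst h1
        rw [hh', Matrix.swap_mul_apply_left]
        exact hk0 i0 j hj (lt_of_lt_of_le hj hi0.2)
      · by_cases h2 : i = i0
        · subst h2
          rw [hh', Matrix.swap_mul_apply_right]
          exact hk0 p j hj hj
        · rw [hh', Matrix.swap_mul_of_ne h1 h2]
          exact hk0 i j hj hji
    have hdom : ∀ i : Fin N, p ≤ i → ∃ c : V, (c : K) * h' p p = h' i p := by
      intro i hi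
      have h1 : ∃ i' : Fin N, p ≤ i' ∧ h' i p = h i' p := by
        by_cases h1 : i = p
        · subst h1
          exact ⟨i0, hi0.2, by rw [hh', Matrix.swap_mul_apply_left]⟩
        · by_cases h2 : i = i0
          · subst h2
            exact ⟨p, le_rfl, by rw [hh', Matrix.swap_mul_apply_right]⟩
          · exact ⟨i, hi, by rw [hh', Matrix.swap_mul_of_ne h1 h2]⟩
      obtain ⟨i', hi', he⟩ := h1
      have h2 := hmax i' (by simp [hi'])
      have h3 : h i' p / h i0 p ∈ V := by
        rw [← ValuationSubring.valuation_le_one_iff, map_div₀]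
        exact div_le_one_of_le₀ h2 zero_le
      refine ⟨⟨_, h3⟩, ?_⟩
      rw [hpp, he]
      exact div_mul_cancel₀ _ hne
    choose! c hc using hdom
    set L : Matrix (Fin N) (Fin N) V := Matrix.of fun i j =>
      if i = j then 1 else if j = p ∧ p < i then - c i else 0 with hL
    have hLL : LowUni L := by
      constructor
      · intro i j hij
        rw [hL, Matrix.of_apply, if_neg (ne_of_lt hij), if_neg]
        rintro ⟨rfl, h1⟩
        exact absurd hij (not_lt.2 h1.le)
      · intro i
        rw [hL, Matrix.of_apply, if_pos rfl]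
    have hLrow : ∀ i j : Fin N, (L.map (algebraMap V K) * h') i j =
        h' i j - (if p < i then (c i : K) else 0) * h' p j := by
      intro i j
      rw [Matrix.mul_apply]
      by_cases hpi : p < i
      · rw [if_pos hpi]
        have hne' : i ≠ p := ne_of_gt hpi
        rw [Finset.sum_eq_add i p hne']
        · rw [Matrix.map_apply, Matrix.map_apply, hL, Matrix.of_apply, Matrix.of_apply,
            if_pos rfl, if_neg hne', if_pos ⟨rfl, hpi⟩, map_one, one_mul, map_neg]
          rw [neg_mul, ← sub_eq_add_neg]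
          rfl
        · intro l _ hl
          rw [Matrix.map_apply, hL, Matrix.of_apply, if_neg (Ne.symm hl.1), if_neg, map_zero,
            zero_mul]
          exact fun h1 => hl.2 h1.1
        · intro h1
          exact absurd (Finset.mem_univ _) h1
        · intro h1
          exact absurd (Finset.mem_univ _) h1
      · rw [if_neg hpi, zero_mul, sub_zero, Finset.sum_eq_single i]
        · rw [Matrix.map_apply, hL, Matrix.of_apply, if_pos rfl, map_one, one_mul]
        · intro l _ hl
          rw [Matrix.map_apply, hL, Matrix.of_apply, if_neg (Ne.symm hl), if_neg, map_zero,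
            zero_mul]
          exact fun h1 => hpi h1.2
        · intro h1
          exact absurd (Finset.mem_univ _) h1
    refine ⟨L * (Matrix.swap V p i0 * k), ?_, ?_⟩
    · rw [Matrix.det_mul, Matrix.det_mul, hLL.det, one_mul]
      refine IsUnit.mul ?_ hk
      have h1 := congrArg Matrix.det (Matrix.swap_mul_self (R := V) p i0)
      rw [Matrix.det_mul, Matrix.det_one] at h1
      exact IsUnit.of_mul_eq_one _ h1
    · have he : (L * (Matrix.swap V p i0 * k)).map (algebraMap V K) * g =
          L.map (algebraMap V K) * h' := by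
        rw [Matrix.map_mul, Matrix.map_mul, hh', hh, Matrix.map_swap]
        simp only [Matrix.mul_assoc]
      rw [he]
      intro i j hj hji
      rw [hLrow]
      rcases Nat.lt_succ_iff_lt_or_eq.1 hj with h1 | h1
      · have h1' : j < p := h1
        rw [h'z i j h1' hji, h'z p j h1' h1', mul_zero, sub_zero]
      · have hjp : j = p := Fin.ext h1
        subst hjp
        rw [if_pos hji, hc i hji.le, sub_self]

end gl


theorem mem_of_sq_mem {K : Type*} [Field K] (V : ValuationSubring K) {x : K} (h : x * x ∈ V) :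
    x ∈ V := by
  rcases V.mem_or_inv_mem x with h1 | h1
  · exact h1
  · by_cases hx : x = 0
    · rw [hx]; exact V.zero_mem
    · have h2 := V.mul_mem _ _ h h1
      rwa [mul_assoc, mul_inv_cancel₀ hx, mul_one] at h2

theorem det_sum {R : Type*} [CommRing R] {m n : ℕ} (P : Matrix (Fin m) (Fin n) R)
    (Q : Matrix (Fin n) (Fin m) R) :
    (P * Q).det = ∑ r : Fin m → Fin n, (∏ i, P i (r i)) * (Q.submatrix r id).det := by
  have h1 : (P * Q).det = Matrix.detRowAlternating (fun i => ∑ k : Fin n, P i k • Q k) := by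
    show Matrix.detRowAlternating (P * Q) = _
    congr 1
    funext i j
    rw [Matrix.mul_apply, Finset.sum_apply]
    rfl
  rw [h1]
  have h2 := (Matrix.detRowAlternating (n := Fin m) (R := R)).toMultilinearMap.map_sum
    (g := fun i (k : Fin n) => P i k • Q k)
  rw [show Matrix.detRowAlternating (fun i => ∑ k : Fin n, P i k • Q k) =
    (Matrix.detRowAlternating (n := Fin m) (R := R)).toMultilinearMap
      (fun i => ∑ k : Fin n, P i k • Q k) from rfl, h2]
  refine Finset.sum_congr rfl fun r _ => ?_
  rw [MultilinearMap.map_smul_univ]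
  rfl

end BlockD

theorem exists_unit_minor {N : ℕ} {K : Type*} [Field K] (V : ValuationSubring K)
    (k k' : Matrix (Fin N) (Fin N) K) (hk : ∀ i j, k i j ∈ V) (hk' : ∀ i j, k' i j ∈ V)
    (h : k' * k = 1) (m : ℕ) (hm : m ≤ N) :
    ∃ I : Fin m → Fin N, (k.submatrix I (Fin.castLE hm)).det ≠ 0 ∧
      ((k.submatrix I (Fin.castLE hm)).det)⁻¹ ∈ V := by
  -- lift to V
  let kV : Matrix (Fin N) (Fin N) V := Matrix.of fun i j => ⟨k i j, hk i j⟩
  let kV' : Matrix (Fin N) (Fin N) V := Matrix.of fun i j => ⟨k' i j, hk' i j⟩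
  have hkV : kV.map (algebraMap V K) = k := by ext i j; rfl
  have hkV' : kV'.map (algebraMap V K) = k' := by ext i j; rfl
  have hinj : Function.Injective (algebraMap V K) := Subtype.val_injective
  have hmul : kV' * kV = 1 := by
    have h1 : (kV' * kV).map (algebraMap V K) = (1 : Matrix (Fin N) (Fin N) V).map (algebraMap V K) := by
      rw [Matrix.map_mul, hkV, hkV', h, Matrix.map_one _ (map_zero _) (map_one _)]
    exact Matrix.map_injective hinj h1
  have hPQ : kV'.submatrix (Fin.castLE hm) id * kV.submatrix id (Fin.castLE hm) = 1 := by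
    rw [← Matrix.submatrix_mul _ _ _ id _ Function.bijective_id, hmul]
    ext i j
    rw [Matrix.submatrix_apply, Matrix.one_apply, Matrix.one_apply]
    simp
  have hsum := BlockD.det_sum (kV'.submatrix (Fin.castLE hm) id)
    (kV.submatrix id (Fin.castLE hm))
  rw [hPQ, Matrix.det_one] at hsum
  by_contra hcon
  push Not at hcon
  have hnon : ∀ r : Fin m → Fin N, ((kV.submatrix id (Fin.castLE hm)).submatrix r id).det ∈
      IsLocalRing.maximalIdeal V := by
    intro r
    rw [IsLocalRing.mem_maximalIdeal, mem_nonunits_iff]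
    intro hu
    obtain ⟨u, hu'⟩ := hu
    have h1 : algebraMap V K ((kV.submatrix id (Fin.castLE hm)).submatrix r id).det =
        (k.submatrix r (Fin.castLE hm)).det := by
      rw [RingHom.map_det, RingHom.mapMatrix_apply]
      rfl
    have h2 : (k.submatrix r (Fin.castLE hm)).det * algebraMap V K (↑u⁻¹ : V) = 1 := by
      rw [← h1, ← hu', ← map_mul, Units.mul_inv, map_one]
    have h3 : (k.submatrix r (Fin.castLE hm)).det ≠ 0 := left_ne_zero_of_mul_eq_one h2
    apply hcon r h3
    have h4 : ((k.submatrix r (Fin.castLE hm)).det)⁻¹ = algebraMap V K (↑u⁻¹ : V) :=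
      (eq_inv_of_mul_eq_one_right h2).symm
    rw [h4]
    exact (↑u⁻¹ : V).2
  have h1 : (1 : V) ∈ IsLocalRing.maximalIdeal V := by
    rw [hsum]
    exact Ideal.sum_mem _ fun r _ => Ideal.mul_mem_left _ _ (hnon r)
  exact (Ideal.ne_top_iff_one _).1 (IsLocalRing.maximalIdeal.isMaximal V).ne_top h1

theorem iwasawa {N : ℕ} {K : Type*} [Field K] [Algebra ℂ K] (V : ValuationSubring K)
    (hV : ∀ z : ℂ, algebraMap ℂ K z ∈ V) (g : Matrix (Fin N) (Fin N) K) (hg : IsG g) :
    ∃ k b : Matrix (Fin N) (Fin N) K, IsG k ∧ (∀ i j, k i j ∈ V) ∧ IsG b ∧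
      (∀ i j, j < i → b i j = 0) ∧ g = k * b := by
  classical
  set φ : V →+* K := algebraMap V K with hφ
  have hinj : Function.Injective φ := Subtype.val_injective
  obtain ⟨q, hq, hq0⟩ := BlockD.exists_triang V g hg.isUnit_det.ne_zero N le_rfl
  -- k1 = q⁻¹ over V, b1 = q g
  set k1 : Matrix (Fin N) (Fin N) V := q⁻¹ with hk1
  set b1 : Matrix (Fin N) (Fin N) K := q.map φ * g with hb1
  have hb1U : BlockD.Up b1 := fun i j h => hq0 i j j.2 h
  have hqk : k1 * q = 1 := Matrix.nonsing_inv_mul q hq
  have hg1 : g = k1.map φ * b1 := by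
    rw [hb1, ← Matrix.mul_assoc, ← Matrix.map_mul, hqk, Matrix.map_one _ (map_zero _) (map_one _),
      Matrix.one_mul]
  have hk1d : IsUnit k1.det := by
    have := congrArg Matrix.det hqk
    rw [Matrix.det_mul, Matrix.det_one] at this
    exact IsUnit.of_mul_eq_one _ this
  have hb1d : IsUnit b1.det := by
    rw [hb1, Matrix.det_mul]
    refine IsUnit.mul ?_ hg.isUnit_det
    have := (RingHom.map_det φ q).symm
    rw [RingHom.mapMatrix_apply] at this
    rw [this]
    exact hq.map φ
  -- A
  set A : Matrix (Fin N) (Fin N) V := st k1 * k1 with hA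
  have hAst : st A = A := by rw [hA, st_mul, st_st]
  have hAeq : st b1 * A.map φ * b1 = 1 := by
    have h1 := hg.st_mul_self
    rw [hg1, st_mul] at h1
    rw [hA, Matrix.map_mul, ← BlockD.st_map, ← h1]
    simp only [Matrix.mul_assoc]
  have hAup : BlockD.Up A := by
    have h2 : A.map φ = (st b1)⁻¹ * b1⁻¹ := by
      have hs : IsUnit (st b1).det := by rw [st_det]; exact hb1d
      calc A.map φ = ((st b1)⁻¹ * st b1) * A.map φ * (b1 * b1⁻¹) := by
            rw [Matrix.nonsing_inv_mul _ hs, Matrix.mul_nonsing_inv _ hb1d, Matrix.one_mul,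
              Matrix.mul_one]
        _ = (st b1)⁻¹ * (st b1 * A.map φ * b1) * b1⁻¹ := by simp only [Matrix.mul_assoc]
        _ = _ := by rw [hAeq, Matrix.mul_one]
    have h3 : BlockD.Up (A.map φ) := by
      rw [h2]
      refine (hb1U.st.inv ?_).mul (hb1U.inv hb1d)
      rw [st_det]; exact hb1d
    intro i j hij
    have := h3 i j hij
    rw [Matrix.map_apply] at this
    exact hinj (by rw [this, map_zero])
  have hAd : IsUnit A.det := by
    rw [hA, Matrix.det_mul, st_det]
    exact hk1d.mul hk1d
  have hAi : ∀ i, IsUnit (A i i) := by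
    intro i
    rw [hAup.det] at hAd
    exact isUnit_of_dvd_unit (Finset.dvd_prod_of_mem (fun i => A i i) (Finset.mem_univ i)) hAd
  have hArev : ∀ i, A (Fin.rev i) (Fin.rev i) = A i i := by
    intro i
    have h1 := congrFun (congrFun hAst i) i
    rw [st_apply, ← two_mul, pow_mul] at h1
    simpa using h1
  -- the diagonal correction
  have hmid : ∀ i, Fin.rev i = i → ∃ c : V, c * c * A i i = 1 := by
    intro i hi
    have h1 := congrFun (congrFun hAeq i) i
    have hAmap : BlockD.Up (A.map φ) := by
      intro a b hab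
      rw [Matrix.map_apply, hAup a b hab, map_zero]
    rw [(hb1U.st.mul hAmap).diag_mul hb1U, hb1U.st.diag_mul hAmap, Matrix.one_apply_eq,
      st_apply, hi, ← two_mul, pow_mul, Matrix.map_apply] at h1
    have h1' : b1 i i * b1 i i * φ (A i i) = 1 := by
      have : ((-1 : K) ^ 2) ^ (i : ℕ) = 1 := by simp
      rw [this, one_mul] at h1
      linear_combination h1
    obtain ⟨u, hu⟩ := hAi i
    have h2 : b1 i i * b1 i i = φ (↑u⁻¹ : V) := by
      have h3 : φ (A i i) * φ (↑u⁻¹ : V) = 1 := by rw [← map_mul, ← hu, Units.mul_inv, map_one]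
      calc b1 i i * b1 i i = b1 i i * b1 i i * (φ (A i i) * φ (↑u⁻¹ : V)) := by
            rw [h3, mul_one]
        _ = (b1 i i * b1 i i * φ (A i i)) * φ (↑u⁻¹ : V) := by ring
        _ = _ := by rw [h1', one_mul]
    have h4 : b1 i i ∈ V := BlockD.mem_of_sq_mem V (by rw [h2]; exact (↑u⁻¹ : V).2)
    refine ⟨⟨b1 i i, h4⟩, ?_⟩
    apply hinj
    rw [map_mul, map_mul, map_one]
    exact h1'
  have hc : ∃ c : Fin N → V, ∀ i, c (Fin.rev i) * A i i * c i = 1 := by
    have h1 : ∀ i : Fin N, ∃ c : V, (i < Fin.rev i → c = 1) ∧ (Fin.rev i < i → c * A i i = 1) ∧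
        (Fin.rev i = i → c * c * A i i = 1) := by
      intro i
      rcases lt_trichotomy (Fin.rev i) i with h | h | h
      · obtain ⟨u, hu⟩ := hAi i
        refine ⟨(↑u⁻¹ : V), fun h' => absurd h' (not_lt.2 h.le), fun _ => ?_,
          fun h' => absurd h' (ne_of_lt h)⟩
        rw [← hu, Units.inv_mul]
      · obtain ⟨c, hc⟩ := hmid i h
        exact ⟨c, fun h' => absurd h' (by rw [h]; exact lt_irrefl _),
          fun h' => absurd h' (by rw [h]; exact lt_irrefl _), fun _ => hc⟩
      · exact ⟨1, fun _ => rfl, fun h' => absurd h' (not_lt.2 h.le),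
          fun h' => absurd h' (ne_of_gt h)⟩
    choose c hc1 hc2 hc3 using h1
    refine ⟨c, fun i => ?_⟩
    rcases lt_trichotomy (Fin.rev i) i with h | h | h
    · have h2 : c (Fin.rev i) = 1 := hc1 (Fin.rev i) (by rw [Fin.rev_rev]; exact h)
      rw [h2, one_mul, mul_comm]
      exact hc2 i h
    · have h2 := hc3 i h
      rw [h]
      linear_combination h2
    · have h2 : c i = 1 := hc1 i h
      have h3 := hc2 (Fin.rev i) (by rw [Fin.rev_rev]; exact h)
      rw [hArev] at h3
      rw [h2, mul_one]
      exact h3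
  obtain ⟨c, hc⟩ := hc
  have hcu : ∀ i, IsUnit (c i) := fun i =>
    IsUnit.of_mul_eq_one (c (Fin.rev i) * A i i) (by rw [mul_comm]; exact hc i)
  set A1 : Matrix (Fin N) (Fin N) V := st (Matrix.diagonal c) * A * Matrix.diagonal c with hA1
  have hA1i : ∀ i j, A1 i j = c (Fin.rev i) * A i j * c j := by
    intro i j
    rw [hA1, st_diagonal, Matrix.mul_diagonal, Matrix.diagonal_mul]
  have hA1U : UpUni A1 := by
    constructor
    · intro i j hij
      rw [hA1i, hAup i j hij, mul_zero, zero_mul]
    · intro i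
      rw [hA1i]
      exact hc i
  have hA1s : st A1 = A1 := by
    have h1 : st (st (Matrix.diagonal c) * A * Matrix.diagonal c) =
        st (Matrix.diagonal c) * A * Matrix.diagonal c := by
      rw [st_mul, st_mul, st_st, hAst, ← Matrix.mul_assoc]
    rw [hA1]
    exact h1
  have hhalf : ∃ h2 : V, 2 * h2 = 1 := by
    refine ⟨⟨algebraMap ℂ K (1 / 2), hV _⟩, ?_⟩
    apply hinj
    rw [map_mul, map_one, map_ofNat]
    show (2 : K) * algebraMap ℂ K (1 / 2) = 1
    rw [← map_ofNat (algebraMap ℂ K) 2, ← map_mul]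
    norm_num
  obtain ⟨h2, hh2⟩ := hhalf
  obtain ⟨c2, hc2U, hc2⟩ := BlockD.exists_sqrt h2 hh2 N 1 (by omega) le_rfl A1 hA1U hA1s
    (by intro i j hij hlt; exact absurd hij (not_lt.2 (by
      have : (j : ℕ) ≤ (i : ℕ) := by omega
      exact this)))
  -- k
  set kk : Matrix (Fin N) (Fin N) V := k1 * (Matrix.diagonal c * c2) with hkk
  have hkst : st kk * kk = 1 := by
    rw [hkk, st_mul, st_mul, ← hc2, hA1, hA]
    simp only [Matrix.mul_assoc]
  have hkstK : st (kk.map φ) * kk.map φ = 1 := by
    rw [BlockD.st_map, ← Matrix.map_mul, hkst, Matrix.map_one _ (map_zero _) (map_one _)]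
  have hkstK' : kk.map φ * st (kk.map φ) = 1 := mul_eq_one_comm.mp hkstK
  set b : Matrix (Fin N) (Fin N) K := st (kk.map φ) * g with hb
  have hgkb : g = kk.map φ * b := by
    rw [hb, ← Matrix.mul_assoc, hkstK', Matrix.one_mul]
  have hbst : st b * b = 1 := by
    rw [hb, st_mul, st_st]
    calc st g * kk.map φ * (st (kk.map φ) * g) = st g * (kk.map φ * st (kk.map φ)) * g := by
          simp only [Matrix.mul_assoc]
      _ = 1 := by rw [hkstK', Matrix.mul_one, hg.st_mul_self]
  have hdiagU : BlockD.Up (Matrix.diagonal c * c2) :=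
    (BlockD.Up.diagonal c).mul (fun i j h => hc2U.1 i j h)
  have hdiagd : IsUnit (Matrix.diagonal c * c2).det := by
    rw [Matrix.det_mul, hc2U.det, mul_one, Matrix.det_diagonal]
    exact (IsUnit.prod_univ_iff).2 hcu
  have hbU : BlockD.Up b := by
    have h3 : (Matrix.diagonal c * c2).map φ * b = b1 := by
      have h4 : k1.map φ * ((Matrix.diagonal c * c2).map φ * b) = k1.map φ * b1 := by
        rw [← hg1, hgkb, hkk, Matrix.map_mul (L := k1), Matrix.mul_assoc]
      have h5 : q.map φ * k1.map φ = 1 := by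
        rw [← Matrix.map_mul, mul_eq_one_comm.mp hqk, Matrix.map_one _ (map_zero _) (map_one _)]
      calc (Matrix.diagonal c * c2).map φ * b
          = (q.map φ * k1.map φ) * ((Matrix.diagonal c * c2).map φ * b) := by
            rw [h5, Matrix.one_mul]
        _ = q.map φ * (k1.map φ * b1) := by rw [Matrix.mul_assoc, h4]
        _ = b1 := by rw [← Matrix.mul_assoc, h5, Matrix.one_mul]
    set E : Matrix (Fin N) (Fin N) K := (Matrix.diagonal c * c2).map φ with hE
    have hEU : BlockD.Up E := by
      intro i j hij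
      rw [hE, Matrix.map_apply, hdiagU i j hij, map_zero]
    have hEd : IsUnit E.det := by
      have := (RingHom.map_det φ (Matrix.diagonal c * c2)).symm
      rw [RingHom.mapMatrix_apply] at this
      rw [hE, this]
      exact hdiagd.map φ
    have h6 : b = E⁻¹ * b1 := by
      rw [← h3, ← Matrix.mul_assoc, Matrix.nonsing_inv_mul _ hEd, Matrix.one_mul]
    rw [h6]
    exact (hEU.inv hEd).mul hb1U
  have hkV : ∀ i j, kk.map φ i j ∈ V := fun i j => (kk i j).2
  -- determinants
  by_cases hdet : Odd N → (kk.map φ).det = 1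
  · refine ⟨kk.map φ, b, (isG_iff_st _).2 ⟨hkstK, hdet⟩, hkV, (isG_iff_st _).2 ⟨hbst, ?_⟩,
      hbU, hgkb⟩
    intro hN
    have h7 := hg.2 hN
    rw [hgkb, Matrix.det_mul, hdet hN, one_mul] at h7
    exact h7
  · push Not at hdet
    obtain ⟨hN, hne⟩ := hdet
    have h7 : (kk.map φ).det = -1 := by
      have h8 := congrArg Matrix.det hkstK
      rw [Matrix.det_mul, Matrix.det_one, st_det] at h8
      rcases mul_self_eq_one_iff.1 h8 with h9 | h9
      · exact absurd h9 hne
      · exact h9
    have h8 : b.det = -1 := by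
      have h9 := hg.2 hN
      rw [hgkb, Matrix.det_mul, h7] at h9
      linear_combination -h9
    refine ⟨-(kk.map φ), -b, (isG_iff_st _).2 ⟨?_, fun _ => ?_⟩, ?_, (isG_iff_st _).2 ⟨?_, fun _ => ?_⟩,
      ?_, ?_⟩
    · rw [st_neg, Matrix.neg_mul, Matrix.mul_neg, neg_neg, hkstK]
    · rw [Matrix.det_neg, Fintype.card_fin, hN.neg_one_pow, h7]
      norm_num
    · intro i j
      rw [Matrix.neg_apply]
      exact V.neg_mem _ (hkV i j)
    · rw [st_neg, Matrix.neg_mul, Matrix.mul_neg, neg_neg, hbst]
    · rw [Matrix.det_neg, Fintype.card_fin, hN.neg_one_pow, h8]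
      norm_num
    · intro i j hij
      rw [Matrix.neg_apply, hbU i j hij, neg_zero]
    · rw [Matrix.neg_mul, Matrix.mul_neg, neg_neg]
      exact hgkb

end Pool.Agent.MP_c45d35_ag
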