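import Pool.Agent.MP_c45d35_ag.Defs

/-! Block H (VAL): valuative criterion of integrality over a reduced noetherian ring, and transfer
of polynomial identities from complex points to points over extension fields (MP_c45d35_ag). -/

namespace Pool.Agent.MP_c45d35_ag

open Polynomial

/-- The valuative criterion for a map to a field: a monic polynomial over `R` whose value at `c`
is killed by `φ`. -/
theorem val_exists_monic {C K : Type*} [CommRing C] [Field K] [Algebra ℂ C] (R : Subalgebra ℂ C)
    (c : C) (φ : C →+* K) (h : ∀ V : ValuationSubring K, (∀ r ∈ R, φ r ∈ V) → φ c ∈ V) :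
    ∃ f : R[X], f.Monic ∧ φ (aeval c f) = 0 := by
  set ψ : R →+* K := φ.comp (algebraMap R C) with hψ
  have hx : φ c ∈ (⨅ V : {V : ValuationSubring K // (ψ.range : Set K) ⊆ V.toSubring},
      V.1.toSubring) := by
    rw [Subring.mem_iInf]
    rintro ⟨V, hV⟩
    exact h V (fun r hr => hV ⟨⟨r, hr⟩, rfl⟩)
  rw [iInf_valuationSubring_superset] at hx
  have hx' : IsIntegral (Subring.closure (ψ.range : Set K)) (φ c) := hx
  rw [Subring.closure_eq] at hx'
  obtain ⟨g, hg, hg0⟩ := hx'
  have hlift : g ∈ lifts ψ.rangeRestrict := by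
    rw [lifts_iff_coeff_lifts]
    intro n
    exact ψ.rangeRestrict_surjective _
  obtain ⟨f, hf, -, hfm⟩ := lifts_and_natDegree_eq_and_monic hlift hg
  refine ⟨f, hfm, ?_⟩
  rw [← hf, eval₂_map] at hg0
  have e1 : (algebraMap ψ.range K).comp ψ.rangeRestrict = φ.comp (algebraMap R C) := rfl
  rw [e1] at hg0
  rw [aeval_def, hom_eval₂]
  exact hg0

theorem isIntegral_of_valuations {C : Type} [CommRing C] [IsReduced C] [IsNoetherianRing C]
    [Algebra ℂ C] (R : Subalgebra ℂ C) (c : C)
    (h : ∀ (K : Type) [Field K] (φ : C →+* K), (∀ d ∈ nonZeroDivisors C, φ d ≠ 0) →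
      ∀ V : ValuationSubring K, (∀ r ∈ R, φ r ∈ V) → φ c ∈ V) :
    IsIntegral R c := by
  classical
  have key : ∀ p ∈ minimalPrimes C, ∃ f : R[X], f.Monic ∧ aeval c f ∈ p := by
    intro p hp
    have : p.IsPrime := hp.1.1
    obtain ⟨f, hf, hf0⟩ := val_exists_monic R c
      ((algebraMap (C ⧸ p) (FractionRing (C ⧸ p))).comp (Ideal.Quotient.mk p)) (h _ _ (by
        intro d hd hd0
        rw [RingHom.comp_apply] at hd0
        have h1 : Ideal.Quotient.mk p d = 0 :=
          (IsFractionRing.injective (C ⧸ p) (FractionRing (C ⧸ p))) (by rw [hd0, map_zero])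
        rw [Ideal.Quotient.eq_zero_iff_mem] at h1
        exact (Set.disjoint_left.mp (Ideal.disjoint_nonZeroDivisors_of_mem_minimalPrimes hp)) h1 hd))
    refine ⟨f, hf, ?_⟩
    rw [RingHom.comp_apply] at hf0
    rw [← Ideal.Quotient.eq_zero_iff_mem]
    exact (IsFractionRing.injective (C ⧸ p) (FractionRing (C ⧸ p))) (by rw [hf0, map_zero])
  choose! F hF1 hF2 using key
  have hfin : (minimalPrimes C).Finite := minimalPrimes.finite_of_isNoetherianRing C
  refine ⟨∏ p ∈ hfin.toFinset, F p, monic_prod_of_monic _ _ (fun p hp => hF1 p (by simpa using hp)), ?_⟩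
  rw [← aeval_def]
  have hmem : aeval c (∏ p ∈ hfin.toFinset, F p) ∈ sInf (⊥ : Ideal C).minimalPrimes := by
    rw [Submodule.mem_sInf]
    intro p hp
    have hp' : p ∈ hfin.toFinset := by simpa using hp
    rw [map_prod, ← Finset.mul_prod_erase _ _ hp']
    exact Ideal.mul_mem_right _ _ (hF2 p hp)
  rw [Ideal.sInf_minimalPrimes] at hmem
  have h0 : (⊥ : Ideal C).radical = ⊥ := (nilradical_eq_zero C : nilradical C = 0)
  rw [h0] at hmem
  exact hmem

/-- transfer of polynomial identities from complex points to points over extension fields -/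
theorem transfer {σ : Type*} [Finite σ] (E : Set (MvPolynomial σ ℂ)) (p : MvPolynomial σ ℂ)
    (h : ∀ v : σ → ℂ, (∀ e ∈ E, MvPolynomial.eval v e = 0) → MvPolynomial.eval v p = 0)
    {K : Type*} [Field K] [Algebra ℂ K] (v : σ → K)
    (hv : ∀ e ∈ E, MvPolynomial.aeval v e = 0) : MvPolynomial.aeval v p = 0 := by
  have h1 : p ∈ MvPolynomial.vanishingIdeal ℂ (MvPolynomial.zeroLocus ℂ (Ideal.span E)) := by
    rw [MvPolynomial.mem_vanishingIdeal_iff]
    intro x hx
    have h2 := h x (fun e he => by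
      have := hx e (Ideal.subset_span he)
      simpa [MvPolynomial.coe_aeval_eq_eval] using this)
    simpa [MvPolynomial.coe_aeval_eq_eval] using h2
  rw [MvPolynomial.vanishingIdeal_zeroLocus_eq_radical] at h1
  obtain ⟨m, hm⟩ := h1
  have h3 : Ideal.span E ≤ RingHom.ker (MvPolynomial.aeval v : MvPolynomial σ ℂ →ₐ[ℂ] K) := by
    rw [Ideal.span_le]
    intro e he
    exact hv e he
  have h4 := h3 hm
  rw [RingHom.mem_ker, map_pow] at h4
  exact eq_zero_of_pow_eq_zero h4

end Pool.Agent.MP_c45d35_ag
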