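import Pool.Agent.MP_c45d35_ag.Tri
import Pool.Agent.MP_c45d35_ag.Iwa
import Pool.Agent.MP_c45d35_ag.Val

/-! Block L (INT) of MP_c45d35_ag: integrality of the functions with the pole bound property.
Uses BASIC and the statements `diagonal_isG` (C), `iwasawa`, `exists_unit_minor` (D),
`isIntegral_of_valuations`, `transfer` (H). -/

namespace Pool.Agent.MP_c45d35_ag

open Matrix

namespace BlockL

/-! ### separation of points of finitely generated algebras -/

theorem adjoin_sep {K : Type*} [Field K] [Algebra ℂ K] (S : Set K) (hS : S.Finite)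
    (a : Algebra.adjoin ℂ S) (h : ∀ ψ : Algebra.adjoin ℂ S →ₐ[ℂ] ℂ, ψ a = 0) : a = 0 := by
  have : Finite S := hS
  obtain ⟨F, hF⟩ : ∃ F : MvPolynomial S ℂ →ₐ[ℂ] Algebra.adjoin ℂ S,
      F = MvPolynomial.aeval (fun s : S => ⟨s.1, Algebra.subset_adjoin s.2⟩) := ⟨_, rfl⟩
  have hFv : ∀ p, ((F p : Algebra.adjoin ℂ S) : K) = MvPolynomial.aeval (Subtype.val : S → K) p := by
    intro p
    have : ((Algebra.adjoin ℂ S).val.comp F) = MvPolynomial.aeval (Subtype.val : S → K) := by
      apply MvPolynomial.algHom_ext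
      intro s
      rw [hF]
      simp
    exact congrArg (fun G : MvPolynomial S ℂ →ₐ[ℂ] K => G p) this
  have hsurj : Function.Surjective F := by
    intro a
    have ha : (a : K) ∈ (MvPolynomial.aeval (Subtype.val : S → K) :
        MvPolynomial S ℂ →ₐ[ℂ] K).range := by
      rw [← Algebra.adjoin_eq_range]; exact a.2
    obtain ⟨p, hp⟩ := ha
    exact ⟨p, Subtype.ext ((hFv p).trans hp)⟩
  obtain ⟨p, rfl⟩ := hsurj a
  have key := transfer (K := K) {e : MvPolynomial S ℂ | MvPolynomial.aeval (Subtype.val : S → K) e = 0} p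
    (by
      intro v hv
      have hker : ∀ e ∈ RingHom.ker F, MvPolynomial.aeval v e = (0 : ℂ) := by
        intro e he
        refine hv e ?_
        rw [Set.mem_ofPred_eq, ← hFv, (RingHom.mem_ker).1 he]
        rfl
      have h1 := h ((Ideal.Quotient.liftₐ (RingHom.ker F) (MvPolynomial.aeval v) hker).comp
        (Ideal.quotientKerAlgEquivOfSurjective hsurj).symm.toAlgHom)
      have h2 : (Ideal.quotientKerAlgEquivOfSurjective hsurj).symm (F p) =
          Ideal.Quotient.mk (RingHom.ker F) p := by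
        rw [AlgEquiv.symm_apply_eq]
        rfl
      rw [AlgHom.comp_apply] at h1
      change (Ideal.Quotient.liftₐ (RingHom.ker F) (MvPolynomial.aeval v) hker)
        ((Ideal.quotientKerAlgEquivOfSurjective hsurj).symm (F p)) = 0 at h1
      rw [h2] at h1
      exact h1) Subtype.val (fun e he => he)
  exact Subtype.ext ((hFv p).trans key)

/-! ### maps -/

section maps
variable {R S : Type*} [CommRing R] [CommRing S] {N : ℕ}

theorem st_map (φ : R →+* S) (X : Matrix (Fin N) (Fin N) R) : (st X).map φ = st (X.map φ) := by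
  ext i j
  rw [Matrix.map_apply, st_apply, st_apply]
  simp

theorem isG_reflect {ι : Type*} {T : ι → Type*} [∀ y, CommRing (T y)] (φ : ∀ y, R →+* T y)
    (hinj : ∀ a b, (∀ y, φ y a = φ y b) → a = b) (g : Matrix (Fin N) (Fin N) R)
    (h : ∀ y, IsG (g.map (φ y))) : IsG g := by
  refine ⟨?_, fun hN => ?_⟩
  · ext i j
    refine hinj _ _ fun y => ?_
    have h1 := congrFun (congrFun (h y).1 i) j
    have h2 : (gᵀ * Jm R N * g).map (φ y) = (g.map (φ y))ᵀ * Jm (T y) N * g.map (φ y) := by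
      rw [Matrix.map_mul, Matrix.map_mul, Jm_map, Matrix.transpose_map]
    rw [← h2, ← Jm_map (φ y)] at h1
    exact h1
  · refine hinj _ _ fun y => ?_
    have h1 := (h y).2 hN
    rw [map_one, RingHom.map_det]
    exact h1

theorem UpUni_reflect (φ : R →+* S) (hinj : Function.Injective φ) (u : Matrix (Fin N) (Fin N) R)
    (h : UpUni (u.map φ)) : UpUni u := by
  refine ⟨fun i j hij => hinj ?_, fun i => hinj ?_⟩
  · rw [map_zero]; exact h.1 i j hij
  · rw [map_one]; exact h.2 i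

theorem UpUni_map (φ : R →+* S) (u : Matrix (Fin N) (Fin N) R) (h : UpUni u) :
    UpUni (u.map φ) := by
  refine ⟨fun i j hij => ?_, fun i => ?_⟩
  · rw [Matrix.map_apply, h.1 i j hij, map_zero]
  · rw [Matrix.map_apply, h.2 i, map_one]

theorem Yp_map [Algebra ℂ R] [Algebra ℂ S] (φ : R →ₐ[ℂ] S) (Z : Matrix (Fin N) (Fin N) R) :
    (Yp Z).map φ = Yp (Z.map φ) := by
  ext i j
  simp only [Matrix.map_apply, Yp, Matrix.of_apply]
  split_ifs
  · rw [map_smul]; simp
  · simp

theorem Tt_map (φ : R →+* S) (t : Fin (N / 2) → Rˣ) :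
    (Tt t : Matrix (Fin N) (Fin N) R).map φ = Tt (fun k => Units.map (φ : R →* S) (t k)) := by
  unfold Tt
  rw [Matrix.diagonal_map (map_zero φ)]
  congr 1
  funext i
  rw [← chi_map]
  rfl

end maps

/-! ### transfer of the pole bound property -/

theorem hom_aeval {σ A B : Type*} [CommRing A] [CommRing B] [Algebra ℂ A] [Algebra ℂ B]
    (ψ : A →ₐ[ℂ] B) (v : σ → A) (P : MvPolynomial σ ℂ) :
    ψ (MvPolynomial.aeval v P) = MvPolynomial.aeval (fun i => ψ (v i)) P := by
  rw [← AlgHom.comp_apply, MvPolynomial.comp_aeval]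

theorem aeval_eval {σ : Type*} (v : σ → ℂ) (P : MvPolynomial σ ℂ) :
    MvPolynomial.aeval v P = MvPolynomial.eval v P := by
  rw [← MvPolynomial.coe_aeval_eq_eval]
  rfl

theorem coX_comp {R S : Type*} {N b : ℕ} (ψ : R → S) (g : Fin b → Matrix (Fin N) (Fin N) R)
    (x : Fin (N / 2) → R) :
    (fun i => ψ (coX g x i)) = coX (fun a => (g a).map ψ) (fun k => ψ (x k)) := by
  funext i
  rcases i with p | k <;> rfl

theorem PB_transfer {N b : ℕ} (m : Fin (N / 2) →₀ ℕ) (f : XX N b → ℂ)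
    (P : MvPolynomial (IdxX N b) ℂ)
    (hP : ∀ y : XX N b, f y = MvPolynomial.eval (coX (fun a => (y.1 a).1) y.2.1) P)
    (hf : PB N b m f) :
    ∃ H : MvPolynomial ((Fin b × Fin N × Fin N) ⊕ IdxX N b) ℂ,
      ∀ {K : Type} [Field K] [Algebra ℂ K] (k g Z u : Fin b → Matrix (Fin N) (Fin N) K)
        (t : Fin b → Fin (N / 2) → Kˣ) (x : Fin (N / 2) → K), (∀ a, IsG (k a)) →
        (∀ a, IsG (g a)) → (∀ i j : Fin N, i ≠ j → xx x i ≠ xx x j) →
        (∀ a, UpUni (u a) ∧ u a * Dx x = (Dx x + Yp (Z a)) * u a ∧ g a = k a * u a * Tt (t a)) →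
        MvPolynomial.aeval (coX g x) P = ((∏ a, chi (lam m) (t a) : Kˣ) : K) *
          MvPolynomial.aeval (Sum.elim (fun p => k p.1 p.2.1 p.2.2) (coX Z x)) H := by
  obtain ⟨H, hH⟩ := hf
  refine ⟨H, ?_⟩
  intro K _ _ k g Z u t x hk hg hx hrel
  obtain ⟨S, hS⟩ : ∃ S : Set K, S =
    Set.range (fun p : Fin b × Fin N × Fin N => k p.1 p.2.1 p.2.2) ∪
    Set.range (fun p : Fin b × Fin N × Fin N => g p.1 p.2.1 p.2.2) ∪
    Set.range (fun p : Fin b × Fin N × Fin N => Z p.1 p.2.1 p.2.2) ∪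
    Set.range (fun p : Fin b × Fin N × Fin N => u p.1 p.2.1 p.2.2) ∪
    Set.range (fun p : Fin b × Fin (N / 2) => (t p.1 p.2 : K)) ∪
    Set.range (fun p : Fin b × Fin (N / 2) => ((t p.1 p.2)⁻¹ : K)) ∪
    Set.range x ∪
    Set.range (fun p : Fin N × Fin N => (xx x p.1 - xx x p.2)⁻¹) := ⟨_, rfl⟩
  have hSf : S.Finite := by
    rw [hS]
    exact (((((((Set.finite_range _).union (Set.finite_range _)).union (Set.finite_range _)).union
      (Set.finite_range _)).union (Set.finite_range _)).union (Set.finite_range _)).union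
      (Set.finite_range _)).union (Set.finite_range _)
  have sub := fun z (hz : z ∈ S) => Algebra.subset_adjoin (R := ℂ) hz
  have m1 : ∀ a i j, k a i j ∈ Algebra.adjoin ℂ S := fun a i j => sub _ (by
    rw [hS]; left; left; left; left; left; left; left; exact ⟨(a, i, j), rfl⟩)
  have m2 : ∀ a i j, g a i j ∈ Algebra.adjoin ℂ S := fun a i j => sub _ (by
    rw [hS]; left; left; left; left; left; left; right; exact ⟨(a, i, j), rfl⟩)
  have m3 : ∀ a i j, Z a i j ∈ Algebra.adjoin ℂ S := fun a i j => sub _ (by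
    rw [hS]; left; left; left; left; left; right; exact ⟨(a, i, j), rfl⟩)
  have m4 : ∀ a i j, u a i j ∈ Algebra.adjoin ℂ S := fun a i j => sub _ (by
    rw [hS]; left; left; left; left; right; exact ⟨(a, i, j), rfl⟩)
  have m5 : ∀ a i, (t a i : K) ∈ Algebra.adjoin ℂ S := fun a i => sub _ (by
    rw [hS]; left; left; left; right; exact ⟨(a, i), rfl⟩)
  have m6 : ∀ a i, ((t a i : K)⁻¹) ∈ Algebra.adjoin ℂ S := fun a i => sub _ (by
    rw [hS]; left; left; right; exact ⟨(a, i), by simp⟩)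
  have m7 : ∀ i, x i ∈ Algebra.adjoin ℂ S := fun i => sub _ (by
    rw [hS]; left; right; exact ⟨i, rfl⟩)
  have m8 : ∀ i j : Fin N, (xx x i - xx x j)⁻¹ ∈ Algebra.adjoin ℂ S := fun i j => sub _ (by
    rw [hS]; right; exact ⟨(i, j), rfl⟩)
  clear sub
  -- lifts
  obtain ⟨A, hA⟩ : ∃ A : Subalgebra ℂ K, A = Algebra.adjoin ℂ S := ⟨_, rfl⟩
  have sep : ∀ a : A, (∀ ψ : A →ₐ[ℂ] ℂ, ψ a = 0) → a = 0 := by
    subst hA
    exact adjoin_sep S hSf
  rw [← hA] at m1 m2 m3 m4 m5 m6 m7 m8
  have inj : Function.Injective (A.val : A →+* K) := Subtype.val_injective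
  let k0 : Fin b → Matrix (Fin N) (Fin N) A := fun a => Matrix.of fun i j => ⟨k a i j, m1 a i j⟩
  let g0 : Fin b → Matrix (Fin N) (Fin N) A := fun a => Matrix.of fun i j => ⟨g a i j, m2 a i j⟩
  let Z0 : Fin b → Matrix (Fin N) (Fin N) A := fun a => Matrix.of fun i j => ⟨Z a i j, m3 a i j⟩
  let u0 : Fin b → Matrix (Fin N) (Fin N) A := fun a => Matrix.of fun i j => ⟨u a i j, m4 a i j⟩
  let t0 : Fin b → Fin (N / 2) → Aˣ := fun a i => ⟨⟨t a i, m5 a i⟩, ⟨(t a i : K)⁻¹, m6 a i⟩,
    Subtype.ext (by simp), Subtype.ext (by simp)⟩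
  let x0 : Fin (N / 2) → A := fun i => ⟨x i, m7 i⟩
  have ek : ∀ a, (k0 a).map (A.val : A →+* K) = k a := fun a => rfl
  have eg : ∀ a, (g0 a).map (A.val : A →+* K) = g a := fun a => rfl
  have eZ : ∀ a, (Z0 a).map (A.val : A →ₐ[ℂ] K) = Z a := fun a => rfl
  have eu : ∀ a, (u0 a).map (A.val : A →+* K) = u a := fun a => rfl
  have et : ∀ a, (fun i => Units.map ((A.val : A →+* K) : A →* K) (t0 a i)) = t a := by
    intro a
    funext i
    exact Units.ext rfl
  have hk0 : ∀ a, IsG (k0 a) := fun a =>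
    isG_reflect (ι := Unit) (T := fun _ => K) (fun _ => (A.val : A →+* K))
      (fun a b h => inj (h ())) _ (fun _ => by rw [ek]; exact hk a)
  have hg0 : ∀ a, IsG (g0 a) := fun a =>
    isG_reflect (ι := Unit) (T := fun _ => K) (fun _ => (A.val : A →+* K))
      (fun a b h => inj (h ())) _ (fun _ => by rw [eg]; exact hg a)
  have matinj : Function.Injective
      (fun M : Matrix (Fin N) (Fin N) A => M.map (A.val : A →+* K)) := by
    intro M M' h
    ext i j
    exact congrArg Subtype.val (inj (congrFun (congrFun h i) j))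
  have hrel0 : ∀ a, UpUni (u0 a) ∧ u0 a * Dx x0 = (Dx x0 + Yp (Z0 a)) * u0 a ∧
      g0 a = k0 a * u0 a * Tt (t0 a) := by
    intro a
    obtain ⟨r1, r2, r3⟩ := hrel a
    refine ⟨UpUni_reflect _ inj _ (by rw [eu]; exact r1), matinj ?_, matinj ?_⟩
    · change (u0 a * Dx x0).map (A.val : A →+* K) = ((Dx x0 + Yp (Z0 a)) * u0 a).map (A.val : A →+* K)
      rw [Matrix.map_mul, Matrix.map_mul, Dx_map, eu, Matrix.map_add _ (map_add _), Dx_map]
      have : (Yp (Z0 a)).map (A.val : A →+* K) = Yp (Z a) := by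
        rw [← eZ a, ← Yp_map]
        rfl
      rw [this]
      exact r2
    · change (g0 a).map (A.val : A →+* K) = (k0 a * u0 a * Tt (t0 a)).map (A.val : A →+* K)
      rw [Matrix.map_mul, Matrix.map_mul, ek, eu, eg, Tt_map, et]
      exact r3
  have hzero : MvPolynomial.aeval (coX g0 x0) P - ((∏ a, chi (lam m) (t0 a) : Aˣ) : A) *
      MvPolynomial.aeval (Sum.elim (fun p => k0 p.1 p.2.1 p.2.2) (coX Z0 x0)) H = 0 := by
    refine sep _ fun ψ => ?_
    have hxr : IsRegx (N := N) (fun i => ψ (x0 i)) := by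
      intro i j hij h
      have e0 : ∀ i, A.val (xx x0 i) = xx x i := fun i => xx_map (A.val : A →+* K) x0 i
      have e1 : (xx x0 i - xx x0 j) * ⟨_, m8 i j⟩ = 1 := by
        apply inj
        rw [map_mul, map_sub, map_one]
        change (A.val (xx x0 i) - A.val (xx x0 j)) * (xx x i - xx x j)⁻¹ = 1
        rw [e0, e0]
        exact mul_inv_cancel₀ (sub_ne_zero.2 (hx i j hij))
      have e2 := congrArg ψ e1
      rw [map_mul, map_sub, map_one] at e2
      have e3 : ∀ i, ψ (xx x0 i) = xx (fun i => ψ (x0 i)) i := fun i =>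
        xx_map (ψ : A →+* ℂ) x0 i
      rw [e3, e3, h, sub_self, zero_mul] at e2
      exact zero_ne_one e2
    have key := hH (fun a => ⟨(k0 a).map (ψ : A →+* ℂ), (hk0 a).map _⟩)
      (fun a => ⟨(g0 a).map (ψ : A →+* ℂ), (hg0 a).map _⟩)
      (fun a => (Z0 a).map ψ) (fun a => (u0 a).map (ψ : A →+* ℂ))
      (fun a i => Units.map ((ψ : A →+* ℂ) : A →* ℂ) (t0 a i)) ⟨_, hxr⟩ (by
        intro a
        obtain ⟨r1, r2, r3⟩ := hrel0 a
        refine ⟨UpUni_map _ _ r1, ?_, ?_⟩
        · have := congrArg (fun M : Matrix (Fin N) (Fin N) A => M.map (ψ : A →+* ℂ)) r2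
          rw [Matrix.map_mul, Matrix.map_mul, Dx_map, Matrix.map_add _ (map_add _), Dx_map] at this
          have h' : (Yp (Z0 a)).map (ψ : A →+* ℂ) = Yp ((Z0 a).map ψ) := Yp_map ψ (Z0 a)
          rw [h'] at this
          exact this
        · have := congrArg (fun M : Matrix (Fin N) (Fin N) A => M.map (ψ : A →+* ℂ)) r3
          rw [Matrix.map_mul, Matrix.map_mul, Tt_map] at this
          exact this)
    rw [hP] at key
    have l1 : ψ (MvPolynomial.aeval (coX g0 x0) P) =
        MvPolynomial.eval (coX (fun a => (g0 a).map (ψ : A →+* ℂ)) (fun i => ψ (x0 i))) P := by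
      rw [hom_aeval, coX_comp (fun z => ψ z) g0 x0, aeval_eval]
      rfl
    have l2 : ψ (MvPolynomial.aeval (Sum.elim (fun p => k0 p.1 p.2.1 p.2.2) (coX Z0 x0)) H) =
        MvPolynomial.eval (Sum.elim (fun p => (k0 p.1).map (ψ : A →+* ℂ) p.2.1 p.2.2)
          (coX (fun a => (Z0 a).map ψ) (fun i => ψ (x0 i)))) H := by
      rw [hom_aeval, aeval_eval]
      congr 1
      congr 1
      funext i
      rcases i with p | p | p <;> rfl
    have l3 : ψ ((∏ a, chi (lam m) (t0 a) : Aˣ) : A) =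
        ((∏ a, chi (lam m) (fun i => Units.map ((ψ : A →+* ℂ) : A →* ℂ) (t0 a i)) : ℂˣ) : ℂ) := by
      change ((Units.map ((ψ : A →+* ℂ) : A →* ℂ) (∏ a, chi (lam m) (t0 a)) : ℂˣ) : ℂ) = _
      rw [map_prod]
      congr 1
      refine Finset.prod_congr rfl fun a _ => ?_
      exact chi_map _ _ _
    rw [map_sub, map_mul, l1, l2, l3, sub_eq_zero]
    exact key
  have h2 := congrArg A.val (sub_eq_zero.1 hzero)
  rw [map_mul, hom_aeval, hom_aeval] at h2
  have h3 : A.val ((∏ a, chi (lam m) (t0 a) : Aˣ) : A) = ((∏ a, chi (lam m) (t a) : Kˣ) : K) := by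
    change ((Units.map ((A.val : A →+* K) : A →* K) (∏ a, chi (lam m) (t0 a)) : Kˣ) : K) = _
    rw [map_prod]
    congr 1
    refine Finset.prod_congr rfl fun a _ => ?_
    rw [chi_map, et]
  rw [h3] at h2
  have h4 : (fun i => A.val (coX g0 x0 i)) = coX g x := by
    funext i
    rcases i with p | p <;> rfl
  have h5 : (fun i => A.val (Sum.elim (fun p : Fin b × Fin N × Fin N => k0 p.1 p.2.1 p.2.2)
      (coX Z0 x0) i)) =
      Sum.elim (fun p : Fin b × Fin N × Fin N => k p.1 p.2.1 p.2.2) (coX Z x) := by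
    funext i
    rcases i with p | p | p <;> rfl
  rw [h4, h5] at h2
  exact h2

/-! ### triangular matrices -/

section tri
variable {R : Type*} [CommRing R] {N : ℕ}

theorem upper_mul {A B : Matrix (Fin N) (Fin N) R} (hA : ∀ i j, j < i → A i j = 0)
    (hB : ∀ i j, j < i → B i j = 0) :
    (∀ i j, j < i → (A * B) i j = 0) ∧ ∀ i, (A * B) i i = A i i * B i i := by
  constructor
  · intro i j hij
    rw [Matrix.mul_apply]
    refine Finset.sum_eq_zero fun l _ => ?_
    by_cases h : l < i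
    · rw [hA i l h, zero_mul]
    · rw [hB l j (lt_of_lt_of_le hij (not_lt.1 h)), mul_zero]
  · intro i
    rw [Matrix.mul_apply, Finset.sum_eq_single i]
    · intro l _ hl
      rcases lt_or_gt_of_ne hl with h | h
      · rw [hA i l h, zero_mul]
      · rw [hB l i h, mul_zero]
    · simp

theorem upper_st {A : Matrix (Fin N) (Fin N) R} (hA : ∀ i j, j < i → A i j = 0) :
    ∀ i j, j < i → st A i j = 0 := by
  intro i j h
  rw [st_apply, hA _ _ (Fin.rev_lt_rev.2 h), mul_zero]

theorem st_diag (A : Matrix (Fin N) (Fin N) R) (i : Fin N) :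
    st A i i = A (Fin.rev i) (Fin.rev i) := by
  rw [st_apply, ← two_mul, pow_mul]
  simp

theorem wt_lt (k : Fin (N / 2)) (i : Fin N) (h : (i : ℕ) = k) : wt N i = Pi.single k 1 := by
  funext l
  have hk := k.2
  have hl := l.2
  have h1 : ¬ (((Fin.rev i : Fin N) : ℕ) = (l : ℕ)) := by
    rw [Fin.val_rev]; omega
  rw [wt, if_neg h1, sub_zero, Pi.single_apply]
  by_cases h2 : l = k
  · subst h2
    rw [if_pos h, if_pos rfl]
  · rw [if_neg h2, if_neg]
    intro h3
    exact h2 (Fin.ext (h3.symm.trans h))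

theorem xx_lt (k : Fin (N / 2)) (i : Fin N) (h : (i : ℕ) = k) (x : Fin (N / 2) → R) :
    xx x i = x k := by
  rw [xx, wt_lt k i h, Finset.sum_eq_single k]
  · simp
  · intro l _ hl
    simp [hl]
  · simp

theorem chi_wt_lt {M : Type*} [CommGroup M] (k : Fin (N / 2)) (i : Fin N) (h : (i : ℕ) = k)
    (t : Fin (N / 2) → M) : chi (wt N i) t = t k := by
  rw [chi, wt_lt k i h, Finset.prod_eq_single k]
  · simp
  · intro l _ hl
    simp [hl]
  · simp

end tri

theorem sum_castLE {M : Type*} [AddCommMonoid M] {n m : ℕ} (hm : m ≤ n) (f : Fin n → M) :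
    ∑ i : Fin m, f (Fin.castLE hm i) = ∑ i : Fin n, if (i : ℕ) < m then f i else 0 := by
  obtain ⟨r, rfl⟩ := Nat.exists_eq_add_of_le hm
  rw [Fin.sum_univ_add]
  have h : ∑ i : Fin r, (if ((Fin.natAdd m i : Fin (m + r)) : ℕ) < m then f (Fin.natAdd m i)
      else 0) = 0 := by
    refine Finset.sum_eq_zero fun i _ => ?_
    rw [if_neg]
    simp
  rw [h, add_zero]
  refine Finset.sum_congr rfl fun i _ => ?_
  rw [if_pos (by simp)]
  rfl

theorem prod_castLE {M : Type*} [CommMonoid M] {n m : ℕ} (hm : m ≤ n) (f : Fin n → M) :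
    ∏ i : Fin m, f (Fin.castLE hm i) = ∏ i : Fin n, if (i : ℕ) < m then f i else 1 := by
  obtain ⟨r, rfl⟩ := Nat.exists_eq_add_of_le hm
  rw [Fin.prod_univ_add]
  have h : ∏ i : Fin r, (if ((Fin.natAdd m i : Fin (m + r)) : ℕ) < m then f (Fin.natAdd m i)
      else 1) = 1 := by
    refine Finset.prod_eq_one fun i _ => ?_
    rw [if_neg]
    simp
  rw [h, mul_one]
  refine Finset.prod_congr rfl fun i _ => ?_
  rw [if_pos (by simp)]
  rfl

theorem det_minor {R : Type*} [CommRing R] {N m : ℕ} (hm : m ≤ N)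
    (k b : Matrix (Fin N) (Fin N) R) (hb : ∀ i j, j < i → b i j = 0) (I : Fin m → Fin N) :
    ((k * b).submatrix I (Fin.castLE hm)).det = (k.submatrix I (Fin.castLE hm)).det *
      ∏ i : Fin m, b (Fin.castLE hm i) (Fin.castLE hm i) := by
  have h1 : (k * b).submatrix I (Fin.castLE hm) = k.submatrix I (Fin.castLE hm) *
      b.submatrix (Fin.castLE hm) (Fin.castLE hm) := by
    ext i j
    rw [Matrix.submatrix_apply, Matrix.mul_apply, Matrix.mul_apply]
    simp only [Matrix.submatrix_apply]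
    rw [sum_castLE hm (fun l => k (I i) l * b l (Fin.castLE hm j))]
    refine Finset.sum_congr rfl fun l _ => ?_
    split_ifs with h
    · rfl
    · rw [hb l (Fin.castLE hm j), mul_zero]
      change ((Fin.castLE hm j : Fin N) : ℕ) < (l : ℕ)
      have := j.2
      simp only [Fin.val_castLE]
      omega
  rw [h1, Matrix.det_mul, Matrix.det_of_isUpperTriangular
    (M := b.submatrix (Fin.castLE hm) (Fin.castLE hm)) (fun i j h => hb _ _ h)]
  rfl

theorem chi_lam {M : Type*} [CommGroup M] {n : ℕ} (m : Fin n →₀ ℕ) (t : Fin n → M) :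
    chi (lam m) t = ∏ k : Fin n, (∏ i : Fin n, if (i : ℕ) < (k : ℕ) + 1 then t i else 1) ^ m k := by
  have h0 : ∀ (s : Finset (Fin n)) (a : M) (f : Fin n → ℤ), a ^ (∑ k ∈ s, f k) =
      ∏ k ∈ s, a ^ f k := by
    intro s a f
    classical
    induction s using Finset.induction_on with
    | empty => simp
    | insert c s hc ih => rw [Finset.prod_insert hc, Finset.sum_insert hc, _root_.zpow_add, ih]
  simp only [chi, lam, h0]
  rw [Finset.prod_comm]
  refine Finset.prod_congr rfl fun k _ => ?_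
  rw [← Finset.prod_pow]
  refine Finset.prod_congr rfl fun i _ => ?_
  by_cases h : i ≤ k
  · have h' : (i : ℕ) < (k : ℕ) + 1 := Nat.lt_succ_of_le h
    rw [if_pos h, if_pos h', zpow_natCast]
  · have h' : ¬ (i : ℕ) < (k : ℕ) + 1 := fun h'' => h (Nat.le_of_lt_succ h'')
    rw [if_neg h, if_neg h', zpow_zero, one_pow]

theorem V_neg_one_pow {K : Type*} [Field K] (V : ValuationSubring K) (n : ℕ) :
    ((-1 : K) ^ n) ∈ V := by
  have : (-1 : K) ∈ V := V.neg_mem _ V.one_mem
  exact pow_mem this n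

/-- The decomposition of one factor. -/
theorem block {N : ℕ} {K : Type} [Field K] [Algebra ℂ K] (V : ValuationSubring K)
    (hV : ∀ z : ℂ, algebraMap ℂ K z ∈ V) (g : Matrix (Fin N) (Fin N) K) (hg : IsG g)
    (x : Fin (N / 2) → K) (hn : ∀ i j, (g * Dx x * st g) i j ∈ V) :
    ∃ (k u Z : Matrix (Fin N) (Fin N) K) (t : Fin (N / 2) → Kˣ), IsG k ∧ (∀ i j, k i j ∈ V) ∧
      (∀ i j, Z i j ∈ V) ∧ (UpUni u ∧ u * Dx x = (Dx x + Yp Z) * u ∧ g = k * u * Tt t) ∧
      (∀ i, x i ∈ V) ∧
      ∀ (m : ℕ) (_ : m ≤ N / 2) (hm' : m ≤ N), ∃ (I : Fin m → Fin N) (δ : K), δ ≠ 0 ∧ δ⁻¹ ∈ V ∧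
        (g.submatrix I (Fin.castLE hm')).det =
          δ * ((∏ i : Fin (N / 2), if (i : ℕ) < m then t i else 1 : Kˣ) : K) := by
  obtain ⟨k, c, hk, hkV, hc, hcu, hgkc⟩ := iwasawa V hV g hg
  have stk : st k * k = 1 := hk.st_mul_self
  have stc : st c * c = 1 := hc.st_mul_self
  have cst : c * st c = 1 := hc.self_mul_st
  -- the diagonal of `c`
  have hdd : ∀ i, c (Fin.rev i) (Fin.rev i) * c i i = 1 := by
    intro i
    have h1 := (upper_mul (upper_st hcu) hcu).2 i
    rw [stc, Matrix.one_apply_eq, st_diag] at h1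
    exact h1.symm
  have hd : IsG (Matrix.diagonal fun i => c i i) := by
    rw [isG_iff_st]
    refine ⟨?_, fun hN => ?_⟩
    · rw [st_diagonal, Matrix.diagonal_mul_diagonal, ← Matrix.diagonal_one]
      congr 1
      funext i
      exact hdd i
    · rw [Matrix.det_diagonal]
      have := hc.2 hN
      rw [Matrix.det_of_isUpperTriangular (M := c) (fun i j h => hcu i j h)] at this
      exact this
  obtain ⟨t, ht⟩ := diagonal_isG _ hd
  have htd : ∀ i, c i i = ((chi (wt N i) t : Kˣ) : K) := by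
    intro i
    have := congrFun (congrFun ht i) i
    rw [Matrix.diagonal_apply_eq, Tt, Matrix.diagonal_apply_eq] at this
    exact this
  have hTT : (Tt t⁻¹ : Matrix (Fin N) (Fin N) K) * Tt t = 1 := by
    rw [← Tt_mul, inv_mul_cancel, Tt_one]
  have hTT' : (Tt t : Matrix (Fin N) (Fin N) K) * Tt t⁻¹ = 1 := by
    rw [← Tt_mul, mul_inv_cancel, Tt_one]
  have hTu : ∀ i j, j < i → (Tt t⁻¹ : Matrix (Fin N) (Fin N) K) i j = 0 := by
    intro i j h
    rw [Tt, Matrix.diagonal_apply_ne _ (ne_of_gt h)]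
  have hDu : ∀ i j, j < i → (Dx x : Matrix (Fin N) (Fin N) K) i j = 0 := by
    intro i j h
    rw [Dx, Matrix.diagonal_apply_ne _ (ne_of_gt h)]
  have hu : UpUni (c * Tt t⁻¹) := by
    refine ⟨(upper_mul hcu hTu).1, fun i => ?_⟩
    rw [(upper_mul hcu hTu).2, htd, Tt, Matrix.diagonal_apply_eq, chi_inv]
    simp
  -- the triangular matrix
  have hnc : st k * (g * Dx x * st g) * k = c * Dx x * st c := by
    rw [hgkc, st_mul]
    calc st k * (k * c * Dx x * (st c * st k)) * k
        = (st k * k) * c * Dx x * st c * (st k * k) := by simp only [Matrix.mul_assoc]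
      _ = _ := by rw [stk, Matrix.one_mul, Matrix.mul_one]
  have hstkV : ∀ i j, st k i j ∈ V := by
    intro i j
    rw [st_apply]
    exact V.mul_mem _ _ (V_neg_one_pow V _) (hkV _ _)
  have mulV : ∀ A B : Matrix (Fin N) (Fin N) K, (∀ i j, A i j ∈ V) → (∀ i j, B i j ∈ V) →
      ∀ i j, (A * B) i j ∈ V := by
    intro A B hA hB i j
    rw [Matrix.mul_apply]
    exact sum_mem fun l _ => mul_mem (hA i l) (hB l j)
  have hZV : ∀ i j, (c * Dx x * st c) i j ∈ V := by
    rw [← hnc]
    exact mulV _ _ (mulV _ _ hstkV hn) hkV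
  have hZu : ∀ i j, j < i → (c * Dx x * st c) i j = 0 :=
    (upper_mul (upper_mul hcu hDu).1 (upper_st hcu)).1
  have hZd : ∀ i, (c * Dx x * st c) i i = xx x i := by
    intro i
    rw [(upper_mul (upper_mul hcu hDu).1 (upper_st hcu)).2, (upper_mul hcu hDu).2, st_diag, Dx,
      Matrix.diagonal_apply_eq]
    linear_combination xx x i * hdd i
  have hZL : IsLie (c * Dx x * st c) := by
    rw [isLie_iff_st, st_mul, st_mul, st_st, (isLie_iff_st _).1 (isLie_Dx x)]
    simp only [Matrix.mul_neg, Matrix.neg_mul, Matrix.mul_assoc]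
  have hZY : c * Dx x * st c = Dx x + Yp (c * Dx x * st c) := by
    have h1 := hZL.eq_diag_add_Yp hZu
    have h2 : Matrix.diagonal (fun i => (c * Dx x * st c) i i) = Dx x := by
      rw [Dx]
      congr 1
      funext i
      exact hZd i
    rw [h2] at h1
    exact h1
  refine ⟨k, c * Tt t⁻¹, c * Dx x * st c, t, hk, hkV, hZV, ⟨hu, ?_, ?_⟩, ?_, ?_⟩
  · rw [← hZY]
    have hcomm : (Tt t⁻¹ : Matrix (Fin N) (Fin N) K) * Dx x = Dx x * Tt t⁻¹ := by
      rw [Tt, Dx, Matrix.diagonal_mul_diagonal, Matrix.diagonal_mul_diagonal]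
      congr 1
      funext i
      exact mul_comm _ _
    calc c * Tt t⁻¹ * Dx x = c * Dx x * Tt t⁻¹ := by
          rw [Matrix.mul_assoc, hcomm, Matrix.mul_assoc]
      _ = c * Dx x * (st c * c) * Tt t⁻¹ := by rw [stc, Matrix.mul_one]
      _ = _ := by simp only [Matrix.mul_assoc]
  · rw [hgkc]
    calc k * c = k * c * (Tt t⁻¹ * Tt t) := by rw [hTT, Matrix.mul_one]
      _ = _ := by simp only [Matrix.mul_assoc]
  · intro i
    have hi := i.2
    have h1 := hZV ⟨i, by omega⟩ ⟨i, by omega⟩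
    rw [hZd, xx_lt i _ rfl] at h1
    exact h1
  · intro m hm hm'
    obtain ⟨I, hI1, hI2⟩ := exists_unit_minor V k (st k) hkV hstkV stk m hm'
    refine ⟨I, _, hI1, hI2, ?_⟩
    rw [hgkc, det_minor hm' k c hcu I, ← prod_castLE hm t]
    congr 1
    rw [Units.coe_prod]
    refine Finset.prod_congr rfl fun i _ => ?_
    rw [htd, chi_wt_lt (Fin.castLE hm i) _ rfl]

/-! ### the coordinate algebra -/

noncomputable def toGam (N b : ℕ) : MvPolynomial (IdxX N b) ℂ →ₐ[ℂ] GamT N b :=
  (evX N b).rangeRestrict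

theorem toGam_surj (N b : ℕ) : Function.Surjective (toGam N b) :=
  (evX N b).rangeRestrict_surjective

theorem fn_inj (N b : ℕ) : Function.Injective (GamT.fn : GamT N b →ₐ[ℂ] (XX N b → ℂ)) :=
  Subtype.val_injective

theorem fn_toGam {N b : ℕ} (P : MvPolynomial (IdxX N b) ℂ) (y : XX N b) :
    GamT.fn (toGam N b P) y = MvPolynomial.eval (coX (fun a => (y.1 a).1) y.2.1) P := by
  have h1 : GamT.fn (toGam N b P) = evX N b P := rfl
  rw [h1]
  have h2 : evX N b P y = (Pi.evalAlgHom ℂ (fun _ : XX N b => ℂ) y) (evX N b P) := rfl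
  rw [h2, evX, hom_aeval, aeval_eval]
  rfl

noncomputable def ptEval {N b : ℕ} (y : XX N b) : GamT N b →ₐ[ℂ] ℂ :=
  (Pi.evalAlgHom ℂ (fun _ : XX N b => ℂ) y).comp GamT.fn

theorem gam_ext {N b : ℕ} (f g : GamT N b) (h : ∀ y, ptEval y f = ptEval y g) : f = g :=
  fn_inj N b (funext h)

instance (N b : ℕ) : IsNoetherianRing (GamT N b) :=
  isNoetherianRing_of_surjective _ _ (toGam N b : MvPolynomial (IdxX N b) ℂ →+* GamT N b)
    (toGam_surj N b)

instance (N b : ℕ) : IsReduced (GamT N b) :=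
  isReduced_of_injective (GamT.fn : GamT N b →ₐ[ℂ] (XX N b → ℂ)) (fn_inj N b)

noncomputable def gG {N b : ℕ} (a : Fin b) : Matrix (Fin N) (Fin N) (GamT N b) :=
  Matrix.of fun i j => toGam N b (MvPolynomial.X (Sum.inl (a, i, j)))

noncomputable def xG {N b : ℕ} (k : Fin (N / 2)) : GamT N b :=
  toGam N b (MvPolynomial.X (Sum.inr k))

theorem toGam_eq {N b : ℕ} (P : MvPolynomial (IdxX N b) ℂ) :
    toGam N b P = MvPolynomial.aeval (coX gG xG) P := by
  have : toGam N b = MvPolynomial.aeval (coX gG xG) := by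
    apply MvPolynomial.algHom_ext
    intro i
    rw [MvPolynomial.aeval_X]
    rcases i with p | p <;> rfl
  rw [this]

theorem pt_gG {N b : ℕ} (y : XX N b) (a : Fin b) :
    (gG a : Matrix (Fin N) (Fin N) (GamT N b)).map (ptEval y : GamT N b →+* ℂ) = (y.1 a).1 := by
  ext i j
  have := fn_toGam (MvPolynomial.X (Sum.inl (a, i, j))) y
  rw [MvPolynomial.eval_X] at this
  exact this

theorem pt_xG {N b : ℕ} (y : XX N b) (k : Fin (N / 2)) : ptEval y (xG k) = y.2.1 k := by
  have := fn_toGam (MvPolynomial.X (Sum.inr k)) y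
  rw [MvPolynomial.eval_X] at this
  exact this

theorem isG_gG {N b : ℕ} (a : Fin b) : IsG (gG a : Matrix (Fin N) (Fin N) (GamT N b)) :=
  isG_reflect (ι := XX N b) (T := fun _ => ℂ) (fun y => (ptEval y : GamT N b →+* ℂ))
    (fun f g h => gam_ext f g h) _ (fun y => by rw [pt_gG]; exact (y.1 a).2)

theorem aeval_mem {σ : Type*} {K : Type*} [Field K] [Algebra ℂ K] (V : ValuationSubring K)
    (hV : ∀ z : ℂ, algebraMap ℂ K z ∈ V) (v : σ → K) (hv : ∀ i, v i ∈ V)
    (P : MvPolynomial σ ℂ) : MvPolynomial.aeval v P ∈ V := by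
  induction P using MvPolynomial.induction_on with
  | C z => rw [MvPolynomial.aeval_C]; exact hV z
  | add p q hp hq => rw [map_add]; exact add_mem hp hq
  | mul_X p i hp => rw [map_mul, MvPolynomial.aeval_X]; exact mul_mem hp (hv i)

theorem main_val {N b : ℕ} (hb : 0 < b)
    (Rp : Subalgebra ℂ (MvPolynomial (Fin (N / 2)) (GamT N b)))
    (h1 : ∀ (a : Fin b) (i j : Fin N) (f : GamT N b),
      (∀ y : XX N b, GamT.fn f y = ((y.1 a).1 * Dx y.2.1 * (y.1 a).1⁻¹) i j) →
      MvPolynomial.C f ∈ Rp)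
    (h2 : ∀ (k : Fin (N / 2)) (hk : (k : ℕ) + 1 ≤ N) (I : Fin b → Fin ((k : ℕ) + 1) → Fin N)
      (f : GamT N b),
      (∀ y : XX N b, GamT.fn f y =
        ∏ a, Matrix.det (fun i j => (y.1 a).1 (I a i) (Fin.castLE hk j))) →
      MvPolynomial.monomial (Finsupp.single k 1) f ∈ Rp)
    (m : Fin (N / 2) →₀ ℕ) (f : GamT N b) (hf : PB N b m (GamT.fn f))
    {K : Type} [Field K] [Algebra ℂ K] (φ : MvPolynomial (Fin (N / 2)) (GamT N b) →ₐ[ℂ] K)
    (hφ : ∀ d ∈ nonZeroDivisors (MvPolynomial (Fin (N / 2)) (GamT N b)), φ d ≠ 0)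
    (V : ValuationSubring K) (hR : ∀ r ∈ Rp, φ r ∈ V) :
    φ (MvPolynomial.monomial m f) ∈ V := by
  have hV : ∀ z : ℂ, algebraMap ℂ K z ∈ V := by
    intro z
    rw [← φ.commutes z]
    exact hR _ (Rp.algebraMap_mem z)
  obtain ⟨θ, hθ⟩ : ∃ θ : GamT N b →ₐ[ℂ] K, ∀ c, θ c = φ (MvPolynomial.C c) :=
    ⟨φ.comp (IsScalarTower.toAlgHom ℂ (GamT N b) (MvPolynomial (Fin (N / 2)) (GamT N b))),
      fun c => rfl⟩
  -- the generic point
  obtain ⟨g, hg⟩ : ∃ g : Fin b → Matrix (Fin N) (Fin N) K,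
    g = fun a => (gG a).map (θ : GamT N b →+* K) := ⟨_, rfl⟩
  obtain ⟨x, hx⟩ : ∃ x : Fin (N / 2) → K, x = fun k => θ (xG k) := ⟨_, rfl⟩
  have hgG : ∀ a, IsG (g a) := fun a => by
    rw [hg]
    exact (isG_gG a).map _
  have hθP : ∀ P, θ (toGam N b P) = MvPolynomial.aeval (coX g x) P := by
    intro P
    rw [toGam_eq, hom_aeval, hg, hx]
    congr 1
    congr 1
    funext i
    rcases i with p | p <;> rfl
  have hreg : ∀ i j : Fin N, i ≠ j → xx x i ≠ xx x j := by
    intro i j hij he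
    have hd : (MvPolynomial.C (xx xG i - xx xG j : GamT N b) :
        MvPolynomial (Fin (N / 2)) (GamT N b)) ∈ nonZeroDivisors _ := by
      rw [mem_nonZeroDivisors_iff_right]
      intro p hp
      ext s
      have h3 := congrArg (MvPolynomial.coeff s) hp
      rw [mul_comm, MvPolynomial.coeff_C_mul, MvPolynomial.coeff_zero] at h3
      rw [MvPolynomial.coeff_zero]
      refine gam_ext _ _ fun y => ?_
      have h4 := congrArg (ptEval y) h3
      rw [map_mul, map_sub] at h4
      have h5 : ∀ i : Fin N, ptEval y (xx xG i) = xx y.2.1 i := by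
        intro i
        have := xx_map (ptEval y : GamT N b →+* ℂ) xG i
        refine this.trans ?_
        congr 1
        funext k
        exact pt_xG y k
      rw [h5, h5, map_zero] at h4
      rw [map_zero]
      exact (mul_eq_zero.1 h4).resolve_left (sub_ne_zero.2 (y.2.2 i j hij))
    refine hφ _ hd ?_
    rw [← hθ, map_sub, sub_eq_zero]
    have h6 : ∀ i : Fin N, θ (xx xG i) = xx x i := by
      intro i
      rw [hx]
      exact xx_map (θ : GamT N b →+* K) xG i
    rw [h6, h6]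
    exact he
  -- the entries of `g x g⁻¹`
  have hn : ∀ a i j, (g a * Dx x * st (g a)) i j ∈ V := by
    intro a i j
    have h3 : (g a * Dx x * st (g a)) i j =
        θ ((gG a * Dx xG * st (gG a) : Matrix (Fin N) (Fin N) (GamT N b)) i j) := by
      have := congrFun (congrFun (congrArg (fun M : Matrix (Fin N) (Fin N) K => (M : Fin N → Fin N → K))
        (show (gG a * Dx xG * st (gG a) : Matrix (Fin N) (Fin N) (GamT N b)).map
          (θ : GamT N b →+* K) = g a * Dx x * st (g a) by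
          rw [Matrix.map_mul, Matrix.map_mul, Dx_map, st_map, hg, hx]; rfl)) i) j
      exact this.symm
    rw [h3, hθ]
    refine hR _ (h1 a i j _ fun y => ?_)
    have h4 := congrFun (congrFun (congrArg (fun M : Matrix (Fin N) (Fin N) ℂ => (M : Fin N → Fin N → ℂ))
        (show (gG a * Dx xG * st (gG a) : Matrix (Fin N) (Fin N) (GamT N b)).map
          (ptEval y : GamT N b →+* ℂ) = (y.1 a).1 * Dx y.2.1 * (y.1 a).1⁻¹ by
          rw [Matrix.map_mul, Matrix.map_mul, Dx_map, st_map, pt_gG, (y.1 a).2.inv_eq_st]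
          congr 3
          funext k
          exact pt_xG y k)) i) j
    exact h4
  -- decompositions
  choose k u Z t hk hkV hZV hrel hxV hmin using fun a => block V hV (g a) (hgG a) x (hn a)
  obtain ⟨P, hP⟩ := toGam_surj N b f
  obtain ⟨H, hH⟩ := PB_transfer m (GamT.fn f) P (fun y => by rw [← hP]; exact fn_toGam P y) hf
  have hval := hH k g Z u t x hk hgG hreg hrel
  rw [← hθP, hP, hθ] at hval
  have hHV : MvPolynomial.aeval (Sum.elim (fun p : Fin b × Fin N × Fin N => k p.1 p.2.1 p.2.2)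
      (coX Z x)) H ∈ V := by
    refine aeval_mem V hV _ ?_ H
    intro i
    rcases i with p | p | p
    · exact hkV _ _ _
    · exact hZV _ _ _
    · exact hxV ⟨0, hb⟩ p
  -- the factors
  have hY : ∀ l : Fin (N / 2), φ (MvPolynomial.X l) *
      ((∏ a, (∏ i : Fin (N / 2), if (i : ℕ) < (l : ℕ) + 1 then t a i else 1) : Kˣ) : K) ∈ V := by
    intro l
    have hl := l.2
    have hk' : (l : ℕ) + 1 ≤ N := by omega
    choose I δ hδ hδV hdet using fun a => hmin a ((l : ℕ) + 1) (by omega) hk'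
    have h3 := hR _ (h2 l hk' I (∏ a, Matrix.det ((gG a).submatrix (I a) (Fin.castLE hk')))
      (fun y => by
        have : GamT.fn (∏ a, Matrix.det ((gG a).submatrix (I a) (Fin.castLE hk'))) y =
          ptEval y (∏ a, Matrix.det ((gG a).submatrix (I a) (Fin.castLE hk'))) := rfl
        rw [this, map_prod]
        refine Finset.prod_congr rfl fun a _ => ?_
        have h4 := RingHom.map_det (ptEval y : GamT N b →+* ℂ)
          ((gG a).submatrix (I a) (Fin.castLE hk'))
        refine h4.trans ?_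
        congr 1
        have h5 := pt_gG y a
        ext i j
        exact congrFun (congrFun h5 (I a i)) (Fin.castLE hk' j)))
    have h4 : (MvPolynomial.monomial (Finsupp.single l 1)
        (∏ a, Matrix.det ((gG a).submatrix (I a) (Fin.castLE hk'))) :
        MvPolynomial (Fin (N / 2)) (GamT N b)) =
        MvPolynomial.C (∏ a, Matrix.det ((gG a).submatrix (I a) (Fin.castLE hk'))) *
          MvPolynomial.X l := by
      rw [MvPolynomial.C_mul_X_eq_monomial]
    rw [h4, map_mul, ← hθ, map_prod] at h3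
    have h5 : ∀ a, θ (Matrix.det ((gG a).submatrix (I a) (Fin.castLE hk'))) = δ a *
        ((∏ i : Fin (N / 2), if (i : ℕ) < (l : ℕ) + 1 then t a i else 1 : Kˣ) : K) := by
      intro a
      rw [← hdet a]
      have h6 := RingHom.map_det (θ : GamT N b →+* K)
          ((gG a).submatrix (I a) (Fin.castLE hk'))
      refine h6.trans ?_
      rw [hg]
      rfl
    rw [Finset.prod_congr rfl (fun a _ => h5 a), Finset.prod_mul_distrib] at h3
    have h7 : (∏ a, (δ a)⁻¹) ∈ V := prod_mem fun a _ => hδV a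
    have h8 := mul_mem h7 h3
    have h9 : (∏ a, (δ a)⁻¹) * ∏ a, δ a = 1 := by
      rw [← Finset.prod_mul_distrib]
      exact Finset.prod_eq_one fun a _ => inv_mul_cancel₀ (hδ a)
    rw [Units.coe_prod]
    have h10 : (∏ a, (δ a)⁻¹) * ((∏ a, δ a) * (∏ a, ((∏ i : Fin (N / 2),
        if (i : ℕ) < (l : ℕ) + 1 then t a i else 1 : Kˣ) : K)) * φ (MvPolynomial.X l)) =
        φ (MvPolynomial.X l) * ∏ a, ((∏ i : Fin (N / 2),
        if (i : ℕ) < (l : ℕ) + 1 then t a i else 1 : Kˣ) : K) := by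
      linear_combination (φ (MvPolynomial.X l) * ∏ a, ((∏ i : Fin (N / 2),
        if (i : ℕ) < (l : ℕ) + 1 then t a i else 1 : Kˣ) : K)) * h9
    rw [h10] at h8
    exact h8
  -- conclusion
  have hmon : (MvPolynomial.monomial m f : MvPolynomial (Fin (N / 2)) (GamT N b)) =
      MvPolynomial.C f * ∏ l : Fin (N / 2), MvPolynomial.X l ^ m l := by
    rw [MvPolynomial.monomial_eq, Finsupp.prod_fintype]
    intro i
    rw [pow_zero]
  have hfin : φ (MvPolynomial.monomial m f) = (∏ l : Fin (N / 2), (φ (MvPolynomial.X l) *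
      ((∏ a, (∏ i : Fin (N / 2), if (i : ℕ) < (l : ℕ) + 1 then t a i else 1) : Kˣ) : K)) ^ m l) *
      MvPolynomial.aeval (Sum.elim (fun p : Fin b × Fin N × Fin N => k p.1 p.2.1 p.2.2)
      (coX Z x)) H := by
    rw [hmon, map_mul, hval, map_prod]
    have h3 : (∏ a, chi (lam m) (t a) : Kˣ) = ∏ l : Fin (N / 2),
        (∏ a, (∏ i : Fin (N / 2), if (i : ℕ) < (l : ℕ) + 1 then t a i else 1)) ^ m l := by
      simp only [chi_lam]
      rw [Finset.prod_comm]
      refine Finset.prod_congr rfl fun l _ => ?_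
      rw [Finset.prod_pow]
    rw [h3, Units.coe_prod]
    simp only [mul_pow, map_pow, Units.val_pow_eq_pow_val]
    rw [Finset.prod_mul_distrib]
    ring
  rw [hfin]
  exact mul_mem (prod_mem fun l _ => pow_mem (hY l) _) hHV

end BlockL

/-- Block L.  (The hypothesis `0 < b` is needed: for `b = 0` the algebra `Rp` need not contain
the functions of `x`.) -/
theorem integral_of_PB (N b : ℕ) (hb : 0 < b)
    (Rp : Subalgebra ℂ (MvPolynomial (Fin (N / 2)) (GamT N b)))
    (h1 : ∀ (a : Fin b) (i j : Fin N) (f : GamT N b),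
      (∀ y : XX N b, GamT.fn f y = ((y.1 a).1 * Dx y.2.1 * (y.1 a).1⁻¹) i j) →
      MvPolynomial.C f ∈ Rp)
    (h2 : ∀ (k : Fin (N / 2)) (hk : (k : ℕ) + 1 ≤ N) (I : Fin b → Fin ((k : ℕ) + 1) → Fin N)
      (f : GamT N b),
      (∀ y : XX N b, GamT.fn f y =
        ∏ a, Matrix.det (fun i j => (y.1 a).1 (I a i) (Fin.castLE hk j))) →
      MvPolynomial.monomial (Finsupp.single k 1) f ∈ Rp)
    (m : Fin (N / 2) →₀ ℕ) (f : GamT N b) (hf : PB N b m (GamT.fn f)) :
    IsIntegral Rp (MvPolynomial.monomial m f) := by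
  refine isIntegral_of_valuations Rp _ ?_
  intro K _ φ hφ V hR
  let _ : Algebra ℂ K := (φ.comp (algebraMap ℂ (MvPolynomial (Fin (N / 2)) (GamT N b)))).toAlgebra
  exact BlockL.main_val hb Rp h1 h2 m f hf
    ({ φ with commutes' := fun z => rfl } : MvPolynomial (Fin (N / 2)) (GamT N b) →ₐ[ℂ] K) hφ V hR

end Pool.Agent.MP_c45d35_ag
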