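import Mathlib

set_option autoImplicit false

/-!
# MP_c45d35_ag, Block R

A function whose product with linear forms is polynomial and which vanishes where it should is
polynomial.
-/

namespace Pool.Agent.MP_c45d35_ag

open MvPolynomial

/-- Substituting `φ` for the second set of variables changes a polynomial by a multiple of `ℓ`. -/
theorem blockR_dvd {σ : Type*} {n : ℕ} (ℓ : MvPolynomial (Fin n) ℂ)
    (φ : Fin n → MvPolynomial (Fin n) ℂ)
    (hφ : ∀ j, ∃ q, MvPolynomial.X j - φ j = ℓ * q) (P : MvPolynomial (σ ⊕ Fin n) ℂ) :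
    ∃ Q : MvPolynomial (σ ⊕ Fin n) ℂ,
      P - MvPolynomial.aeval (Sum.elim (fun i => (X (Sum.inl i) : MvPolynomial (σ ⊕ Fin n) ℂ))
        (fun j => rename Sum.inr (φ j))) P = rename Sum.inr ℓ * Q := by
  induction P using MvPolynomial.induction_on with
  | C a => exact ⟨0, by simp⟩
  | add p q hp hq =>
    obtain ⟨A, hA⟩ := hp
    obtain ⟨B, hB⟩ := hq
    refine ⟨A + B, ?_⟩
    rw [map_add, mul_add, ← hA, ← hB]
    ring
  | mul_X p i hp =>
    obtain ⟨A, hA⟩ := hp
    rcases i with i | j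
    · refine ⟨A * X (Sum.inl i), ?_⟩
      rw [map_mul, aeval_X, ← mul_assoc, ← hA]
      simp only [Sum.elim_inl]
      ring
    · obtain ⟨q, hq⟩ := hφ j
      have hq' : (X (Sum.inr j) : MvPolynomial (σ ⊕ Fin n) ℂ) - rename Sum.inr (φ j)
          = rename Sum.inr ℓ * rename Sum.inr q := by
        rw [← map_mul, ← hq, map_sub, rename_X]
      refine ⟨A * X (Sum.inr j) + MvPolynomial.aeval (Sum.elim
        (fun i => (X (Sum.inl i) : MvPolynomial (σ ⊕ Fin n) ℂ))
        (fun j => rename Sum.inr (φ j))) p * rename Sum.inr q, ?_⟩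
      rw [map_mul, aeval_X, mul_add, ← mul_assoc, ← hA]
      simp only [Sum.elim_inr]
      linear_combination (MvPolynomial.aeval (Sum.elim
        (fun i => (X (Sum.inl i) : MvPolynomial (σ ⊕ Fin n) ℂ))
        (fun j => rename Sum.inr (φ j))) p) * hq'

theorem blockR_eval {σ : Type*} {n : ℕ} (φ : Fin n → MvPolynomial (Fin n) ℂ)
    (P : MvPolynomial (σ ⊕ Fin n) ℂ) (w : σ → ℂ) (x : Fin n → ℂ) :
    eval (Sum.elim w x) (MvPolynomial.aeval (Sum.elim
      (fun i => (X (Sum.inl i) : MvPolynomial (σ ⊕ Fin n) ℂ)) (fun j => rename Sum.inr (φ j))) P)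
      = eval (Sum.elim w (fun j => eval x (φ j))) P := by
  rw [MvPolynomial.aeval_def, ← MvPolynomial.coe_eval₂Hom, ← RingHom.comp_apply]
  rw [MvPolynomial.comp_eval₂Hom]
  rw [MvPolynomial.eval, ]
  congr 1
  congr 1
  · ext a; simp
  · funext i
    rcases i with i | j
    · simp
    · simp [eval_rename, Function.comp_def]

theorem reg_lemma {σ : Type*} [Finite σ] {n : ℕ} (W : Set (σ → ℂ)) (T : Set (Fin n → ℂ))
    {H : Type*} (ℓ : H → MvPolynomial (Fin n) ℂ) (φ : H → Fin n → MvPolynomial (Fin n) ℂ)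
    (hφ : ∀ β j, ∃ q, MvPolynomial.X j - φ β j = ℓ β * q)
    (hφ0 : ∀ β, MvPolynomial.aeval (φ β) (ℓ β) = 0)
    (hT : ∀ β, ∀ x ∈ T, MvPolynomial.eval x (ℓ β) ≠ 0)
    (F : (σ → ℂ) → (Fin n → ℂ) → ℂ)
    (L : List H) (P : MvPolynomial (σ ⊕ Fin n) ℂ)
    (hP : ∀ w ∈ W, ∀ x ∈ T, (L.map fun β => MvPolynomial.eval x (ℓ β)).prod * F w x =
      MvPolynomial.eval (Sum.elim w x) P)
    (hV : ∀ (β : H) (L' : List H) (P' : MvPolynomial (σ ⊕ Fin n) ℂ),
      (∀ w ∈ W, ∀ x ∈ T, ((β :: L').map fun β => MvPolynomial.eval x (ℓ β)).prod * F w x =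
        MvPolynomial.eval (Sum.elim w x) P') →
      ∀ w ∈ W, ∀ x, MvPolynomial.eval x (ℓ β) = 0 → MvPolynomial.eval (Sum.elim w x) P' = 0) :
    ∃ Q : MvPolynomial (σ ⊕ Fin n) ℂ, ∀ w ∈ W, ∀ x ∈ T, F w x =
      MvPolynomial.eval (Sum.elim w x) Q := by
  induction L generalizing P with
  | nil => exact ⟨P, fun w hw x hx => by simpa using hP w hw x hx⟩
  | cons β L' ih =>
    obtain ⟨Q, hQ⟩ := blockR_dvd (ℓ β) (φ β) (hφ β) P
    refine ih Q ?_
    intro w hw x hx
    have h0 := hV β L' P hP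
    have h1 : eval (Sum.elim w (fun j => eval x (φ β j))) P = 0 := by
      refine h0 w hw _ ?_
      have h2 := congrArg (eval x) (hφ0 β)
      rw [map_zero, MvPolynomial.aeval_def, ← MvPolynomial.coe_eval₂Hom, ← RingHom.comp_apply,
        MvPolynomial.comp_eval₂Hom] at h2
      rw [← h2, MvPolynomial.eval]
      congr 1
      congr 1
      ext a; simp
    have h3 : eval (Sum.elim w x) P = eval x (ℓ β) * eval (Sum.elim w x) Q := by
      have h4 := congrArg (eval (Sum.elim w x)) hQ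
      rw [map_sub, map_mul, blockR_eval, h1, sub_zero, eval_rename] at h4
      simpa [Function.comp_def] using h4
    have h5 := hP w hw x hx
    rw [h3, List.map_cons, List.prod_cons, mul_assoc] at h5
    exact mul_left_cancel₀ (hT β x hx) h5

end Pool.Agent.MP_c45d35_ag
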