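import Pool.Agent.MP_c45d35_ag.Defs

set_option autoImplicit false

/-! # Block I (SAGBI) -/

namespace Pool.Agent.MP_c45d35_ag

open Matrix

theorem sagbi {A Γ : Type*} [CommRing A] [Algebra ℂ A] [CommRing Γ] [Algebra ℂ Γ] {n : ℕ}
    (Good : (Fin n →₀ ℕ) → A → Γ → Prop) (hone : Good 0 1 1) (hzero : ∀ m, Good m 0 0)
    (hadd : ∀ m f b f' b', Good m f b → Good m f' b' → Good m (f + f') (b + b'))
    (hsmul : ∀ m f b (c : ℂ), Good m f b → Good m (c • f) (c • b))
    (hmul : ∀ m m' f b f' b', Good m f b → Good m' f' b' → Good (m + m') (f * f') (b * b'))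
    (lt : (Fin n →₀ ℕ) → (Fin n →₀ ℕ) → Prop) (hwf : WellFounded lt)
    (hdesc : ∀ m f, Good m f 0 → f = 0 ∨ ∃ m' b', lt m' m ∧ Good m' f b')
    (hex : ∀ f, ∃ m b, Good m f b) (B : Subalgebra ℂ (MvPolynomial (Fin n) Γ))
    (hB : ∀ p, p ∈ B ↔ ∀ m, ∃ f, Good m f (MvPolynomial.coeff m p)) (hfg : B.FG) :
    Algebra.FiniteType ℂ A := by
  classical
  obtain ⟨T, hT⟩ := hfg
  have hTB : ∀ p ∈ T, p ∈ B := by
    intro p hp
    rw [← hT]
    exact Algebra.subset_adjoin hp
  have hch : ∀ (p : MvPolynomial (Fin n) Γ) (m : Fin n →₀ ℕ), ∃ f : A, p ∈ T →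
      Good m f (MvPolynomial.coeff m p) := by
    intro p m
    by_cases hp : p ∈ T
    · obtain ⟨f, hf⟩ := (hB p).1 (hTB p hp) m
      exact ⟨f, fun _ => hf⟩
    · exact ⟨0, fun h => absurd h hp⟩
  choose F hF using hch
  set G : Finset A := T.biUnion fun p => p.support.image fun m => F p m with hG
  set A0 : Subalgebra ℂ A := Algebra.adjoin ℂ (G : Set A) with hA0
  have hsum : ∀ {ι : Type} (s : Finset ι) (m : Fin n →₀ ℕ) (f : ι → A) (b : ι → Γ),
      (∀ i ∈ s, Good m (f i) (b i)) → Good m (∑ i ∈ s, f i) (∑ i ∈ s, b i) := by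
    intro ι s m f b
    induction s using Finset.induction_on with
    | empty => intro _; simpa using hzero m
    | insert a s ha ih =>
      intro h
      rw [Finset.sum_insert ha, Finset.sum_insert ha]
      exact hadd _ _ _ _ _ (h a (Finset.mem_insert_self a s))
        (ih fun i hi => h i (Finset.mem_insert_of_mem hi))
  have key : ∀ p ∈ B, ∀ m, ∃ f ∈ A0, Good m f (MvPolynomial.coeff m p) := by
    intro p hp
    rw [← hT] at hp
    induction hp using Algebra.adjoin_induction with
    | mem p hp =>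
      intro m
      by_cases hm : m ∈ p.support
      · refine ⟨F p m, ?_, hF p m hp⟩
        apply Algebra.subset_adjoin
        rw [hG]
        simp only [Finset.coe_biUnion, Finset.mem_coe, Set.mem_iUnion]
        exact ⟨p, hp, Finset.mem_coe.2 (Finset.mem_image.2 ⟨m, hm, rfl⟩)⟩
      · rw [MvPolynomial.notMem_support_iff.1 hm]
        exact ⟨0, A0.zero_mem, hzero m⟩
    | algebraMap r =>
      intro m
      rw [MvPolynomial.algebraMap_apply, MvPolynomial.coeff_C]
      split_ifs with h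
      · subst h
        refine ⟨algebraMap ℂ A r, A0.algebraMap_mem r, ?_⟩
        rw [Algebra.algebraMap_eq_smul_one, Algebra.algebraMap_eq_smul_one]
        exact hsmul _ _ _ _ hone
      · exact ⟨0, A0.zero_mem, hzero m⟩
    | add p q _ _ ihp ihq =>
      intro m
      obtain ⟨f, hf, hf'⟩ := ihp m
      obtain ⟨g, hg, hg'⟩ := ihq m
      rw [MvPolynomial.coeff_add]
      exact ⟨f + g, A0.add_mem hf hg, hadd _ _ _ _ _ hf' hg'⟩
    | mul p q _ _ ihp ihq =>
      intro m
      choose f hf hf' using ihp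
      choose g hg hg' using ihq
      rw [MvPolynomial.coeff_mul]
      refine ⟨∑ x ∈ Finset.HasAntidiagonal.antidiagonal m, f x.1 * g x.2,
        A0.sum_mem fun x _ => A0.mul_mem (hf _) (hg _), ?_⟩
      apply hsum
      intro x hx
      have := hmul _ _ _ _ _ _ (hf' x.1) (hg' x.2)
      rwa [Finset.HasAntidiagonal.mem_antidiagonal.1 hx] at this
  have hall : ∀ m f b, Good m f b → f ∈ A0 := by
    intro m
    induction m using hwf.induction with
    | h m ih =>
    intro f b hf
    have hp : MvPolynomial.monomial m b ∈ B := by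
      rw [hB]
      intro m'
      rw [MvPolynomial.coeff_monomial]
      split_ifs with h
      · subst h
        exact ⟨f, hf⟩
      · exact ⟨0, hzero m'⟩
    obtain ⟨f', hf', hgood⟩ := key _ hp m
    rw [MvPolynomial.coeff_monomial, if_pos rfl] at hgood
    have h1 := hadd _ _ _ _ _ hf (hsmul _ _ _ (-1) hgood)
    have h2 : b + (-1 : ℂ) • b = 0 := by rw [neg_one_smul, add_neg_cancel]
    rw [h2, neg_one_smul, ← sub_eq_add_neg] at h1
    have h3 : f - f' ∈ A0 := by
      rcases hdesc _ _ h1 with h | ⟨m', b', hlt, hg⟩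
      · rw [h]
        exact A0.zero_mem
      · exact ih m' hlt _ _ hg
    have h4 := A0.add_mem h3 hf'
    rwa [sub_add_cancel] at h4
  refine ⟨⟨G, ?_⟩⟩
  rw [eq_top_iff]
  intro f _
  obtain ⟨m, b, h⟩ := hex f
  exact hall m f b h

end Pool.Agent.MP_c45d35_ag
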