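import Pool.Agent.MP_c45d35_ag.Defs

namespace Pool.Agent.MP_c45d35_ag

open Matrix

theorem blockJ_Jm_sq (N : ℕ) : Jm ℂ N * Jm ℂ N = ((-1 : ℂ) ^ (N - 1)) • (1 : Matrix (Fin N) (Fin N) ℂ) := by
  ext i j
  rw [Matrix.mul_apply, Finset.sum_eq_single (Fin.rev i)]
  · simp only [Jm, Matrix.of_apply, if_true, Fin.rev_rev, Matrix.smul_apply, smul_eq_mul]
    by_cases hij : i = j
    · subst hij
      rw [if_pos rfl, Matrix.one_apply_eq, mul_one, ← pow_add]
      congr 1
      rw [Fin.val_rev]
      omega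
    · rw [if_neg (fun h => hij h.symm), Matrix.one_apply_ne hij]
      ring
  · intro k _ hk
    simp only [Jm, Matrix.of_apply]
    rw [if_neg hk]
    ring
  · intro h
    exact absurd (Finset.mem_univ _) h

theorem blockJ_Jm_det (N : ℕ) : (Jm ℂ N).det ≠ 0 := by
  intro h
  have h1 := congrArg Matrix.det (blockJ_Jm_sq N)
  rw [Matrix.det_mul, h, Matrix.det_smul, Matrix.det_one, mul_one, mul_zero] at h1
  have h2 : (((-1 : ℂ) ^ (N - 1)) ^ Fintype.card (Fin N)) ≠ 0 :=
    pow_ne_zero _ (pow_ne_zero _ (by norm_num))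
  exact h2 h1.symm

theorem exists_weyl {N : ℕ} (π : Equiv.Perm (Fin N)) (hπ : ∀ i, π (Fin.rev i) = Fin.rev (π i)) :
    ∃ w : Matrix (Fin N) (Fin N) ℂ, IsG w ∧
      ∀ d : Fin N → ℂ, w * Matrix.diagonal d = Matrix.diagonal (fun i => d (π.symm i)) * w := by
  classical
  set a : Fin N → ℂ := fun i => if i ≤ Fin.rev i then 1 else (-1) ^ ((i : ℕ) + (π i : ℕ)) with ha
  set w : Matrix (Fin N) (Fin N) ℂ := Matrix.of fun r c => if r = π c then a c else 0 with hw
  have hcomm : ∀ d : Fin N → ℂ,
      w * Matrix.diagonal d = Matrix.diagonal (fun i => d (π.symm i)) * w := by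
    intro d
    ext r c
    rw [Matrix.mul_diagonal, Matrix.diagonal_mul]
    simp only [hw, Matrix.of_apply]
    by_cases h : r = π c
    · rw [if_pos h, h, Equiv.symm_apply_apply]
      ring
    · rw [if_neg h]
      ring
  -- the sign relation
  have hsign : ∀ i : Fin N, a i * a (Fin.rev i) * (-1) ^ ((π i : Fin N) : ℕ) = (-1) ^ (i : ℕ) := by
    intro i
    have e1 : ∀ m : ℕ, ((-1 : ℂ)) ^ m * (-1) ^ m = 1 := by
      intro m
      rw [← pow_add, ← two_mul, pow_mul]
      simp
    rcases lt_trichotomy i (Fin.rev i) with hlt | heq | hgt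
    · have h1 : a i = 1 := by simp only [ha]; rw [if_pos hlt.le]
      have h2 : a (Fin.rev i) = (-1) ^ ((i : ℕ) + (π i : ℕ)) := by
        simp only [ha]
        rw [Fin.rev_rev, if_neg (not_le.mpr hlt), hπ, Fin.val_rev, Fin.val_rev]
        have h3 : (i : ℕ) < N := i.2
        have h4 : (π i : ℕ) < N := (π i).2
        have h5 : N - (↑i + 1) + (N - (↑(π i) + 1)) + 2 * (↑i + ↑(π i) + 1) =
            (↑i + ↑(π i)) + 2 * N := by omega
        have h6 : ((-1 : ℂ)) ^ (N - (↑i + 1) + (N - (↑(π i) + 1)) + 2 * (↑i + ↑(π i) + 1)) =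
            (-1) ^ ((↑i + ↑(π i)) + 2 * N) := by rw [h5]
        rw [pow_add _ _ (2 * _), pow_add _ (↑i + ↑(π i)) (2 * N), pow_mul, pow_mul] at h6
        simpa using h6
      rw [h1, h2, one_mul, pow_add, mul_assoc, e1, mul_one]
    · have h1 : a i = 1 := by simp only [ha]; rw [if_pos heq.le]
      have h2 : π i = Fin.rev (π i) := by rw [← hπ, ← heq]
      have h3 : π i = i := by
        have h4 := congrArg Fin.val h2
        have h5 := congrArg Fin.val heq
        rw [Fin.val_rev] at h4 h5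
        apply Fin.ext
        omega
      rw [← heq, h1, h3]
      ring
    · have h1 : a i = (-1) ^ ((i : ℕ) + (π i : ℕ)) := by
        simp only [ha]; rw [if_neg (not_le.mpr hgt)]
      have h2 : a (Fin.rev i) = 1 := by
        simp only [ha]
        rw [Fin.rev_rev, if_pos hgt.le]
      rw [h1, h2, mul_one, pow_add, mul_assoc, e1, mul_one]
  have hJ : wᵀ * Jm ℂ N * w = Jm ℂ N := by
    ext i j
    rw [Matrix.mul_apply, Finset.sum_eq_single (π j)]
    · rw [Matrix.mul_apply, Finset.sum_eq_single (π i)]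
      · simp only [hw, Matrix.transpose_apply, Matrix.of_apply, if_true, Jm]
        by_cases h : j = Fin.rev i
        · subst h
          rw [if_pos (hπ i), if_pos rfl, ← hsign i]
          ring
        · rw [if_neg h, if_neg (fun h' => h (π.injective (by rw [h', hπ])))]
          ring
      · intro k _ hk
        simp only [hw, Matrix.transpose_apply, Matrix.of_apply]
        rw [if_neg hk]
        ring
      · intro h
        exact absurd (Finset.mem_univ _) h
    · intro k _ hk
      have : w k j = 0 := by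
        simp only [hw, Matrix.of_apply]
        rw [if_neg hk]
      rw [this, mul_zero]
    · intro h
      exact absurd (Finset.mem_univ _) h
  have hdet : w.det * w.det = 1 := by
    have h1 := congrArg Matrix.det hJ
    rw [Matrix.det_mul, Matrix.det_mul, Matrix.det_transpose] at h1
    have h2 := blockJ_Jm_det N
    have h3 : (w.det * w.det) * (Jm ℂ N).det = 1 * (Jm ℂ N).det := by
      rw [one_mul]
      nth_rewrite 2 [← h1]
      ring
    exact mul_right_cancel₀ h2 h3
  by_cases hN : Odd N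
  · refine ⟨w.det • w, ⟨?_, fun _ => ?_⟩, fun d => ?_⟩
    · rw [Matrix.transpose_smul, Matrix.smul_mul, Matrix.smul_mul, Matrix.mul_smul, smul_smul, hJ,
        hdet, one_smul]
    · rw [Matrix.det_smul, Fintype.card_fin]
      obtain ⟨m, rfl⟩ := hN
      rw [show w.det ^ (2 * m + 1) * w.det = (w.det * w.det) ^ (m + 1) by ring, hdet, one_pow]
    · rw [Matrix.smul_mul, hcomm d, Matrix.mul_smul]
  · exact ⟨w, ⟨hJ, fun h => absurd h hN⟩, hcomm⟩

theorem chi_indep {n : ℕ} (c : (Fin n → ℤ) →₀ ℂ)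
    (h : ∀ t : Fin n → ℂˣ, (c.sum fun μ a => a * ((chi μ t : ℂˣ) : ℂ)) = 0) : c = 0 := by
  classical
  let f : (Fin n → ℤ) → ((Fin n → ℂˣ) →* ℂ) := fun μ =>
    { toFun := fun t => ((chi μ t : ℂˣ) : ℂ)
      map_one' := by simp [chi]
      map_mul' := by
        intro s t
        simp [chi, mul_zpow, Finset.prod_mul_distrib] }
  have hinj : Function.Injective f := by
    intro μ ν hμν
    funext k
    have h1 := DFunLike.congr_fun hμν (Pi.mulSingle k (Units.mk0 (2 : ℂ) two_ne_zero))
    have h2 : ∀ ξ : Fin n → ℤ, f ξ (Pi.mulSingle k (Units.mk0 (2 : ℂ) two_ne_zero)) =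
        (2 : ℂ) ^ (ξ k) := by
      intro ξ
      show ((chi ξ (Pi.mulSingle k (Units.mk0 (2 : ℂ) two_ne_zero)) : ℂˣ) : ℂ) = (2 : ℂ) ^ (ξ k)
      unfold chi
      rw [Finset.prod_eq_single k]
      · rw [Pi.mulSingle_eq_same]
        simp
      · intro j _ hj
        rw [Pi.mulSingle_eq_of_ne hj, _root_.one_zpow]
      · intro hk
        exact absurd (Finset.mem_univ _) hk
    rw [h2, h2] at h1
    have h3 : ((2 : ℝ)) ^ (μ k) = (2 : ℝ) ^ (ν k) := by
      have h4 := congrArg (fun z : ℂ => ‖z‖) h1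
      simpa [norm_zpow] using h4
    exact zpow_right_injective₀ (by norm_num) (by norm_num) h3
  have hli := (linearIndependent_monoidHom (Fin n → ℂˣ) ℂ).comp f hinj
  rw [linearIndependent_iff] at hli
  apply hli
  funext t
  have h1 := h t
  rw [Finsupp.linearCombination_apply, Finsupp.sum, Finset.sum_apply]
  rw [Finsupp.sum] at h1
  exact h1

end Pool.Agent.MP_c45d35_ag
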