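import Pool.Agent.MP_c45d35_ag.Hess
import Pool.Agent.MP_c45d35_ag.Slice
import Pool.Agent.MP_c45d35_ag.Gener
import Pool.Agent.MP_c45d35_ag.FK
import Pool.Agent.MP_c45d35_ag.Gen
import Pool.Agent.MP_c45d35_ag.ICL
import Pool.Agent.MP_c45d35_ag.Sagbi
import Pool.Agent.MP_c45d35_ag.WeylChar
import Pool.Agent.MP_c45d35_ag.Int
import Pool.Agent.MP_c45d35_ag.Reg

namespace Pool.Agent.MP_c45d35_ag

open Matrix

/-! ## Pointwise objects over `ℂ` -/

section pointwise
variable {N : ℕ}

/-- the generic slice element -/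
noncomputable def sxP (N : ℕ) : Matrix (Fin N) (Fin N) (MvPolynomial (Fin (N / 2)) ℂ) :=
  (exists_slice_param N).choose

/-- the generic conjugator -/
noncomputable def pxP (N : ℕ) : Matrix (Fin N) (Fin N) (MvPolynomial (Fin (N / 2)) ℂ) :=
  (exists_slice_param N).choose_spec.choose

theorem sp_spec (N : ℕ) :
    LowUni (pxP N) ∧ IsG (pxP N) ∧ pxP N * (em _ N + Dx MvPolynomial.X) = sxP N * pxP N ∧
      (∀ x : Fin (N / 2) → ℂ, (sxP N).map (MvPolynomial.eval x) ∈ slice N) ∧
      (∀ s ∈ slice N, ∃ x : Fin (N / 2) → ℂ, s = (sxP N).map (MvPolynomial.eval x)) ∧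
      (∀ x x' : Fin (N / 2) → ℂ,
        (∏ i : Fin N, (Polynomial.X - Polynomial.C (xx x i)) : Polynomial ℂ) =
          ∏ i : Fin N, (Polynomial.X - Polynomial.C (xx x' i)) →
        (sxP N).map (MvPolynomial.eval x) = (sxP N).map (MvPolynomial.eval x')) :=
  (exists_slice_param N).choose_spec.choose_spec

/-- the slice element with eigenvalues `xx x` -/
noncomputable def sC (x : Fin (N / 2) → ℂ) : Matrix (Fin N) (Fin N) ℂ :=
  (sxP N).map (MvPolynomial.eval x)

/-- the conjugator of `e + x` into the slice -/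
noncomputable def pC (x : Fin (N / 2) → ℂ) : Matrix (Fin N) (Fin N) ℂ :=
  (pxP N).map (MvPolynomial.eval x)

theorem sC_mem (x : Fin (N / 2) → ℂ) : sC x ∈ slice N := (sp_spec N).2.2.2.1 x

theorem exists_sC {s : Matrix (Fin N) (Fin N) ℂ} (hs : s ∈ slice N) :
    ∃ x : Fin (N / 2) → ℂ, s = sC x := (sp_spec N).2.2.2.2.1 s hs

theorem LowUni.map {R S : Type*} [CommRing R] [CommRing S] (φ : R →+* S)
    {u : Matrix (Fin N) (Fin N) R} (hu : LowUni u) : LowUni (u.map φ) :=
  ⟨fun i j h => by simp [hu.1 i j h], fun i => by simp [hu.2 i]⟩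

theorem UpUni.map {R S : Type*} [CommRing R] [CommRing S] (φ : R →+* S)
    {u : Matrix (Fin N) (Fin N) R} (hu : UpUni u) : UpUni (u.map φ) :=
  ⟨fun i j h => by simp [hu.1 i j h], fun i => by simp [hu.2 i]⟩

theorem pC_lowUni (x : Fin (N / 2) → ℂ) : LowUni (pC x) := (sp_spec N).1.map _

theorem pC_isG (x : Fin (N / 2) → ℂ) : IsG (pC x) := (sp_spec N).2.1.map _

theorem pC_conj (x : Fin (N / 2) → ℂ) : pC x * (em ℂ N + Dx x) = sC x * pC x := by
  have h := congrArg (fun M => M.map (MvPolynomial.eval x)) (sp_spec N).2.2.1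
  simp only [Matrix.map_mul, Matrix.map_add _ (map_add (MvPolynomial.eval x)), em_map, Dx_map,
    MvPolynomial.eval_X] at h
  exact h

theorem emDx_upper (x : Fin (N / 2) → ℂ) (i j : Fin N) (h : j < i) :
    (em ℂ N + Dx x) i j = 0 := by
  have h1 : ¬ ((j : ℕ) = (i : ℕ) + 1) := by
    have : (j : ℕ) < i := h
    omega
  simp [em, Dx, h1, Matrix.diagonal_apply_ne _ (ne_of_gt h)]

theorem emDx_diag (x : Fin (N / 2) → ℂ) (i : Fin N) : (em ℂ N + Dx x) i i = xx x i := by
  simp [em, Dx]

theorem exists_ueC (x : RegX N) : ∃ u : Matrix (Fin N) (Fin N) ℂ, UpUni u ∧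
    u * Dx x.1 = (em ℂ N + Dx x.1) * u := by
  obtain ⟨u, h1, h2⟩ := exists_tri (em ℂ N + Dx x.1) (emDx_upper x.1) (fun i j hij => by
    rw [emDx_diag, emDx_diag]
    exact (sub_ne_zero.2 (x.2 i j hij)).isUnit)
  refine ⟨u, h1, ?_⟩
  rw [← h2]
  congr 1
  unfold Dx
  congr 1
  funext i
  exact (emDx_diag x.1 i).symm

/-- the upper unipotent conjugating `x` into `e + x` -/
noncomputable def ueC (x : RegX N) : Matrix (Fin N) (Fin N) ℂ := (exists_ueC x).choose

theorem ueC_upUni (x : RegX N) : UpUni (ueC x) := (exists_ueC x).choose_spec.1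

theorem ueC_conj (x : RegX N) : ueC x * Dx x.1 = (em ℂ N + Dx x.1) * ueC x :=
  (exists_ueC x).choose_spec.2

theorem isUnit_reg (x : RegX N) (i j : Fin N) (h : i ≠ j) : IsUnit (xx x.1 i - xx x.1 j) :=
  (sub_ne_zero.2 (x.2 i j h)).isUnit

theorem ueC_isG (x : RegX N) : IsG (ueC x) :=
  tri_isG x.1 (em ℂ N) (isUnit_reg x) isLie_em _ (ueC_upUni x) (by
    rw [ueC_conj, add_comm])

/-- the conjugator of `x` into the slice -/
noncomputable def qC (x : RegX N) : Matrix (Fin N) (Fin N) ℂ := pC x.1 * ueC x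

theorem qC_isG (x : RegX N) : IsG (qC x) := (pC_isG x.1).mul (ueC_isG x)

theorem qC_conj (x : RegX N) : qC x * Dx x.1 = sC x.1 * qC x := by
  unfold qC
  rw [Matrix.mul_assoc, ueC_conj, ← Matrix.mul_assoc, pC_conj, Matrix.mul_assoc]

theorem qC_row (x : RegX N) (i0 r : Fin N) (h0 : (i0 : ℕ) = 0) :
    qC x i0 r * ∏ l ∈ Finset.univ.filter (· < r), (xx x.1 r - xx x.1 l) = 1 := by
  have h : qC x i0 r = ueC x i0 r := by
    unfold qC
    rw [Matrix.mul_apply, Finset.sum_eq_single i0]
    · rw [(pC_lowUni x.1).2, one_mul]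
    · intro k _ hk
      have : i0 < k := by
        have h1 : (k : ℕ) ≠ i0 := fun h => hk (Fin.ext h)
        have : (i0 : ℕ) < k := by omega
        exact this
      rw [(pC_lowUni x.1).1 i0 k this, zero_mul]
    · simp
  rw [h]
  exact ue_row x.1 x.2 _ (ueC_upUni x) (ueC_conj x) i0 r h0

end pointwise

/-! ## Algebras of functions with denominators `x_i - x_j` -/

section rat
variable {N : ℕ} {Y : Type*}

/-- entries of the solution of `u x = M u` lie in any algebra of functions containing the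
entries of `M` and the inverses of the differences of the diagonal entries -/
theorem tri_entries_mem (A : Subalgebra ℂ (Y → ℂ)) (M u : Y → Matrix (Fin N) (Fin N) ℂ)
    (hM : ∀ i j, (fun y => M y i j) ∈ A)
    (hinv : ∀ i j, i ≠ j → (fun y => (M y i i - M y j j)⁻¹) ∈ A)
    (hne : ∀ y i j, i ≠ j → M y i i ≠ M y j j) (hup : ∀ y i j, j < i → M y i j = 0)
    (hu : ∀ y, UpUni (u y)) (h : ∀ y, u y * Matrix.diagonal (fun i => M y i i) = M y * u y) :
    ∀ i j, (fun y => u y i j) ∈ A := by
  have key : ∀ d : ℕ, ∀ i j : Fin N, (j : ℕ) ≤ (i : ℕ) + d → (fun y => u y i j) ∈ A := by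
    intro d
    induction d with
    | zero =>
      intro i j hij
      rcases lt_or_eq_of_le hij with h' | h'
      · have : (fun y => u y i j) = 0 := by
          funext y
          exact (hu y).1 i j h'
        rw [this]; exact A.zero_mem
      · have h2 : i = j := Fin.ext h'.symm
        subst h2
        have : (fun y => u y i i) = 1 := by
          funext y
          exact (hu y).2 i
        rw [this]; exact A.one_mem
    | succ d ih =>
      intro i j hij
      rcases Nat.lt_or_ge (j : ℕ) ((i : ℕ) + d + 1) with h' | h'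
      · exact ih i j (by omega)
      · have hij' : i < j := by
          have : (i : ℕ) < j := by omega
          exact this
        have hne' : j ≠ i := ne_of_gt hij'
        have heq : (fun y => u y i j) =
            (fun y => (M y j j - M y i i)⁻¹) *
              (∑ l ∈ Finset.univ.filter (fun l => i < l), (fun y => M y i l) * (fun y => u y l j)) := by
          funext y
          have h1 := congrFun (congrFun (h y) i) j
          rw [Matrix.mul_diagonal, Matrix.mul_apply] at h1
          have h2 : ∑ l, M y i l * u y l j = M y i i * u y i j +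
              ∑ l ∈ Finset.univ.filter (fun l => i < l), M y i l * u y l j := by
            rw [← Finset.sum_filter_add_sum_filter_not Finset.univ (fun l => i < l), add_comm]
            congr 1
            rw [Finset.sum_eq_single i]
            · intro l hl hli
              have : l < i := by
                rcases lt_or_gt_of_ne hli with h3 | h3
                · exact h3
                · simp only [Finset.mem_filter, Finset.mem_univ, true_and, not_lt] at hl
                  exact absurd h3 (not_lt.2 hl)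
              rw [hup y i l this, zero_mul]
            · intro h3
              simp at h3
          rw [h2] at h1
          have h3 : M y j j - M y i i ≠ 0 := sub_ne_zero.2 (hne y j i hne')
          simp only [Pi.mul_apply, Finset.sum_apply]
          rw [eq_comm, inv_mul_eq_iff_eq_mul₀ h3]
          linear_combination -h1
        rw [heq]
        refine A.mul_mem (hinv j i hne') (A.sum_mem fun l hl => A.mul_mem (hM i l) ?_)
        have hl' : i < l := (Finset.mem_filter.1 hl).2
        have : (i : ℕ) < l := hl'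
        exact ih l j (by omega)
  intro i j
  exact key (j : ℕ) i j (by omega)

/-- The algebra of functions on `Y` generated by `S`, the coordinates `x_k` and the inverses of
the differences of the `N` eigenvalues. -/
def Rt (X : Y → RegX N) (S : Set (Y → ℂ)) : Subalgebra ℂ (Y → ℂ) :=
  Algebra.adjoin ℂ (S ∪ {f | ∃ k, f = fun y => (X y).1 k} ∪
    {f | ∃ i j, i ≠ j ∧ f = fun y => (xx (X y).1 i - xx (X y).1 j)⁻¹})

theorem Rt_of_mem {X : Y → RegX N} {S : Set (Y → ℂ)} {f : Y → ℂ} (hf : f ∈ S) : f ∈ Rt X S :=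
  Algebra.subset_adjoin (Or.inl (Or.inl hf))

theorem Rt_x (X : Y → RegX N) (S : Set (Y → ℂ)) (k : Fin (N / 2)) :
    (fun y => (X y).1 k) ∈ Rt X S :=
  Algebra.subset_adjoin (Or.inl (Or.inr ⟨k, rfl⟩))

theorem Rt_inv (X : Y → RegX N) (S : Set (Y → ℂ)) (i j : Fin N) (h : i ≠ j) :
    (fun y => (xx (X y).1 i - xx (X y).1 j)⁻¹) ∈ Rt X S :=
  Algebra.subset_adjoin (Or.inr ⟨i, j, h, rfl⟩)

theorem Rt_const (X : Y → RegX N) (S : Set (Y → ℂ)) (c : ℂ) : (fun _ => c) ∈ Rt X S :=
  (Rt X S).algebraMap_mem c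

theorem Rt_poly {X : Y → RegX N} {S : Set (Y → ℂ)} {σ : Type*} (P : MvPolynomial σ ℂ)
    (v : Y → σ → ℂ) (hv : ∀ i, (fun y => v y i) ∈ Rt X S) :
    (fun y => MvPolynomial.eval (v y) P) ∈ Rt X S := by
  induction P using MvPolynomial.induction_on with
  | C a => simpa using Rt_const X S a
  | add p q hp hq =>
    have : (fun y => MvPolynomial.eval (v y) (p + q)) =
        (fun y => MvPolynomial.eval (v y) p) + fun y => MvPolynomial.eval (v y) q := by
      funext y; simp
    rw [this]; exact (Rt X S).add_mem hp hq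
  | mul_X p i hp =>
    have : (fun y => MvPolynomial.eval (v y) (p * MvPolynomial.X i)) =
        (fun y => MvPolynomial.eval (v y) p) * fun y => v y i := by
      funext y; simp
    rw [this]; exact (Rt X S).mul_mem hp (hv i)

theorem Rt_xx (X : Y → RegX N) (S : Set (Y → ℂ)) (i : Fin N) :
    (fun y => xx (X y).1 i) ∈ Rt X S := by
  have : (fun y => xx (X y).1 i) = ∑ k, (fun _ => (wt N i k : ℂ)) * fun y => (X y).1 k := by
    funext y
    simp [xx, Finset.sum_apply]
  rw [this]
  exact (Rt X S).sum_mem fun k _ => (Rt X S).mul_mem (Rt_const X S _) (Rt_x X S k)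

theorem Rt_sC (X : Y → RegX N) (S : Set (Y → ℂ)) (i j : Fin N) :
    (fun y => sC (X y).1 i j) ∈ Rt X S := by
  have : (fun y => sC (X y).1 i j) = fun y => MvPolynomial.eval (X y).1 (sxP N i j) := by
    funext y; rfl
  rw [this]
  exact Rt_poly _ _ (Rt_x X S)

theorem Rt_pC (X : Y → RegX N) (S : Set (Y → ℂ)) (i j : Fin N) :
    (fun y => pC (X y).1 i j) ∈ Rt X S := by
  have : (fun y => pC (X y).1 i j) = fun y => MvPolynomial.eval (X y).1 (pxP N i j) := by
    funext y; rfl
  rw [this]
  exact Rt_poly _ _ (Rt_x X S)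

theorem Rt_emDx (X : Y → RegX N) (S : Set (Y → ℂ)) (i j : Fin N) :
    (fun y => (em ℂ N + Dx (X y).1) i j) ∈ Rt X S := by
  by_cases h : i = j
  · subst h
    simp only [emDx_diag]
    exact Rt_xx X S i
  · have : (fun y => (em ℂ N + Dx (X y).1) i j) = fun _ => em ℂ N i j := by
      funext y
      simp [Dx, h]
    rw [this]
    exact Rt_const X S _

theorem Rt_ueC (X : Y → RegX N) (S : Set (Y → ℂ)) : ∀ i j : Fin N,
    (fun y => ueC (X y) i j) ∈ Rt X S := by
  refine tri_entries_mem (Rt X S) (fun y => em ℂ N + Dx (X y).1) (fun y => ueC (X y))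
    (Rt_emDx X S) ?_ ?_ ?_ (fun y => ueC_upUni _) ?_
  · intro i j hij
    simp only [emDx_diag]
    exact Rt_inv X S i j hij
  · intro y i j hij
    rw [emDx_diag, emDx_diag]
    exact (X y).2 i j hij
  · intro y i j hij
    exact emDx_upper _ i j hij
  · intro y
    simp only [emDx_diag]
    exact ueC_conj (X y)

theorem Rt_mul {X : Y → RegX N} {S : Set (Y → ℂ)} {A B : Y → Matrix (Fin N) (Fin N) ℂ}
    (hA : ∀ i j, (fun y => A y i j) ∈ Rt X S) (hB : ∀ i j, (fun y => B y i j) ∈ Rt X S) :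
    ∀ i j, (fun y => (A y * B y) i j) ∈ Rt X S := by
  intro i j
  have : (fun y => (A y * B y) i j) = ∑ k, (fun y => A y i k) * fun y => B y k j := by
    funext y
    simp [Matrix.mul_apply, Finset.sum_apply]
  rw [this]
  exact (Rt X S).sum_mem fun k _ => (Rt X S).mul_mem (hA i k) (hB k j)

theorem Rt_st {X : Y → RegX N} {S : Set (Y → ℂ)} {A : Y → Matrix (Fin N) (Fin N) ℂ}
    (hA : ∀ i j, (fun y => A y i j) ∈ Rt X S) : ∀ i j, (fun y => st (A y) i j) ∈ Rt X S := by
  intro i j
  have : (fun y => st (A y) i j) =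
      (fun _ => (-1 : ℂ) ^ ((i : ℕ) + (j : ℕ))) * fun y => A y (Fin.rev j) (Fin.rev i) := by
    funext y
    simp [st_apply]
  rw [this]
  exact (Rt X S).mul_mem (Rt_const X S _) (hA _ _)

theorem Rt_qC (X : Y → RegX N) (S : Set (Y → ℂ)) : ∀ i j : Fin N,
    (fun y => qC (X y) i j) ∈ Rt X S := Rt_mul (Rt_pC X S) (Rt_ueC X S)

theorem Rt_qCinv (X : Y → RegX N) (S : Set (Y → ℂ)) : ∀ i j : Fin N,
    (fun y => (qC (X y))⁻¹ i j) ∈ Rt X S := by
  simp only [(qC_isG _).inv_eq_st]
  exact Rt_st (Rt_qC X S)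

/-- pull-back of functions -/
theorem Rt_comp {Y' : Type*} {X : Y → RegX N} {S : Set (Y → ℂ)} {S' : Set (Y' → ℂ)}
    (ψ : Y' → Y) (hS : ∀ f ∈ S, f ∘ ψ ∈ Rt (X ∘ ψ) S') (f : Y → ℂ) (hf : f ∈ Rt X S) :
    f ∘ ψ ∈ Rt (X ∘ ψ) S' := by
  let φ : (Y → ℂ) →ₐ[ℂ] (Y' → ℂ) :=
    { toFun := fun f => f ∘ ψ
      map_one' := rfl
      map_mul' := fun _ _ => rfl
      map_zero' := rfl
      map_add' := fun _ _ => rfl
      commutes' := fun _ => rfl }
  have : Rt X S ≤ (Rt (X ∘ ψ) S').comap φ := by
    refine Algebra.adjoin_le ?_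
    rintro f ((hf | ⟨k, rfl⟩) | ⟨i, j, hij, rfl⟩)
    · exact hS f hf
    · exact Rt_x (X ∘ ψ) S' k
    · exact Rt_inv (X ∘ ψ) S' i j hij
  exact this hf

end rat

end Pool.Agent.MP_c45d35_ag
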