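import Pool.Agent.MP_c45d35_ag.Expand

namespace Pool.Agent.MP_c45d35_ag

open Matrix

/-! ## The expansion in torus weights -/

section expansion
variable {N b : ℕ}

/-- the Laurent polynomial ring over functions on `G^{b+1} × 𝔱^reg` -/
abbrev LL (N b : ℕ) := AddMonoidAlgebra (XX N (b + 1) → ℂ) (Fin (N / 2) → ℤ)

/-- coordinates of the point `(g_0 T q⁻¹, g_a q⁻¹; s)` over `LL` -/
noncomputable def genL (N b : ℕ) : Idx N (b + 1) → LL N b
  | .inl (a, i, j) => ∑ l, AddMonoidAlgebra.single (if a = 0 then wt N l else 0)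
      (fun y => (y.1 a).1 i l * (qC y.2)⁻¹ l j)
  | .inr (i, j) => AddMonoidAlgebra.single 0 (fun y => sC y.2.1 i j)

/-- the expansion of the polynomial `P` -/
noncomputable def Lx (P : MvPolynomial (Idx N (b + 1)) ℂ) : LL N b :=
  MvPolynomial.aeval (genL N b) P

/-- the character `μ ↦ t^μ` -/
noncomputable def chiHom {n : ℕ} (t : Fin n → ℂˣ) : Multiplicative (Fin n → ℤ) →* ℂ where
  toFun μ := ((chi μ.toAdd t : ℂˣ) : ℂ)
  map_one' := by simp [chi_zero]
  map_mul' μ ν := by simp [chi_add]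

/-- evaluation of a Laurent polynomial at a point and a torus element -/
noncomputable def evL (y : XX N (b + 1)) (t : Fin (N / 2) → ℂˣ) : LL N b →+* ℂ :=
  AddMonoidAlgebra.liftNCRingHom (Pi.evalRingHom _ y) (chiHom t) (fun _ _ => Commute.all _ _)

theorem evL_single (y : XX N (b + 1)) (t : Fin (N / 2) → ℂˣ) (μ : Fin (N / 2) → ℤ)
    (f : XX N (b + 1) → ℂ) :
    evL y t (AddMonoidAlgebra.single μ f) = f y * ((chi μ t : ℂˣ) : ℂ) :=
  AddMonoidAlgebra.liftNCRingHom_single _ _ _ _ _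

/-- the value of `P` at the point attached to `(g, x)` and `t` -/
noncomputable def Phi (P : MvPolynomial (Idx N (b + 1)) ℂ) (y : XX N (b + 1))
    (t : Fin (N / 2) → ℂˣ) : ℂ :=
  MvPolynomial.eval (co (fun a => (y.1 a).1 * (if a = 0 then Tt t else 1) * (qC y.2)⁻¹)
    (sC y.2.1)) P

theorem evL_Lx (P : MvPolynomial (Idx N (b + 1)) ℂ) (y : XX N (b + 1))
    (t : Fin (N / 2) → ℂˣ) : evL y t (Lx P) = Phi P y t := by
  unfold Lx Phi
  have h : (evL y t).comp (MvPolynomial.aeval (genL N b)).toRingHom =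
      MvPolynomial.eval (co (fun a => (y.1 a).1 * (if a = 0 then Tt t else 1) * (qC y.2)⁻¹)
        (sC y.2.1)) := by
    refine MvPolynomial.ringHom_ext (fun c => ?_) (fun i => ?_)
    · have h1 : (MvPolynomial.aeval (genL N b)) (MvPolynomial.C c : MvPolynomial (Idx N (b + 1)) ℂ) =
          AddMonoidAlgebra.single 0 (fun _ => c) := by
        rw [MvPolynomial.aeval_C]
        rfl
      simp only [RingHom.comp_apply, AlgHom.toRingHom_eq_coe, RingHom.coe_coe, h1, evL_single,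
        chi_zero, MvPolynomial.eval_C]
      simp
    · simp only [RingHom.comp_apply, AlgHom.toRingHom_eq_coe, RingHom.coe_coe,
        MvPolynomial.aeval_X, MvPolynomial.eval_X]
      rcases i with ⟨a, i, j⟩ | ⟨i, j⟩
      · simp only [genL, map_sum, evL_single, co, Sum.elim_inl]
        by_cases ha : a = 0
        · simp only [ha, if_true]
          rw [Matrix.mul_apply]
          refine Finset.sum_congr rfl fun l _ => ?_
          rw [Tt, Matrix.mul_diagonal]
          ring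
        · simp only [ha, if_false, Matrix.mul_one]
          rw [Matrix.mul_apply]
          refine Finset.sum_congr rfl fun l _ => ?_
          simp [chi_zero]
      · simp [genL, evL_single, co, chi_zero]
  exact RingHom.congr_fun h P

/-- the support of the expansion -/
noncomputable def supp (P : MvPolynomial (Idx N (b + 1)) ℂ) : Finset (Fin (N / 2) → ℤ) :=
  (Lx P).coeff.support

/-- the coefficient functions -/
noncomputable def cf (P : MvPolynomial (Idx N (b + 1)) ℂ) (μ : Fin (N / 2) → ℤ) :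
    XX N (b + 1) → ℂ := (Lx P).coeff μ

theorem cf_eq_zero {P : MvPolynomial (Idx N (b + 1)) ℂ} {μ : Fin (N / 2) → ℤ}
    (h : μ ∉ supp P) : cf P μ = 0 := by
  unfold cf
  exact Finsupp.notMem_support_iff.1 h

theorem mem_supp {P : MvPolynomial (Idx N (b + 1)) ℂ} {μ : Fin (N / 2) → ℤ} :
    μ ∈ supp P ↔ ∃ y, cf P μ y ≠ 0 := by
  rw [supp, Finsupp.mem_support_iff, Ne, funext_iff]
  push Not
  rfl

theorem Phi_eq_sum {P : MvPolynomial (Idx N (b + 1)) ℂ} {s : Finset (Fin (N / 2) → ℤ)}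
    (hs : supp P ⊆ s) (y : XX N (b + 1)) (t : Fin (N / 2) → ℂˣ) :
    Phi P y t = ∑ μ ∈ s, cf P μ y * ((chi μ t : ℂˣ) : ℂ) := by
  rw [← evL_Lx]
  conv_lhs => rw [← AddMonoidAlgebra.sum_coeff_single (Lx P)]
  rw [Finsupp.sum, map_sum]
  simp only [evL_single]
  refine Finset.sum_subset hs fun μ _ hμ => ?_
  have := cf_eq_zero hμ
  unfold cf at this
  rw [this]
  simp

/-- linear independence of characters, finset form -/
theorem chi_indep' {n : ℕ} (s : Finset (Fin n → ℤ)) (c : (Fin n → ℤ) → ℂ)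
    (h : ∀ t : Fin n → ℂˣ, ∑ μ ∈ s, c μ * ((chi μ t : ℂˣ) : ℂ) = 0) : ∀ μ ∈ s, c μ = 0 := by
  classical
  have h0 := chi_indep (Finsupp.indicator s fun μ _ => c μ) (fun t => by
    rw [Finsupp.sum_of_support_subset _ (Finsupp.support_indicator_subset s _) _
      (by intros; simp)]
    rw [← h t]
    refine Finset.sum_congr rfl fun μ hμ => ?_
    rw [Finsupp.indicator_of_mem hμ])
  intro μ hμ
  have := DFunLike.congr_fun h0 μ
  rwa [Finsupp.indicator_of_mem hμ] at this

/-- coefficient functions are determined by the values -/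
theorem cf_unique {P : MvPolynomial (Idx N (b + 1)) ℂ} {s : Finset (Fin (N / 2) → ℤ)}
    (hs : supp P ⊆ s) (y : XX N (b + 1)) (c : (Fin (N / 2) → ℤ) → ℂ)
    (h : ∀ t, Phi P y t = ∑ μ ∈ s, c μ * ((chi μ t : ℂˣ) : ℂ)) : ∀ μ ∈ s, cf P μ y = c μ := by
  intro μ hμ
  have := chi_indep' s (fun μ => cf P μ y - c μ) (fun t => by
    simp only [sub_mul, Finset.sum_sub_distrib]
    rw [← Phi_eq_sum hs, ← h t, sub_self]) μ hμ
  exact sub_eq_zero.1 this

/-- the coordinate functions on `G^{b+1}` -/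
def gS (N b : ℕ) : Set (XX N b → ℂ) := {f | ∃ a i j, f = fun y => (y.1 a).1 i j}

theorem cf_mem (P : MvPolynomial (Idx N (b + 1)) ℂ) (μ : Fin (N / 2) → ℤ) :
    cf P μ ∈ Rt (fun y : XX N (b + 1) => y.2) (gS N (b + 1)) := by
  unfold cf Lx
  induction P using MvPolynomial.induction_on generalizing μ with
  | C a =>
    rw [MvPolynomial.aeval_C]
    have : (algebraMap ℂ (LL N b)) a = AddMonoidAlgebra.single 0 (fun _ => a) := rfl
    rw [this, AddMonoidAlgebra.coeff_single]
    classical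
    rw [Finsupp.single_apply]
    split_ifs
    · exact Rt_const _ _ a
    · exact Subalgebra.zero_mem _
  | add p q hp hq =>
    rw [map_add, AddMonoidAlgebra.coeff_add, Finsupp.add_apply]
    exact Subalgebra.add_mem _ (hp μ) (hq μ)
  | mul_X p i hp =>
    rw [map_mul, MvPolynomial.aeval_X]
    have hg : ∀ (a : Fin (b + 1)) (i l : Fin N),
        (fun y : XX N (b + 1) => (y.1 a).1 i l) ∈ Rt (fun y : XX N (b + 1) => y.2) (gS N (b + 1)) :=
      fun a i l => Rt_of_mem ⟨a, i, l, rfl⟩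
    rcases i with ⟨a, i, j⟩ | ⟨i, j⟩
    · simp only [genL, Finset.mul_sum]
      rw [AddMonoidAlgebra.coeff_sum, Finsupp.finset_sum_apply]
      refine Subalgebra.sum_mem _ fun l _ => ?_
      rw [AddMonoidAlgebra.coeff_mul_single_apply]
      refine Subalgebra.mul_mem _ (hp _) ?_
      exact Subalgebra.mul_mem _ (hg a i l) (Rt_qCinv (fun y : XX N (b + 1) => y.2) _ l j)
    · simp only [genL]
      rw [AddMonoidAlgebra.coeff_mul_single_apply]
      exact Subalgebra.mul_mem _ (hp _) (Rt_sC (fun y : XX N (b + 1) => y.2) _ i j)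

theorem Lx_mul (P Q : MvPolynomial (Idx N (b + 1)) ℂ) : Lx (P * Q) = Lx P * Lx Q := by
  simp [Lx]

theorem Lx_add (P Q : MvPolynomial (Idx N (b + 1)) ℂ) : Lx (P + Q) = Lx P + Lx Q := by
  simp [Lx]

theorem cf_add (P Q : MvPolynomial (Idx N (b + 1)) ℂ) (μ : Fin (N / 2) → ℤ) :
    cf (P + Q) μ = cf P μ + cf Q μ := by
  simp [cf, Lx_add]

theorem cf_smul (c : ℂ) (P : MvPolynomial (Idx N (b + 1)) ℂ) (μ : Fin (N / 2) → ℤ) :
    cf (c • P) μ = c • cf P μ := by
  simp [cf, Lx]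

theorem cf_one (μ : Fin (N / 2) → ℤ) :
    cf (1 : MvPolynomial (Idx N (b + 1)) ℂ) μ = if μ = 0 then 1 else 0 := by
  classical
  unfold cf Lx
  rw [map_one, AddMonoidAlgebra.one_def, AddMonoidAlgebra.coeff_single, Finsupp.single_apply]
  simp only [eq_comm]

theorem cf_zero (μ : Fin (N / 2) → ℤ) :
    cf (0 : MvPolynomial (Idx N (b + 1)) ℂ) μ = 0 := by
  unfold cf Lx
  simp

/-- leading coefficient of a product, for an order-like bound -/
theorem cf_mul_lead (P Q : MvPolynomial (Idx N (b + 1)) ℂ) (μ ν : Fin (N / 2) → ℤ)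
    (hP : ∀ κ ∈ supp P, toLex κ ≤ toLex μ) (hQ : ∀ κ ∈ supp Q, toLex κ ≤ toLex ν) :
    cf (P * Q) (μ + ν) = cf P μ * cf Q ν ∧ ∀ κ ∈ supp (P * Q), toLex κ ≤ toLex (μ + ν) := by
  classical
  have hco : ∀ κ, cf (P * Q) κ =
      ∑ α ∈ supp P, cf P α * cf Q (-α + κ) := by
    intro κ
    unfold cf
    rw [Lx_mul, AddMonoidAlgebra.coeff_mul_apply_left]
    rfl
  constructor
  · rw [hco]
    by_cases hμ : μ ∈ supp P
    · rw [Finset.sum_eq_single μ]
      · rw [neg_add_cancel_left]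
      · intro α hα hne
        have hlt : toLex α < toLex μ := lt_of_le_of_ne (hP α hα) fun h => hne (toLex_inj.1 h)
        have : -α + (μ + ν) ∉ supp Q := by
          intro hmem
          have h1 := hQ _ hmem
          have h2 : toLex (α + (-α + (μ + ν))) < toLex (μ + ν) := by
            rw [toLex_add, toLex_add]
            exact add_lt_add_of_lt_of_le hlt h1
          rw [add_neg_cancel_left] at h2
          exact lt_irrefl _ h2
        rw [cf_eq_zero this, mul_zero]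
      · intro h; exact absurd hμ h
    · rw [cf_eq_zero hμ, zero_mul]
      refine Finset.sum_eq_zero fun α hα => ?_
      have hne : α ≠ μ := fun h => hμ (h ▸ hα)
      have hlt : toLex α < toLex μ := lt_of_le_of_ne (hP α hα) fun h => hne (toLex_inj.1 h)
      have : -α + (μ + ν) ∉ supp Q := by
        intro hmem
        have h1 := hQ _ hmem
        have h2 : toLex (α + (-α + (μ + ν))) < toLex (μ + ν) := by
          rw [toLex_add, toLex_add]
          exact add_lt_add_of_lt_of_le hlt h1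
        rw [add_neg_cancel_left] at h2
        exact lt_irrefl _ h2
      rw [cf_eq_zero this, mul_zero]
  · intro κ hκ
    by_contra hlt
    rw [not_le] at hlt
    obtain ⟨y, hy⟩ := mem_supp.1 hκ
    apply hy
    rw [hco]
    have : ∑ α ∈ supp P, cf P α * cf Q (-α + κ) = 0 := by
      refine Finset.sum_eq_zero fun α hα => ?_
      have : -α + κ ∉ supp Q := by
        intro hmem
        have h1 := hQ _ hmem
        have h2 : toLex (α + (-α + κ)) ≤ toLex (μ + ν) := by
          rw [toLex_add, toLex_add]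
          exact add_le_add (hP α hα) h1
        rw [add_neg_cancel_left] at h2
        exact absurd hlt (not_lt.2 h2)
      rw [cf_eq_zero this, mul_zero]
    rw [this]; rfl

/-! ## Invariant polynomials -/

/-- invariance under the group scheme `K` -/
def InvP (N b : ℕ) (P : MvPolynomial (Idx N b) ℂ) : Prop :=
  ∀ (g g' h : Fin b → Matrix (Fin N) (Fin N) ℂ) (s : Matrix (Fin N) (Fin N) ℂ),
    (∀ a, IsG (g a)) → s ∈ slice N → (∀ a, IsG (h a) ∧ Commute (h a) s) →
    (List.ofFn h).prod = 1 → (∀ a, g' a = g a * h a) →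
    MvPolynomial.eval (co g' s) P = MvPolynomial.eval (co g s) P

theorem Tt_inv {R : Type*} [CommRing R] (t : Fin (N / 2) → Rˣ) :
    (Tt t : Matrix (Fin N) (Fin N) R)⁻¹ = Tt t⁻¹ := by
  refine Matrix.inv_eq_left_inv ?_
  rw [← Tt_mul, inv_mul_cancel, Tt_one]

theorem Tt_comm {R : Type*} [CommRing R] (t t' : Fin (N / 2) → Rˣ) :
    (Tt t * Tt t' : Matrix (Fin N) (Fin N) R) = Tt t' * Tt t := by
  rw [← Tt_mul, ← Tt_mul, mul_comm]

theorem Tt_Dx_comm {R : Type*} [CommRing R] (t : Fin (N / 2) → Rˣ) (x : Fin (N / 2) → R) :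
    (Tt t * Dx x : Matrix (Fin N) (Fin N) R) = Dx x * Tt t := by
  unfold Tt Dx
  rw [Matrix.diagonal_mul_diagonal, Matrix.diagonal_mul_diagonal]
  congr 1
  funext i
  ring

/-- the torus in the centralizer of `s(x)` -/
theorem qTq_commute (x : RegX N) (t : Fin (N / 2) → ℂˣ) :
    IsG (qC x * Tt t * (qC x)⁻¹) ∧ Commute (qC x * Tt t * (qC x)⁻¹) (sC x.1) := by
  refine ⟨((qC_isG x).mul (isG_Tt t)).mul (qC_isG x).inv, ?_⟩
  have h1 := qC_conj x
  have h2 : (qC x)⁻¹ * sC x.1 = Dx x.1 * (qC x)⁻¹ := by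
    calc (qC x)⁻¹ * sC x.1 = (qC x)⁻¹ * (sC x.1 * (qC x * (qC x)⁻¹)) := by
          rw [(qC_isG x).mul_inv, Matrix.mul_one]
      _ = (qC x)⁻¹ * ((sC x.1 * qC x) * (qC x)⁻¹) := by rw [Matrix.mul_assoc]
      _ = (qC x)⁻¹ * (qC x * Dx x.1 * (qC x)⁻¹) := by rw [h1]
      _ = ((qC x)⁻¹ * qC x) * Dx x.1 * (qC x)⁻¹ := by simp only [Matrix.mul_assoc]
      _ = Dx x.1 * (qC x)⁻¹ := by rw [(qC_isG x).inv_mul, Matrix.one_mul]
  show qC x * Tt t * (qC x)⁻¹ * sC x.1 = sC x.1 * (qC x * Tt t * (qC x)⁻¹)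
  calc qC x * Tt t * (qC x)⁻¹ * sC x.1 = qC x * Tt t * ((qC x)⁻¹ * sC x.1) := by
        simp only [Matrix.mul_assoc]
    _ = qC x * (Tt t * Dx x.1) * (qC x)⁻¹ := by rw [h2]; simp only [Matrix.mul_assoc]
    _ = (qC x * Dx x.1) * Tt t * (qC x)⁻¹ := by rw [Tt_Dx_comm]; simp only [Matrix.mul_assoc]
    _ = sC x.1 * (qC x * Tt t * (qC x)⁻¹) := by rw [h1]; simp only [Matrix.mul_assoc]

theorem prod_ofFn_conj (q : Matrix (Fin N) (Fin N) ℂ) (hq : IsG q) {b : ℕ}
    (t : Fin b → Fin (N / 2) → ℂˣ) :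
    (List.ofFn fun a => q * Tt (t a) * q⁻¹).prod = q * Tt (∏ a, t a) * q⁻¹ := by
  induction b with
  | zero => simp [Tt_one, hq.mul_inv]
  | succ b ih =>
    rw [List.ofFn_succ, List.prod_cons, ih, Fin.prod_univ_succ, Tt_mul]
    calc q * Tt (t 0) * q⁻¹ * (q * Tt (∏ a : Fin b, t a.succ) * q⁻¹) =
        q * Tt (t 0) * (q⁻¹ * q) * Tt (∏ a : Fin b, t a.succ) * q⁻¹ := by
          simp only [Matrix.mul_assoc]
      _ = _ := by rw [hq.inv_mul, Matrix.mul_one]; simp only [Matrix.mul_assoc]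

/-- only the product of the torus elements matters -/
theorem eval_torus {P : MvPolynomial (Idx N b) ℂ} (hP : InvP N b P)
    (g : Fin b → Matrix (Fin N) (Fin N) ℂ) (hg : ∀ a, IsG (g a)) (x : RegX N)
    (t t' : Fin b → Fin (N / 2) → ℂˣ) (h : ∏ a, t a = ∏ a, t' a) :
    MvPolynomial.eval (co (fun a => g a * Tt (t a) * (qC x)⁻¹) (sC x.1)) P =
      MvPolynomial.eval (co (fun a => g a * Tt (t' a) * (qC x)⁻¹) (sC x.1)) P := by
  refine hP _ _ (fun a => qC x * Tt ((t' a)⁻¹ * t a) * (qC x)⁻¹) (sC x.1)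
    (fun a => ((hg a).mul (isG_Tt _)).mul (qC_isG x).inv) (sC_mem x.1)
    (fun a => qTq_commute x _) ?_ (fun a => ?_)
  · rw [prod_ofFn_conj _ (qC_isG x) (fun a => (t' a)⁻¹ * t a), Finset.prod_mul_distrib, h,
      Finset.prod_inv_distrib, inv_mul_cancel, Tt_one, Matrix.mul_one, (qC_isG x).mul_inv]
  · rw [Tt_mul]
    calc g a * Tt (t a) * (qC x)⁻¹ = g a * (Tt (t' a) * Tt (t' a)⁻¹) * Tt (t a) * (qC x)⁻¹ := by
          rw [← Tt_mul, mul_inv_cancel, Tt_one, Matrix.mul_one]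
      _ = g a * Tt (t' a) * 1 * (Tt (t' a)⁻¹ * Tt (t a)) * (qC x)⁻¹ := by
          simp only [Matrix.mul_assoc, Matrix.one_mul]
      _ = g a * Tt (t' a) * ((qC x)⁻¹ * qC x) * (Tt (t' a)⁻¹ * Tt (t a)) * (qC x)⁻¹ := by
          rw [(qC_isG x).inv_mul]
      _ = _ := by simp only [Matrix.mul_assoc]

/-- `Phi` at a point translated by torus elements -/
theorem Phi_torus {P : MvPolynomial (Idx N (b + 1)) ℂ} (hP : InvP N (b + 1) P)
    (g g' : Fin (b + 1) → GG N) (x : RegX N) (t : Fin (b + 1) → Fin (N / 2) → ℂˣ)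
    (hg : ∀ a, (g' a).1 = (g a).1 * Tt (t a)) (t' : Fin (N / 2) → ℂˣ) :
    Phi P (g', x) t' = Phi P (g, x) (t' * ∏ a, t a) := by
  unfold Phi
  have e1 : (fun a => (g' a).1 * (if a = 0 then (Tt t' : Matrix (Fin N) (Fin N) ℂ) else 1) *
      (qC x)⁻¹) =
      fun a => (g a).1 * Tt (t a * (if a = 0 then t' else 1)) * (qC x)⁻¹ := by
    funext a
    rw [hg a, Tt_mul]
    by_cases ha : a = 0
    · simp only [ha, if_true, Matrix.mul_assoc]
    · simp only [ha, if_false, Tt_one, Matrix.mul_one]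
  have e2 : (fun a => (g a).1 *
      (if a = 0 then (Tt (t' * ∏ a, t a) : Matrix (Fin N) (Fin N) ℂ) else 1) * (qC x)⁻¹) =
      fun a => (g a).1 * Tt (if a = 0 then (t' * ∏ a, t a) else 1) * (qC x)⁻¹ := by
    funext a
    by_cases ha : a = 0
    · simp only [ha, if_true]
    · simp only [ha, if_false, Tt_one]
  simp only [e1, e2]
  refine eval_torus hP _ (fun a => (g a).2) x _ _ ?_
  rw [Finset.prod_mul_distrib, Finset.prod_ite_eq' Finset.univ (0 : Fin (b + 1)) (fun _ => t'),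
    Finset.prod_ite_eq' Finset.univ (0 : Fin (b + 1)) (fun _ => t' * ∏ a, t a)]
  simp [mul_comm]

/-- semi-invariance of the coefficient functions -/
theorem cf_torus {P : MvPolynomial (Idx N (b + 1)) ℂ} (hP : InvP N (b + 1) P)
    (μ : Fin (N / 2) → ℤ) (g g' : Fin (b + 1) → GG N) (x : RegX N)
    (t : Fin (b + 1) → Fin (N / 2) → ℂˣ) (hg : ∀ a, (g' a).1 = (g a).1 * Tt (t a)) :
    cf P μ (g', x) = ((∏ a, chi μ (t a) : ℂˣ) : ℂ) * cf P μ (g, x) := by
  by_cases hμ : μ ∈ supp P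
  · refine cf_unique (subset_refl _) (g', x)
      (fun μ => ((∏ a, chi μ (t a) : ℂˣ) : ℂ) * cf P μ (g, x)) (fun t' => ?_) μ hμ
    rw [Phi_torus hP g g' x t hg, Phi_eq_sum (subset_refl _)]
    refine Finset.sum_congr rfl fun μ _ => ?_
    rw [chi_mul]
    have : chi μ (∏ a, t a) = ∏ a, chi μ (t a) := by
      classical
      induction (Finset.univ : Finset (Fin (b + 1))) using Finset.induction_on with
      | empty => simp [chi_one]
      | insert a s ha ih => rw [Finset.prod_insert ha, Finset.prod_insert ha, chi_mul, ih]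
    rw [this]
    push_cast
    ring
  · rw [cf_eq_zero hμ]
    simp

end expansion

end Pool.Agent.MP_c45d35_ag
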