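import Pool.Agent.MP_c45d35_ag.PoleE

/-! # The filtration of the Moore–Tachikawa ring by torus weights -/

namespace Pool.Agent.MP_c45d35_ag

open Matrix Filter Topology
open BlockL (toGam toGam_surj fn_inj fn_toGam)

section final
variable {N b : ℕ}

/-- `P` represents `F` -/
def Rep (P : MvPolynomial (Idx N b) ℂ) (F : Pt N b → ℂ) : Prop :=
  ∀ y : Pt N b, F y = MvPolynomial.eval (co (fun a => (y.1 a).1) y.2.1) P

theorem invP_of_rep {P : MvPolynomial (Idx N b) ℂ} {F : Pt N b → ℂ} (hF : F ∈ MTring N b)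
    (h : Rep P F) : InvP N b P := by
  intro g g' hh s hg hs hc hprod hg'
  have hg'G : ∀ a, IsG (g' a) := fun a => by rw [hg' a]; exact (hg a).mul (hc a).1
  have h1 := h (fun a => ⟨g' a, hg'G a⟩, ⟨s, hs⟩)
  have h2 := h (fun a => ⟨g a, hg a⟩, ⟨s, hs⟩)
  have h3 := hF.2 (fun a => ⟨g a, hg a⟩, ⟨s, hs⟩) (fun a => ⟨g' a, hg'G a⟩, ⟨s, hs⟩) hh hc hprod
    rfl hg'
  rw [h1, h2] at h3
  exact h3

theorem Eu_zero (x : Fin (N / 2) → ℂ) : Eu (N := N) 0 x = 1 := by
  simp [Eu]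

theorem Eu_add (m m' : Fin (N / 2) →₀ ℕ) (x : Fin (N / 2) → ℂ) :
    Eu (N := N) (m + m') x = Eu (N := N) m x * Eu (N := N) m' x := by
  unfold Eu
  rw [← Finset.prod_mul_distrib]
  refine Finset.prod_congr rfl fun k _ => ?_
  rw [Finsupp.add_apply, pow_add]

theorem Eu_single (k : Fin (N / 2)) (x : Fin (N / 2) → ℂ) :
    Eu (N := N) (Finsupp.single k 1) x = Ek (N := N) ((k : ℕ) + 1) x := by
  unfold Eu
  rw [Finset.prod_eq_single k]
  · simp
  · intro l _ hl
    rw [Finsupp.single_apply, if_neg hl.symm, pow_zero]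
  · simp

theorem Ek_ne_zero (k : ℕ) (x : RegX N) : Ek (N := N) k x.1 ≠ 0 := by
  unfold Ek
  refine Finset.prod_ne_zero_iff.2 fun i _ => Finset.prod_ne_zero_iff.2 fun j _ => ?_
  split_ifs with h
  · refine sub_ne_zero.2 (x.2 i j ?_)
    rintro rfl
    omega
  · exact one_ne_zero

theorem Eu_ne_zero (m : Fin (N / 2) →₀ ℕ) (x : RegX N) : Eu (N := N) m x.1 ≠ 0 :=
  Finset.prod_ne_zero_iff.2 fun _ _ => pow_ne_zero _ (Ek_ne_zero _ x)

/-- `f` has a representative with leading weight at most `λ(m)` and normalised leading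
coefficient `c` -/
def Good (m : Fin (N / 2) →₀ ℕ) (f : ↥(MTring N (b + 1))) (c : GamT N (b + 1)) : Prop :=
  ∃ P : MvPolynomial (Idx N (b + 1)) ℂ, Rep P f.1 ∧ IsLead P (lam m) ∧
    ∀ y, GamT.fn c y = Eu (N := N) m y.2.1 * cf P (lam m) y

theorem good_one : Good (N := N) (b := b) 0 1 1 := by
  refine ⟨1, fun y => by simp, ?_, fun y => ?_⟩
  · intro κ hκ
    obtain ⟨y, hy⟩ := mem_supp.1 hκ
    rw [cf_one] at hy
    by_cases h : κ = 0
    · rw [h, lam_zero]
    · rw [if_neg h] at hy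
      exact absurd rfl hy
  · rw [Eu_zero, lam_zero, cf_one, if_pos rfl, map_one]
    simp

theorem supp_zero : supp (0 : MvPolynomial (Idx N (b + 1)) ℂ) = ∅ := by
  rw [Finset.eq_empty_iff_forall_notMem]
  intro κ hκ
  obtain ⟨y, hy⟩ := mem_supp.1 hκ
  rw [cf_zero] at hy
  exact hy rfl

theorem good_zero (m : Fin (N / 2) →₀ ℕ) : Good (N := N) (b := b) m 0 0 := by
  refine ⟨0, fun y => by simp, ?_, fun y => ?_⟩
  · intro κ hκ
    rw [supp_zero] at hκ
    exact absurd hκ (Finset.notMem_empty κ)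
  · rw [cf_zero, map_zero]
    simp

theorem good_add (m : Fin (N / 2) →₀ ℕ) (f : ↥(MTring N (b + 1))) (c : GamT N (b + 1))
    (f' : ↥(MTring N (b + 1))) (c' : GamT N (b + 1)) (h : Good m f c) (h' : Good m f' c') :
    Good m (f + f') (c + c') := by
  obtain ⟨P, h1, h2, h3⟩ := h
  obtain ⟨P', h1', h2', h3'⟩ := h'
  refine ⟨P + P', fun y => ?_, ?_, fun y => ?_⟩
  · rw [map_add, ← h1 y, ← h1' y]
    rfl
  · intro κ hκ
    obtain ⟨y, hy⟩ := mem_supp.1 hκ
    rw [cf_add, Pi.add_apply] at hy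
    by_cases h4 : κ ∈ supp P
    · exact h2 κ h4
    · by_cases h5 : κ ∈ supp P'
      · exact h2' κ h5
      · rw [cf_eq_zero h4, cf_eq_zero h5] at hy
        simp at hy
  · rw [map_add, cf_add, Pi.add_apply, Pi.add_apply, mul_add, h3, h3']

theorem good_smul (m : Fin (N / 2) →₀ ℕ) (f : ↥(MTring N (b + 1))) (c : GamT N (b + 1)) (z : ℂ)
    (h : Good m f c) : Good m (z • f) (z • c) := by
  obtain ⟨P, h1, h2, h3⟩ := h
  refine ⟨z • P, fun y => ?_, ?_, fun y => ?_⟩
  · rw [MvPolynomial.smul_eval, ← h1 y]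
    rfl
  · intro κ hκ
    obtain ⟨y, hy⟩ := mem_supp.1 hκ
    rw [cf_smul, Pi.smul_apply] at hy
    by_cases h4 : κ ∈ supp P
    · exact h2 κ h4
    · rw [cf_eq_zero h4] at hy
      simp at hy
  · rw [map_smul, cf_smul, Pi.smul_apply, Pi.smul_apply, h3]
    simp only [smul_eq_mul]
    ring

theorem good_mul (m m' : Fin (N / 2) →₀ ℕ) (f : ↥(MTring N (b + 1))) (c : GamT N (b + 1))
    (f' : ↥(MTring N (b + 1))) (c' : GamT N (b + 1)) (h : Good m f c) (h' : Good m' f' c') :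
    Good (m + m') (f * f') (c * c') := by
  obtain ⟨P, h1, h2, h3⟩ := h
  obtain ⟨P', h1', h2', h3'⟩ := h'
  obtain ⟨h4, h5⟩ := cf_mul_lead P P' (lam m) (lam m') h2 h2'
  refine ⟨P * P', fun y => ?_, ?_, fun y => ?_⟩
  · rw [map_mul, ← h1 y, ← h1' y]
    rfl
  · rw [lam_add]
    exact h5
  · rw [map_mul, lam_add, h4, Pi.mul_apply, Pi.mul_apply, h3, h3', Eu_add]
    ring

/-! ### The order -/

/-- the order on the exponents -/
def ltL {n : ℕ} (m' m : Fin n →₀ ℕ) : Prop := toLex (lam m') < toLex (lam m)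

/-- `lam`, with natural values -/
def lamN {n : ℕ} (m : Fin n →₀ ℕ) : Fin n → ℕ := fun i => ∑ k, if i ≤ k then m k else 0

theorem lam_eq_lamN {n : ℕ} (m : Fin n →₀ ℕ) (i : Fin n) : lam m i = (lamN m i : ℤ) := by
  unfold lam lamN
  push_cast
  rfl

theorem ltL_wf {n : ℕ} : WellFounded (ltL (n := n)) := by
  have h1 : WellFounded (fun m' m : Fin n →₀ ℕ => toLex (lamN m') < toLex (lamN m)) :=
    InvImage.wf (fun m : Fin n →₀ ℕ => toLex (lamN m)) wellFounded_lt
  refine Subrelation.wf (r := fun m' m : Fin n →₀ ℕ => toLex (lamN m') < toLex (lamN m)) ?_ h1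
  intro m' m h
  obtain ⟨i, hi, hlt⟩ := h
  refine ⟨i, fun j hj => ?_, ?_⟩
  · have h2 := hi j hj
    have h3 : lam m' j = lam m j := h2
    rw [lam_eq_lamN, lam_eq_lamN] at h3
    exact_mod_cast h3
  · have h3 : lam m' i < lam m i := hlt
    rw [lam_eq_lamN, lam_eq_lamN] at h3
    exact_mod_cast h3

/-! ### Functions with the pole bound are polynomial -/

theorem exists_gam_of_PB (m : Fin (N / 2) →₀ ℕ) (f : XX N b → ℂ) (hf : PB N b m f) :
    ∃ c : GamT N b, GamT.fn c = f := by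
  obtain ⟨H, hH⟩ := hf
  set φ : (Fin b × Fin N × Fin N) ⊕ IdxX N b → MvPolynomial (IdxX N b) ℂ :=
    Sum.elim (fun p => MvPolynomial.X (Sum.inl p))
      (Sum.elim (fun _ => 0) (fun k => MvPolynomial.X (Sum.inr k))) with hφ
  refine ⟨toGam N b (MvPolynomial.bind₁ φ H), ?_⟩
  funext y
  rw [fn_toGam]
  have h1 := hH y.1 y.1 (fun _ => 0) (fun _ => 1) (fun _ => 1) y.2 (fun a => by
    refine ⟨UpUni.one, ?_, ?_⟩
    · have : Yp (0 : Matrix (Fin N) (Fin N) ℂ) = 0 := by
        ext i j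
        simp [Yp]
      rw [this, add_zero, Matrix.one_mul, Matrix.mul_one]
    · rw [Tt_one, Matrix.mul_one, Matrix.mul_one])
  simp only [chi_one, Finset.prod_const_one, Units.val_one, one_mul] at h1
  have h2 : f y = f (y.1, y.2) := rfl
  rw [h2, h1]
  have h3 : MvPolynomial.eval (coX (fun a => (y.1 a).1) y.2.1) (MvPolynomial.bind₁ φ H) =
      MvPolynomial.eval (fun i => MvPolynomial.eval (coX (fun a => (y.1 a).1) y.2.1) (φ i)) H := by
    rw [MvPolynomial.eval, MvPolynomial.eval₂Hom_bind₁]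
    rfl
  rw [h3]
  congr 1
  refine congrArg _ ?_
  funext i
  rcases i with p | p | p
  · simp [hφ, coX]
  · simp [hφ, coX]
  · simp [hφ, coX]

theorem exists_coef {f : ↥(MTring N (b + 1))} {P : MvPolynomial (Idx N (b + 1)) ℂ}
    (hP : Rep P f.1) (m : Fin (N / 2) →₀ ℕ) (hlead : IsLead P (lam m)) :
    ∃ c : GamT N (b + 1), Good m f c := by
  obtain ⟨c, hc⟩ := exists_gam_of_PB m _ (pole_bound (invP_of_rep f.2 hP) m hlead)
  exact ⟨c, P, hP, hlead, fun y => by rw [hc]⟩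

/-! ### A function with empty support vanishes -/

theorem Phi_one (P : MvPolynomial (Idx N (b + 1)) ℂ) (g : Fin (b + 1) → GG N) (x : RegX N) :
    Phi P ((fun a => ⟨(g a).1 * qC x, (g a).2.mul (qC_isG x)⟩), x) 1 =
      MvPolynomial.eval (co (fun a => (g a).1) (sC x.1)) P := by
  unfold Phi
  have h : (fun a : Fin (b + 1) => ((g a).1 * qC x *
      (if a = 0 then (Tt (1 : Fin (N / 2) → ℂˣ) : Matrix (Fin N) (Fin N) ℂ) else 1) * (qC x)⁻¹)) =
      fun a => (g a).1 := by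
    funext a
    have : (if a = 0 then (Tt (1 : Fin (N / 2) → ℂˣ) : Matrix (Fin N) (Fin N) ℂ) else 1) = 1 := by
      rw [Tt_one, ite_self]
    rw [this, Matrix.mul_one, Matrix.mul_assoc, (qC_isG x).mul_inv, Matrix.mul_one]
  show MvPolynomial.eval (co (fun a : Fin (b + 1) => ((g a).1 * qC x *
      (if a = 0 then (Tt (1 : Fin (N / 2) → ℂˣ) : Matrix (Fin N) (Fin N) ℂ) else 1) * (qC x)⁻¹))
      (sC x.1)) P = _
  rw [h]

theorem eval_eq_zero_of_supp {P : MvPolynomial (Idx N (b + 1)) ℂ} (h : supp P = ∅)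
    (g : Fin (b + 1) → GG N) (x : Fin (N / 2) → ℂ) :
    MvPolynomial.eval (co (fun a => (g a).1) (sC x)) P = 0 := by
  have hreg : ∀ x : RegX N, MvPolynomial.eval (co (fun a => (g a).1) (sC x.1)) P = 0 := by
    intro x
    rw [← Phi_one, Phi_eq_sum (subset_refl _), h, Finset.sum_empty]
  obtain ⟨v, hv⟩ := exists_regx N
  have hc : Continuous fun t : ℂ => MvPolynomial.eval (co (fun a => (g a).1) (sC (x + t • v))) P := by
    refine (MvPolynomial.continuous_eval P).comp (continuous_pi fun i => ?_)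
    rcases i with i | ⟨i, j⟩
    · exact continuous_const
    · exact (continuous_id.matrix_elem i j).comp (continuous_sC.comp (continuous_curve x v))
  have hz : ∀ᶠ t in 𝓝[≠] (0 : ℂ),
      MvPolynomial.eval (co (fun a => (g a).1) (sC (x + t • v))) P = 0 := by
    filter_upwards [ev_regx x v hv] with t ht
    exact hreg ⟨_, ht⟩
  have h1 : Tendsto (fun t : ℂ => MvPolynomial.eval (co (fun a => (g a).1) (sC (x + t • v))) P)
      (𝓝[≠] (0 : ℂ)) (𝓝 (MvPolynomial.eval (co (fun a => (g a).1) (sC x)) P)) := by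
    have h0 := hc.tendsto 0
    simp only [zero_smul, add_zero] at h0
    exact h0.mono_left nhdsWithin_le_nhds
  have h2 : Tendsto (fun t : ℂ => MvPolynomial.eval (co (fun a => (g a).1) (sC (x + t • v))) P)
      (𝓝[≠] (0 : ℂ)) (𝓝 0) :=
    (tendsto_const_nhds (x := (0 : ℂ)) (f := 𝓝[≠] (0 : ℂ))).congr' (hz.mono fun t ht => ht.symm)
  exact tendsto_nhds_unique h1 h2

theorem eq_zero_of_supp {f : ↥(MTring N (b + 1))} {P : MvPolynomial (Idx N (b + 1)) ℂ}
    (hP : Rep P f.1) (h : supp P = ∅) : f = 0 := by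
  refine Subtype.ext ?_
  funext y
  obtain ⟨x, hx⟩ := exists_sC y.2.2
  rw [hP y, hx]
  exact eval_eq_zero_of_supp h y.1 x

/-- the lexicographically largest weight -/
theorem exists_lead {P : MvPolynomial (Idx N (b + 1)) ℂ} (h : supp P ≠ ∅) :
    ∃ m : Fin (N / 2) →₀ ℕ, lam m ∈ supp P ∧ IsLead P (lam m) := by
  obtain ⟨μ, hμ, hmax⟩ := Finset.exists_max_image (supp P) (fun κ => toLex κ)
    (Finset.nonempty_iff_ne_empty.2 h)
  obtain ⟨m, hm⟩ := exists_lam_of_lead (P := P) (μ := μ) (fun κ hκ => hmax κ hκ) hμ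
  refine ⟨m, ?_, ?_⟩
  · rw [hm]; exact hμ
  · rw [hm]; exact fun κ hκ => hmax κ hκ

theorem good_desc (m : Fin (N / 2) →₀ ℕ) (f : ↥(MTring N (b + 1))) (h : Good m f 0) :
    f = 0 ∨ ∃ m' c', ltL m' m ∧ Good m' f c' := by
  obtain ⟨P, h1, h2, h3⟩ := h
  by_cases hs : supp P = ∅
  · exact Or.inl (eq_zero_of_supp h1 hs)
  · right
    obtain ⟨m', hm', hlead⟩ := exists_lead hs
    obtain ⟨c', hc'⟩ := exists_coef h1 m' hlead
    refine ⟨m', c', ?_, hc'⟩
    refine lt_of_le_of_ne (h2 _ hm') fun heq => ?_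
    have h4 : lam m' = lam m := toLex_inj.1 heq
    rw [h4] at hm'
    obtain ⟨y, hy⟩ := mem_supp.1 hm'
    have h5 := h3 y
    rw [map_zero] at h5
    exact hy ((mul_eq_zero.1 h5.symm).resolve_left (Eu_ne_zero m y.2))

theorem good_ex (f : ↥(MTring N (b + 1))) : ∃ m c, Good m f c := by
  obtain ⟨P, hP⟩ := f.2.1
  by_cases hs : supp P = ∅
  · have : f = 0 := eq_zero_of_supp hP hs
    rw [this]
    exact ⟨0, 0, good_zero 0⟩
  · obtain ⟨m', _, hlead⟩ := exists_lead hs
    obtain ⟨c', hc'⟩ := exists_coef (f := f) hP m' hlead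
    exact ⟨m', c', hc'⟩

/-! ### The algebra of leading coefficients -/

theorem good_sum {ι : Type*} (s : Finset ι) (m : Fin (N / 2) →₀ ℕ)
    (c : ι → GamT N (b + 1)) (h : ∀ i ∈ s, ∃ f, Good m f (c i)) :
    ∃ f, Good m f (∑ i ∈ s, c i) := by
  classical
  induction s using Finset.induction_on with
  | empty => exact ⟨0, by simpa using good_zero m⟩
  | insert i s hi ih =>
    obtain ⟨f, hf⟩ := h i (Finset.mem_insert_self i s)
    obtain ⟨f', hf'⟩ := ih fun j hj => h j (Finset.mem_insert_of_mem hj)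
    rw [Finset.sum_insert hi]
    exact ⟨f + f', good_add m f _ f' _ hf hf'⟩

/-- the algebra of leading coefficients -/
noncomputable def BB (N b : ℕ) : Subalgebra ℂ (MvPolynomial (Fin (N / 2)) (GamT N (b + 1))) where
  carrier := {p | ∀ m, ∃ f, Good m f (MvPolynomial.coeff m p)}
  mul_mem' := by
    classical
    intro p q hp hq m
    rw [MvPolynomial.coeff_mul]
    refine good_sum _ m _ fun ij hij => ?_
    obtain ⟨f, hf⟩ := hp ij.1
    obtain ⟨f', hf'⟩ := hq ij.2
    rw [← Finset.HasAntidiagonal.mem_antidiagonal.1 hij]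
    exact ⟨f * f', good_mul _ _ f _ f' _ hf hf'⟩
  add_mem' := by
    intro p q hp hq m
    obtain ⟨f, hf⟩ := hp m
    obtain ⟨f', hf'⟩ := hq m
    exact ⟨f + f', by rw [MvPolynomial.coeff_add]; exact good_add m f _ f' _ hf hf'⟩
  algebraMap_mem' := by
    classical
    intro r m
    rw [MvPolynomial.algebraMap_apply, MvPolynomial.coeff_C]
    split_ifs with h
    · subst h
      refine ⟨r • 1, ?_⟩
      rw [Algebra.algebraMap_eq_smul_one]
      exact good_smul 0 1 1 r good_one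
    · exact ⟨0, good_zero m⟩

theorem mem_BB (p : MvPolynomial (Fin (N / 2)) (GamT N (b + 1))) :
    p ∈ BB N b ↔ ∀ m, ∃ f, Good m f (MvPolynomial.coeff m p) := Iff.rfl

/-- finite generation of the algebra of leading coefficients implies that of the ring -/
theorem finiteType_of_BB (h : (BB N b).FG) : Algebra.FiniteType ℂ ↥(MTring N (b + 1)) :=
  sagbi (fun m f c => Good m f c) good_one good_zero good_add good_smul good_mul ltL ltL_wf
    good_desc good_ex (BB N b) mem_BB h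

end final

end Pool.Agent.MP_c45d35_ag
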