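import Pool.Agent.MP_c45d35_ag.FinA

/-! # Leading coefficients of the moment map and of the fundamental invariants -/

namespace Pool.Agent.MP_c45d35_ag

open Matrix
open BlockL (toGam toGam_surj fn_inj fn_toGam ptEval gG xG pt_gG pt_xG)

section genfun
variable {N b : ℕ}

/-- reading off the expansion from the values -/
theorem cf_of_Phi {P : MvPolynomial (Idx N (b + 1)) ℂ} (s : Finset (Fin (N / 2) → ℤ))
    (c : (Fin (N / 2) → ℤ) → XX N (b + 1) → ℂ)
    (h : ∀ y t, Phi P y t = ∑ μ ∈ s, c μ y * ((chi μ t : ℂˣ) : ℂ)) :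
    (∀ μ ∈ s, cf P μ = c μ) ∧ supp P ⊆ s := by
  classical
  have key : ∀ y : XX N (b + 1), ∀ μ ∈ supp P ∪ s, cf P μ y = if μ ∈ s then c μ y else 0 := by
    intro y
    refine cf_unique (s := supp P ∪ s) Finset.subset_union_left y
      (fun μ => if μ ∈ s then c μ y else 0) (fun t => ?_)
    rw [h y t]
    have h1 : ∑ μ ∈ s, c μ y * ((chi μ t : ℂˣ) : ℂ) =
        ∑ μ ∈ s, (if μ ∈ s then c μ y else 0) * ((chi μ t : ℂˣ) : ℂ) :=
      Finset.sum_congr rfl fun μ hμ => by rw [if_pos hμ]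
    rw [h1]
    exact Finset.sum_subset Finset.subset_union_right fun μ _ hμ => by rw [if_neg hμ, zero_mul]
  refine ⟨fun μ hμ => ?_, fun μ hμ => ?_⟩
  · funext y
    rw [key y μ (Finset.mem_union_right _ hμ), if_pos hμ]
  · by_contra hn
    obtain ⟨y, hy⟩ := mem_supp.1 hμ
    rw [key y μ (Finset.mem_union_left _ hμ), if_neg hn] at hy
    exact hy rfl

/-! ### The moment map -/

/-- the entries of `g_a x g_a⁻¹` -/
noncomputable def momG (a : Fin b) (i j : Fin N) : GamT N b :=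
  (gG a * Dx xG * st (gG a) : Matrix (Fin N) (Fin N) (GamT N b)) i j

theorem fn_momG (a : Fin b) (i j : Fin N) (y : XX N b) :
    GamT.fn (momG a i j) y = ((y.1 a).1 * Dx y.2.1 * (y.1 a).1⁻¹) i j := by
  have h4 := congrFun (congrFun (congrArg (fun M : Matrix (Fin N) (Fin N) ℂ => (M : Fin N → Fin N → ℂ))
      (show (gG a * Dx xG * st (gG a) : Matrix (Fin N) (Fin N) (GamT N b)).map
        (ptEval y : GamT N b →+* ℂ) = (y.1 a).1 * Dx y.2.1 * (y.1 a).1⁻¹ by
        rw [Matrix.map_mul, Matrix.map_mul, Dx_map, BlockL.st_map, pt_gG, (y.1 a).2.inv_eq_st]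
        congr 3
        funext k
        exact pt_xG y k)) i) j
  exact h4

/-- the polynomial of an entry of the moment map -/
noncomputable def momP (a : Fin b) (i j : Fin N) : MvPolynomial (Idx N b) ℂ :=
  ((Matrix.of fun i j => MvPolynomial.X (Sum.inl (a, i, j))) *
    (Matrix.of fun i j => MvPolynomial.X (Sum.inr (i, j))) *
    st (Matrix.of fun i j => MvPolynomial.X (Sum.inl (a, i, j))) :
    Matrix (Fin N) (Fin N) (MvPolynomial (Idx N b) ℂ)) i j

theorem eval_momP (a : Fin b) (i j : Fin N) (g : Fin b → Matrix (Fin N) (Fin N) ℂ)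
    (s : Matrix (Fin N) (Fin N) ℂ) :
    MvPolynomial.eval (co g s) (momP a i j) = (g a * s * st (g a)) i j := by
  have hG : ((Matrix.of fun i j => MvPolynomial.X (Sum.inl (a, i, j)) :
      Matrix (Fin N) (Fin N) (MvPolynomial (Idx N b) ℂ))).map (MvPolynomial.eval (co g s)) = g a := by
    ext i j
    simp [co]
  have hS : ((Matrix.of fun i j => MvPolynomial.X (Sum.inr (i, j)) :
      Matrix (Fin N) (Fin N) (MvPolynomial (Idx N b) ℂ))).map (MvPolynomial.eval (co g s)) = s := by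
    ext i j
    simp [co]
  have h : ((Matrix.of fun i j => MvPolynomial.X (Sum.inl (a, i, j))) *
      (Matrix.of fun i j => MvPolynomial.X (Sum.inr (i, j))) *
      st (Matrix.of fun i j => MvPolynomial.X (Sum.inl (a, i, j))) :
      Matrix (Fin N) (Fin N) (MvPolynomial (Idx N b) ℂ)).map (MvPolynomial.eval (co g s)) =
      g a * s * st (g a) := by
    rw [Matrix.map_mul, Matrix.map_mul, BlockL.st_map, hG, hS]
  exact congrFun (congrFun (congrArg (fun M : Matrix (Fin N) (Fin N) ℂ =>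
    (M : Fin N → Fin N → ℂ)) h) i) j

/-- the entries of the moment map -/
noncomputable def momF (a : Fin b) (i j : Fin N) : ↥(MTring N b) :=
  ⟨fun y => ((y.1 a).1 * y.2.1 * (y.1 a).1⁻¹) i j, by
    refine ⟨⟨momP a i j, fun y => ?_⟩, ?_⟩
    · rw [eval_momP, ← (y.1 a).2.inv_eq_st]
    · intro y y' h hh hp hs hg
      have h1 := (hh a).1
      have h2 : h a * y.2.1 = y.2.1 * h a := (hh a).2
      have h3 : (y'.1 a).1 * y'.2.1 * (y'.1 a).1⁻¹ = (y.1 a).1 * y.2.1 * (y.1 a).1⁻¹ := by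
        rw [hs, hg a, Matrix.mul_inv_rev]
        calc (y.1 a).1 * h a * y.2.1 * ((h a)⁻¹ * (y.1 a).1⁻¹) =
            (y.1 a).1 * (h a * y.2.1) * (h a)⁻¹ * (y.1 a).1⁻¹ := by simp only [Matrix.mul_assoc]
          _ = (y.1 a).1 * y.2.1 * (h a * (h a)⁻¹) * (y.1 a).1⁻¹ := by
              rw [h2]; simp only [Matrix.mul_assoc]
          _ = _ := by rw [h1.mul_inv, Matrix.mul_one]
      exact congrFun (congrFun (congrArg (fun M : Matrix (Fin N) (Fin N) ℂ =>
        (M : Fin N → Fin N → ℂ)) h3) i) j⟩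

theorem good_mom (a : Fin (b + 1)) (i j : Fin N) : Good 0 (momF a i j) (momG a i j) := by
  have hexp : ∀ (y : XX N (b + 1)) (t : Fin (N / 2) → ℂˣ), Phi (momP a i j) y t =
      ∑ μ ∈ ({0} : Finset (Fin (N / 2) → ℤ)),
        ((y.1 a).1 * Dx y.2.1 * (y.1 a).1⁻¹) i j * ((chi μ t : ℂˣ) : ℂ) := by
    intro y t
    rw [Finset.sum_singleton, chi_zero, Units.val_one, mul_one]
    unfold Phi
    rw [eval_momP]
    set T : Matrix (Fin N) (Fin N) ℂ := if a = 0 then Tt t else 1 with hT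
    have hTG : IsG T := by
      rw [hT]
      split_ifs
      · exact isG_Tt t
      · exact isG_one
    have hTD : T * Dx y.2.1 = Dx y.2.1 * T := by
      rw [hT]
      split_ifs
      · exact Tt_Dx_comm t _
      · rw [Matrix.one_mul, Matrix.mul_one]
    have hq := qC_isG y.2
    have hs : sC y.2.1 = qC y.2 * Dx y.2.1 * (qC y.2)⁻¹ := by
      rw [qC_conj, Matrix.mul_assoc, hq.mul_inv, Matrix.mul_one]
    have hG : IsG ((y.1 a).1 * T * (qC y.2)⁻¹) := ((y.1 a).2.mul hTG).mul hq.inv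
    rw [← hG.inv_eq_st, Matrix.mul_inv_rev, Matrix.mul_inv_rev, hs]
    have hqq : (qC y.2)⁻¹⁻¹ = qC y.2 := Matrix.nonsing_inv_nonsing_inv _ hq.isUnit_det
    rw [hqq]
    have h1 : (y.1 a).1 * T * (qC y.2)⁻¹ * (qC y.2 * Dx y.2.1 * (qC y.2)⁻¹) *
        (qC y.2 * (T⁻¹ * (y.1 a).1⁻¹)) = (y.1 a).1 * Dx y.2.1 * (y.1 a).1⁻¹ := by
      calc (y.1 a).1 * T * (qC y.2)⁻¹ * (qC y.2 * Dx y.2.1 * (qC y.2)⁻¹) *
          (qC y.2 * (T⁻¹ * (y.1 a).1⁻¹)) =
          (y.1 a).1 * T * ((qC y.2)⁻¹ * qC y.2) * Dx y.2.1 * ((qC y.2)⁻¹ * qC y.2) *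
            (T⁻¹ * (y.1 a).1⁻¹) := by simp only [Matrix.mul_assoc]
        _ = (y.1 a).1 * (T * Dx y.2.1) * (T⁻¹ * (y.1 a).1⁻¹) := by
            rw [hq.inv_mul]; simp only [Matrix.mul_assoc, Matrix.one_mul, Matrix.mul_one]
        _ = (y.1 a).1 * Dx y.2.1 * (T * T⁻¹) * (y.1 a).1⁻¹ := by
            rw [hTD]; simp only [Matrix.mul_assoc]
        _ = _ := by rw [hTG.mul_inv, Matrix.mul_one]
    rw [h1]
  obtain ⟨h1, h2⟩ := cf_of_Phi (P := momP a i j) {0}
    (fun _ y => ((y.1 a).1 * Dx y.2.1 * (y.1 a).1⁻¹) i j) hexp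
  refine ⟨momP a i j, fun y => ?_, fun κ hκ => ?_, fun y => ?_⟩
  · rw [eval_momP, ← (y.1 a).2.inv_eq_st]
    rfl
  · rw [Finset.mem_singleton.1 (h2 hκ), lam_zero]
  · rw [Eu_zero, one_mul, lam_zero, h1 0 (Finset.mem_singleton_self _), fn_momG]

theorem C_momG_mem (a : Fin (b + 1)) (i j : Fin N) :
    (MvPolynomial.C (momG a i j) : MvPolynomial (Fin (N / 2)) (GamT N (b + 1))) ∈ BB N b := by
  classical
  intro m
  rw [MvPolynomial.coeff_C]
  split_ifs with h
  · subst h
    exact ⟨_, good_mom a i j⟩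
  · exact ⟨0, good_zero m⟩

/-! ### Weights of the minors -/

/-- the weight of a tuple of columns -/
def mur (N : ℕ) {k : ℕ} (r : Fin k → Fin N) : Fin (N / 2) → ℤ := ∑ j, wt N (r j)

theorem wt_le (p : Fin N) (i : Fin (N / 2)) : wt N p i ≤ if p = up i then 1 else 0 := by
  unfold wt
  by_cases h : p = up i
  · rw [if_pos h]
    split_ifs <;> simp
  · rw [if_neg h]
    have : ¬ ((p : ℕ) = (i : ℕ)) := fun h' => h (Fin.ext h')
    rw [if_neg this]
    split_ifs <;> simp

theorem mur_le_sum {k : ℕ} (r : Fin k → Fin N) (i : Fin (N / 2)) :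
    mur N r i ≤ ∑ j, if r j = up i then (1 : ℤ) else 0 := by
  unfold mur
  rw [Finset.sum_apply]
  exact Finset.sum_le_sum fun j _ => wt_le (r j) i

theorem mur_le_one {k : ℕ} {r : Fin k → Fin N} (hr : Function.Injective r) (i : Fin (N / 2)) :
    mur N r i ≤ 1 := by
  refine (mur_le_sum r i).trans ?_
  rw [Finset.sum_boole]
  have : (Finset.univ.filter fun j => r j = up i).card ≤ 1 :=
    Finset.card_le_one.2 fun a ha c hc => hr ((Finset.mem_filter.1 ha).2.trans
      (Finset.mem_filter.1 hc).2.symm)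
  exact_mod_cast this

theorem exists_of_mur {k : ℕ} {r : Fin k → Fin N} {i : Fin (N / 2)} (h : mur N r i = 1) :
    ∃ j, r j = up i := by
  by_contra hcon
  push Not at hcon
  have h1 := mur_le_sum r i
  rw [h, Finset.sum_eq_zero (fun j _ => if_neg (hcon j))] at h1
  norm_num at h1

theorem mur_perm (k : Fin (N / 2)) (hk : (k : ℕ) + 1 ≤ N) (π : Equiv.Perm (Fin ((k : ℕ) + 1))) :
    mur N (fun j => Fin.castLE hk (π j)) = lam (Finsupp.single k 1) := by
  funext i
  unfold mur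
  rw [Equiv.sum_comp π (fun j => wt N (Fin.castLE hk j)), Finset.sum_apply, lam_single]
  have h1 : ∀ j : Fin ((k : ℕ) + 1), wt N (Fin.castLE hk j) i =
      if (j : ℕ) = (i : ℕ) then 1 else 0 := by
    intro j
    have hj : ((Fin.castLE hk j : Fin N) : ℕ) < N / 2 := by
      simp only [Fin.val_castLE]
      have := j.2
      have := k.2
      omega
    rw [wt_lt _ hj, Pi.single_apply]
    simp only [Fin.ext_iff, Fin.val_castLE, eq_comm]
  simp only [h1]
  by_cases h : i ≤ k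
  · rw [if_pos h]
    have hi : (i : ℕ) < (k : ℕ) + 1 := Nat.lt_succ_of_le h
    rw [Finset.sum_eq_single (⟨i, hi⟩ : Fin ((k : ℕ) + 1))]
    · simp
    · intro j _ hj
      rw [if_neg fun h' => hj (Fin.ext h')]
    · simp
  · rw [if_neg h]
    refine Finset.sum_eq_zero fun j _ => if_neg fun h' => h ?_
    rw [Fin.le_def]
    have := j.2
    omega

theorem mur_lt_or {k : Fin (N / 2)} (hk : (k : ℕ) + 1 ≤ N) {r : Fin ((k : ℕ) + 1) → Fin N}
    (hr : Function.Injective r) :
    toLex (mur N r) < toLex (lam (Finsupp.single k 1)) ∨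
      ∃ π : Equiv.Perm (Fin ((k : ℕ) + 1)), r = fun j => Fin.castLE hk (π j) := by
  by_cases hlt : toLex (mur N r) < toLex (lam (Finsupp.single k 1))
  · exact Or.inl hlt
  right
  have hone : ∀ n : ℕ, ∀ i : Fin (N / 2), (i : ℕ) = n → i ≤ k → mur N r i = 1 := by
    intro n
    induction n using Nat.strong_induction_on with
    | _ n ih =>
      intro i hin hik
      by_contra hne
      apply hlt
      refine ⟨i, fun i' hi' => ?_, ?_⟩
      · show mur N r i' = lam (Finsupp.single k 1) i'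
        rw [ih (i' : ℕ) (by rw [← hin]; exact hi') i' rfl (hi'.le.trans hik), lam_single,
          if_pos (hi'.le.trans hik)]
        rfl
      · show mur N r i < lam (Finsupp.single k 1) i
        rw [lam_single, if_pos hik]
        exact lt_of_le_of_ne (mur_le_one hr i) hne
  have hex : ∀ i : Fin ((k : ℕ) + 1), ∃ j, r j = Fin.castLE hk i := by
    intro i
    have hi : (i : ℕ) < N / 2 := by
      have := i.2
      have := k.2
      omega
    obtain ⟨j, hj⟩ := exists_of_mur (hone _ (⟨i, hi⟩ : Fin (N / 2)) rfl (by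
      rw [Fin.le_def]
      have := i.2
      simp only
      omega))
    exact ⟨j, hj.trans (Fin.ext rfl)⟩
  choose σ hσ using hex
  have hσi : Function.Injective σ := by
    intro i i' h
    have h1 := hσ i
    rw [h, hσ i'] at h1
    exact (Fin.castLE_injective hk h1).symm
  let σe : Equiv.Perm (Fin ((k : ℕ) + 1)) := Equiv.ofBijective σ (Finite.injective_iff_bijective.1 hσi)
  refine ⟨σe.symm, ?_⟩
  funext j
  have h2 := hσ (σe.symm j)
  have h3 : σ (σe.symm j) = j := σe.apply_symm_apply j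
  rw [h3] at h2
  exact h2

end genfun

end Pool.Agent.MP_c45d35_ag
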