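import Pool.Agent.MP_c45d35_ag.FinB

/-! # Finite generation of the Moore–Tachikawa rings -/

namespace Pool.Agent.MP_c45d35_ag

open Matrix
open BlockL (toGam toGam_surj fn_inj fn_toGam ptEval gG xG pt_gG pt_xG)

section minors
variable {N b : ℕ}

theorem chi_sum {n : ℕ} {M : Type*} [CommGroup M] {ι : Type*} (s : Finset ι) (μ : ι → Fin n → ℤ)
    (t : Fin n → M) : chi (∑ j ∈ s, μ j) t = ∏ j ∈ s, chi (μ j) t := by
  classical
  induction s using Finset.induction_on with
  | empty => rw [Finset.sum_empty, Finset.prod_empty, chi_zero]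
  | insert a s ha ih => rw [Finset.sum_insert ha, Finset.prod_insert ha, chi_add, ih]

/-- products of minors on the first columns -/
noncomputable def minG (k : Fin (N / 2)) (hk : (k : ℕ) + 1 ≤ N)
    (I : Fin b → Fin ((k : ℕ) + 1) → Fin N) : GamT N b :=
  ∏ a, Matrix.det ((gG a).submatrix (I a) (Fin.castLE hk))

theorem fn_minG (k : Fin (N / 2)) (hk : (k : ℕ) + 1 ≤ N)
    (I : Fin b → Fin ((k : ℕ) + 1) → Fin N) (y : XX N b) :
    GamT.fn (minG k hk I) y =
      ∏ a, Matrix.det (fun i j => (y.1 a).1 (I a i) (Fin.castLE hk j)) := by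
  have : GamT.fn (minG k hk I) y =
    ptEval y (∏ a, Matrix.det ((gG a).submatrix (I a) (Fin.castLE hk))) := rfl
  rw [this, map_prod]
  refine Finset.prod_congr rfl fun a _ => ?_
  have h4 := RingHom.map_det (ptEval y : GamT N b →+* ℂ)
    ((gG a).submatrix (I a) (Fin.castLE hk))
  refine h4.trans ?_
  congr 1
  have h5 := pt_gG y a
  ext i j
  exact congrFun (congrFun h5 (I a i)) (Fin.castLE hk j)

/-- minors of `g T` -/
theorem det_mul_Tt {k : ℕ} (g : Matrix (Fin N) (Fin N) ℂ) (t : Fin (N / 2) → ℂˣ)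
    (I r : Fin k → Fin N) :
    Matrix.det (fun i j => (g * Tt t) (I i) (r j)) =
      ((chi (mur N r) t : ℂˣ) : ℂ) * Matrix.det (fun i j => g (I i) (r j)) := by
  have h1 : (fun i j => (g * Tt t) (I i) (r j) : Matrix (Fin k) (Fin k) ℂ) =
      Matrix.of fun i j => ((chi (wt N (r j)) t : ℂˣ) : ℂ) * g (I i) (r j) := by
    funext i j
    show (g * Tt t) (I i) (r j) = ((chi (wt N (r j)) t : ℂˣ) : ℂ) * g (I i) (r j)
    rw [Tt, Matrix.mul_diagonal, mul_comm]
  have h2 := Matrix.det_mul_row (fun j => ((chi (wt N (r j)) t : ℂˣ) : ℂ))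
    (fun i j => g (I i) (r j) : Matrix (Fin k) (Fin k) ℂ)
  rw [h1]
  refine h2.trans ?_
  congr 1
  unfold mur
  rw [chi_sum, Units.coe_prod]

theorem good_min (k : Fin (N / 2)) (hk : (k : ℕ) + 1 ≤ N)
    (I : Fin (b + 1) → Fin ((k : ℕ) + 1) → Fin N) :
    ∃ f, Good (Finsupp.single k 1) f (minG k hk I) := by
  classical
  obtain ⟨P, hinv, A, hA1, hA2, hA3⟩ := exists_F N (b + 1) ((k : ℕ) + 1) k.2 hk I
  -- the minors
  obtain ⟨D, hD⟩ : ∃ D : (Fin ((k : ℕ) + 1) → Fin N) → XX N (b + 1) → ℂ,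
      D = fun r y => ∏ a, Matrix.det (fun i j => (y.1 a).1 (I a i) (r j)) := ⟨_, rfl⟩
  -- the invariant function
  obtain ⟨F, hF⟩ : ∃ F : ↥(MTring N (b + 1)), Rep P F.1 := by
    refine ⟨⟨fun y => MvPolynomial.eval (co (fun a => (y.1 a).1) y.2.1) P,
      ⟨P, fun y => rfl⟩, ?_⟩, fun y => rfl⟩
    intro y y' h hh hp hs hg
    have h1 := hinv (fun a => (y.1 a).1) y.2.1 y.2.2 h (fun a => (hh a).2) hp
    have e1 : (fun a => (y'.1 a).1) = fun a => (y.1 a).1 * h a := funext hg
    show MvPolynomial.eval (co (fun a => (y'.1 a).1) y'.2.1) P =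
      MvPolynomial.eval (co (fun a => (y.1 a).1) y.2.1) P
    rw [e1, hs, h1]
  -- the expansion
  have hexp0 : ∀ (y : XX N (b + 1)) (t : Fin (N / 2) → ℂˣ), Phi P y t =
      ∑ r : Fin ((k : ℕ) + 1) → Fin N, A r y.2.1 * D r y * ((chi (mur N r) t : ℂˣ) : ℂ) := by
    intro y t
    have h1 := hA1 y.2.1 y.2.2 (sC y.2.1) (qC y.2) (sC_mem _) (qC_isG y.2).isUnit_det
      (qC_conj y.2) (qC_row y.2)
      (fun a => (y.1 a).1 * (if a = 0 then (Tt t : Matrix (Fin N) (Fin N) ℂ) else 1))
    refine Eq.trans h1 ?_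
    refine Finset.sum_congr rfl fun r _ => ?_
    rw [mul_assoc]
    congr 1
    have h2 : ∀ a : Fin (b + 1), Matrix.det (fun i j => ((y.1 a).1 *
        (if a = 0 then (Tt t : Matrix (Fin N) (Fin N) ℂ) else 1)) (I a i) (r j)) =
        (if a = 0 then ((chi (mur N r) t : ℂˣ) : ℂ) else 1) *
          Matrix.det (fun i j => (y.1 a).1 (I a i) (r j)) := by
      intro a
      by_cases ha : a = 0
      · rw [if_pos ha, if_pos ha]
        exact det_mul_Tt _ t (I a) r
      · rw [if_neg ha, if_neg ha, Matrix.mul_one, one_mul]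
    rw [Finset.prod_congr rfl fun a _ => h2 a, Finset.prod_mul_distrib,
      Finset.prod_ite_eq' Finset.univ (0 : Fin (b + 1)), if_pos (Finset.mem_univ _), hD, mul_comm]
  set s : Finset (Fin (N / 2) → ℤ) :=
    (Finset.univ.filter fun r : Fin ((k : ℕ) + 1) → Fin N => Function.Injective r).image
      (fun r => mur N r) with hs
  obtain ⟨c, hc⟩ : ∃ c : (Fin (N / 2) → ℤ) → XX N (b + 1) → ℂ, c = fun μ y =>
    ∑ r ∈ (Finset.univ.filter fun r : Fin ((k : ℕ) + 1) → Fin N => Function.Injective r).filter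
      (fun r => mur N r = μ), A r y.2.1 * D r y := ⟨_, rfl⟩
  have hexp : ∀ (y : XX N (b + 1)) (t : Fin (N / 2) → ℂˣ), Phi P y t =
      ∑ μ ∈ s, c μ y * ((chi μ t : ℂˣ) : ℂ) := by
    intro y t
    rw [hexp0 y t]
    have h1 : ∑ r : Fin ((k : ℕ) + 1) → Fin N,
        A r y.2.1 * D r y * ((chi (mur N r) t : ℂˣ) : ℂ) =
        ∑ r ∈ Finset.univ.filter fun r : Fin ((k : ℕ) + 1) → Fin N => Function.Injective r,
          A r y.2.1 * D r y * ((chi (mur N r) t : ℂˣ) : ℂ) := by
      refine (Finset.sum_subset (Finset.filter_subset _ _) fun r _ hr => ?_).symm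
      have hr' : ¬ Function.Injective r := fun h =>
        hr (Finset.mem_filter.2 ⟨Finset.mem_univ _, h⟩)
      rw [hA2 r hr', zero_mul, zero_mul]
    rw [h1, ← Finset.sum_fiberwise_of_maps_to
      (s := Finset.univ.filter fun r : Fin ((k : ℕ) + 1) → Fin N => Function.Injective r)
      (t := s) (g := fun r => mur N r) (fun r hr => Finset.mem_image_of_mem _ hr)]
    refine Finset.sum_congr rfl fun μ _ => ?_
    rw [hc, Finset.sum_mul]
    refine Finset.sum_congr rfl fun r hr => ?_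
    rw [(Finset.mem_filter.1 hr).2]
  obtain ⟨h1, h2⟩ := cf_of_Phi s c hexp
  set lm : Fin (N / 2) → ℤ := lam (Finsupp.single k 1) with hlm
  have hlead : IsLead P lm := by
    intro κ hκ
    obtain ⟨r, hr, rfl⟩ := Finset.mem_image.1 (h2 hκ)
    rcases mur_lt_or hk (Finset.mem_filter.1 hr).2 with h | ⟨π, rfl⟩
    · exact h.le
    · rw [mur_perm k hk π]
  have hmem : lm ∈ s :=
    Finset.mem_image.2 ⟨fun j => Fin.castLE hk ((1 : Equiv.Perm (Fin ((k : ℕ) + 1))) j),
      Finset.mem_filter.2 ⟨Finset.mem_univ _, Fin.castLE_injective hk⟩, mur_perm k hk 1⟩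
  -- the leading coefficient
  have hset : (Finset.univ.filter fun r : Fin ((k : ℕ) + 1) → Fin N =>
      Function.Injective r).filter (fun r => mur N r = lm) =
      Finset.univ.image fun (π : Equiv.Perm (Fin ((k : ℕ) + 1))) j => Fin.castLE hk (π j) := by
    ext r
    rw [Finset.mem_filter, Finset.mem_filter, Finset.mem_image]
    constructor
    · rintro ⟨⟨_, hr⟩, hr'⟩
      rcases mur_lt_or hk hr with h | ⟨π, hπ⟩
      · rw [hr'] at h
        exact absurd h (lt_irrefl _)
      · exact ⟨π, Finset.mem_univ _, hπ.symm⟩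
    · rintro ⟨π, _, rfl⟩
      exact ⟨⟨Finset.mem_univ _, (Fin.castLE_injective hk).comp π.injective⟩, mur_perm k hk π⟩
  have hlc : ∀ y : XX N (b + 1), Ek (N := N) ((k : ℕ) + 1) y.2.1 * c lm y =
      (((k : ℕ) + 1).factorial : ℂ) * GamT.fn (minG k hk I) y := by
    intro y
    have hterm : ∀ π : Equiv.Perm (Fin ((k : ℕ) + 1)), Ek (N := N) ((k : ℕ) + 1) y.2.1 *
        (A (fun j => Fin.castLE hk (π j)) y.2.1 * D (fun j => Fin.castLE hk (π j)) y) =
        GamT.fn (minG k hk I) y := by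
      intro π
      have h3 := hA3 y.2.1 y.2.2 π
      have h4 : D (fun j => Fin.castLE hk (π j)) y =
          (((Equiv.Perm.sign π : ℤˣ) : ℤ) : ℂ) ^ (b + 1) * GamT.fn (minG k hk I) y := by
        rw [hD, fn_minG]
        show ∏ a, Matrix.det (fun i j => (y.1 a).1 (I a i) (Fin.castLE hk (π j))) = _
        have h5 : ∀ a : Fin (b + 1),
            Matrix.det (fun i j => (y.1 a).1 (I a i) (Fin.castLE hk (π j))) =
            (((Equiv.Perm.sign π : ℤˣ) : ℤ) : ℂ) *
              Matrix.det (fun i j => (y.1 a).1 (I a i) (Fin.castLE hk j)) := by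
          intro a
          exact Matrix.det_permute' π
            (fun i j => (y.1 a).1 (I a i) (Fin.castLE hk j) : Matrix (Fin ((k : ℕ) + 1))
              (Fin ((k : ℕ) + 1)) ℂ)
        rw [Finset.prod_congr rfl fun a _ => h5 a, Finset.prod_mul_distrib, Finset.prod_const,
          Finset.card_univ, Fintype.card_fin]
      rw [h4]
      have h6 : (((Equiv.Perm.sign π : ℤˣ) : ℤ) : ℂ) ^ (b + 1) *
          (((Equiv.Perm.sign π : ℤˣ) : ℤ) : ℂ) ^ (b + 1) = 1 := by
        rw [← mul_pow]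
        rcases Int.units_eq_one_or (Equiv.Perm.sign π) with h7 | h7 <;> rw [h7] <;> simp
      calc Ek (N := N) ((k : ℕ) + 1) y.2.1 * (A (fun j => Fin.castLE hk (π j)) y.2.1 *
          ((((Equiv.Perm.sign π : ℤˣ) : ℤ) : ℂ) ^ (b + 1) * GamT.fn (minG k hk I) y)) =
          (A (fun j => Fin.castLE hk (π j)) y.2.1 * Ek (N := N) ((k : ℕ) + 1) y.2.1) *
            (((Equiv.Perm.sign π : ℤˣ) : ℤ) : ℂ) ^ (b + 1) * GamT.fn (minG k hk I) y := by ring
        _ = ((((Equiv.Perm.sign π : ℤˣ) : ℤ) : ℂ) ^ (b + 1) *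
            (((Equiv.Perm.sign π : ℤˣ) : ℤ) : ℂ) ^ (b + 1)) * GamT.fn (minG k hk I) y := by
            rw [h3]
        _ = _ := by rw [h6, one_mul]
    rw [hc]
    show Ek (N := N) ((k : ℕ) + 1) y.2.1 *
      ∑ r ∈ (Finset.univ.filter fun r : Fin ((k : ℕ) + 1) → Fin N =>
        Function.Injective r).filter (fun r => mur N r = lm), A r y.2.1 * D r y = _
    rw [hset, Finset.sum_image (fun π _ π' _ h => by
      refine Equiv.ext fun j => ?_
      exact Fin.castLE_injective hk (congrFun h j)), Finset.mul_sum,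
      Finset.sum_congr rfl fun π _ => hterm π, Finset.sum_const, Finset.card_univ,
      Fintype.card_perm, Fintype.card_fin, nsmul_eq_mul]
  have hgood : Good (Finsupp.single k 1) F
      ((((k : ℕ) + 1).factorial : ℂ) • minG k hk I) := by
    refine ⟨P, hF, hlead, fun y => ?_⟩
    rw [Eu_single, h1 lm hmem, hlc y, map_smul, Pi.smul_apply, smul_eq_mul]
  have hfac : ((((k : ℕ) + 1).factorial : ℕ) : ℂ) ≠ 0 :=
    Nat.cast_ne_zero.2 (Nat.factorial_ne_zero _)
  have h := good_smul _ F _ ((((k : ℕ) + 1).factorial : ℂ))⁻¹ hgood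
  rw [smul_smul, inv_mul_cancel₀ hfac, one_smul] at h
  exact ⟨_, h⟩

theorem monomial_minG_mem (k : Fin (N / 2)) (hk : (k : ℕ) + 1 ≤ N)
    (I : Fin (b + 1) → Fin ((k : ℕ) + 1) → Fin N) :
    (MvPolynomial.monomial (Finsupp.single k 1) (minG k hk I) :
      MvPolynomial (Fin (N / 2)) (GamT N (b + 1))) ∈ BB N b := by
  classical
  intro m
  rw [MvPolynomial.coeff_monomial]
  split_ifs with h
  · subst h
    exact good_min k hk I
  · exact ⟨0, good_zero m⟩

/-- The algebra of leading coefficients is finitely generated. -/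
theorem BB_fg (N b : ℕ) : (BB N b).FG := by
  classical
  have hkN : ∀ k : Fin (N / 2), (k : ℕ) + 1 ≤ N := fun k => by
    have := k.2
    omega
  set T : Set (MvPolynomial (Fin (N / 2)) (GamT N (b + 1))) :=
    (Set.range fun p : Fin (b + 1) × Fin N × Fin N => MvPolynomial.C (momG p.1 p.2.1 p.2.2)) ∪
    (Set.range fun p : (k : Fin (N / 2)) × (Fin (b + 1) → Fin ((k : ℕ) + 1) → Fin N) =>
      MvPolynomial.monomial (Finsupp.single p.1 1) (minG p.1 (hkN p.1) p.2)) with hT
  have hTfin : T.Finite := (Set.finite_range _).union (Set.finite_range _)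
  have hfin : Algebra.FiniteType ℂ (MvPolynomial (Fin (N / 2)) (GamT N (b + 1))) := by
    have h1 : Algebra.FiniteType ℂ (GamT N (b + 1)) :=
      Algebra.FiniteType.of_surjective (toGam N (b + 1)) (toGam_surj N (b + 1))
    exact h1.trans inferInstance
  refine fg_of_integral hfin (Algebra.adjoin ℂ T) (BB N b) ?_ ?_ ?_
  · exact Subalgebra.fg_def.2 ⟨T, hTfin, rfl⟩
  · refine Algebra.adjoin_le ?_
    rintro p (⟨q, rfl⟩ | ⟨q, rfl⟩)
    · exact C_momG_mem _ _ _
    · exact monomial_minG_mem _ _ _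
  · intro p hp
    rw [← MvPolynomial.support_sum_monomial_coeff p]
    refine IsIntegral.sum _ fun m _ => ?_
    obtain ⟨f, P, hrep, hlead, hc⟩ := hp m
    refine integral_of_PB N (b + 1) (Nat.succ_pos b) (Algebra.adjoin ℂ T) ?_ ?_ m _ ?_
    · intro a i j f hf
      have h1 : f = momG a i j := by
        refine BlockL.gam_ext _ _ fun y => ?_
        show GamT.fn f y = GamT.fn (momG a i j) y
        rw [hf, fn_momG]
      rw [h1]
      exact Algebra.subset_adjoin (Or.inl ⟨(a, i, j), rfl⟩)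
    · intro k hk I f hf
      have h1 : f = minG k hk I := by
        refine BlockL.gam_ext _ _ fun y => ?_
        show GamT.fn f y = GamT.fn (minG k hk I) y
        rw [hf, fn_minG]
      rw [h1]
      exact Algebra.subset_adjoin (Or.inr ⟨⟨k, I⟩, rfl⟩)
    · have h1 : GamT.fn (MvPolynomial.coeff m p) =
          fun y => Eu (N := N) m y.2.1 * cf P (lam m) y := funext hc
      rw [h1]
      exact pole_bound (invP_of_rep f.2 hrep) m hlead

end minors

/-- the case without punctures -/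
theorem mt_fg_zero (N : ℕ) : (MTring N 0).FG := by
  set φ : MvPolynomial (Idx N 0) ℂ →ₐ[ℂ] (Pt N 0 → ℂ) :=
    MvPolynomial.aeval fun i => fun y : Pt N 0 => co (fun a => (y.1 a).1) y.2.1 i with hφ
  have hφe : ∀ P y, φ P y = MvPolynomial.eval (co (fun a => (y.1 a).1) y.2.1) P := by
    intro P y
    have h2 : φ P y = (Pi.evalAlgHom ℂ (fun _ : Pt N 0 => ℂ) y) (φ P) := rfl
    rw [h2, hφ, BlockL.hom_aeval, BlockL.aeval_eval]
    rfl
  have h : MTring N 0 = (⊤ : Subalgebra ℂ (MvPolynomial (Idx N 0) ℂ)).map φ := by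
    ext F
    rw [Subalgebra.mem_map]
    constructor
    · rintro ⟨⟨P, hP⟩, -⟩
      exact ⟨P, Algebra.mem_top, funext fun y => by rw [hφe, hP]⟩
    · rintro ⟨P, -, rfl⟩
      refine ⟨⟨P, hφe P⟩, ?_⟩
      intro y y' _ _ _ hs _
      have : y' = y := Prod.ext (Subsingleton.elim _ _) hs
      rw [this]
  rw [h]
  exact Subalgebra.FG.map φ Algebra.FiniteType.out

/-- **Finite generation of the Moore–Tachikawa rings** of `Sp_N` (`N` even) and `SO_N`
(`N` odd). -/
theorem mt_fg (N b : ℕ) : (MTring N b).FG := by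
  cases b with
  | zero => exact mt_fg_zero N
  | succ b => exact Subalgebra.fg_iff_finiteType _ |>.2 (finiteType_of_BB (BB_fg N b))

end Pool.Agent.MP_c45d35_ag
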