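import Pool.Agent.MP_c45d35_ag.Walls

namespace Pool.Agent.MP_c45d35_ag

open Matrix

section walls
variable {N b : ℕ}

/-- the linear form of a wall -/
def el : Wall (N / 2) → (Fin (N / 2) → ℂ) → ℂ
  | .I i j _ σ, x => x i - (σ : ℤ) * x j
  | .II i, x => x i

/-- the linear form of a wall, as a polynomial -/
noncomputable def ell : Wall (N / 2) → MvPolynomial (Fin (N / 2)) ℂ
  | .I i j _ σ => MvPolynomial.X i - MvPolynomial.C ((σ : ℤ) : ℂ) * MvPolynomial.X j
  | .II i => MvPolynomial.X i

/-- parametrisation of the wall -/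
noncomputable def phiW : Wall (N / 2) → Fin (N / 2) → MvPolynomial (Fin (N / 2)) ℂ
  | .I i j _ σ, k => if k = i then MvPolynomial.C ((σ : ℤ) : ℂ) * MvPolynomial.X j
      else MvPolynomial.X k
  | .II i, k => if k = i then 0 else MvPolynomial.X k

theorem eval_ell (β : Wall (N / 2)) (x : Fin (N / 2) → ℂ) :
    MvPolynomial.eval x (ell β) = el β x := by
  cases β <;> simp [ell, el]

theorem phiW_dvd (β : Wall (N / 2)) (k : Fin (N / 2)) :
    ∃ q, MvPolynomial.X k - phiW β k = ell β * q := by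
  cases β with
  | I i j h σ =>
    by_cases hk : k = i
    · subst hk
      exact ⟨1, by simp [phiW, ell]⟩
    · exact ⟨0, by simp [phiW, hk]⟩
  | II i =>
    by_cases hk : k = i
    · subst hk
      exact ⟨1, by simp [phiW, ell]⟩
    · exact ⟨0, by simp [phiW, hk]⟩

theorem phiW_ell (β : Wall (N / 2)) : MvPolynomial.aeval (phiW β) (ell β) = 0 := by
  cases β with
  | I i j h σ =>
    have hij : j ≠ i := ne_of_gt h
    simp [phiW, ell, hij]
  | II i => simp [phiW, ell]

theorem sigma_sq (σ : ℤˣ) : (((σ : ℤ) : ℂ)) * ((σ : ℤ) : ℂ) = 1 := by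
  rcases Int.units_eq_one_or σ with rfl | rfl <;> simp

/-- sorting of indices -/
theorem idx_cases (p : Fin N) : (∃ i : Fin (N / 2), p = up i) ∨
    (∃ i : Fin (N / 2), p = Fin.rev (up i)) ∨ 2 * (p : ℕ) + 1 = N := by
  rcases fin_cases3 p with h | h | h
  · exact Or.inl ⟨⟨p, h⟩, rfl⟩
  · refine Or.inr (Or.inl ⟨⟨_, h⟩, ?_⟩)
    rw [Fin.ext_iff, Fin.val_rev]
    simp only [up, Fin.val_rev]
    have := p.2
    omega
  · exact Or.inr (Or.inr h)

theorem xx_rev_up {R : Type*} [CommRing R] (x : Fin (N / 2) → R) (i : Fin (N / 2)) :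
    xx x (Fin.rev (up i : Fin N)) = - x i := by
  rw [xx_rev, xx_up]

/-- every difference of eigenvalues is proportional to the form of a wall -/
theorem xx_sub_eq (p q : Fin N) (h : p ≠ q) : ∃ (β : Wall (N / 2)) (c : ℂ), c ≠ 0 ∧
    ∀ x : Fin (N / 2) → ℂ, xx x p - xx x q = c * el β x := by
  -- basic cases
  have hA : ∀ i j : Fin (N / 2), i ≠ j → ∃ (β : Wall (N / 2)) (c : ℂ), c ≠ 0 ∧
      ∀ x : Fin (N / 2) → ℂ, x i - x j = c * el β x := by
    intro i j hij
    rcases lt_or_gt_of_ne hij with h | h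
    · exact ⟨.I i j h 1, 1, one_ne_zero, fun x => by simp [el]⟩
    · exact ⟨.I j i h 1, -1, by norm_num, fun x => by simp [el]⟩
  have hB : ∀ i j : Fin (N / 2), ∃ (β : Wall (N / 2)) (c : ℂ), c ≠ 0 ∧
      ∀ x : Fin (N / 2) → ℂ, x i + x j = c * el β x := by
    intro i j
    rcases lt_trichotomy i j with h | h | h
    · exact ⟨.I i j h (-1), 1, one_ne_zero, fun x => by simp [el]⟩
    · subst h
      exact ⟨.II i, 2, by norm_num, fun x => by simp [el]; ring⟩
    · exact ⟨.I j i h (-1), 1, one_ne_zero, fun x => by simp [el]; ring⟩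
  rcases idx_cases p with ⟨i, rfl⟩ | ⟨i, rfl⟩ | hp <;>
    rcases idx_cases q with ⟨j, rfl⟩ | ⟨j, rfl⟩ | hq
  · obtain ⟨β, c, hc, hx⟩ := hA i j (fun h' => h (by rw [h']))
    exact ⟨β, c, hc, fun x => by rw [xx_up, xx_up, hx]⟩
  · obtain ⟨β, c, hc, hx⟩ := hB i j
    exact ⟨β, c, hc, fun x => by rw [xx_up, xx_rev_up, sub_neg_eq_add, hx]⟩
  · exact ⟨.II i, 1, one_ne_zero, fun x => by rw [xx_up, xx_mid x q hq]; simp [el]⟩
  · obtain ⟨β, c, hc, hx⟩ := hB i j
    exact ⟨β, -c, neg_ne_zero.2 hc, fun x => by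
      rw [xx_up, xx_rev_up, neg_mul, ← hx]; ring⟩
  · obtain ⟨β, c, hc, hx⟩ := hA i j (fun h' => h (by rw [h']))
    exact ⟨β, -c, neg_ne_zero.2 hc, fun x => by
      rw [xx_rev_up, xx_rev_up, neg_mul, ← hx]; ring⟩
  · exact ⟨.II i, -1, by norm_num, fun x => by rw [xx_rev_up, xx_mid x q hq]; simp [el]⟩
  · exact ⟨.II j, -1, by norm_num, fun x => by rw [xx_up, xx_mid x p hp]; simp [el]⟩
  · exact ⟨.II j, 1, one_ne_zero, fun x => by rw [xx_rev_up, xx_mid x p hp]; simp [el]⟩
  · exfalso
    apply h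
    rw [Fin.ext_iff]
    omega

/-- the form of a wall does not vanish at regular points -/
theorem el_ne_zero {x : Fin (N / 2) → ℂ} (hx : IsRegx (N := N) x) (β : Wall (N / 2)) :
    el β x ≠ 0 := by
  cases β with
  | I i j h σ =>
    rcases Int.units_eq_one_or σ with rfl | rfl
    · have := hx (up i) (up j) (fun h' => (ne_of_lt h) (up_inj.1 h'))
      rw [xx_up, xx_up] at this
      simp only [el, Units.val_one, Int.cast_one, one_mul]
      exact sub_ne_zero.2 this
    · have := hx (up i) (Fin.rev (up j)) (up_ne_rev_up i j)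
      rw [xx_up, xx_rev_up] at this
      simp only [el, Units.val_neg, Units.val_one, Int.cast_neg, Int.cast_one]
      intro h0
      apply this
      linear_combination h0
  | II i =>
    have := hx (up i) (Fin.rev (up i)) (up_ne_rev_up i i)
    rw [xx_up, xx_rev_up] at this
    simp only [el]
    intro h0
    apply this
    rw [h0]; simp

/-- clearing denominators -/
theorem Rt_clear {Y σ : Type*} {X : Y → RegX N} {S : Set (Y → ℂ)} (v : Y → σ → ℂ)
    (hS : ∀ f ∈ S, ∃ i, f = fun y => v y i) (f : Y → ℂ) (hf : f ∈ Rt X S) :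
    ∃ (L : List (Wall (N / 2))) (P : MvPolynomial (σ ⊕ Fin (N / 2)) ℂ), ∀ y,
      (L.map fun β => MvPolynomial.eval (X y).1 (ell β)).prod * f y =
        MvPolynomial.eval (Sum.elim (v y) (X y).1) P := by
  classical
  have hlist : ∀ L : List (Wall (N / 2)), ∀ y,
      MvPolynomial.eval (Sum.elim (v y) (X y).1)
        ((L.map fun β => MvPolynomial.rename (Sum.inr : Fin (N / 2) → σ ⊕ Fin (N / 2)) (ell β)).prod) =
      (L.map fun β => MvPolynomial.eval (X y).1 (ell β)).prod := by
    intro L y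
    induction L with
    | nil => simp
    | cons β L ih =>
      simp only [List.map_cons, List.prod_cons, map_mul, ih, MvPolynomial.eval_rename,
        Sum.elim_comp_inr]
  refine Algebra.adjoin_induction (p := fun f _ => ∃ (L : List (Wall (N / 2)))
    (P : MvPolynomial (σ ⊕ Fin (N / 2)) ℂ), ∀ y,
      (L.map fun β => MvPolynomial.eval (X y).1 (ell β)).prod * f y =
        MvPolynomial.eval (Sum.elim (v y) (X y).1) P) ?_ ?_ ?_ ?_ hf
  · rintro f ((hf | ⟨k, rfl⟩) | ⟨p, q, hpq, rfl⟩)
    · obtain ⟨i, rfl⟩ := hS f hf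
      exact ⟨[], MvPolynomial.X (Sum.inl i), fun y => by simp⟩
    · exact ⟨[], MvPolynomial.X (Sum.inr k), fun y => by simp⟩
    · obtain ⟨β, c, hc, hx⟩ := xx_sub_eq p q hpq
      refine ⟨[β], MvPolynomial.C c⁻¹, fun y => ?_⟩
      have h1 := el_ne_zero (X y).2 β
      simp only [List.map_cons, List.map_nil, List.prod_cons, List.prod_nil, mul_one, eval_ell,
        hx, MvPolynomial.eval_C]
      field_simp
  · intro r
    exact ⟨[], MvPolynomial.C r, fun y => by simp [Pi.algebraMap_apply]⟩
  · rintro f g _ _ ⟨L, P, hP⟩ ⟨L', P', hP'⟩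
    refine ⟨L ++ L', P * (L'.map fun β => MvPolynomial.rename Sum.inr (ell β)).prod +
      P' * (L.map fun β => MvPolynomial.rename Sum.inr (ell β)).prod, fun y => ?_⟩
    rw [map_add, map_mul, map_mul, hlist, hlist, ← hP, ← hP', List.map_append, List.prod_append,
      Pi.add_apply]
    ring
  · rintro f g _ _ ⟨L, P, hP⟩ ⟨L', P', hP'⟩
    refine ⟨L ++ L', P * P', fun y => ?_⟩
    rw [map_mul, ← hP, ← hP', List.map_append, List.prod_append, Pi.mul_apply]
    ring

/-! ## Generic points of a wall -/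

theorem exists_generic {E : Type*} [AddCommGroup E] [Module ℂ E] {ι : Type*} [Finite ι]
    (f : ι → (E →ₗ[ℂ] ℂ)) (hf : ∀ i, f i ≠ 0) : ∃ x, ∀ i, f i x ≠ 0 := by
  by_contra h
  push Not at h
  have : ⋃ i, ((LinearMap.ker (f i) : Submodule ℂ E) : Set E) = Set.univ := by
    rw [Set.eq_univ_iff_forall]
    intro x
    obtain ⟨i, hi⟩ := h x
    exact Set.mem_iUnion.2 ⟨i, hi⟩
  obtain ⟨i, hi⟩ := Subspace.exists_eq_top_of_iUnion_eq_univ this
  exact hf i (LinearMap.ker_eq_top.1 hi)

/-- `x ↦ xx x p` as a linear form -/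
noncomputable def xxL (p : Fin N) : (Fin (N / 2) → ℂ) →ₗ[ℂ] ℂ where
  toFun x := xx x p
  map_add' x y := by simp [xx, mul_add, Finset.sum_add_distrib]
  map_smul' c x := by simp [xx, Finset.mul_sum]; congr 1; funext k; ring

theorem xx_add_smul (x v : Fin (N / 2) → ℂ) (t : ℂ) (p : Fin N) :
    xx (x + t • v) p = xx x p + t * xx v p := by
  have h1 := (xxL (N := N) p).map_add x (t • v)
  have h2 := (xxL (N := N) p).map_smul t v
  simp only [smul_eq_mul] at h2
  rw [h2] at h1
  exact h1

/-- the form of a wall as a linear form -/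
noncomputable def elL (β : Wall (N / 2)) : (Fin (N / 2) → ℂ) →ₗ[ℂ] ℂ where
  toFun x := el β x
  map_add' x y := by cases β <;> simp [el] <;> ring
  map_smul' c x := by cases β <;> simp [el] <;> ring

theorem el_add_smul (β : Wall (N / 2)) (x v : Fin (N / 2) → ℂ) (t : ℂ) :
    el β (x + t • v) = el β x + t * el β v := by
  have h1 := (elL β).map_add x (t • v)
  have h2 := (elL β).map_smul t v
  simp only [smul_eq_mul] at h2
  rw [h2] at h1
  exact h1

/-- generic points of a wall -/
def GenW (β : Wall (N / 2)) (x : Fin (N / 2) → ℂ) : Prop :=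
  el β x = 0 ∧ ∀ p q : Fin N, (∃ x' : Fin (N / 2) → ℂ, el β x' = 0 ∧ xx x' p ≠ xx x' q) →
    xx x p ≠ xx x q

theorem exists_genW (β : Wall (N / 2)) : ∃ x, GenW (N := N) β x := by
  classical
  let ι := {pq : Fin N × Fin N // ∃ x' : Fin (N / 2) → ℂ, el β x' = 0 ∧ xx x' pq.1 ≠ xx x' pq.2}
  obtain ⟨x, hx⟩ := exists_generic (E := LinearMap.ker (elL β)) (ι := ι)
    (fun i => ((xxL i.1.1) - (xxL i.1.2)).comp (LinearMap.ker (elL β)).subtype) (by
      rintro ⟨⟨p, q⟩, x', hx', hne⟩ h0
      have := LinearMap.congr_fun h0 ⟨x', hx'⟩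
      simp only [LinearMap.comp_apply, Submodule.subtype_apply, LinearMap.sub_apply,
        LinearMap.zero_apply] at this
      exact hne (sub_eq_zero.1 this))
  refine ⟨x.1, x.2, fun p q h => ?_⟩
  have := hx ⟨(p, q), h⟩
  simp only [LinearMap.comp_apply, Submodule.subtype_apply, LinearMap.sub_apply] at this
  exact sub_ne_zero.1 this

/-- a regular vector exists -/
theorem exists_regx (N : ℕ) : ∃ x : Fin (N / 2) → ℂ, IsRegx (N := N) x := by
  classical
  refine ⟨fun k => (k : ℂ) + 1, ?_⟩
  have hup : ∀ k : Fin (N / 2), (k : ℂ) + 1 ≠ 0 := fun k => by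
    have : ((k : ℕ) : ℂ) + 1 = (((k : ℕ) + 1 : ℕ) : ℂ) := by push_cast; ring
    rw [this]
    exact Nat.cast_ne_zero.2 (Nat.succ_ne_zero _)
  have hadd : ∀ k l : Fin (N / 2), ((k : ℕ) : ℂ) + 1 ≠ - (((l : ℕ) : ℂ) + 1) := fun k l h => by
    have : (((k : ℕ) + 1 + (l + 1) : ℕ) : ℂ) = 0 := by push_cast; linear_combination h
    have h2 : ((k : ℕ) + 1 + (l + 1)) = 0 := by exact_mod_cast this
    omega
  have hinj : ∀ k l : Fin (N / 2), ((k : ℕ) : ℂ) + 1 = ((l : ℕ) : ℂ) + 1 → k = l := fun k l h => by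
    have h1 : ((k : ℕ) : ℂ) = ((l : ℕ) : ℂ) := by linear_combination h
    exact Fin.ext (by exact_mod_cast h1)
  intro p q hpq heq
  rcases idx_cases p with ⟨i, rfl⟩ | ⟨i, rfl⟩ | hp <;>
    rcases idx_cases q with ⟨j, rfl⟩ | ⟨j, rfl⟩ | hq <;>
    try simp only [xx_up, xx_rev_up] at heq
  · exact hpq (by rw [hinj i j heq])
  · exact hadd i j heq
  · rw [xx_mid _ q hq] at heq; exact hup i heq
  · exact hadd j i heq.symm
  · exact hpq (by rw [hinj i j (neg_inj.1 heq)])
  · rw [xx_mid _ q hq, neg_eq_zero] at heq; exact hup i heq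
  · rw [xx_mid _ p hp] at heq; exact hup j heq.symm
  · rw [xx_mid _ p hp, eq_comm, neg_eq_zero] at heq; exact hup j heq
  · exact hpq (Fin.ext (by omega))

/-! ## Order of vanishing of `Eu` -/

/-- products of affine linear functions -/
theorem prod_affine {κ : Type*} [DecidableEq κ] (s : Finset κ) (a c : κ → ℂ) (d : ℕ)
    (hd : d ≤ (s.filter fun k => a k = 0).card) :
    ∃ E : ℂ → ℂ, Continuous E ∧ ∀ t, ∏ k ∈ s, (a k + t * c k) = t ^ d * E t := by
  set T := s.filter fun k => a k = 0
  refine ⟨fun t => t ^ (T.card - d) * (∏ k ∈ T, c k) * ∏ k ∈ s.filter (fun k => ¬ a k = 0),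
    (a k + t * c k), by fun_prop, fun t => ?_⟩
  rw [← Finset.prod_filter_mul_prod_filter_not s (fun k => a k = 0)]
  have h1 : ∏ k ∈ T, (a k + t * c k) = t ^ T.card * ∏ k ∈ T, c k := by
    rw [← Finset.prod_const, ← Finset.prod_mul_distrib]
    refine Finset.prod_congr rfl fun k hk => ?_
    rw [(Finset.mem_filter.1 hk).2, zero_add]
  rw [h1]
  have h2 : t ^ T.card = t ^ d * t ^ (T.card - d) := by
    rw [← pow_add]; congr 1; omega
  rw [h2]
  ring

/-- order of vanishing of `Ek` along a wall -/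
theorem Ek_order (β : Wall (N / 2)) (k : Fin (N / 2)) (x v : Fin (N / 2) → ℂ)
    (hx : el β x = 0) :
    ∃ E : ℂ → ℂ, Continuous E ∧ ∀ t, Ek (N := N) ((k : ℕ) + 1) (x + t • v) =
      t ^ (cv N β (lam (Finsupp.single k 1))).toNat * E t := by
  classical
  have hE : ∀ t, Ek (N := N) ((k : ℕ) + 1) (x + t • v) =
      ∏ pq ∈ (Finset.univ : Finset (Fin N × Fin N)).filter
        (fun pq => (pq.1 : ℕ) < (k : ℕ) + 1 ∧ (k : ℕ) + 1 ≤ (pq.2 : ℕ)),
        ((xx x pq.1 - xx x pq.2) + t * (xx v pq.1 - xx v pq.2)) := by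
    intro t
    unfold Ek
    rw [← Finset.prod_product', Finset.prod_filter]
    refine Finset.prod_congr rfl fun pq _ => ?_
    split_ifs with h
    · rw [xx_add_smul, xx_add_smul]; ring
    · rfl
  simp only [hE]
  refine prod_affine _ _ _ _ ?_
  rw [Finset.filter_filter]
  have hk := k.2
  have hup : ∀ i : Fin (N / 2), ((up i : Fin N) : ℕ) = i := fun i => rfl
  have hrup : ∀ i : Fin (N / 2), ((Fin.rev (up i : Fin N) : Fin N) : ℕ) = N - (i + 1) := fun i => by
    rw [Fin.val_rev]; rfl
  cases β with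
  | I i j h σ =>
    have hij : (i : ℕ) < j := h
    have hi := i.2
    have hj := j.2
    simp only [cv, lam_single]
    rcases Int.units_eq_one_or σ with rfl | rfl
    · simp only [el, Units.val_one, Int.cast_one, one_mul, sub_eq_zero] at hx
      by_cases h1 : i ≤ k
      · by_cases h2 : j ≤ k
        · simp [h1, h2]
        · have h2' : (k : ℕ) < j := not_le.1 h2
          have h1' : (i : ℕ) ≤ k := h1
          simp only [h1, h2, if_true, if_false]
          refine le_trans (by simp) (Finset.card_pos.2 ⟨((up i : Fin N), (up j : Fin N)), ?_⟩)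
          simp only [Finset.mem_filter, Finset.mem_univ, true_and, hup, xx_up, hx, sub_self,
            and_true]
          omega
      · have h2 : ¬ j ≤ k := fun h2 => h1 (h.le.trans h2)
        simp [h1, h2]
    · simp only [el, Units.val_neg, Units.val_one, Int.cast_neg, Int.cast_one, neg_mul, one_mul,
        sub_neg_eq_add] at hx
      have m1 : (i : ℕ) ≤ k → ((up i : Fin N), Fin.rev (up j : Fin N)) ∈
          (Finset.univ : Finset (Fin N × Fin N)).filter (fun pq =>
            ((pq.1 : ℕ) < (k : ℕ) + 1 ∧ (k : ℕ) + 1 ≤ (pq.2 : ℕ)) ∧ xx x pq.1 - xx x pq.2 = 0) := by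
        intro h1
        simp only [Finset.mem_filter, Finset.mem_univ, true_and, hup, hrup, xx_up, xx_rev_up,
          sub_neg_eq_add, hx, and_true]
        omega
      have m2 : (j : ℕ) ≤ k → ((up j : Fin N), Fin.rev (up i : Fin N)) ∈
          (Finset.univ : Finset (Fin N × Fin N)).filter (fun pq =>
            ((pq.1 : ℕ) < (k : ℕ) + 1 ∧ (k : ℕ) + 1 ≤ (pq.2 : ℕ)) ∧ xx x pq.1 - xx x pq.2 = 0) := by
        intro h1
        have hx' : x j + x i = 0 := by rw [add_comm]; exact hx
        simp only [Finset.mem_filter, Finset.mem_univ, true_and, hup, hrup, xx_up, xx_rev_up,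
          sub_neg_eq_add, hx', and_true]
        omega
      by_cases h1 : i ≤ k
      · by_cases h2 : j ≤ k
        · simp only [h1, h2, if_true]
          have hne : ((up i : Fin N), Fin.rev (up j : Fin N)) ≠ ((up j : Fin N), Fin.rev (up i : Fin N)) := by
            intro h'
            exact (ne_of_lt h) (up_inj.1 (Prod.ext_iff.1 h').1)
          have := Finset.card_pair hne
          refine le_trans (le_of_eq ?_) (Finset.card_le_card (s := {((up i : Fin N), Fin.rev (up j : Fin N)), ((up j : Fin N), Fin.rev (up i : Fin N))}) ?_)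
          · rw [this]; norm_num; rfl
          · intro a ha
            rcases Finset.mem_insert.1 ha with rfl | ha
            · exact m1 h1
            · rw [Finset.mem_singleton.1 ha]; exact m2 h2
        · simp only [h1, h2, if_true, if_false]
          exact le_trans (by simp) (Finset.card_pos.2 ⟨_, m1 h1⟩)
      · have h2 : ¬ j ≤ k := fun h2 => h1 (h.le.trans h2)
        simp [h1, h2]
  | II i =>
    have hi := i.2
    simp only [el] at hx
    simp only [cv, lam_single]
    have m1 : (i : ℕ) ≤ k → ((up i : Fin N), Fin.rev (up i : Fin N)) ∈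
        (Finset.univ : Finset (Fin N × Fin N)).filter (fun pq =>
          ((pq.1 : ℕ) < (k : ℕ) + 1 ∧ (k : ℕ) + 1 ≤ (pq.2 : ℕ)) ∧ xx x pq.1 - xx x pq.2 = 0) := by
      intro h1
      simp only [Finset.mem_filter, Finset.mem_univ, true_and, hup, hrup, xx_up, xx_rev_up, hx,
        neg_zero, sub_self, and_true]
      omega
    by_cases h1 : i ≤ k
    · by_cases hN : Odd N
      · have hmid : N / 2 < N := by
          obtain ⟨r, hr⟩ := hN
          omega
        have hmid2 : 2 * (N / 2) + 1 = N := by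
          obtain ⟨r, hr⟩ := hN
          omega
        have m2 : ((up i : Fin N), (⟨N / 2, hmid⟩ : Fin N)) ∈
            (Finset.univ : Finset (Fin N × Fin N)).filter (fun pq =>
              ((pq.1 : ℕ) < (k : ℕ) + 1 ∧ (k : ℕ) + 1 ≤ (pq.2 : ℕ)) ∧
                xx x pq.1 - xx x pq.2 = 0) := by
          have h1' : (i : ℕ) ≤ k := h1
          have := xx_mid x (⟨N / 2, hmid⟩ : Fin N) hmid2
          simp only [Finset.mem_filter, Finset.mem_univ, true_and, hup, xx_up, hx, this, sub_self,
            and_true]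
          omega
        simp only [hN, h1, if_true]
        have hne : ((up i : Fin N), Fin.rev (up i : Fin N)) ≠ ((up i : Fin N), (⟨N / 2, hmid⟩ : Fin N)) := by
          intro h'
          have h2 := congrArg Fin.val (Prod.ext_iff.1 h').2
          rw [hrup] at h2
          simp only at h2
          omega
        have := Finset.card_pair hne
        refine le_trans (le_of_eq ?_) (Finset.card_le_card (s := {((up i : Fin N), Fin.rev (up i : Fin N)), ((up i : Fin N), (⟨N / 2, hmid⟩ : Fin N))}) ?_)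
        · rw [this]; norm_num; rfl
        · intro a ha
          rcases Finset.mem_insert.1 ha with rfl | ha
          · exact m1 h1
          · rw [Finset.mem_singleton.1 ha]; exact m2
      · simp only [hN, h1, if_true, if_false]
        exact le_trans (by simp) (Finset.card_pos.2 ⟨_, m1 h1⟩)
    · simp [h1]

theorem cv_sum {κ : Type*} (β : Wall (N / 2)) (s : Finset κ) (f : κ → Fin (N / 2) → ℤ) :
    cv N β (∑ k ∈ s, f k) = ∑ k ∈ s, cv N β (f k) := by
  cases β with
  | I i j h σ =>
    simp only [cv, Finset.sum_apply, Finset.mul_sum, Finset.sum_sub_distrib]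
  | II i =>
    simp only [cv, Finset.sum_apply]
    split_ifs
    · rw [Finset.mul_sum]
    · rfl

theorem cv_lam_nonneg (β : Wall (N / 2)) (m : Fin (N / 2) →₀ ℕ) : 0 ≤ cv N β (lam m) := by
  cases β with
  | I i j h σ =>
    have h1 := lam_nonneg m i
    have h2 := lam_nonneg m j
    simp only [cv]
    rcases Int.units_eq_one_or σ with rfl | rfl
    · simp only [Units.val_one, one_mul, sub_nonneg]
      unfold lam
      refine Finset.sum_le_sum fun k _ => ?_
      by_cases hj : j ≤ k
      · simp [hj, h.le.trans hj]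
      · simp only [hj, if_false]
        split_ifs <;> simp
    · simp only [Units.val_neg, Units.val_one]
      linarith
  | II i =>
    have h1 := lam_nonneg m i
    simp only [cv]
    split_ifs <;> linarith

theorem cv_lam (β : Wall (N / 2)) (m : Fin (N / 2) →₀ ℕ) :
    cv N β (lam m) = ∑ k, (m k : ℤ) * cv N β (lam (Finsupp.single k 1)) := by
  have h1 : lam m = ∑ k, (m k : ℤ) • lam (Finsupp.single k 1) := by
    funext i
    simp only [Finset.sum_apply, Pi.smul_apply, lam_single, smul_eq_mul]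
    unfold lam
    refine Finset.sum_congr rfl fun k _ => ?_
    split_ifs <;> simp
  have h2 : ∀ (c : ℤ) (μ : Fin (N / 2) → ℤ), cv N β (c • μ) = c * cv N β μ := by
    intro c μ
    cases β with
    | I i j h σ => simp only [cv, Pi.smul_apply, smul_eq_mul]; ring
    | II i => simp only [cv, Pi.smul_apply, smul_eq_mul]; split_ifs <;> ring
  rw [h1, cv_sum]
  simp only [h2]

/-- order of vanishing of `Eu` along a wall -/
theorem Eu_order (β : Wall (N / 2)) (m : Fin (N / 2) →₀ ℕ) (x v : Fin (N / 2) → ℂ)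
    (hx : el β x = 0) :
    ∃ E : ℂ → ℂ, Continuous E ∧ ∀ t, Eu (N := N) m (x + t • v) =
      t ^ (cv N β (lam m)).toNat * E t := by
  choose E hE hE' using fun k => Ek_order β k x v hx
  refine ⟨fun t => ∏ k, E k t ^ m k, by fun_prop, fun t => ?_⟩
  unfold Eu
  simp only [hE', mul_pow, Finset.prod_mul_distrib]
  congr 1
  simp only [← pow_mul]
  rw [Finset.prod_pow_eq_pow_sum]
  congr 1
  have h := cv_lam β m
  have h2 : (((∑ k, (cv N β (lam (Finsupp.single k 1))).toNat * m k : ℕ)) : ℤ) =
      cv N β (lam m) := by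
    rw [h]
    push_cast
    refine Finset.sum_congr rfl fun k _ => ?_
    rw [Int.toNat_of_nonneg (cv_lam_nonneg β _), mul_comm]
  rw [← h2, Int.toNat_natCast]

end walls

end Pool.Agent.MP_c45d35_ag
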