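import Pool.Agent.MP_c45d35_ag.PoleA

namespace Pool.Agent.MP_c45d35_ag

open Matrix Filter Topology

section cayley
variable {N b : ℕ}

/-- the sign: `1` for odd `N`, `-1` for even `N` -/
noncomputable def sg (N : ℕ) : ℂ := if Odd N then 1 else -1

theorem sg_sq (N : ℕ) : sg N ^ 2 = 1 := by
  unfold sg; split_ifs <;> norm_num

theorem sg_mul_self (N : ℕ) : sg N * sg N = 1 := by
  rw [← pow_two, sg_sq]

theorem sg_ne_zero (N : ℕ) : sg N ≠ 0 := by
  intro h
  have := sg_sq N
  rw [h] at this
  norm_num at this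

/-- the Cayley parameter -/
noncomputable def cy (N : ℕ) (c z : ℂ) : ℂ := sg N * ((c + z) / (c - z))

/-- the monomial `∏ cy(x_k)^{ν_k}` -/
noncomputable def av (N : ℕ) (c : ℂ) (ν : Fin (N / 2) → ℤ) (x : Fin (N / 2) → ℂ) : ℂ :=
  ∏ k, cy N c (x k) ^ ν k

theorem cy_ne_zero {c z : ℂ} (h1 : c ≠ z) (h2 : c ≠ -z) : cy N c z ≠ 0 := by
  unfold cy
  refine mul_ne_zero (sg_ne_zero N) (div_ne_zero ?_ (sub_ne_zero.2 h1))
  intro h
  exact h2 (by linear_combination h)

theorem cy_neg {c z : ℂ} : cy N c (-z) = (cy N c z)⁻¹ := by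
  unfold cy
  rw [mul_inv, inv_div, sub_neg_eq_add, ← sub_eq_add_neg]
  congr 1
  rw [eq_comm]
  exact inv_eq_of_mul_eq_one_left (sg_mul_self N)

/-- existence of a good Cayley parameter -/
theorem exists_c (β : Wall (N / 2)) (x0 : Fin (N / 2) → ℂ) (hx0 : GenW β x0)
    (M : Finset (Fin (N / 2) → ℤ)) (hM : ∀ ν ∈ M, ∀ k : ℤ, ν ≠ k • al N β) :
    ∃ c : ℂ, c ≠ 0 ∧ (∀ k, c ≠ x0 k ∧ c ≠ - x0 k) ∧ ∀ ν ∈ M, av N c ν x0 ≠ 1 := by
  classical
  have key : ∀ ν ∈ M, {c : ℂ | (∀ k, c ≠ x0 k ∧ c ≠ - x0 k) ∧ c ≠ 0 ∧ av N c ν x0 = 1}.Finite := by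
    intro ν hν
    cases β with
    | I i j h σ =>
      have hij : i ≠ j := ne_of_lt h
      have hσ := sigma_sq σ
      have hσ' : (σ : ℤ) * (σ : ℤ) = 1 := by
        rcases Int.units_eq_one_or σ with rfl | rfl <;> simp
      have hw : x0 i = ((σ : ℤ) : ℂ) * x0 j := sub_eq_zero.1 hx0.1
      have hw' : x0 j = ((σ : ℤ) : ℂ) * x0 i := by rw [hw, ← mul_assoc, hσ, one_mul]
      -- test points of the wall
      have hpt : ∀ l : Fin (N / 2), l ≠ j → ∃ x' : Fin (N / 2) → ℂ,
          el (.I i j h σ) x' = 0 ∧ x' l = 1 ∧ ∀ l', l' ≠ j → l' ≠ l → x' l' = 0 := by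
        intro l hl
        by_cases hli : l = i
        · subst hli
          refine ⟨fun k => if k = l then 1 else if k = j then ((σ : ℤ) : ℂ) else 0, ?_, ?_, ?_⟩
          · simp [el, hl.symm, hσ]
          · simp
          · intro l' h1 h2; simp [h1, h2]
        · refine ⟨fun k => if k = l then 1 else 0, ?_, ?_, ?_⟩
          · simp [el, Ne.symm hli, hl.symm]
          · simp
          · intro l' h1 h2; simp [h2]
      have h0 : ∀ l : Fin (N / 2), l ≠ j → x0 l ≠ 0 := by
        intro l hl hz
        obtain ⟨x', hx', h1, -⟩ := hpt l hl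
        have := hx0.2 (up l) (Fin.rev (up l)) ⟨x', hx', by
          rw [xx_up, xx_rev_up, h1]; norm_num⟩
        rw [xx_up, xx_rev_up, hz] at this
        simp at this
      have h1 : ∀ l l' : Fin (N / 2), l ≠ j → l' ≠ j → l ≠ l' → x0 l ≠ x0 l' ∧ x0 l ≠ - x0 l' := by
        intro l l' hl hl' hne
        obtain ⟨x', hx', h1, h2⟩ := hpt l hl
        have h3 := h2 l' hl' hne.symm
        constructor
        · have := hx0.2 (up l) (up l') ⟨x', hx', by rw [xx_up, xx_up, h1, h3]; norm_num⟩
          rwa [xx_up, xx_up] at this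
        · have := hx0.2 (up l) (Fin.rev (up l')) ⟨x', hx', by
            rw [xx_up, xx_rev_up, h1, h3]; norm_num⟩
          rwa [xx_up, xx_rev_up] at this
      -- the reduced exponents
      let J := {l : Fin (N / 2) // l ≠ j}
      let ν' : J → ℤ := fun l => ν l.1 + if l.1 = i then (σ : ℤ) * ν j else 0
      have hν' : ν' ≠ 0 := by
        intro h'
        refine hM ν hν (ν i) ?_
        have e1 : ν i + (σ : ℤ) * ν j = 0 := by
          have := congrFun h' ⟨i, hij⟩
          simpa [ν'] using this
        have e2 : ∀ l, l ≠ j → l ≠ i → ν l = 0 := by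
          intro l hl hli
          have := congrFun h' ⟨l, hl⟩
          simpa [ν', hli] using this
        funext l
        simp only [al, Pi.smul_apply, Pi.sub_apply, Pi.single_apply, smul_eq_mul]
        by_cases hl : l = i
        · subst hl
          simp [hij]
        · by_cases hl' : l = j
          · subst hl'
            simp only [hl, if_true, if_false]
            have : ν l = (σ : ℤ) * (σ : ℤ) * ν l := by rw [hσ', one_mul]
            rw [this]
            linear_combination (σ : ℤ) * e1
          · simp [hl, hl', e2 l hl' hl]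
      refine (gen_finite (fun l : J => x0 l.1) (fun l => h0 _ l.2)
        (fun l l' hne => h1 _ _ l.2 l'.2 (fun h' => hne (Subtype.ext h'))) (sg N) (sg_sq N)
        ν' hν').subset ?_
      rintro c ⟨hc, hc0, hav⟩
      refine ⟨fun l => hc l.1, ?_⟩
      rw [← hav]
      unfold av
      rw [Fintype.prod_eq_mul_prod_subtype_ne (fun k => cy N c (x0 k) ^ ν k) j]
      have hne : ∀ k, cy N c (x0 k) ≠ 0 := fun k => cy_ne_zero (hc k).1 (hc k).2
      have hjp : cy N c (x0 j) ^ ν j = cy N c (x0 i) ^ ((σ : ℤ) * ν j) := by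
        rw [hw']
        rcases Int.units_eq_one_or σ with rfl | rfl
        · simp
        · simp only [Units.val_neg, Units.val_one, Int.cast_neg, Int.cast_one, neg_mul, one_mul,
            cy_neg, _root_.inv_zpow']
      have hprod : ∏ l : J, (sg N * ((c + x0 l.1) / (c - x0 l.1))) ^ ν' l =
          (∏ l : J, cy N c (x0 l.1) ^ ν l.1) *
            ∏ l : J, (if l.1 = i then cy N c (x0 i) ^ ((σ : ℤ) * ν j) else 1) := by
        rw [← Finset.prod_mul_distrib]
        refine Finset.prod_congr rfl fun l _ => ?_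
        show cy N c (x0 l.1) ^ ν' l = _
        by_cases hl : l.1 = i
        · simp only [ν', hl, if_true]
          rw [zpow_add₀ (hne i)]
        · simp only [ν', hl, if_false, add_zero, mul_one]
      rw [hprod, hjp, mul_comm]
      congr 1
      have : (fun l : J => if l.1 = i then cy N c (x0 i) ^ ((σ : ℤ) * ν j) else 1) =
          fun l : J => if l = ⟨i, hij⟩ then cy N c (x0 i) ^ ((σ : ℤ) * ν j) else 1 := by
        funext l
        congr 1
        exact propext (Subtype.ext_iff (a1 := l) (a2 := ⟨i, hij⟩)).symm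
      rw [this, Finset.prod_ite_eq' Finset.univ (⟨i, hij⟩ : J)
        (fun _ => cy N c (x0 i) ^ ((σ : ℤ) * ν j))]
      simp
    | II i =>
      have hw : x0 i = 0 := hx0.1
      have hpt : ∀ l : Fin (N / 2), l ≠ i → ∃ x' : Fin (N / 2) → ℂ,
          el (N := N) (.II i) x' = 0 ∧ x' l = 1 ∧ ∀ l', l' ≠ l → x' l' = 0 := by
        intro l hl
        refine ⟨fun k => if k = l then 1 else 0, ?_, ?_, ?_⟩
        · simp [el, hl.symm]
        · simp
        · intro l' h2; simp [h2]
      have h0 : ∀ l : Fin (N / 2), l ≠ i → x0 l ≠ 0 := by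
        intro l hl hz
        obtain ⟨x', hx', h1, -⟩ := hpt l hl
        have := hx0.2 (up l) (Fin.rev (up l)) ⟨x', hx', by
          rw [xx_up, xx_rev_up, h1]; norm_num⟩
        rw [xx_up, xx_rev_up, hz] at this
        simp at this
      have h1 : ∀ l l' : Fin (N / 2), l ≠ i → l' ≠ i → l ≠ l' → x0 l ≠ x0 l' ∧ x0 l ≠ - x0 l' := by
        intro l l' hl hl' hne
        obtain ⟨x', hx', h1, h2⟩ := hpt l hl
        have h3 := h2 l' hne.symm
        constructor
        · have := hx0.2 (up l) (up l') ⟨x', hx', by rw [xx_up, xx_up, h1, h3]; norm_num⟩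
          rwa [xx_up, xx_up] at this
        · have := hx0.2 (up l) (Fin.rev (up l')) ⟨x', hx', by
            rw [xx_up, xx_rev_up, h1, h3]; norm_num⟩
          rwa [xx_up, xx_rev_up] at this
      let J := {l : Fin (N / 2) // l ≠ i}
      have hcy : ∀ c : ℂ, c ≠ 0 → cy N c (x0 i) = sg N := by
        intro c hc
        rw [hw]
        unfold cy
        rw [add_zero, sub_zero, div_self hc, mul_one]
      have hsplit : ∀ c : ℂ, c ≠ 0 → av N c ν x0 =
          sg N ^ ν i * ∏ l : J, cy N c (x0 l.1) ^ ν l.1 := by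
        intro c hc
        unfold av
        rw [Fintype.prod_eq_mul_prod_subtype_ne (fun k => cy N c (x0 k) ^ ν k) i, hcy c hc]
      by_cases hJ : ∀ l : J, ν l.1 = 0
      · -- empty bad set
        have hνi : ν = Pi.single i (ν i) := by
          funext l
          by_cases hl : l = i
          · subst hl; simp
          · rw [hJ ⟨l, hl⟩]; simp [hl]
        refine Set.Finite.subset Set.finite_empty ?_
        rintro c ⟨hc, hc0, hav⟩
        rw [hsplit c hc0] at hav
        have : (∏ l : J, cy N c (x0 l.1) ^ ν l.1) = 1 :=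
          Finset.prod_eq_one fun l _ => by rw [hJ l, zpow_zero]
        rw [this, mul_one] at hav
        exfalso
        by_cases hN : Odd N
        · refine hM ν hν (ν i) ?_
          rw [hνi]
          simp only [al, hN, if_true]
          funext l
          simp [Pi.single_apply]
        · rcases Int.even_or_odd (ν i) with ⟨r, hr⟩ | ⟨r, hr⟩
          · refine hM ν hν r ?_
            rw [hνi, hr]
            simp only [al, hN, if_false]
            funext l
            simp only [Pi.single_apply, Pi.smul_apply, smul_eq_mul]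
            split_ifs
            · ring
            · simp
          · rw [hr] at hav
            simp only [sg, hN, if_false] at hav
            rw [zpow_add₀ (by norm_num), _root_.zpow_mul] at hav
            norm_num at hav
      · push Not at hJ
        let ν' : J → ℤ := fun l => 2 * ν l.1
        have hν' : ν' ≠ 0 := by
          intro h'
          obtain ⟨l, hl⟩ := hJ
          have := congrFun h' l
          simp only [ν', Pi.zero_apply] at this
          omega
        refine (gen_finite (fun l : J => x0 l.1) (fun l => h0 _ l.2)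
          (fun l l' hne => h1 _ _ l.2 l'.2 (fun h' => hne (Subtype.ext h'))) (sg N) (sg_sq N)
          ν' hν').subset ?_
        rintro c ⟨hc, hc0, hav⟩
        refine ⟨fun l => hc l.1, ?_⟩
        rw [hsplit c hc0] at hav
        have h2 : (∏ l : J, (sg N * ((c + x0 l.1) / (c - x0 l.1))) ^ ν' l) =
            (sg N ^ ν i * ∏ l : J, cy N c (x0 l.1) ^ ν l.1) ^ 2 := by
          rw [mul_pow, ← zpow_natCast (sg N ^ ν i), ← _root_.zpow_mul, mul_comm (ν i), _root_.zpow_mul]
          have : sg N ^ ((2 : ℕ) : ℤ) = 1 := by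
            rw [zpow_natCast, sg_sq]
          rw [this, _root_.one_zpow, one_mul, ← Finset.prod_pow]
          refine Finset.prod_congr rfl fun l _ => ?_
          show cy N c (x0 l.1) ^ (2 * ν l.1) = _
          rw [← zpow_natCast, ← _root_.zpow_mul, mul_comm]
          rfl
        rw [h2, hav, one_pow]
  -- assemble
  have hfin : ({0} ∪ (Set.range x0 ∪ Set.range (fun k => - x0 k)) ∪
      ⋃ ν ∈ M, {c : ℂ | (∀ k, c ≠ x0 k ∧ c ≠ - x0 k) ∧ c ≠ 0 ∧ av N c ν x0 = 1}).Finite := by
    refine ((Set.finite_singleton 0).union ((Set.finite_range _).union (Set.finite_range _))).union ?_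
    exact M.finite_toSet.biUnion fun ν hν => key ν hν
  obtain ⟨c, hc⟩ := hfin.infinite_compl.nonempty
  simp only [Set.mem_compl_iff, Set.mem_union, Set.mem_singleton_iff, Set.mem_range,
    Set.mem_iUnion, Set.mem_ofPred_eq, not_or, not_exists] at hc
  obtain ⟨⟨hc0, hc1, hc2⟩, hc3⟩ := hc
  refine ⟨c, hc0, fun k => ⟨fun h => hc1 k h.symm, fun h => hc2 k h.symm⟩, fun ν hν hav => ?_⟩
  exact hc3 ν hν ⟨fun k => ⟨fun h => hc1 k h.symm, fun h => hc2 k h.symm⟩, hc0, hav⟩

end cayley

end Pool.Agent.MP_c45d35_ag
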