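import Pool.Agent.MP_c45d35_ag.PoleB

namespace Pool.Agent.MP_c45d35_ag

open Matrix Filter Topology

section limit
variable {N b : ℕ}

theorem exists_uC (Z : Matrix (Fin N) (Fin N) ℂ) (x : RegX N) :
    ∃ u : Matrix (Fin N) (Fin N) ℂ, UpUni u ∧ u * Dx x.1 = (Dx x.1 + Yp Z) * u := by
  have hd : ∀ i, (Dx x.1 + Yp Z) i i = xx x.1 i := fun i => by simp [Dx, Yp_upper Z i i le_rfl]
  obtain ⟨u, h1, h2⟩ := exists_tri (Dx x.1 + Yp Z) (fun i j hij => by
    simp [Dx, Matrix.diagonal_apply_ne _ (ne_of_gt hij), Yp_upper Z i j hij.le]) (fun i j hij => by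
    rw [hd, hd]; exact isUnit_reg x i j hij)
  refine ⟨u, h1, ?_⟩
  rw [← h2]
  congr 1
  unfold Dx
  congr 1
  funext i
  exact (hd i).symm

/-- the upper unipotent conjugating `x` into `x + Y(Z)` -/
noncomputable def uC (Z : Matrix (Fin N) (Fin N) ℂ) (x : RegX N) : Matrix (Fin N) (Fin N) ℂ :=
  (exists_uC Z x).choose

theorem uC_upUni (Z : Matrix (Fin N) (Fin N) ℂ) (x : RegX N) : UpUni (uC Z x) :=
  (exists_uC Z x).choose_spec.1

theorem uC_conj (Z : Matrix (Fin N) (Fin N) ℂ) (x : RegX N) :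
    uC Z x * Dx x.1 = (Dx x.1 + Yp Z) * uC Z x := (exists_uC Z x).choose_spec.2

theorem uC_isG (Z : Matrix (Fin N) (Fin N) ℂ) (x : RegX N) : IsG (uC Z x) :=
  tri_isG x.1 (Yp Z) (isUnit_reg x) (isLie_Yp Z) _ (uC_upUni Z x) (uC_conj Z x)

/-- the point `k u(x + Y(Z))` -/
noncomputable def gC {b : ℕ} (k : Fin b → GG N) (Z : Fin b → Matrix (Fin N) (Fin N) ℂ)
    (x : RegX N) : Fin b → GG N := fun a => ⟨(k a).1 * uC (Z a) x, (k a).2.mul (uC_isG _ _)⟩

/-- the function to be shown polynomial -/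
noncomputable def FF (P : MvPolynomial (Idx N (b + 1)) ℂ) (m : Fin (N / 2) →₀ ℕ)
    (k : Fin (b + 1) → GG N) (Z : Fin (b + 1) → Matrix (Fin N) (Fin N) ℂ) (x : RegX N) : ℂ :=
  Eu (N := N) m x.1 * cf P (lam m) (gC k Z x, x)

/-! ### The Cayley transform -/

/-- the Cayley transform of `e + x` -/
noncomputable def hC (N : ℕ) (c : ℂ) (x : Fin (N / 2) → ℂ) : Matrix (Fin N) (Fin N) ℂ :=
  sg N • ((c • (1 : Matrix (Fin N) (Fin N) ℂ) + (em ℂ N + Dx x)) *
    (c • (1 : Matrix (Fin N) (Fin N) ℂ) - (em ℂ N + Dx x))⁻¹)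

/-- the torus element of the Cayley transform -/
noncomputable def thu (N : ℕ) (c : ℂ) (x : Fin (N / 2) → ℂ) : Fin (N / 2) → ℂˣ := fun k =>
  if h : cy N c (x k) ≠ 0 then Units.mk0 _ h else 1

/-- good parameters -/
def GoodC (N : ℕ) (c : ℂ) (x : Fin (N / 2) → ℂ) : Prop :=
  c ≠ 0 ∧ ∀ k, c ≠ x k ∧ c ≠ - x k

theorem thu_val {c : ℂ} {x : Fin (N / 2) → ℂ} (h : GoodC N c x) (k : Fin (N / 2)) :
    ((thu N c x k : ℂˣ) : ℂ) = cy N c (x k) := by
  unfold thu
  rw [dif_pos (cy_ne_zero (h.2 k).1 (h.2 k).2)]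
  rfl

theorem chi_thu {c : ℂ} {x : Fin (N / 2) → ℂ} (h : GoodC N c x) (ν : Fin (N / 2) → ℤ) :
    ((chi ν (thu N c x) : ℂˣ) : ℂ) = av N c ν x := by
  unfold chi av
  rw [Units.coe_prod]
  refine Finset.prod_congr rfl fun k _ => ?_
  rw [Units.val_zpow_eq_zpow_val, thu_val h]

theorem good_xx {c : ℂ} {x : Fin (N / 2) → ℂ} (h : GoodC N c x) (p : Fin N) : c ≠ xx x p := by
  rcases idx_cases p with ⟨i, rfl⟩ | ⟨i, rfl⟩ | hp
  · rw [xx_up]; exact (h.2 i).1
  · rw [xx_rev_up]; exact (h.2 i).2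
  · rw [xx_mid x p hp]; exact h.1

theorem chi_wt_thu {c : ℂ} {x : Fin (N / 2) → ℂ} (h : GoodC N c x) (p : Fin N) :
    ((chi (wt N p) (thu N c x) : ℂˣ) : ℂ) = cy N c (xx x p) := by
  rcases idx_cases p with ⟨i, rfl⟩ | ⟨i, rfl⟩ | hp
  · rw [xx_up, chi_wt_lt _ (up i) i.2]
    exact thu_val h i
  · rw [xx_rev_up, chi_wt_rev, cy_neg, chi_wt_lt _ (up i) i.2, Units.val_inv_eq_inv_val]
    congr 1
    exact thu_val h i
  · rw [xx_mid x p hp, wt_mid p hp, chi_zero, Units.val_one]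
    unfold cy
    rw [add_zero, sub_zero, div_self h.1, mul_one]
    have : Odd N := ⟨p, by omega⟩
    simp [sg, this]

theorem det_c_sub (c : ℂ) (x : Fin (N / 2) → ℂ) :
    (c • (1 : Matrix (Fin N) (Fin N) ℂ) - (em ℂ N + Dx x)).det = ∏ p : Fin N, (c - xx x p) := by
  rw [Matrix.det_of_isUpperTriangular]
  · refine Finset.prod_congr rfl fun p _ => ?_
    rw [Matrix.sub_apply, emDx_diag]
    simp
  · intro i j hij
    have hij' : j < i := hij
    have h1 := emDx_upper x i j hij'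
    have h2 : (1 : Matrix (Fin N) (Fin N) ℂ) i j = 0 := Matrix.one_apply_ne (ne_of_gt hij')
    rw [Matrix.sub_apply, h1, Matrix.smul_apply, h2]
    simp

theorem det_c_sub_ne {c : ℂ} {x : Fin (N / 2) → ℂ} (h : GoodC N c x) :
    (c • (1 : Matrix (Fin N) (Fin N) ℂ) - (em ℂ N + Dx x)).det ≠ 0 := by
  rw [det_c_sub]
  exact Finset.prod_ne_zero_iff.2 fun p _ => sub_ne_zero.2 (good_xx h p)

theorem hC_mul_ue {c : ℂ} (x : RegX N) (h : GoodC N c x.1) :
    hC N c x.1 * ueC x = ueC x * Tt (thu N c x.1) := by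
  set M := em ℂ N + Dx x.1 with hM
  set A := c • (1 : Matrix (Fin N) (Fin N) ℂ) - M with hA
  have hdet : IsUnit A.det := (det_c_sub_ne h).isUnit
  have hconj : ueC x * Dx x.1 = M * ueC x := ueC_conj x
  -- `A u = u (c - D)`
  have h1 : A * ueC x = ueC x * (c • (1 : Matrix (Fin N) (Fin N) ℂ) - Dx x.1) := by
    rw [hA, Matrix.sub_mul, Matrix.mul_sub, hconj]
    simp
  have h2 : (c • (1 : Matrix (Fin N) (Fin N) ℂ) + M) * ueC x =
      ueC x * (c • (1 : Matrix (Fin N) (Fin N) ℂ) + Dx x.1) := by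
    rw [Matrix.add_mul, Matrix.mul_add, hconj]
    simp
  -- diagonal computations
  have hD1 : (c • (1 : Matrix (Fin N) (Fin N) ℂ) - Dx x.1) =
      Matrix.diagonal fun p => c - xx x.1 p := by
    unfold Dx
    ext i j
    by_cases hij : i = j
    · subst hij; simp
    · simp [hij]
  have hD2 : (c • (1 : Matrix (Fin N) (Fin N) ℂ) + Dx x.1) =
      Matrix.diagonal fun p => c + xx x.1 p := by
    unfold Dx
    ext i j
    by_cases hij : i = j
    · subst hij; simp
    · simp [hij]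
  have h3 : sg N • (c • (1 : Matrix (Fin N) (Fin N) ℂ) + Dx x.1) =
      Tt (thu N c x.1) * (c • (1 : Matrix (Fin N) (Fin N) ℂ) - Dx x.1) := by
    rw [hD1, hD2, Tt, Matrix.diagonal_mul_diagonal, ← Matrix.diagonal_smul]
    congr 1
    funext p
    rw [chi_wt_thu h]
    have := sub_ne_zero.2 (good_xx h p)
    simp only [Pi.smul_apply, smul_eq_mul, cy]
    field_simp
  -- conclude
  have h4 : A⁻¹ * ueC x * (c • (1 : Matrix (Fin N) (Fin N) ℂ) - Dx x.1) = ueC x := by
    rw [Matrix.mul_assoc, ← h1, ← Matrix.mul_assoc, Matrix.nonsing_inv_mul A hdet, Matrix.one_mul]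
  have hdD : IsUnit (c • (1 : Matrix (Fin N) (Fin N) ℂ) - Dx x.1).det := by
    rw [hD1, Matrix.det_diagonal]
    exact (Finset.prod_ne_zero_iff.2 fun p _ => sub_ne_zero.2 (good_xx h p)).isUnit
  have h5 : A⁻¹ * ueC x = ueC x * (c • (1 : Matrix (Fin N) (Fin N) ℂ) - Dx x.1)⁻¹ := by
    calc A⁻¹ * ueC x = A⁻¹ * ueC x * ((c • (1 : Matrix (Fin N) (Fin N) ℂ) - Dx x.1) *
          (c • (1 : Matrix (Fin N) (Fin N) ℂ) - Dx x.1)⁻¹) := by
          rw [Matrix.mul_nonsing_inv _ hdD, Matrix.mul_one]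
      _ = _ := by rw [← Matrix.mul_assoc, h4]
  unfold hC
  rw [Matrix.smul_mul, Matrix.mul_assoc, h5, ← Matrix.mul_assoc, h2, Matrix.mul_assoc,
    ← Matrix.mul_smul, ← Matrix.smul_mul, h3, Matrix.mul_assoc (Tt (thu N c x.1)),
    Matrix.mul_nonsing_inv _ hdD, Matrix.mul_one]

theorem Tt_pow {R : Type*} [CommRing R] (t : Fin (N / 2) → Rˣ) (j : ℕ) :
    (Tt (t ^ j) : Matrix (Fin N) (Fin N) R) = Tt t ^ j := by
  induction j with
  | zero => simp [Tt_one]
  | succ j ih => rw [pow_succ, pow_succ, Tt_mul, ih]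

theorem hC_pow_mul_ue {c : ℂ} (x : RegX N) (h : GoodC N c x.1) (j : ℕ) :
    hC N c x.1 ^ j * ueC x = ueC x * Tt (thu N c x.1 ^ j) := by
  rw [Tt_pow]
  induction j with
  | zero => simp
  | succ j ih =>
    rw [pow_succ, Matrix.mul_assoc, hC_mul_ue x h, ← Matrix.mul_assoc, ih, Matrix.mul_assoc,
      ← pow_succ]

/-! ### Continuity -/

theorem continuous_Dx : Continuous fun x : Fin (N / 2) → ℂ => (Dx x : Matrix (Fin N) (Fin N) ℂ) := by
  unfold Dx
  exact Continuous.matrix_diagonal (continuous_pi fun p => continuous_xx p)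

theorem continuous_sC : Continuous fun x : Fin (N / 2) → ℂ => sC x := by
  refine continuous_matrix fun i j => ?_
  exact MvPolynomial.continuous_eval (sxP N i j)

theorem continuous_pC : Continuous fun x : Fin (N / 2) → ℂ => pC x := by
  refine continuous_matrix fun i j => ?_
  exact MvPolynomial.continuous_eval (pxP N i j)

theorem continuous_st : Continuous fun X : Matrix (Fin N) (Fin N) ℂ => st X := by
  refine continuous_matrix fun i j => ?_
  simp only [st_apply]
  exact continuous_const.mul (continuous_id.matrix_elem _ _)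

theorem continuousAt_hC {c : ℂ} {x : Fin (N / 2) → ℂ} (h : GoodC N c x) :
    ContinuousAt (fun x : Fin (N / 2) → ℂ => hC N c x) x := by
  have hM : Continuous fun x : Fin (N / 2) → ℂ => (em ℂ N + Dx x : Matrix (Fin N) (Fin N) ℂ) :=
    continuous_const.add continuous_Dx
  have h1 : Continuous fun x : Fin (N / 2) → ℂ =>
      (c • (1 : Matrix (Fin N) (Fin N) ℂ) - (em ℂ N + Dx x)) := continuous_const.sub hM
  have h2 : ContinuousAt (fun x : Fin (N / 2) → ℂ =>
      (c • (1 : Matrix (Fin N) (Fin N) ℂ) - (em ℂ N + Dx x))⁻¹) x := by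
    simp only [Matrix.inv_def, Ring.inverse_eq_inv']
    exact (h1.matrix_det.continuousAt.inv₀ (det_c_sub_ne h)).smul h1.matrix_adjugate.continuousAt
  unfold hC
  exact ((continuous_const.add hM).continuousAt.mul h2).const_smul (sg N)

theorem continuousAt_av {c : ℂ} {x : Fin (N / 2) → ℂ} (h : GoodC N c x)
    (ν : Fin (N / 2) → ℤ) : ContinuousAt (fun x : Fin (N / 2) → ℂ => av N c ν x) x := by
  unfold av
  refine tendsto_finsetProd _ fun k _ => ?_
  have h1 : ContinuousAt (fun x : Fin (N / 2) → ℂ => cy N c (x k)) x := by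
    unfold cy
    refine continuousAt_const.mul (ContinuousAt.div ?_ ?_ (sub_ne_zero.2 (h.2 k).1))
    · exact continuousAt_const.add (continuous_apply k).continuousAt
    · exact continuousAt_const.sub (continuous_apply k).continuousAt
  exact h1.zpow₀ _ (Or.inl (cy_ne_zero (h.2 k).1 (h.2 k).2))

/-- coefficients of `∏ (X - a_κ)` are continuous -/
theorem continuousAt_coeff {κ : Type*} (s : Finset κ) (a : κ → ℂ → ℂ) (t0 : ℂ)
    (ha : ∀ k ∈ s, ContinuousAt (a k) t0) (j : ℕ) :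
    ContinuousAt (fun t => (∏ k ∈ s, (Polynomial.X - Polynomial.C (a k t))).coeff j) t0 := by
  classical
  induction s using Finset.induction_on generalizing j with
  | empty =>
    simp only [Finset.prod_empty]
    exact continuousAt_const
  | insert k s hk ih =>
    simp only [Finset.prod_insert hk, sub_mul, Polynomial.coeff_sub, Polynomial.coeff_C_mul]
    have ih' := ih (fun l hl => ha l (Finset.mem_insert_of_mem hl))
    refine ContinuousAt.sub ?_ ((ha k (Finset.mem_insert_self _ _)).mul (ih' j))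
    cases j with
    | zero =>
      simp only [Polynomial.mul_coeff_zero, Polynomial.coeff_X_zero, zero_mul]
      exact continuousAt_const
    | succ j =>
      simp only [Polynomial.coeff_X_mul]
      exact ih' j

theorem ev_affine_ne (a c : ℂ) (hc : c ≠ 0) : ∀ᶠ t in 𝓝[≠] (0 : ℂ), a + t * c ≠ 0 := by
  by_cases ha : a = 0
  · subst ha
    filter_upwards [self_mem_nhdsWithin] with t ht
    rw [zero_add]
    exact mul_ne_zero ht hc
  · have : ContinuousAt (fun t : ℂ => a + t * c) 0 := by fun_prop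
    have h2 : ∀ᶠ t in 𝓝 (0 : ℂ), a + t * c ≠ 0 :=
      this.eventually_ne (by simpa using ha)
    exact h2.filter_mono nhdsWithin_le_nhds

theorem ev_regx (x0 v : Fin (N / 2) → ℂ) (hv : IsRegx (N := N) v) :
    ∀ᶠ t in 𝓝[≠] (0 : ℂ), IsRegx (N := N) (x0 + t • v) := by
  unfold IsRegx
  simp only [eventually_all]
  intro p q hpq
  have h := ev_affine_ne (xx x0 p - xx x0 q) (xx v p - xx v q) (sub_ne_zero.2 (hv p q hpq))
  filter_upwards [h] with t ht heq
  apply ht
  rw [xx_add_smul, xx_add_smul] at heq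
  linear_combination heq

theorem continuous_curve (x0 v : Fin (N / 2) → ℂ) : Continuous fun t : ℂ => x0 + t • v := by
  fun_prop

theorem ev_good {c : ℂ} {x0 : Fin (N / 2) → ℂ} (h : GoodC N c x0) (v : Fin (N / 2) → ℂ) :
    ∀ᶠ t in 𝓝 (0 : ℂ), GoodC N c (x0 + t • v) := by
  unfold GoodC
  rw [eventually_and]
  refine ⟨Eventually.of_forall fun _ => h.1, ?_⟩
  rw [eventually_all]
  intro k
  rw [eventually_and]
  have h1 : ContinuousAt (fun t : ℂ => c - (x0 + t • v) k) 0 := by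
    simp only [Pi.add_apply, Pi.smul_apply, smul_eq_mul]; fun_prop
  have h2 : ContinuousAt (fun t : ℂ => c + (x0 + t • v) k) 0 := by
    simp only [Pi.add_apply, Pi.smul_apply, smul_eq_mul]; fun_prop
  constructor
  · filter_upwards [h1.eventually_ne (by simpa using sub_ne_zero.2 (h.2 k).1)] with t ht heq
    exact ht (sub_eq_zero.2 heq)
  · filter_upwards [h2.eventually_ne (y := 0) (by
      intro h0
      apply (h.2 k).2
      simp only [Pi.add_apply, Pi.smul_apply, smul_eq_mul, zero_mul, add_zero] at h0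
      linear_combination h0)] with t ht heq
    exact ht (by rw [heq]; ring)

end limit

end Pool.Agent.MP_c45d35_ag
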