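import Pool.Agent.MP_c45d35_ag.PoleC

namespace Pool.Agent.MP_c45d35_ag

open Matrix Filter Topology

section limit
variable {N b : ℕ}

/-- the value of `P` at a bounded family of points -/
noncomputable def PhiC (P : MvPolynomial (Idx N (b + 1)) ℂ) (c : ℂ) (k : Fin (b + 1) → GG N)
    (C : Fin (b + 1) → (Fin (N / 2) → ℂ) → Matrix (Fin N) (Fin N) ℂ) (j : ℕ)
    (x : Fin (N / 2) → ℂ) : ℂ :=
  MvPolynomial.eval (co (fun a => (k a).1 * C a x * (if a = 0 then hC N c x ^ j else 1) *
    st (pC x)) (sC x)) P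

theorem continuousAt_PhiC (P : MvPolynomial (Idx N (b + 1)) ℂ) {c : ℂ} (k : Fin (b + 1) → GG N)
    {C : Fin (b + 1) → (Fin (N / 2) → ℂ) → Matrix (Fin N) (Fin N) ℂ} {x : Fin (N / 2) → ℂ}
    (hC' : ∀ a, ContinuousAt (C a) x)
    (j : ℕ) (h : GoodC N c x) : ContinuousAt (PhiC P c k C j) x := by
  unfold PhiC
  refine (MvPolynomial.continuous_eval P).continuousAt.comp ?_
  refine continuousAt_pi.2 fun i => ?_
  have hmat : ∀ a : Fin (b + 1), ContinuousAt (fun x : Fin (N / 2) → ℂ => ((k a).1 * C a x *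
      (if a = 0 then hC N c x ^ j else 1) * st (pC x) : Matrix (Fin N) (Fin N) ℂ)) x := by
    intro a
    refine ContinuousAt.mul (ContinuousAt.mul ?_ ?_) (continuous_st.comp continuous_pC).continuousAt
    · exact continuousAt_const.mul (hC' a)
    · by_cases ha : a = 0
      · simp only [ha, if_true]
        exact (continuousAt_hC h).pow j
      · simp only [ha, if_false]
        exact continuousAt_const
  rcases i with ⟨a, i, j'⟩ | ⟨i, j'⟩
  · exact ((continuous_id.matrix_elem i j').continuousAt).comp (hmat a)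
  · exact ((continuous_id.matrix_elem i j').comp continuous_sC).continuousAt

theorem PhiC_eq {P : MvPolynomial (Idx N (b + 1)) ℂ} (hP : InvP N (b + 1) P) {c : ℂ}
    (k : Fin (b + 1) → GG N) (Z : Fin (b + 1) → Matrix (Fin N) (Fin N) ℂ)
    (C : Fin (b + 1) → (Fin (N / 2) → ℂ) → Matrix (Fin N) (Fin N) ℂ)
    (δ : Fin (b + 1) → Fin (N / 2) → ℂˣ) (x : RegX N)
    (hCδ : ∀ a, C a x.1 * ueC x = uC (Z a) x * Tt (δ a))
    (h : GoodC N c x.1) (j : ℕ) :
    PhiC P c k C j x.1 = ∑ κ ∈ supp P,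
      (((∏ a, chi κ (δ a) : ℂˣ) : ℂ) * cf P κ (gC k Z x, x)) * (av N c κ x.1) ^ j := by
  -- the point `g'`
  set g' : Fin (b + 1) → GG N := fun a => ⟨(gC k Z x a).1 * Tt (δ a),
    (gC k Z x a).2.mul (isG_Tt _)⟩ with hg'
  have h1 : PhiC P c k C j x.1 = Phi P (g', x) (thu N c x.1 ^ j) := by
    unfold PhiC Phi
    have hfun : (fun a : Fin (b + 1) => ((k a).1 * C a x.1 *
        (if a = 0 then hC N c x.1 ^ j else 1) * st (pC x.1) : Matrix (Fin N) (Fin N) ℂ)) =
        fun a => ((g' a).1 * (if a = 0 then Tt (thu N c x.1 ^ j) else 1) * (qC x)⁻¹ :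
          Matrix (Fin N) (Fin N) ℂ) := by
      funext a
      have hq : (qC x)⁻¹ = (ueC x)⁻¹ * st (pC x.1) := by
        rw [qC, Matrix.mul_inv_rev, (pC_isG x.1).inv_eq_st]
      show (k a).1 * C a x.1 * (if a = 0 then hC N c x.1 ^ j else 1) * st (pC x.1) =
        (k a).1 * uC (Z a) x * Tt (δ a) * (if a = 0 then Tt (thu N c x.1 ^ j) else 1) * (qC x)⁻¹
      rw [hq, Matrix.mul_assoc (k a).1 (uC (Z a) x), ← hCδ a]
      by_cases ha : a = 0
      · rw [if_pos ha, if_pos ha]
        have h2 := hC_pow_mul_ue x h j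
        calc (k a).1 * C a x.1 * hC N c x.1 ^ j * st (pC x.1) =
            (k a).1 * C a x.1 * (hC N c x.1 ^ j * (ueC x * (ueC x)⁻¹)) * st (pC x.1) := by
              rw [(ueC_isG x).mul_inv, Matrix.mul_one]
          _ = (k a).1 * C a x.1 * ((hC N c x.1 ^ j * ueC x) * (ueC x)⁻¹) * st (pC x.1) := by
              simp only [Matrix.mul_assoc]
          _ = _ := by rw [h2]; simp only [Matrix.mul_assoc]
      · rw [if_neg ha, if_neg ha]
        calc (k a).1 * C a x.1 * 1 * st (pC x.1) =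
            (k a).1 * C a x.1 * (ueC x * (ueC x)⁻¹) * st (pC x.1) := by
              rw [(ueC_isG x).mul_inv]
          _ = _ := by simp only [Matrix.mul_assoc, Matrix.one_mul]
    simp only [hfun]
  rw [h1, Phi_eq_sum (subset_refl _)]
  refine Finset.sum_congr rfl fun κ _ => ?_
  rw [chi_pow, Units.val_pow_eq_pow_val, chi_thu h,
    cf_torus hP κ (gC k Z x) g' x δ (fun a => rfl)]

/-- elimination of all weights but one -/
theorem elimination {P : MvPolynomial (Idx N (b + 1)) ℂ} (hP : InvP N (b + 1) P) {c : ℂ}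
    (k : Fin (b + 1) → GG N) (Z : Fin (b + 1) → Matrix (Fin N) (Fin N) ℂ)
    (C : Fin (b + 1) → (Fin (N / 2) → ℂ) → Matrix (Fin N) (Fin N) ℂ)
    (δ : Fin (b + 1) → Fin (N / 2) → ℂˣ) (x : RegX N)
    (hCδ : ∀ a, C a x.1 * ueC x = uC (Z a) x * Tt (δ a))
    (h : GoodC N c x.1) (μ : Fin (N / 2) → ℤ) :
    ∑ j ∈ Finset.range ((supp P).card + 1),
      (∏ κ ∈ (supp P).erase μ, (Polynomial.X - Polynomial.C (av N c κ x.1))).coeff j *
        PhiC P c k C j x.1 =
      ((∏ a, chi μ (δ a) : ℂˣ) : ℂ) * cf P μ (gC k Z x, x) *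
        ∏ κ ∈ (supp P).erase μ, (av N c μ x.1 - av N c κ x.1) := by
  classical
  set Q := ∏ κ ∈ (supp P).erase μ, (Polynomial.X - Polynomial.C (av N c κ x.1)) with hQ
  have hdeg : Q.natDegree < (supp P).card + 1 := by
    have h1 : Q.natDegree = ((supp P).erase μ).card := by
      rw [hQ, Polynomial.natDegree_prod_of_monic _ _ (fun κ _ => Polynomial.monic_X_sub_C _)]
      simp
    rw [h1]
    have := Finset.card_erase_le (s := supp P) (a := μ)
    omega
  have h1 : ∀ z : ℂ, ∑ j ∈ Finset.range ((supp P).card + 1), Q.coeff j * z ^ j = Q.eval z :=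
    fun z => (Polynomial.eval_eq_sum_range' hdeg z).symm
  have h2 : ∀ z : ℂ, Q.eval z = ∏ κ ∈ (supp P).erase μ, (z - av N c κ x.1) := by
    intro z
    rw [hQ, Polynomial.eval_prod]
    simp
  simp only [PhiC_eq hP k Z C δ x hCδ h, Finset.mul_sum]
  rw [Finset.sum_comm]
  have h3 : ∀ κ ∈ supp P, ∑ j ∈ Finset.range ((supp P).card + 1), Q.coeff j *
      ((((∏ a, chi κ (δ a) : ℂˣ) : ℂ) * cf P κ (gC k Z x, x)) * (av N c κ x.1) ^ j) =
      (((∏ a, chi κ (δ a) : ℂˣ) : ℂ) * cf P κ (gC k Z x, x)) *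
        ∏ κ' ∈ (supp P).erase μ, (av N c κ x.1 - av N c κ' x.1) := by
    intro κ _
    rw [← h2, ← h1, Finset.mul_sum]
    refine Finset.sum_congr rfl fun j _ => ?_
    ring
  rw [Finset.sum_congr rfl h3]
  by_cases hμ : μ ∈ supp P
  · rw [Finset.sum_eq_single_of_mem μ hμ]
    intro κ hκ hne
    have h0 : ∏ κ' ∈ (supp P).erase μ, (av N c κ x.1 - av N c κ' x.1) = 0 :=
      Finset.prod_eq_zero (Finset.mem_erase.2 ⟨hne, hκ⟩) (sub_self _)
    rw [h0, mul_zero]
  · rw [cf_eq_zero hμ]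
    simp only [Pi.zero_apply, mul_zero, zero_mul]
    refine Finset.sum_eq_zero fun κ hκ => ?_
    have hne : κ ≠ μ := by
      rintro rfl
      exact hμ hκ
    have h0 : ∏ κ' ∈ (supp P).erase μ, (av N c κ x.1 - av N c κ' x.1) = 0 :=
      Finset.prod_eq_zero (Finset.mem_erase.2 ⟨hne, hκ⟩) (sub_self _)
    rw [h0, mul_zero]

/-! ### The factors `a_μ - a_κ` -/

theorem av_ne_zero {c : ℂ} {x : Fin (N / 2) → ℂ} (h : GoodC N c x) (ν : Fin (N / 2) → ℤ) :
    av N c ν x ≠ 0 :=
  Finset.prod_ne_zero_iff.2 fun k _ => zpow_ne_zero _ (cy_ne_zero (h.2 k).1 (h.2 k).2)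

theorem av_add {c : ℂ} {x : Fin (N / 2) → ℂ} (h : GoodC N c x) (ν ν' : Fin (N / 2) → ℤ) :
    av N c (ν + ν') x = av N c ν x * av N c ν' x := by
  unfold av
  rw [← Finset.prod_mul_distrib]
  refine Finset.prod_congr rfl fun k _ => ?_
  rw [Pi.add_apply, zpow_add₀ (cy_ne_zero (h.2 k).1 (h.2 k).2)]

theorem av_nsmul {c : ℂ} {x : Fin (N / 2) → ℂ} (h : GoodC N c x) (ν : Fin (N / 2) → ℤ) (j : ℕ) :
    av N c ((j : ℤ) • ν) x = av N c ν x ^ j := by
  induction j with
  | zero => simp [av]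
  | succ j ih => rw [Nat.cast_succ, add_smul, one_smul, av_add h, ih, pow_succ]

/-- `a_α - 1` is the form of the wall times a nonvanishing function -/
theorem av_al (β : Wall (N / 2)) (c : ℂ) : ∃ om : (Fin (N / 2) → ℂ) → ℂ,
    (∀ x, GoodC N c x → ContinuousAt om x ∧ om x ≠ 0 ∧ av N c (al N β) x - 1 = el β x * om x) := by
  classical
  cases β with
  | I i j h σ =>
    have hij : i ≠ j := ne_of_lt h
    refine ⟨fun x => 2 * c / ((c - x i) * (c + ((σ : ℤ) : ℂ) * x j)), fun x hx => ?_⟩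
    have h1 : c - x i ≠ 0 := sub_ne_zero.2 (hx.2 i).1
    have h1' : c + x i ≠ 0 := fun h0 => (hx.2 i).2 (by linear_combination h0)
    have h2' : c - x j ≠ 0 := sub_ne_zero.2 (hx.2 j).1
    have h2 : c + x j ≠ 0 := fun h0 => (hx.2 j).2 (by linear_combination h0)
    have h3 : c + ((σ : ℤ) : ℂ) * x j ≠ 0 := by
      rcases Int.units_eq_one_or σ with rfl | rfl
      · simpa using h2
      · simpa [sub_eq_add_neg] using h2'
    have hav : av N c (al N (.I i j h σ)) x = cy N c (x i) * cy N c (x j) ^ (-(σ : ℤ)) := by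
      unfold av
      rw [← Finset.mul_prod_erase Finset.univ _ (Finset.mem_univ i),
        ← Finset.mul_prod_erase (Finset.univ.erase i) _
          (Finset.mem_erase.2 ⟨hij.symm, Finset.mem_univ j⟩)]
      have : ∏ k ∈ (Finset.univ.erase i).erase j, cy N c (x k) ^ (al N (.I i j h σ)) k = 1 := by
        refine Finset.prod_eq_one fun k hk => ?_
        rw [Finset.mem_erase, Finset.mem_erase] at hk
        simp [al, Pi.single_apply, hk.1, hk.2.1]
      rw [this, mul_one]
      simp [al, Pi.single_apply, hij, hij.symm]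
    refine ⟨?_, ?_, ?_⟩
    · refine ContinuousAt.div continuousAt_const ?_ (mul_ne_zero h1 h3)
      fun_prop
    · exact div_ne_zero (mul_ne_zero two_ne_zero hx.1) (mul_ne_zero h1 h3)
    · rw [hav]
      have hs := sg_mul_self N
      rcases Int.units_eq_one_or σ with rfl | rfl
      · simp only [cy, el, Units.val_one, Int.cast_one, one_mul, _root_.zpow_neg_one]
        have hsg := sg_ne_zero N
        field_simp
        ring
      · simp only [cy, el, Units.val_neg, Units.val_one, neg_neg, zpow_one, Int.cast_neg,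
          Int.cast_one, neg_mul, one_mul, sub_neg_eq_add, ← sub_eq_add_neg]
        have : sg N * ((c + x i) / (c - x i)) * (sg N * ((c + x j) / (c - x j))) =
            (sg N * sg N) * (((c + x i) / (c - x i)) * ((c + x j) / (c - x j))) := by ring
        rw [this, hs, one_mul]
        field_simp
        ring
  | II i =>
    have hav : ∀ x, av N c (al N (.II i)) x = cy N c (x i) ^ (if Odd N then (1 : ℤ) else 2) := by
      intro x
      unfold av
      rw [← Finset.mul_prod_erase Finset.univ _ (Finset.mem_univ i)]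
      have : ∏ k ∈ Finset.univ.erase i, cy N c (x k) ^ (al N (.II i)) k = 1 := by
        refine Finset.prod_eq_one fun k hk => ?_
        rw [Finset.mem_erase] at hk
        simp [al, Pi.single_apply, hk.1]
      rw [this, mul_one]
      simp [al, Pi.single_apply]
    by_cases hN : Odd N
    · refine ⟨fun x => 2 / (c - x i), fun x hx => ?_⟩
      have h1 : c - x i ≠ 0 := sub_ne_zero.2 (hx.2 i).1
      refine ⟨?_, div_ne_zero two_ne_zero h1, ?_⟩
      · exact ContinuousAt.div continuousAt_const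
          (continuousAt_const.sub (continuous_apply i).continuousAt) h1
      · rw [hav]
        simp only [hN, if_true, zpow_one, cy, sg, el]
        field_simp
        ring
    · refine ⟨fun x => 4 * c / ((c - x i) * (c - x i)), fun x hx => ?_⟩
      have h1 : c - x i ≠ 0 := sub_ne_zero.2 (hx.2 i).1
      refine ⟨?_, div_ne_zero (mul_ne_zero (by norm_num : (4 : ℂ) ≠ 0) hx.1) (mul_ne_zero h1 h1), ?_⟩
      · refine ContinuousAt.div continuousAt_const ?_ (mul_ne_zero h1 h1)
        fun_prop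
      · rw [hav]
        simp only [hN, if_false, cy, sg, el]
        have : ((-1 : ℂ) * ((c + x i) / (c - x i))) ^ (2 : ℤ) =
            ((-1 : ℂ) * ((c + x i) / (c - x i))) ^ 2 := by norm_cast
        rw [this]
        field_simp
        ring

open Classical in
/-- factorisation of `a_μ - a_κ` along a curve leaving the wall -/
theorem factor_diff {P : MvPolynomial (Idx N (b + 1)) ℂ} {μ : Fin (N / 2) → ℤ}
    (hμ : IsLead P μ) (β : Wall (N / 2)) {x0 v : Fin (N / 2) → ℂ} (hx0 : GenW (N := N) β x0)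
    (hv : IsRegx (N := N) v) {c : ℂ} (hc : GoodC N c x0)
    (hcM : ∀ κ ∈ supp P, (∀ k : ℤ, μ - κ ≠ k • al N β) → av N c (μ - κ) x0 ≠ 1)
    (κ : Fin (N / 2) → ℤ) (hκ : κ ∈ (supp P).erase μ) :
    ∃ D : ℂ → ℂ, ContinuousAt D 0 ∧ D 0 ≠ 0 ∧ ∀ᶠ t in 𝓝 (0 : ℂ),
      av N c μ (x0 + t • v) - av N c κ (x0 + t • v) =
        t ^ (if ∃ k : ℤ, μ - κ = k • al N β then 1 else 0) * D t := by
  have hcurve := continuous_curve x0 v
  have hx00 : x0 + (0 : ℂ) • v = x0 := by simp
  have hκs := (Finset.mem_erase.1 hκ).2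
  have hκne := (Finset.mem_erase.1 hκ).1
  have hcav : ∀ ν, ContinuousAt (fun t : ℂ => av N c ν (x0 + t • v)) 0 := by
    intro ν
    have h1 := continuousAt_av hc ν
    exact ContinuousAt.comp (f := fun t : ℂ => x0 + t • v) (x := (0 : ℂ)) (by rw [hx00]; exact h1)
      hcurve.continuousAt
  by_cases hk : ∃ k : ℤ, μ - κ = k • al N β
  · rw [if_pos hk]
    obtain ⟨k, hk⟩ := hk
    have hκ' : κ = μ - k • al N β := by rw [← hk]; abel
    have hb := string_bound hμ β k (hκ' ▸ hκs)
    have hk0 : k ≠ 0 := by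
      rintro rfl
      apply hκne
      rw [hκ']; simp
    obtain ⟨j, rfl⟩ : ∃ j : ℕ, k = j := ⟨k.toNat, by rw [Int.toNat_of_nonneg hb.1]⟩
    have hj0 : j ≠ 0 := by exact_mod_cast hk0
    obtain ⟨om, hom⟩ := av_al β c
    refine ⟨fun t => av N c κ (x0 + t • v) * (el β v * om (x0 + t • v)) *
      ∑ l ∈ Finset.range j, av N c (al N β) (x0 + t • v) ^ l, ?_, ?_, ?_⟩
    · refine ContinuousAt.mul (ContinuousAt.mul (hcav κ) (continuousAt_const.mul ?_)) ?_
      · exact ContinuousAt.comp (f := fun t : ℂ => x0 + t • v) (x := (0 : ℂ))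
          (by rw [hx00]; exact (hom x0 hc).1) hcurve.continuousAt
      · exact tendsto_finsetSum _ fun l _ => (hcav _).pow l
    · simp only [hx00]
      have h1 : av N c (al N β) x0 = 1 := by
        have := (hom x0 hc).2.2
        rw [hx0.1, zero_mul] at this
        exact sub_eq_zero.1 this
      rw [h1]
      simp only [one_pow, Finset.sum_const, Finset.card_range, nsmul_eq_mul, mul_one]
      exact mul_ne_zero (mul_ne_zero (av_ne_zero hc κ)
        (mul_ne_zero (el_ne_zero hv β) (hom x0 hc).2.1)) (by exact_mod_cast hj0)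
    · filter_upwards [ev_good hc v] with t ht
      have h1 := (hom _ ht).2.2
      rw [el_add_smul, hx0.1, zero_add] at h1
      have h2 : av N c μ (x0 + t • v) = av N c κ (x0 + t • v) * av N c (al N β) (x0 + t • v) ^ j := by
        rw [← av_nsmul ht, ← av_add ht, hκ', sub_add_cancel]
      have h3 := mul_geom_sum (av N c (al N β) (x0 + t • v)) j
      rw [h2, pow_one]
      linear_combination (- av N c κ (x0 + t • v)) * h3 +
        av N c κ (x0 + t • v) * (∑ l ∈ Finset.range j, av N c (al N β) (x0 + t • v) ^ l) * h1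
  · rw [if_neg hk]
    refine ⟨fun t => av N c μ (x0 + t • v) - av N c κ (x0 + t • v), (hcav μ).sub (hcav κ), ?_, ?_⟩
    · simp only [hx00]
      intro h0
      push Not at hk
      apply hcM κ hκs hk
      have h2 : av N c μ x0 = av N c κ x0 * av N c (μ - κ) x0 := by
        rw [← av_add hc, add_sub_cancel]
      rw [h2] at h0
      have h3 := av_ne_zero hc κ
      have h4 : av N c κ x0 * (av N c (μ - κ) x0 - 1) = 0 := by linear_combination h0
      exact sub_eq_zero.1 ((mul_eq_zero.1 h4).resolve_left h3)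
    · exact Eventually.of_forall fun t => by rw [pow_zero, one_mul]

open Classical in
/-- the number of weights in the `α`-string below the leading weight -/
theorem string_card {P : MvPolynomial (Idx N (b + 1)) ℂ} {μ : Fin (N / 2) → ℤ}
    (hμ : IsLead P μ) (β : Wall (N / 2)) :
    ∑ κ ∈ (supp P).erase μ, (if ∃ k : ℤ, μ - κ = k • al N β then 1 else 0) ≤
      (cv N β μ).toNat := by
  rw [Finset.sum_ite, Finset.sum_const, Finset.sum_const_zero, add_zero, smul_eq_mul, mul_one]
  have h1 : ∀ κ ∈ ((supp P).erase μ).filter (fun κ => ∃ k : ℤ, μ - κ = k • al N β),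
      ∃ j : ℕ, j ∈ Finset.Icc 1 (cv N β μ).toNat ∧ κ = μ - (j : ℤ) • al N β := by
    intro κ hκ
    rw [Finset.mem_filter, Finset.mem_erase] at hκ
    obtain ⟨⟨hne, hs⟩, k, hk⟩ := hκ
    have hκ' : κ = μ - k • al N β := by rw [← hk]; abel
    have hb := string_bound hμ β k (hκ' ▸ hs)
    have hk0 : k ≠ 0 := by
      rintro rfl
      apply hne
      rw [hκ']; simp
    refine ⟨k.toNat, ?_, ?_⟩
    · rw [Finset.mem_Icc]
      omega
    · rw [Int.toNat_of_nonneg hb.1, hκ']
  have h2 : ((supp P).erase μ).filter (fun κ => ∃ k : ℤ, μ - κ = k • al N β) ⊆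
      (Finset.Icc 1 (cv N β μ).toNat).image fun j : ℕ => μ - (j : ℤ) • al N β := by
    intro κ hκ
    obtain ⟨j, hj, hκ'⟩ := h1 κ hκ
    exact Finset.mem_image.2 ⟨j, hj, hκ'.symm⟩
  refine (Finset.card_le_card h2).trans (Finset.card_image_le.trans ?_)
  simp

/-- **The limit argument.** -/
theorem wall_limit {P : MvPolynomial (Idx N (b + 1)) ℂ} (hP : InvP N (b + 1) P)
    (m : Fin (N / 2) →₀ ℕ) (hlead : IsLead P (lam m)) (β : Wall (N / 2))
    {x0 v : Fin (N / 2) → ℂ} (hx0 : GenW (N := N) β x0) (hv : IsRegx (N := N) v)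
    (k : Fin (b + 1) → GG N) (Z : Fin (b + 1) → Matrix (Fin N) (Fin N) ℂ)
    (hGA : ∀ a, GoodAt (Yp (Z a)) x0)
    (L : List (Wall (N / 2))) (G : ℂ → ℂ) (hG : ContinuousAt G 0)
    (hGF : ∀ t, ∀ h : IsRegx (N := N) (x0 + t • v), G t =
      ((β :: L).map fun β' => el β' (x0 + t • v)).prod * FF P m k Z ⟨x0 + t • v, h⟩) :
    G 0 = 0 := by
  classical
  set μ := lam m with hμdef
  -- the matrices `C_a`
  choose δ C hCcont hδcont hCδ' using hGA
  -- the Cayley parameter
  obtain ⟨c, hc0, hc1, hc2⟩ := exists_c β x0 hx0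
    (((supp P).filter fun κ => ∀ k : ℤ, μ - κ ≠ k • al N β).image fun κ => μ - κ) (by
      intro ν hν
      obtain ⟨κ, hκ, rfl⟩ := Finset.mem_image.1 hν
      exact (Finset.mem_filter.1 hκ).2)
  have hc : GoodC N c x0 := ⟨hc0, hc1⟩
  have hcM : ∀ κ ∈ supp P, (∀ k : ℤ, μ - κ ≠ k • al N β) → av N c (μ - κ) x0 ≠ 1 :=
    fun κ hκ hk => hc2 _ (Finset.mem_image_of_mem _ (Finset.mem_filter.2 ⟨hκ, hk⟩))
  have hx00 : x0 + (0 : ℂ) • v = x0 := by simp
  have hcurve := continuous_curve x0 v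
  have hCδ : ∀ᶠ t in 𝓝 (0 : ℂ), ∀ a, ∀ h : IsRegx (N := N) (x0 + t • v),
      C a (x0 + t • v) * ueC ⟨x0 + t • v, h⟩ =
        uC (Z a) ⟨x0 + t • v, h⟩ * Tt (δ a (x0 + t • v)) := by
    rw [Filter.eventually_all]
    intro a
    have h1 := hcurve.tendsto 0
    rw [hx00] at h1
    filter_upwards [h1.eventually (hCδ' a)] with t ht hreg
    exact ht hreg _ _ (uC_upUni (Z a) ⟨_, hreg⟩) (ueC_upUni ⟨_, hreg⟩) (uC_conj (Z a) ⟨_, hreg⟩)
      (ueC_conj ⟨_, hreg⟩)
  -- the factors
  choose! D hDc hD0 hDeq using fun κ hκ => factor_diff hlead β hx0 hv hc hcM κ hκ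
  obtain ⟨E, hEc, hE⟩ := Eu_order (N := N) β m x0 v hx0.1
  set e : (Fin (N / 2) → ℤ) → ℕ := fun κ => if ∃ k : ℤ, μ - κ = k • al N β then 1 else 0 with he
  have hetot : ∑ κ ∈ (supp P).erase μ, e κ ≤ (cv N β μ).toNat := string_card hlead β
  set et := ∑ κ ∈ (supp P).erase μ, e κ with het
  set d := (cv N β μ).toNat with hd
  -- the sum `S(t)`
  set S : ℂ → ℂ := fun t => ∑ j ∈ Finset.range ((supp P).card + 1),
    (∏ κ ∈ (supp P).erase μ, (Polynomial.X - Polynomial.C (av N c κ (x0 + t • v)))).coeff j *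
      PhiC P c k C j (x0 + t • v) with hS
  have hcav : ∀ ν, ContinuousAt (fun t : ℂ => av N c ν (x0 + t • v)) 0 := by
    intro ν
    have h1 := continuousAt_av hc ν
    exact ContinuousAt.comp (f := fun t : ℂ => x0 + t • v) (x := (0 : ℂ)) (by rw [hx00]; exact h1)
      hcurve.continuousAt
  have hScont : ContinuousAt S 0 := by
    refine tendsto_finsetSum _ fun j _ => ?_
    refine ContinuousAt.mul (continuousAt_coeff _ (fun κ t => av N c κ (x0 + t • v)) 0
      (fun κ _ => hcav κ) j) ?_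
    exact ContinuousAt.comp (f := fun t : ℂ => x0 + t • v) (x := (0 : ℂ))
      (by rw [hx00]; exact continuousAt_PhiC P k hCcont j hc) hcurve.continuousAt
  -- the constant
  set c1 : ℂ → ℂ := fun t => ((∏ a, chi μ (δ a (x0 + t • v)) : ℂˣ) : ℂ) with hc1def
  have hc1ne : ∀ t, c1 t ≠ 0 := fun t => Units.ne_zero _
  have hc1cont : ContinuousAt c1 0 := by
    have h1 : c1 = fun t => ∏ a, ∏ k, ((δ a (x0 + t • v) k : ℂˣ) : ℂ) ^ μ k := by
      funext t
      simp only [hc1def, Units.coe_prod, chi, Units.val_zpow_eq_zpow_val]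
    rw [h1]
    refine tendsto_finsetProd _ fun a _ => tendsto_finsetProd _ fun k' _ => ?_
    refine ContinuousAt.zpow₀ ?_ _ (Or.inl (Units.ne_zero _))
    exact ContinuousAt.comp (f := fun t : ℂ => x0 + t • v) (x := (0 : ℂ))
      (g := fun x => ((δ a x k' : ℂˣ) : ℂ)) (by rw [hx00]; exact hδcont a k') hcurve.continuousAt
  set Lp : ℂ → ℂ := fun t => (L.map fun β' => el β' (x0 + t • v)).prod with hLp
  have hLpc : Continuous Lp := by
    rw [hLp]
    clear hGF
    induction L with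
    | nil => simpa using continuous_const
    | cons β' L ih =>
      simp only [List.map_cons, List.prod_cons]
      refine Continuous.mul ?_ (ih rfl)
      simp only [el_add_smul]
      fun_prop
  -- the key identity
  have key : ∀ᶠ t in 𝓝[≠] (0 : ℂ), G t * c1 t * ∏ κ ∈ (supp P).erase μ, D κ t =
      t ^ (d - et + 1) * (el β v * Lp t * E t * S t) := by
    have hDall : ∀ᶠ t in 𝓝 (0 : ℂ), ∀ κ ∈ (supp P).erase μ,
        av N c μ (x0 + t • v) - av N c κ (x0 + t • v) = t ^ e κ * D κ t := by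
      rw [Filter.eventually_all_finset]
      exact hDeq
    filter_upwards [ev_regx x0 v hv, (ev_good hc v).filter_mono nhdsWithin_le_nhds,
      hDall.filter_mono nhdsWithin_le_nhds, hCδ.filter_mono nhdsWithin_le_nhds,
      self_mem_nhdsWithin] with t hreg hgood hD hCδt ht
    have ht0 : t ≠ 0 := ht
    have h1 := elimination hP k Z C (fun a => δ a (x0 + t • v)) ⟨x0 + t • v, hreg⟩
      (fun a => hCδt a hreg) hgood μ
    have h2 := hGF t hreg
    have h3 : ∏ κ ∈ (supp P).erase μ, (av N c μ (x0 + t • v) - av N c κ (x0 + t • v)) =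
        t ^ et * ∏ κ ∈ (supp P).erase μ, D κ t := by
      rw [Finset.prod_congr rfl hD, Finset.prod_mul_distrib, Finset.prod_pow_eq_pow_sum]
    rw [h3] at h1
    rw [List.map_cons, List.prod_cons, el_add_smul, hx0.1, zero_add] at h2
    have h4 : FF P m k Z ⟨x0 + t • v, hreg⟩ = t ^ d * E t *
        cf P μ (gC k Z ⟨x0 + t • v, hreg⟩, ⟨x0 + t • v, hreg⟩) := by
      unfold FF
      simp only [hE]
      rfl
    rw [h4] at h2
    have hS' : S t = c1 t * cf P μ (gC k Z ⟨x0 + t • v, hreg⟩, ⟨x0 + t • v, hreg⟩) *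
        (t ^ et * ∏ κ ∈ (supp P).erase μ, D κ t) := h1
    have hdet : t ^ d = t ^ (d - et) * t ^ et := by
      rw [← pow_add]; congr 1; omega
    rw [h2, hS', hdet, pow_succ]
    ring
  have hlimL : Tendsto (fun t => G t * c1 t * ∏ κ ∈ (supp P).erase μ, D κ t) (𝓝[≠] (0 : ℂ))
      (𝓝 (G 0 * c1 0 * ∏ κ ∈ (supp P).erase μ, D κ 0)) := by
    have : ContinuousAt (fun t => G t * c1 t * ∏ κ ∈ (supp P).erase μ, D κ t) 0 :=
      (hG.mul hc1cont).mul (tendsto_finsetProd _ fun κ hκ => hDc κ hκ)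
    exact this.tendsto.mono_left nhdsWithin_le_nhds
  have hlimR : Tendsto (fun t : ℂ => t ^ (d - et + 1) * (el β v * Lp t * E t * S t)) (𝓝[≠] (0 : ℂ))
      (𝓝 ((0 : ℂ) ^ (d - et + 1) * (el β v * Lp 0 * E 0 * S 0))) := by
    have : ContinuousAt (fun t : ℂ => t ^ (d - et + 1) * (el β v * Lp t * E t * S t)) 0 :=
      (continuousAt_id.pow _).mul (((continuousAt_const.mul hLpc.continuousAt).mul
        hEc.continuousAt).mul hScont)
    exact this.tendsto.mono_left nhdsWithin_le_nhds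
  have hfin := tendsto_nhds_unique (hlimL.congr' key) hlimR
  rw [pow_succ, mul_zero, zero_mul] at hfin
  have hDne : ∏ κ ∈ (supp P).erase μ, D κ 0 ≠ 0 :=
    Finset.prod_ne_zero_iff.2 fun κ hκ => hD0 κ hκ
  have := (mul_eq_zero.1 hfin).resolve_right hDne
  exact (mul_eq_zero.1 this).resolve_right (hc1ne 0)

end limit

end Pool.Agent.MP_c45d35_ag
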