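import Pool.Agent.MP_c45d35_ag.PoleD

namespace Pool.Agent.MP_c45d35_ag

open Matrix Filter Topology

section pole
variable {N b : ℕ}

/-- coordinates of `(k, Z)` -/
abbrev Par (N b : ℕ) := (Fin b × Fin N × Fin N) ⊕ (Fin b × Fin N × Fin N)

/-- the `k` part -/
def Kof (w : Par N b → ℂ) (a : Fin b) : Matrix (Fin N) (Fin N) ℂ :=
  Matrix.of fun i j => w (Sum.inl (a, i, j))

/-- the `Z` part -/
def Zof (w : Par N b → ℂ) (a : Fin b) : Matrix (Fin N) (Fin N) ℂ :=
  Matrix.of fun i j => w (Sum.inr (a, i, j))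

/-- the point with given parts -/
def parOf (k Z : Fin b → Matrix (Fin N) (Fin N) ℂ) : Par N b → ℂ :=
  Sum.elim (fun p => k p.1 p.2.1 p.2.2) (fun p => Z p.1 p.2.1 p.2.2)

theorem Kof_parOf (k Z : Fin b → Matrix (Fin N) (Fin N) ℂ) : Kof (parOf k Z) = k := rfl
theorem Zof_parOf (k Z : Fin b → Matrix (Fin N) (Fin N) ℂ) : Zof (parOf k Z) = Z := rfl
theorem parOf_of (w : Par N b → ℂ) : parOf (Kof w) (Zof w) = w := by
  funext i
  rcases i with i | i <;> rfl

open Classical in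
/-- the function to be shown polynomial, on all parameters -/
noncomputable def Fw (P : MvPolynomial (Idx N (b + 1)) ℂ) (m : Fin (N / 2) →₀ ℕ)
    (w : Par N (b + 1) → ℂ) (x : Fin (N / 2) → ℂ) : ℂ :=
  if h : (∀ a, IsG (Kof w a)) ∧ IsRegx (N := N) x then
    FF P m (fun a => ⟨Kof w a, h.1 a⟩) (Zof w) ⟨x, h.2⟩ else 0

/-- points of `G^b × Mat^b × 𝔱^reg` -/
abbrev YY (N b : ℕ) := (Fin b → GG N) × (Fin b → Matrix (Fin N) (Fin N) ℂ) × RegX N

theorem Rt_Yp_entries {Y : Type*} {X : Y → RegX N} {S : Set (Y → ℂ)}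
    {Z : Y → Matrix (Fin N) (Fin N) ℂ} (hZ : ∀ i j, (fun y => Z y i j) ∈ Rt X S) (i j : Fin N) :
    (fun y => Yp (Z y) i j) ∈ Rt X S := by
  by_cases h : i < j
  · have : (fun y => Yp (Z y) i j) = (fun _ => (1 / 2 : ℂ)) * ((fun y => Z y i j) -
        (fun _ => (-1 : ℂ) ^ ((i : ℕ) + (j : ℕ))) * fun y => Z y (Fin.rev j) (Fin.rev i)) := by
      funext y
      simp [Yp, h]
    rw [this]
    exact Subalgebra.mul_mem _ (Rt_const X S _) (Subalgebra.sub_mem _ (hZ i j)
      (Subalgebra.mul_mem _ (Rt_const X S _) (hZ _ _)))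
  · have : (fun y => Yp (Z y) i j) = 0 := by
      funext y
      exact Yp_upper _ i j (not_lt.1 h)
    rw [this]
    exact Subalgebra.zero_mem _

theorem Rt_DxYp {Y : Type*} {X : Y → RegX N} {S : Set (Y → ℂ)}
    {Z : Y → Matrix (Fin N) (Fin N) ℂ} (hZ : ∀ i j, (fun y => Z y i j) ∈ Rt X S) (i j : Fin N) :
    (fun y => (Dx (X y).1 + Yp (Z y)) i j) ∈ Rt X S := by
  have h1 : (fun y => (Dx (X y).1 : Matrix (Fin N) (Fin N) ℂ) i j) ∈ Rt X S := by
    by_cases h : i = j
    · subst h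
      simp only [Dx, Matrix.diagonal_apply_eq]
      exact Rt_xx X S i
    · have : (fun y => (Dx (X y).1 : Matrix (Fin N) (Fin N) ℂ) i j) = 0 := by
        funext y
        simp [Dx, h]
      rw [this]
      exact Subalgebra.zero_mem _
  have : (fun y => (Dx (X y).1 + Yp (Z y)) i j) =
      (fun y => (Dx (X y).1 : Matrix (Fin N) (Fin N) ℂ) i j) + fun y => Yp (Z y) i j := by
    funext y
    simp
  rw [this]
  exact Subalgebra.add_mem _ h1 (Rt_Yp_entries hZ i j)

theorem DxYp_diag (x : Fin (N / 2) → ℂ) (Z : Matrix (Fin N) (Fin N) ℂ) (i : Fin N) :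
    (Dx x + Yp Z) i i = xx x i := by simp [Dx, Yp_upper Z i i le_rfl]

theorem Rt_uC {Y : Type*} {X : Y → RegX N} {S : Set (Y → ℂ)}
    {Z : Y → Matrix (Fin N) (Fin N) ℂ} (hZ : ∀ i j, (fun y => Z y i j) ∈ Rt X S) :
    ∀ i j, (fun y => uC (Z y) (X y) i j) ∈ Rt X S := by
  refine tri_entries_mem (Rt X S) (fun y => Dx (X y).1 + Yp (Z y)) (fun y => uC (Z y) (X y))
    (Rt_DxYp hZ) ?_ ?_ ?_ (fun y => uC_upUni _ _) ?_
  · intro i j hij
    simp only [DxYp_diag]
    exact Rt_inv X S i j hij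
  · intro y i j hij
    rw [DxYp_diag, DxYp_diag]
    exact (X y).2 i j hij
  · intro y i j hij
    simp [Dx, Matrix.diagonal_apply_ne _ (ne_of_gt hij), Yp_upper (Z y) i j hij.le]
  · intro y
    simp only [DxYp_diag]
    exact uC_conj (Z y) (X y)

theorem Rt_Eu {Y : Type*} (X : Y → RegX N) (S : Set (Y → ℂ)) (m : Fin (N / 2) →₀ ℕ) :
    (fun y => Eu (N := N) m (X y).1) ∈ Rt X S := by
  have h1 : ∀ k, (fun y => Ek (N := N) k (X y).1) ∈ Rt X S := by
    intro k
    have : (fun y => Ek (N := N) k (X y).1) = ∏ i : Fin N, ∏ j : Fin N,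
        (if (i : ℕ) < k ∧ k ≤ (j : ℕ) then ((fun y => xx (X y).1 i) - fun y => xx (X y).1 j)
          else 1) := by
      funext y
      rw [Finset.prod_apply]
      unfold Ek
      refine Finset.prod_congr rfl fun i _ => ?_
      rw [Finset.prod_apply]
      refine Finset.prod_congr rfl fun j _ => ?_
      split_ifs <;> rfl
    rw [this]
    refine Subalgebra.prod_mem _ fun i _ => Subalgebra.prod_mem _ fun j _ => ?_
    split_ifs
    · exact Subalgebra.sub_mem _ (Rt_xx X S i) (Rt_xx X S j)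
    · exact Subalgebra.one_mem _
  have : (fun y => Eu (N := N) m (X y).1) =
      ∏ k : Fin (N / 2), (fun y => Ek (N := N) ((k : ℕ) + 1) (X y).1) ^ m k := by
    funext y
    rw [Finset.prod_apply]
    rfl
  rw [this]
  exact Subalgebra.prod_mem _ fun k _ => Subalgebra.pow_mem _ (h1 _) _

/-- the function `FF` has denominators only along walls -/
theorem FF_mem (P : MvPolynomial (Idx N (b + 1)) ℂ) (m : Fin (N / 2) →₀ ℕ) :
    (fun y : YY N (b + 1) => FF P m y.1 y.2.1 y.2.2) ∈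
      Rt (fun y : YY N (b + 1) => y.2.2)
        {f | ∃ i, f = fun y => parOf (fun a => (y.1 a).1) y.2.1 i} := by
  set S : Set (YY N (b + 1) → ℂ) := {f | ∃ i, f = fun y => parOf (fun a => (y.1 a).1) y.2.1 i}
  have hk : ∀ a i j, (fun y : YY N (b + 1) => (y.1 a).1 i j) ∈
      Rt (fun y : YY N (b + 1) => y.2.2) S := fun a i j =>
    Rt_of_mem ⟨Sum.inl (a, i, j), rfl⟩
  have hZ : ∀ a i j, (fun y : YY N (b + 1) => y.2.1 a i j) ∈
      Rt (fun y : YY N (b + 1) => y.2.2) S := fun a i j =>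
    Rt_of_mem ⟨Sum.inr (a, i, j), rfl⟩
  have h1 : (fun y : YY N (b + 1) => FF P m y.1 y.2.1 y.2.2) =
      (fun y => Eu (N := N) m y.2.2.1) *
        (cf P (lam m) ∘ fun y : YY N (b + 1) => (gC y.1 y.2.1 y.2.2, y.2.2)) := rfl
  rw [h1]
  refine Subalgebra.mul_mem _ (Rt_Eu (fun y : YY N (b + 1) => y.2.2) S m) ?_
  refine Rt_comp (X := fun y : XX N (b + 1) => y.2) (S := gS N (b + 1))
    (fun y : YY N (b + 1) => (gC y.1 y.2.1 y.2.2, y.2.2)) ?_ _ (cf_mem P (lam m))
  rintro f ⟨a, i, j, rfl⟩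
  exact Rt_mul (X := fun y : YY N (b + 1) => y.2.2) (S := S)
    (A := fun y => (y.1 a).1) (B := fun y => uC (y.2.1 a) y.2.2) (hk a) (Rt_uC (hZ a)) i j

theorem Yp_em : Yp (em ℂ N) = em ℂ N := by
  have h := IsLie.eq_diag_add_Yp (isLie_em (R := ℂ) (N := N)) (fun i j hij => by
    have h1 : ¬ ((j : ℕ) = (i : ℕ) + 1) := by
      have : (j : ℕ) < i := hij
      omega
    simp [em, h1])
  have h2 : (Matrix.diagonal fun i => em ℂ N i i) = 0 := by
    ext i j
    simp [em, Matrix.diagonal_apply]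
  rw [h2, zero_add] at h
  exact h.symm

theorem Yp_add_smul (Z Z' : Matrix (Fin N) (Fin N) ℂ) (t : ℂ) (i j : Fin N) :
    Yp (Z + t • Z') i j = Yp Z i j + t * Yp Z' i j := by
  simp only [Yp, Matrix.of_apply, Matrix.add_apply, Matrix.smul_apply, smul_eq_mul]
  split_ifs
  · ring
  · ring

theorem ev_genW (β : Wall (N / 2)) (x x1 : Fin (N / 2) → ℂ) (hx : el β x = 0)
    (hx1 : GenW (N := N) β x1) : ∀ᶠ t in 𝓝[≠] (0 : ℂ), GenW (N := N) β (x + t • x1) := by
  have h1 : ∀ᶠ t in 𝓝[≠] (0 : ℂ), ∀ p q : Fin N,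
      (∃ x' : Fin (N / 2) → ℂ, el β x' = 0 ∧ xx x' p ≠ xx x' q) →
      xx (x + t • x1) p ≠ xx (x + t • x1) q := by
    rw [eventually_all]
    intro p
    rw [eventually_all]
    intro q
    rw [eventually_imp_distrib_left]
    intro h
    have h2 := ev_affine_ne (xx x p - xx x q) (xx x1 p - xx x1 q)
      (sub_ne_zero.2 (hx1.2 p q h))
    filter_upwards [h2] with t ht heq
    apply ht
    rw [xx_add_smul, xx_add_smul] at heq
    linear_combination heq
  filter_upwards [h1] with t ht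
  exact ⟨by rw [el_add_smul, hx, hx1.1]; simp, ht⟩

/-- a pair of indices of a wall -/
theorem wall_pair (β : Wall (N / 2)) : ∃ i j : Fin N, i ≠ j ∧ ∀ x : Fin (N / 2) → ℂ,
    el β x = 0 ↔ xx x i = xx x j := by
  cases β with
  | I i j h σ =>
    rcases Int.units_eq_one_or σ with rfl | rfl
    · refine ⟨up i, up j, fun h' => (ne_of_lt h) (up_inj.1 h'), fun x => ?_⟩
      rw [xx_up, xx_up]
      simp [el, sub_eq_zero]
    · refine ⟨up i, Fin.rev (up j), up_ne_rev_up i j, fun x => ?_⟩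
      rw [xx_up, xx_rev_up]
      simp only [el, Units.val_neg, Units.val_one, Int.cast_neg, Int.cast_one, neg_mul, one_mul,
        sub_neg_eq_add]
      exact add_eq_zero_iff_eq_neg
  | II i =>
    refine ⟨up i, Fin.rev (up i), up_ne_rev_up i i, fun x => ?_⟩
    rw [xx_up, xx_rev_up]
    simp only [el]
    constructor
    · intro h; rw [h]; simp
    · intro h; linear_combination h / 2

theorem gen_genW (β : Wall (N / 2)) {v : Fin (N / 2) → ℂ} {p q : Fin N} (hv : Gen v p q)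
    (h : ∀ x : Fin (N / 2) → ℂ, el β x = 0 ↔ xx x p = xx x q) : GenW (N := N) β v := by
  obtain ⟨hpq, hv0, hv1⟩ := hv
  refine ⟨(h v).2 hv0, ?_⟩
  have key0 : ∀ x' : Fin (N / 2) → ℂ, el β x' = 0 → ∀ k l : Fin N, k < l →
      ¬ (Odd N ∧ l = Fin.rev k) → xx v k = xx v l → xx x' k = xx x' l := by
    intro x' hx' k l hkl hne hkv
    rcases hv1 k l hkl hkv with ⟨rfl, rfl⟩ | ⟨rfl, rfl⟩ | h3
    · exact (h x').1 hx'
    · rw [xx_rev, xx_rev, (h x').1 hx']
    · exact absurd h3 hne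
  have key : ∀ x' : Fin (N / 2) → ℂ, el β x' = 0 → ∀ k l : Fin N, k < l →
      xx v k = xx v l → xx x' k = xx x' l := by
    intro x' hx' k l hkl hkv
    by_cases h3 : Odd N ∧ l = Fin.rev k
    · obtain ⟨hN, rfl⟩ := h3
      have hk0 : xx v k = 0 := by
        rw [xx_rev] at hkv
        linear_combination hkv / 2
      obtain ⟨r, hr⟩ := hN
      have hkr : (k : ℕ) < r := by
        have h5 : (k : ℕ) < (Fin.rev k : Fin N) := hkl
        rw [Fin.val_rev] at h5
        omega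
      have hmd : ∀ y : Fin (N / 2) → ℂ, xx y (⟨r, by omega⟩ : Fin N) = 0 :=
        fun y => xx_mid y _ (by simp only; omega)
      have h4 := key0 x' hx' k (⟨r, by omega⟩ : Fin N) hkr (by
        rintro ⟨_, h5⟩
        have h6 := congrArg Fin.val h5
        rw [Fin.val_rev] at h6
        simp only at h6
        omega) (by rw [hk0, hmd])
      rw [hmd] at h4
      rw [xx_rev, h4, neg_zero]
    · exact key0 x' hx' k l hkl h3 hkv
  rintro k l ⟨x', hx', hne⟩ heq
  rcases lt_trichotomy k l with hkl | hkl | hkl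
  · exact hne (key x' hx' k l hkl heq)
  · subst hkl; exact hne rfl
  · exact hne (key x' hx' l k hkl heq.symm).symm

theorem ev_notMem_finite {S : Set ℂ} (hS : S.Finite) (x : ℂ) : ∀ᶠ t in 𝓝[≠] x, t ∉ S := by
  have h : (S \ {x})ᶜ ∈ 𝓝 x :=
    (hS.subset Set.sdiff_subset).isClosed.isOpen_compl.mem_nhds (by simp)
  filter_upwards [mem_nhdsWithin_of_mem_nhds h, self_mem_nhdsWithin] with t h1 h2 h3
  exact h1 ⟨h3, h2⟩

/-- the numerators vanish along the walls -/
theorem wall_vanish {P : MvPolynomial (Idx N (b + 1)) ℂ} (hP : InvP N (b + 1) P)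
    (m : Fin (N / 2) →₀ ℕ) (hlead : IsLead P (lam m)) (β : Wall (N / 2))
    (L : List (Wall (N / 2))) (P' : MvPolynomial (Par N (b + 1) ⊕ Fin (N / 2)) ℂ)
    (hP' : ∀ w ∈ {w : Par N (b + 1) → ℂ | ∀ a, IsG (Kof w a)},
      ∀ x ∈ {x : Fin (N / 2) → ℂ | IsRegx (N := N) x},
      ((β :: L).map fun β => MvPolynomial.eval x (ell β)).prod * Fw P m w x =
        MvPolynomial.eval (Sum.elim w x) P')
    (w : Par N (b + 1) → ℂ) (hw : ∀ a, IsG (Kof w a)) (x : Fin (N / 2) → ℂ)
    (hx : MvPolynomial.eval x (ell β) = 0) : MvPolynomial.eval (Sum.elim w x) P' = 0 := by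
  rw [eval_ell] at hx
  obtain ⟨i0, j0, hij0, hpair⟩ := wall_pair (N := N) β
  obtain ⟨p, q, x1, -, hpq, hfin⟩ := exists_line i0 j0 hij0
  have hβ : ∀ x : Fin (N / 2) → ℂ, el β x = 0 ↔ xx x p = xx x q :=
    fun x => (hpair x).trans (hpq x)
  obtain ⟨v, hv⟩ := exists_regx N
  set wt' : ℂ → Par N (b + 1) → ℂ :=
    fun t => parOf (Kof w) (fun a => Zof w a + t • (em ℂ N - Zof w a)) with hwt
  have hw0 : wt' 0 = w := by
    rw [hwt]
    simp only [zero_smul, add_zero]
    exact parOf_of w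
  have hwcont : Continuous wt' := by
    refine continuous_pi fun i => ?_
    rcases i with ⟨a, i, j⟩ | ⟨a, i, j⟩
    · exact continuous_const
    · show Continuous fun t : ℂ => (Zof w a + t • (em ℂ N - Zof w a)) i j
      simp only [Matrix.add_apply, Matrix.smul_apply, smul_eq_mul]
      fun_prop
  have hYp : ∀ (t : ℂ) (a : Fin (b + 1)), Yp (Zof (wt' t) a) =
      Yp (Zof w a) + t • (em ℂ N - Yp (Zof w a)) := by
    intro t a
    ext i j
    show Yp (Zof w a + t • (em ℂ N - Zof w a)) i j = _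
    rw [Yp_add_smul, sub_eq_add_neg, ← neg_one_smul ℂ (Zof w a), Yp_add_smul, Yp_em]
    simp only [Matrix.add_apply, Matrix.smul_apply, Matrix.sub_apply, smul_eq_mul]
    ring
  have hev : ∀ᶠ t in 𝓝[≠] (0 : ℂ), ∀ a : Fin (b + 1),
      Gen (x + t • x1) p q ∧ GoodAt (Yp (Zof (wt' t) a)) (x + t • x1) := by
    rw [eventually_all]
    intro a
    have h1 := hfin x ((hpair x).1 hx) (Yp (Zof w a)) (Yp_upper _) (isLie_Yp _)
    filter_upwards [ev_notMem_finite h1 0] with t ht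
    rw [not_not] at ht
    rw [hYp]
    exact ht
  have hz : ∀ᶠ t in 𝓝[≠] (0 : ℂ),
      MvPolynomial.eval (Sum.elim (wt' t) (x + t • x1)) P' = 0 := by
    filter_upwards [hev] with t hGt
    have hg : GenW (N := N) β (x + t • x1) := gen_genW β (hGt 0).1 hβ
    have hwG : ∀ a, IsG (Kof (wt' t) a) := hw
    have h1 := wall_limit hP m hlead β hg hv (fun a => ⟨Kof (wt' t) a, hwG a⟩) (Zof (wt' t))
      (fun a => (hGt a).2) L
      (fun s => MvPolynomial.eval (Sum.elim (wt' t) (x + t • x1 + s • v)) P') (by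
        refine (MvPolynomial.continuous_eval P').continuousAt.comp (Continuous.continuousAt ?_)
        refine continuous_pi fun i => ?_
        rcases i with i | i
        · exact continuous_const
        · simp only [Sum.elim_inr]
          exact (continuous_apply i).comp (continuous_curve (x + t • x1) v)) (by
        intro s hs
        have h2 := hP' (wt' t) hwG (x + t • x1 + s • v) hs
        simp only [eval_ell] at h2
        rw [← h2]
        congr 1
        unfold Fw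
        rw [dif_pos ⟨hwG, hs⟩])
    simpa using h1
  have hlim : Tendsto (fun t : ℂ => MvPolynomial.eval (Sum.elim (wt' t) (x + t • x1)) P')
      (𝓝[≠] (0 : ℂ)) (𝓝 (MvPolynomial.eval (Sum.elim w x) P')) := by
    have hc : Continuous fun t : ℂ =>
        MvPolynomial.eval (Sum.elim (wt' t) (x + t • x1)) P' := by
      refine (MvPolynomial.continuous_eval P').comp (continuous_pi fun i => ?_)
      rcases i with i | i
      · exact (continuous_apply i).comp hwcont
      · exact (continuous_apply i).comp (continuous_curve x x1)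
    have h0 := hc.tendsto 0
    simp only [hw0, zero_smul, add_zero] at h0
    exact h0.mono_left nhdsWithin_le_nhds
  have hlim0 : Tendsto (fun t : ℂ => MvPolynomial.eval (Sum.elim (wt' t) (x + t • x1)) P')
      (𝓝[≠] (0 : ℂ)) (𝓝 0) :=
    (tendsto_const_nhds (x := (0 : ℂ)) (f := 𝓝[≠] (0 : ℂ))).congr'
      (hz.mono fun t ht => ht.symm)
  exact tendsto_nhds_unique hlim hlim0

/-- **The pole bound.** -/
theorem pole_bound {P : MvPolynomial (Idx N (b + 1)) ℂ} (hP : InvP N (b + 1) P)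
    (m : Fin (N / 2) →₀ ℕ) (hlead : IsLead P (lam m)) :
    PB N (b + 1) m (fun y => Eu (N := N) m y.2.1 * cf P (lam m) y) := by
  obtain ⟨L, P0, hP0⟩ := Rt_clear (X := fun y : YY N (b + 1) => y.2.2)
    (fun y : YY N (b + 1) => parOf (fun a => (y.1 a).1) y.2.1) (fun f hf => hf) _ (FF_mem P m)
  obtain ⟨Q, hQ⟩ := reg_lemma {w : Par N (b + 1) → ℂ | ∀ a, IsG (Kof w a)}
    {x : Fin (N / 2) → ℂ | IsRegx (N := N) x} ell phiW phiW_dvd phiW_ell
    (fun β x hx => by rw [eval_ell]; exact el_ne_zero hx β) (Fw P m) L P0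
    (by
      intro w hw x hx
      have h1 := hP0 (fun a => ⟨Kof w a, hw a⟩, Zof w, ⟨x, hx⟩)
      have h2 : Fw P m w x = FF P m (fun a => ⟨Kof w a, hw a⟩) (Zof w) ⟨x, hx⟩ := by
        unfold Fw
        rw [dif_pos ⟨hw, hx⟩]
      rw [h2, h1]
      show MvPolynomial.eval (Sum.elim (parOf (Kof w) (Zof w)) x) P0 = _
      rw [parOf_of])
    (fun β L' P' h w hw x hx => wall_vanish hP m hlead β L' P' h w hw x hx)
  refine ⟨MvPolynomial.rename (Equiv.sumAssoc _ _ _) Q, ?_⟩
  intro k g Z u t x hu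
  have huC : ∀ a, u a = uC (Z a) x := fun a =>
    tri_unique (Dx x.1 + Yp (Z a)) (xx x.1) (isUnit_reg x) (u a) (uC (Z a) x) (hu a).1
      (uC_upUni _ _) (hu a).2.1 (uC_conj _ _)
  have hg : ∀ a, (g a).1 = (gC k Z x a).1 * Tt (t a) := by
    intro a
    rw [(hu a).2.2, huC a]
    rfl
  show Eu (N := N) m x.1 * cf P (lam m) (g, x) = _
  rw [cf_torus hP (lam m) (gC k Z x) g x t hg]
  have h1 := hQ (parOf (fun a => (k a).1) Z) (fun a => (k a).2) x.1 x.2
  have h2 : Fw P m (parOf (fun a => (k a).1) Z) x.1 = FF P m k Z x := by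
    unfold Fw
    rw [dif_pos ⟨fun a => (k a).2, x.2⟩]
    rfl
  rw [h2] at h1
  unfold FF at h1
  rw [MvPolynomial.eval_rename]
  have h3 : (Sum.elim (fun p : Fin (b + 1) × Fin N × Fin N => (k p.1).1 p.2.1 p.2.2)
      (coX Z x.1)) ∘ (Equiv.sumAssoc _ _ _) = Sum.elim (parOf (fun a => (k a).1) Z) x.1 := by
    funext i
    rcases i with (i | i) | i <;> rfl
  rw [h3, ← h1]
  ring

end pole

end Pool.Agent.MP_c45d35_ag
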