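import Pool.Agent.MP_c45d35_ag.Tri

/-! Block C (TRI), second part: reduction of `x + Y` to the root subspaces of a hyperplane,
inside the group, and comparison of `x + Y` with `x + e` (MP_c45d35_ag). -/

namespace Pool.Agent.MP_c45d35_ag

open Matrix

section cayley
variable {R : Type*} [CommRing R] {N : ℕ}

theorem upper_mul {A B : Matrix (Fin N) (Fin N) R} (hA : ∀ i j, j < i → A i j = 0)
    (hB : ∀ i j, j < i → B i j = 0) : ∀ i j, j < i → (A * B) i j = 0 := by
  intro i j hij
  rw [Matrix.mul_apply]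
  refine Finset.sum_eq_zero fun l _ => ?_
  by_cases h : l < i
  · rw [hA i l h, zero_mul]
  · rw [hB l j (lt_of_lt_of_le hij (not_lt.mp h)), mul_zero]

theorem upper_mul_diag {A B : Matrix (Fin N) (Fin N) R} (hA : ∀ i j, j < i → A i j = 0)
    (hB : ∀ i j, j < i → B i j = 0) (i : Fin N) : (A * B) i i = A i i * B i i := by
  rw [Matrix.mul_apply, Finset.sum_eq_single i]
  · intro l _ hl
    rcases lt_or_gt_of_ne hl with h | h
    · rw [hA i l h, zero_mul]
    · rw [hB l i h, mul_zero]
  · simp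

theorem st_inv' {A : Matrix (Fin N) (Fin N) R} (h : A * A⁻¹ = 1) : st (A⁻¹) = (st A)⁻¹ := by
  have h1 : st (A⁻¹) * st A = 1 := by rw [← st_mul, h, st_one]
  exact (Matrix.inv_eq_left_inv h1).symm

/-- The Cayley transform of a strictly upper triangular element of the Lie algebra. -/
theorem cayley [Algebra ℂ R] (A : Matrix (Fin N) (Fin N) R) (hA : ∀ i j, j ≤ i → A i j = 0)
    (hL : IsLie A) : ∃ n B : Matrix (Fin N) (Fin N) R, UpUni n ∧ IsG n ∧
      B = (algebraMap ℂ R (1 / 2)) • A ∧ n - 1 = A + (n - 1) * B := by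
  set c : R := algebraMap ℂ R (1 / 2) with hc
  have hcc : c + c = 1 := by
    rw [hc, ← map_add]; norm_num
  set B : Matrix (Fin N) (Fin N) R := c • A with hB
  have hBB : B + B = A := by
    rw [hB, ← add_smul, hcc, one_smul]
  have hstB : st B = -B := by
    rw [hB, st_smul, (isLie_iff_st A).mp hL, smul_neg]
  have hm : UpUni (1 - B) := by
    constructor
    · intro i j hij
      rw [Matrix.sub_apply, Matrix.one_apply_ne (ne_of_gt hij), hB, Matrix.smul_apply, hA i j hij.le]
      simp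
    · intro i
      rw [Matrix.sub_apply, Matrix.one_apply_eq, hB, Matrix.smul_apply, hA i i le_rfl]
      simp
  have hp : UpUni (1 + B) := by
    constructor
    · intro i j hij
      rw [Matrix.add_apply, Matrix.one_apply_ne (ne_of_gt hij), hB, Matrix.smul_apply, hA i j hij.le]
      simp
    · intro i
      rw [Matrix.add_apply, Matrix.one_apply_eq, hB, Matrix.smul_apply, hA i i le_rfl]
      simp
  have hn : UpUni ((1 + B) * (1 - B)⁻¹) := hp.mul hm.inv
  have hstm : st (1 - B) = 1 + B := by rw [st_sub, st_one, hstB, sub_neg_eq_add]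
  have hstp : st (1 + B) = 1 - B := by rw [st_add, st_one, hstB, sub_eq_add_neg]
  have hcom : (1 + B) * (1 - B) = (1 - B) * (1 + B) := by noncomm_ring
  refine ⟨(1 + B) * (1 - B)⁻¹, B, hn, ?_, rfl, ?_⟩
  · rw [isG_iff_st]
    refine ⟨?_, fun _ => hn.det⟩
    rw [st_mul, st_inv' hm.mul_inv, hstm, hstp]
    calc (1 + B)⁻¹ * (1 - B) * ((1 + B) * (1 - B)⁻¹)
        = (1 + B)⁻¹ * ((1 - B) * (1 + B)) * (1 - B)⁻¹ := by simp only [Matrix.mul_assoc]
      _ = ((1 + B)⁻¹ * (1 + B)) * ((1 - B) * (1 - B)⁻¹) := by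
          rw [← hcom]; simp only [Matrix.mul_assoc]
      _ = 1 := by rw [hp.inv_mul, hm.mul_inv, Matrix.one_mul]
  · have h1 : ((1 + B) * (1 - B)⁻¹ - 1) * (1 - B) = A := by
      rw [Matrix.sub_mul, Matrix.mul_assoc, hm.inv_mul, Matrix.mul_one, Matrix.one_mul]
      rw [← hBB]; abel
    have h2 : ((1 + B) * (1 - B)⁻¹ - 1) = ((1 + B) * (1 - B)⁻¹ - 1) * (1 - B) +
        ((1 + B) * (1 - B)⁻¹ - 1) * B := by
      rw [← Matrix.mul_add]; simp
    rw [h1] at h2
    exact h2

/-- Reduction to the root subspaces in `I`. -/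
theorem exists_red [Algebra ℂ R] (x : Fin (N / 2) → R) (I : Fin N → Fin N → Prop)
    (hI : ∀ k l, k < l → ¬ I k l → IsUnit (xx x k - xx x l))
    (hIs : ∀ k l, I k l → I (Fin.rev l) (Fin.rev k)) (Y : Matrix (Fin N) (Fin N) R)
    (hY : ∀ i j, j ≤ i → Y i j = 0) (hL : IsLie Y) (d : ℕ) :
    ∃ n Z : Matrix (Fin N) (Fin N) R, UpUni n ∧ IsG n ∧ IsLie Z ∧ (∀ i j, j ≤ i → Z i j = 0) ∧
      (∀ k l : Fin N, (l : ℕ) ≤ (k : ℕ) + d → ¬ I k l → Z k l = 0) ∧
      n * (Dx x + Z) = (Dx x + Y) * n := by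
  classical
  induction d with
  | zero =>
    refine ⟨1, Y, UpUni.one, isG_one, hL, hY, fun k l hkl _ => hY k l (by simpa using hkl), ?_⟩
    rw [Matrix.one_mul, Matrix.mul_one]
  | succ d ih =>
    obtain ⟨n, Z, hn, hG, hLZ, hZ, hZI, hE⟩ := ih
    let A : Matrix (Fin N) (Fin N) R := Matrix.of fun k l =>
      if (l : ℕ) = (k : ℕ) + (d + 1) ∧ ¬ I k l then -(Ring.inverse (xx x k - xx x l) * Z k l) else 0
    have hA : ∀ i j, j ≤ i → A i j = 0 := by
      intro i j hij
      have : ¬ ((j : ℕ) = (i : ℕ) + (d + 1) ∧ ¬ I i j) := by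
        rintro ⟨h1, _⟩
        have : (j : ℕ) ≤ i := hij
        omega
      simp only [A, Matrix.of_apply, if_neg this]
    have hLA : IsLie A := by
      rw [isLie_iff_st]
      ext k l
      rw [st_apply, Matrix.neg_apply]
      have hZs := congrFun (congrFun ((isLie_iff_st Z).mp hLZ) k) l
      rw [st_apply, Matrix.neg_apply] at hZs
      have hiff : (((Fin.rev k : Fin N) : ℕ) = ((Fin.rev l : Fin N) : ℕ) + (d + 1) ∧
          ¬ I (Fin.rev l) (Fin.rev k)) ↔ ((l : ℕ) = (k : ℕ) + (d + 1) ∧ ¬ I k l) := by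
        have h1 : (((Fin.rev k : Fin N) : ℕ) = ((Fin.rev l : Fin N) : ℕ) + (d + 1)) ↔
            ((l : ℕ) = (k : ℕ) + (d + 1)) := by
          rw [Fin.val_rev, Fin.val_rev]
          have := k.2
          have := l.2
          omega
        have h2 : I (Fin.rev l) (Fin.rev k) ↔ I k l := by
          constructor
          · intro h
            have := hIs _ _ h
            rwa [Fin.rev_rev, Fin.rev_rev] at this
          · exact hIs k l
        rw [h1, h2]
      simp only [A, Matrix.of_apply]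
      by_cases h : ((l : ℕ) = (k : ℕ) + (d + 1) ∧ ¬ I k l)
      · rw [if_pos h, if_pos (hiff.mpr h), xx_rev, xx_rev]
        have : -xx x l - -xx x k = xx x k - xx x l := by ring
        rw [this]
        linear_combination (-Ring.inverse (xx x k - xx x l)) * hZs
      · rw [if_neg h, if_neg (fun h' => h (hiff.mp h'))]
        simp
    obtain ⟨m, B, hm, hmG, hB, hmE⟩ := cayley A hA hLA
    -- entries of `E = m - 1`
    set E := m - 1 with hEdef
    have hE0 : ∀ i j, j ≤ i → E i j = 0 := by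
      intro i j hij
      rw [hEdef, Matrix.sub_apply]
      rcases eq_or_lt_of_le hij with h | h
      · subst h; rw [hm.2, Matrix.one_apply_eq, sub_self]
      · rw [hm.1 i j h, Matrix.one_apply_ne (ne_of_gt h), sub_self]
    have hBz : ∀ i j : Fin N, (j : ℕ) ≠ (i : ℕ) + (d + 1) → B i j = 0 := by
      intro i j hij
      rw [hB, Matrix.smul_apply]
      have : ¬ ((j : ℕ) = (i : ℕ) + (d + 1) ∧ ¬ I i j) := fun h => hij h.1
      simp only [A, Matrix.of_apply, if_neg this, smul_zero]
    have hEA : ∀ k l : Fin N, (l : ℕ) ≤ (k : ℕ) + (d + 1) → E k l = A k l := by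
      intro k l hkl
      have h1 := congrFun (congrFun hmE k) l
      rw [Matrix.add_apply, Matrix.mul_apply] at h1
      rw [h1, Finset.sum_eq_zero, add_zero]
      intro p _
      by_cases hp : p ≤ k
      · rw [hE0 k p hp, zero_mul]
      · have hp' : (k : ℕ) < p := not_le.mp hp
        rw [hBz p l (by omega), mul_zero]
    have hEz : ∀ k l : Fin N, (l : ℕ) < (k : ℕ) + (d + 1) → E k l = 0 := by
      intro k l hkl
      rw [hEA k l hkl.le]
      have : ¬ ((l : ℕ) = (k : ℕ) + (d + 1) ∧ ¬ I k l) := by rintro ⟨h, _⟩; omega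
      simp only [A, Matrix.of_apply, if_neg this]
    -- the new matrix
    set Z' : Matrix (Fin N) (Fin N) R := m⁻¹ * (Dx x + Z) * m - Dx x with hZ'
    have hmZ : m * (Dx x + Z') = (Dx x + Z) * m := by
      rw [hZ', add_sub_cancel, ← Matrix.mul_assoc, ← Matrix.mul_assoc, hm.mul_inv, Matrix.one_mul]
    have hDu : ∀ i j : Fin N, j < i → (Dx x + Z) i j = 0 := by
      intro i j hij
      rw [Matrix.add_apply, hZ i j hij.le, Dx, Matrix.diagonal_apply_ne _ (ne_of_gt hij), add_zero]
    have hDd : ∀ i : Fin N, (Dx x + Z) i i = xx x i := by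
      intro i
      rw [Matrix.add_apply, hZ i i le_rfl, Dx, Matrix.diagonal_apply_eq, add_zero]
    have hZ'0 : ∀ i j, j ≤ i → Z' i j = 0 := by
      intro i j hij
      rcases eq_or_lt_of_le hij with h | h
      · subst h
        rw [hZ', Matrix.sub_apply, upper_mul_diag (upper_mul hm.inv.1 hDu) hm.1,
          upper_mul_diag hm.inv.1 hDu, hm.inv.2, hm.2, hDd, Dx, Matrix.diagonal_apply_eq]
        ring
      · rw [hZ', Matrix.sub_apply, upper_mul (upper_mul hm.inv.1 hDu) hm.1 i j h, Dx,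
          Matrix.diagonal_apply_ne _ (ne_of_gt h), sub_zero]
    have hLZ' : IsLie Z' := by
      have h1 : IsLie (m⁻¹ * (Dx x + Z) * (m⁻¹)⁻¹) := IsLie.conj hmG.inv ((isLie_Dx x).add hLZ)
      rw [Matrix.nonsing_inv_nonsing_inv m (by rw [hm.det]; exact isUnit_one)] at h1
      exact h1.sub (isLie_Dx x)
    have hent : Z' = Z + (Dx x * E - E * Dx x) + (Z * E - E * Z') := by
      have h1 : m = 1 + E := by rw [hEdef]; abel
      have h2 := hmZ
      rw [h1] at h2
      simp only [Matrix.add_mul, Matrix.mul_add, Matrix.one_mul, Matrix.mul_one] at h2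
      calc Z' = (Dx x + E * Dx x + (Z' + E * Z')) - Dx x - E * Dx x - E * Z' := by abel
        _ = (Dx x + Z + (Dx x * E + Z * E)) - Dx x - E * Dx x - E * Z' := by rw [h2]
        _ = Z + (Dx x * E - E * Dx x) + (Z * E - E * Z') := by abel
    refine ⟨n * m, Z', hn.mul hm, hG.mul hmG, hLZ', hZ'0, ?_, ?_⟩
    · intro k l hkl hIkl
      have hZE : (Z * E) k l = 0 := by
        rw [Matrix.mul_apply]
        refine Finset.sum_eq_zero fun p _ => ?_
        by_cases hp : p ≤ k
        · rw [hZ k p hp, zero_mul]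
        · have hp' : (k : ℕ) < p := not_le.mp hp
          rw [hEz p l (by omega), mul_zero]
      have hEZ : (E * Z') k l = 0 := by
        rw [Matrix.mul_apply]
        refine Finset.sum_eq_zero fun p _ => ?_
        by_cases hp : l ≤ p
        · rw [hZ'0 p l hp, mul_zero]
        · have hp' : (p : ℕ) < l := not_le.mp hp
          rw [hEz k p (by omega), zero_mul]
      have h1 := congrFun (congrFun hent k) l
      rw [Matrix.add_apply, Matrix.add_apply, Matrix.sub_apply, Matrix.sub_apply, hZE, hEZ, Dx,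
        Matrix.diagonal_mul, Matrix.mul_diagonal, hEA k l hkl] at h1
      rw [h1]
      by_cases h : (l : ℕ) = (k : ℕ) + (d + 1)
      · have hlt : k < l := by show (k : ℕ) < l; omega
        simp only [A, Matrix.of_apply, if_pos (⟨h, hIkl⟩ : _ ∧ _)]
        have hu := Ring.mul_inverse_cancel _ (hI k l hlt hIkl)
        linear_combination (-Z k l) * hu
      · have h' : ¬ ((l : ℕ) = (k : ℕ) + (d + 1) ∧ ¬ I k l) := fun h' => h h'.1
        simp only [A, Matrix.of_apply, if_neg h']
        rw [hZI k l (by omega) hIkl]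
        ring
    · rw [Matrix.mul_assoc, hmZ, ← Matrix.mul_assoc, hE, Matrix.mul_assoc]

end cayley

section good

open Filter Topology

variable {N : ℕ}

/-- `x0` is a generic point of the root hyperplane of `(p, q)`. -/
def Gen (x0 : Fin (N / 2) → ℂ) (p q : Fin N) : Prop :=
  p < q ∧ xx x0 p = xx x0 q ∧ ∀ k l : Fin N, k < l → xx x0 k = xx x0 l →
    (k = p ∧ l = q) ∨ (k = Fin.rev q ∧ l = Fin.rev p) ∨ (Odd N ∧ l = Fin.rev k)

/-- Comparison of `x + Y` with `x + e` near `x0`, inside the group. -/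
def GoodAt (Y : Matrix (Fin N) (Fin N) ℂ) (x0 : Fin (N / 2) → ℂ) : Prop :=
  ∃ (δ : (Fin (N / 2) → ℂ) → Fin (N / 2) → ℂˣ)
    (C : (Fin (N / 2) → ℂ) → Matrix (Fin N) (Fin N) ℂ),
    ContinuousAt C x0 ∧ (∀ k, ContinuousAt (fun x => ((δ x k : ℂˣ) : ℂ)) x0) ∧
      ∀ᶠ x in 𝓝 x0, IsRegx (N := N) x → ∀ u ue : Matrix (Fin N) (Fin N) ℂ, UpUni u → UpUni ue →
        u * Dx x = (Dx x + Y) * u → ue * Dx x = (em ℂ N + Dx x) * ue → C x * ue = u * Tt (δ x)

theorem wt_ne {p q : Fin N} (h : p ≠ q) : ∃ k, wt N p k ≠ wt N q k := by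
  by_contra hcon
  push Not at hcon
  apply h
  by_cases hp : (p : ℕ) < N / 2
  · have h1 := hcon ⟨p, hp⟩
    have h2 : ¬ (((Fin.rev p : Fin N) : ℕ) = (p : ℕ)) := by
      rw [Fin.val_rev]; have := p.2; omega
    simp only [wt, if_neg h2, if_true] at h1
    by_cases h3 : (q : ℕ) = (p : ℕ)
    · exact (Fin.ext h3).symm
    · rw [if_neg h3] at h1
      split_ifs at h1 <;> omega
  · by_cases hp' : ((Fin.rev p : Fin N) : ℕ) < N / 2
    · have h1 := hcon ⟨(Fin.rev p : Fin N), hp'⟩
      have h2 : ¬ ((p : ℕ) = ((Fin.rev p : Fin N) : ℕ)) := by omega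
      simp only [wt, if_neg h2, if_true] at h1
      by_cases h3 : ((Fin.rev q : Fin N) : ℕ) = ((Fin.rev p : Fin N) : ℕ)
      · exact Fin.rev_injective (Fin.ext h3.symm)
      · rw [if_neg h3] at h1
        split_ifs at h1 <;> omega
    · have hp1 : ∀ k, wt N p k = 0 := by
        intro k
        have := k.2
        have e1 : ¬ ((p : ℕ) = (k : ℕ)) := by omega
        have e2 : ¬ (((Fin.rev p : Fin N) : ℕ) = (k : ℕ)) := by omega
        simp only [wt, if_neg e1, if_neg e2, sub_zero]
      have hq : ¬ ((q : ℕ) < N / 2) := by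
        intro hq
        have h1 := hcon ⟨q, hq⟩
        rw [hp1] at h1
        have h2 : ¬ (((Fin.rev q : Fin N) : ℕ) = (q : ℕ)) := by
          rw [Fin.val_rev]; have := q.2; omega
        simp only [wt, if_neg h2, if_true] at h1
        omega
      have hq' : ¬ (((Fin.rev q : Fin N) : ℕ) < N / 2) := by
        intro hq'
        have h1 := hcon ⟨(Fin.rev q : Fin N), hq'⟩
        rw [hp1] at h1
        have h2 : ¬ ((q : ℕ) = ((Fin.rev q : Fin N) : ℕ)) := by omega
        simp only [wt, if_neg h2, if_true] at h1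
        omega
      rw [Fin.val_rev] at hp' hq'
      ext
      have := p.2
      have := q.2
      omega

/-- the recursion for eigenvectors of `e + D` -/
theorem em_eigen (x : Fin (N / 2) → ℂ) (z : ℂ) (v : Fin N → ℂ)
    (hv : (em ℂ N + Dx x).mulVec v = z • v) (h0 : ∀ i : Fin N, (i : ℕ) = 0 → v i = 0) : v = 0 := by
  have key : ∀ m : ℕ, ∀ i : Fin N, (i : ℕ) = m → v i = 0 := by
    intro m
    induction m with
    | zero => exact h0
    | succ m ih =>
      intro i hi
      have hm : m < N := by have := i.2; omega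
      have h1 := congrFun hv ⟨m, hm⟩
      rw [Matrix.add_mulVec, Pi.add_apply, Dx, Matrix.mulVec_diagonal] at h1
      have h2 : (em ℂ N).mulVec v ⟨m, hm⟩ = v i := by
        rw [Matrix.mulVec, dotProduct, Finset.sum_eq_single i]
        · simp only [em, Matrix.of_apply, if_pos hi, one_mul]
        · intro l _ hl
          have : ¬ ((l : ℕ) = m + 1) := fun h' => hl (Fin.ext (h'.trans hi.symm))
          simp only [em, Matrix.of_apply, if_neg this, zero_mul]
        · simp
      rw [h2, ih ⟨m, hm⟩ rfl] at h1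
      simp only [Pi.smul_apply, smul_eq_mul, mul_zero, add_zero] at h1
      rw [h1, ih ⟨m, hm⟩ rfl, mul_zero]
  funext i
  exact key i i rfl

/-- `e + D` is not conjugate to a diagonal matrix with a repeated entry. -/
theorem em_not_diag (x : Fin (N / 2) → ℂ) (d : Fin N → ℂ) (p q : Fin N) (hpq : p ≠ q)
    (hd : d p = d q) (a : Matrix (Fin N) (Fin N) ℂ) (ha : IsUnit a.det)
    (h : (em ℂ N + Dx x) * a = a * Matrix.diagonal d) : False := by
  have hcol : ∀ k : Fin N, (em ℂ N + Dx x).mulVec (fun i => a i k) = d k • (fun i => a i k) := by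
    intro k
    funext i
    have h1 := congrFun (congrFun h i) k
    rw [Matrix.mul_diagonal] at h1
    rw [Pi.smul_apply, smul_eq_mul, mul_comm, ← h1]
    rfl
  by_cases hN : 0 < N
  swap
  · exact hN (lt_of_le_of_lt (Nat.zero_le _) p.2)
  set i0 : Fin N := ⟨0, hN⟩ with hi0
  set w : Fin N → ℂ := fun i => a i0 q * a i p - a i0 p * a i q with hw
  have hw1 : (em ℂ N + Dx x).mulVec w = d p • w := by
    have e1 : w = a i0 q • (fun i => a i p) - a i0 p • (fun i => a i q) := by
      funext i; simp [hw]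
    rw [e1, Matrix.mulVec_sub, Matrix.mulVec_smul, Matrix.mulVec_smul, hcol, hcol, ← hd]
    funext i
    simp only [Pi.sub_apply, Pi.smul_apply, smul_eq_mul]
    ring
  have hw0 : w = 0 := by
    apply em_eigen x (d p) w hw1
    intro i hi
    have : i = i0 := Fin.ext hi
    subst this
    simp only [hw]; ring
  -- linear independence of the columns
  have hinj : ∀ v : Fin N → ℂ, a.mulVec v = 0 → v = 0 := by
    intro v hv
    have := congrArg (fun y => a⁻¹.mulVec y) hv
    simp only [Matrix.mulVec_mulVec, Matrix.nonsing_inv_mul a ha, Matrix.one_mulVec,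
      Matrix.mulVec_zero] at this
    exact this
  have h2 : a.mulVec (Pi.single p (a i0 q) - Pi.single q (a i0 p)) = 0 := by
    rw [Matrix.mulVec_sub, Matrix.mulVec_single, Matrix.mulVec_single]
    funext i
    have := congrFun hw0 i
    simp only [hw, Pi.zero_apply] at this
    simp only [Pi.sub_apply, Pi.smul_apply, Matrix.col_apply, MulOpposite.smul_eq_mul_unop, MulOpposite.unop_op, Pi.zero_apply]
    linear_combination this
  have h3 := hinj _ h2
  have h4 : a i0 p = 0 := by
    have := congrFun h3 q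
    simp only [Pi.sub_apply, Pi.single_eq_same, Pi.zero_apply, Pi.single_eq_of_ne hpq.symm] at this
    linear_combination -this
  have h5 : (fun i => a i p) = (0 : Fin N → ℂ) := by
    apply em_eigen x (d p) _ (hcol p)
    intro i hi
    have : i = i0 := Fin.ext hi
    subst this
    exact h4
  have h6 : a.mulVec (Pi.single p 1) = 0 := by
    rw [Matrix.mulVec_single_one]
    exact h5
  have h7 := hinj _ h6
  have := congrFun h7 p
  simp at this

/-- A Lie algebra element supported on the root spaces of a generic point of the hyperplane of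
`(p, q)` is determined by its entry at `(p, q)`. -/
theorem gen_support {R : Type*} [CommRing R] [Algebra ℂ R] {x0 : Fin (N / 2) → ℂ} {p q : Fin N}
    (hg : Gen x0 p q) (Z : Matrix (Fin N) (Fin N) R) (hL : IsLie Z) (hZ : ∀ i j, j ≤ i → Z i j = 0)
    (hI : ∀ k l : Fin N, xx x0 k ≠ xx x0 l → Z k l = 0) :
    (∀ k l, ¬ (k = p ∧ l = q) → ¬ (k = Fin.rev q ∧ l = Fin.rev p) → Z k l = 0) ∧
      Z (Fin.rev q) (Fin.rev p) = -((-1) ^ ((p : ℕ) + (q : ℕ)) * Z p q) := by
  have hs : ∀ k l : Fin N, (-1) ^ ((k : ℕ) + (l : ℕ)) * Z (Fin.rev l) (Fin.rev k) = -Z k l := by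
    intro k l
    have := congrFun (congrFun ((isLie_iff_st Z).mp hL) k) l
    rwa [st_apply, Matrix.neg_apply] at this
  constructor
  · intro k l h1 h2
    by_cases hkl : k < l
    · by_cases hx : xx x0 k = xx x0 l
      · rcases hg.2.2 k l hkl hx with h | h | h
        · exact absurd h h1
        · exact absurd h h2
        · obtain ⟨⟨m, hm⟩, hl⟩ := h
          subst hl
          have h3 := hs k (Fin.rev k)
          rw [Fin.rev_rev, Fin.val_rev] at h3
          have h4 : (k : ℕ) + (N - ((k : ℕ) + 1)) = 2 * m := by have := k.2; omega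
          rw [h4, pow_mul] at h3
          simp only [even_two, Even.neg_pow, one_pow, one_mul] at h3
          have h5 : Z k (Fin.rev k) + Z k (Fin.rev k) = 0 := by linear_combination h3
          have h6 : (algebraMap ℂ R (1 / 2)) * (Z k (Fin.rev k) + Z k (Fin.rev k)) =
              Z k (Fin.rev k) := by
            have h7 : algebraMap ℂ R (1 / 2) + algebraMap ℂ R (1 / 2) = 1 := by
              rw [← map_add]; norm_num
            linear_combination (Z k (Fin.rev k)) * h7
          rw [h5, mul_zero] at h6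
          exact h6.symm
      · exact hI k l hx
    · exact hZ k l (not_lt.mp hkl)
  · have h1 := hs p q
    have h2 : ((-1 : R) ^ ((p : ℕ) + (q : ℕ))) * (-1) ^ ((p : ℕ) + (q : ℕ)) = 1 := by
      rw [← pow_add, ← two_mul, pow_mul]; simp
    linear_combination ((-1 : R) ^ ((p : ℕ) + (q : ℕ))) * h1 - Z (Fin.rev q) (Fin.rev p) * h2

theorem continuous_xx (k : Fin N) : Continuous (fun x : Fin (N / 2) → ℂ => xx x k) := by
  unfold xx
  fun_prop

theorem wt_rev_apply (k : Fin N) (i : Fin (N / 2)) : wt N (Fin.rev k) i = - wt N k i := by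
  rw [wt_rev]; rfl

/-- the torus element with only one coordinate -/
theorem chi_single {n : ℕ} (μ : Fin n → ℤ) (k0 : Fin n) (r : ℂˣ) :
    chi μ (fun k => if k = k0 then r else 1) = r ^ μ k0 := by
  unfold chi
  rw [Finset.prod_eq_single k0]
  · simp
  · intro b _ hb
    show (if b = k0 then r else 1) ^ μ b = 1
    rw [if_neg hb, _root_.one_zpow]
  · simp

/-- local roots of nonvanishing functions -/
theorem local_root {X : Type*} [TopologicalSpace X] (x0 : X) (r : X → ℂ) (hr : ContinuousAt r x0)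
    (h0 : r x0 ≠ 0) (e : ℤ) (he : e ≠ 0) :
    ∃ ρ : X → ℂˣ, ContinuousAt (fun x => ((ρ x : ℂˣ) : ℂ)) x0 ∧
      ∀ᶠ x in 𝓝 x0, ((ρ x : ℂˣ) : ℂ) ^ e = r x := by
  refine ⟨fun x => Units.mk0 (Complex.exp ((Complex.log (r x / r x0) + Complex.log (r x0)) / e))
    (Complex.exp_ne_zero _), ?_, ?_⟩
  · simp only [Units.val_mk0]
    have h1 : ContinuousAt (fun x => r x / r x0) x0 := hr.div_const _
    have h2 : ContinuousAt (fun x => Complex.log (r x / r x0)) x0 := by
      apply ContinuousAt.clog h1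
      rw [div_self h0]
      exact Complex.one_mem_slitPlane
    exact Complex.continuous_exp.continuousAt.comp ((h2.add continuousAt_const).div_const _)
  · have h1 : ∀ᶠ x in 𝓝 x0, r x ≠ 0 := hr.eventually_ne h0
    filter_upwards [h1] with x hx
    simp only [Units.val_mk0]
    rw [← Complex.exp_int_mul]
    have he' : (e : ℂ) ≠ 0 := by exact_mod_cast he
    rw [mul_div_cancel₀ _ he', Complex.exp_add, Complex.exp_log (div_ne_zero hx h0),
      Complex.exp_log h0, div_mul_cancel₀ _ h0]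

/-- If `x0` is a generic point of a root hyperplane and `x0 + Y` is regular, then `x + Y` and
`x + e` can be compared near `x0`, inside the group. -/
theorem goodAt {x0 : Fin (N / 2) → ℂ} {p q : Fin N} (hg : Gen x0 p q)
    (Y : Matrix (Fin N) (Fin N) ℂ) (hY : ∀ i j, j ≤ i → Y i j = 0) (hL : IsLie Y)
    (hreg : ∃ g : Matrix (Fin N) (Fin N) ℂ, IsUnit g.det ∧
      g * (em ℂ N + Dx x0) = (Dx x0 + Y) * g) : GoodAt Y x0 := by
  classical
  -- the open set
  set Ω : Set (Fin (N / 2) → ℂ) := {x | ∀ k l : Fin N, xx x0 k ≠ xx x0 l → xx x k ≠ xx x l} with hΩ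
  have hΩo : IsOpen Ω := by
    have : Ω = ⋂ k : Fin N, ⋂ l : Fin N, {x | xx x0 k ≠ xx x0 l → xx x k ≠ xx x l} := by
      ext x; simp [hΩ]
    rw [this]
    refine isOpen_iInter_of_finite fun k => isOpen_iInter_of_finite fun l => ?_
    by_cases h : xx x0 k = xx x0 l
    · simp [h]
    · simp only [ne_eq, h, not_false_eq_true, forall_const]
      exact isOpen_ne_fun (continuous_xx k) (continuous_xx l)
  have hx0 : x0 ∈ Ω := fun k l h => h
  -- the ring
  let R := C(Ω, ℂ)
  let X : Fin (N / 2) → R := fun k => ⟨fun x => x.1 k, (continuous_apply k).comp continuous_subtype_val⟩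
  let ev : (x : Ω) → (R →+* ℂ) := fun x => (Pi.evalRingHom (fun _ : Ω => ℂ) x).comp ContinuousMap.coeFnRingHom
  have hevX : ∀ x : Ω, (fun k => ev x (X k)) = x.1 := fun x => rfl
  let I : Fin N → Fin N → Prop := fun k l => xx x0 k = xx x0 l
  have hI : ∀ k l, k < l → ¬ I k l → IsUnit (xx X k - xx X l) := by
    intro k l _ h
    rw [ContinuousMap.isUnit_iff_forall_ne_zero]
    intro x
    have h1 : (xx X k - xx X l) x = xx x.1 k - xx x.1 l := by
      show ev x (xx X k - xx X l) = _
      rw [map_sub, xx_map, xx_map, hevX]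
    rw [h1]
    exact sub_ne_zero.mpr (x.2 k l h)
  have hIs : ∀ k l, I k l → I (Fin.rev l) (Fin.rev k) := by
    intro k l h
    show xx x0 _ = xx x0 _
    have h' : xx x0 k = xx x0 l := h
    rw [xx_rev, xx_rev, h']
  -- the reductions
  have red : ∀ W : Matrix (Fin N) (Fin N) ℂ, (∀ i j, j ≤ i → W i j = 0) → IsLie W →
      ∃ n Z : Matrix (Fin N) (Fin N) R, UpUni n ∧ IsG n ∧
        (∀ k l, ¬ (k = p ∧ l = q) → ¬ (k = Fin.rev q ∧ l = Fin.rev p) → Z k l = 0) ∧
        Z (Fin.rev q) (Fin.rev p) = -((-1) ^ ((p : ℕ) + (q : ℕ)) * Z p q) ∧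
        ∀ x : Ω, n.map (ev x) * (Dx x.1 + Z.map (ev x)) = (Dx x.1 + W) * n.map (ev x) := by
    intro W hW hLW
    have h1 : ∀ i j, j ≤ i → (W.map (algebraMap ℂ R)) i j = 0 := by
      intro i j hij
      rw [Matrix.map_apply, hW i j hij, map_zero]
    obtain ⟨n, Z, hn, hG, hLZ, hZ, hZI, hE⟩ := exists_red X I hI hIs (W.map (algebraMap ℂ R)) h1
      (hLW.map _) N
    have h2 := gen_support hg Z hLZ hZ (fun k l hkl => hZI k l (by have := l.2; omega) hkl)
    refine ⟨n, Z, hn, hG, h2.1, h2.2, fun x => ?_⟩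
    have h3 := congrArg (fun M : Matrix (Fin N) (Fin N) R => M.map (ev x)) hE
    simp only [Matrix.map_mul, Matrix.map_add (ev x) (map_add (ev x)), Dx_map] at h3
    have h4 : (W.map (algebraMap ℂ R)).map (ev x) = W := by
      ext i j
      rfl
    rw [h4] at h3
    exact h3
  have hem0 : ∀ i j : Fin N, j ≤ i → em ℂ N i j = 0 := by
    intro i j hij
    have : ¬ ((j : ℕ) = (i : ℕ) + 1) := by
      have : (j : ℕ) ≤ i := hij
      omega
    simp only [em, Matrix.of_apply, if_neg this]
  obtain ⟨n, Z, hn, hG, hZ1, hZ2, hE⟩ := red Y hY hL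
  obtain ⟨ne, Ze, hne, hGe, hZe1, hZe2, hEe⟩ := red (em ℂ N) hem0 isLie_em
  set x0' : Ω := ⟨x0, hx0⟩ with hx0'
  -- evaluation of unipotent matrices
  have hmapU : ∀ (m : Matrix (Fin N) (Fin N) R) (x : Ω), UpUni m → UpUni (m.map (ev x)) := by
    intro m x hm
    constructor
    · intro i j hij
      rw [Matrix.map_apply, hm.1 i j hij, map_zero]
    · intro i
      rw [Matrix.map_apply, hm.2 i, map_one]
  -- nonvanishing of the coefficients at `x0`
  have hZzero : ∀ (Z : Matrix (Fin N) (Fin N) R),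
      (∀ k l, ¬ (k = p ∧ l = q) → ¬ (k = Fin.rev q ∧ l = Fin.rev p) → Z k l = 0) →
      Z (Fin.rev q) (Fin.rev p) = -((-1) ^ ((p : ℕ) + (q : ℕ)) * Z p q) →
      Z p q x0' = 0 → Z.map (ev x0') = 0 := by
    intro Z h1 h2 h3
    have h3' : ev x0' (Z p q) = 0 := h3
    ext k l
    rw [Matrix.map_apply, Matrix.zero_apply]
    by_cases a1 : k = p ∧ l = q
    · rw [a1.1, a1.2]; exact h3'
    · by_cases a2 : k = Fin.rev q ∧ l = Fin.rev p
      · rw [a2.1, a2.2, h2, map_neg, map_mul, h3', mul_zero, neg_zero]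
      · rw [h1 k l a1 a2, map_zero]
  have hce : Ze p q x0' ≠ 0 := by
    intro h0
    have h1 := hZzero Ze hZe1 hZe2 h0
    have h2 := hEe x0'
    rw [h1, add_zero] at h2
    have hu := hmapU ne x0' hne
    refine em_not_diag x0 (xx x0) p q hg.1.ne hg.2.1 (ne.map (ev x0')) ?_ ?_
    · rw [hu.det]; exact isUnit_one
    · rw [add_comm]; exact h2.symm
  have hc : Z p q x0' ≠ 0 := by
    intro h0
    have h1 := hZzero Z hZ1 hZ2 h0
    have h2 := hE x0'
    rw [h1, add_zero] at h2
    have hu := hmapU n x0' hn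
    obtain ⟨g, hgu, hge⟩ := hreg
    have hginv : g⁻¹ * g = 1 := Matrix.nonsing_inv_mul g hgu
    have hginv' : g * g⁻¹ = 1 := Matrix.mul_nonsing_inv g hgu
    refine em_not_diag x0 (xx x0) p q hg.1.ne hg.2.1 (g⁻¹ * n.map (ev x0')) ?_ ?_
    · rw [Matrix.det_mul, hu.det, mul_one]
      exact Matrix.isUnit_nonsing_inv_det g hgu
    · have h3 : (em ℂ N + Dx x0) * g⁻¹ = g⁻¹ * (Dx x0 + Y) := by
        calc (em ℂ N + Dx x0) * g⁻¹ = g⁻¹ * (g * (em ℂ N + Dx x0)) * g⁻¹ := by
              rw [← Matrix.mul_assoc, hginv, Matrix.one_mul]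
          _ = g⁻¹ * (Dx x0 + Y) * (g * g⁻¹) := by rw [hge]; simp only [Matrix.mul_assoc]
          _ = g⁻¹ * (Dx x0 + Y) := by rw [hginv', Matrix.mul_one]
      rw [← Matrix.mul_assoc, h3, Matrix.mul_assoc, Matrix.mul_assoc]
      congr 1
      exact h2.symm
  -- the torus part
  obtain ⟨k0, hk0⟩ := wt_ne hg.1.ne
  set e : ℤ := wt N p k0 - wt N q k0 with he
  have he0 : e ≠ 0 := sub_ne_zero.mpr hk0
  let r : (Fin (N / 2) → ℂ) → ℂ := fun x => if h : x ∈ Ω then Z p q ⟨x, h⟩ / Ze p q ⟨x, h⟩ else 1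
  have hr0 : r x0 ≠ 0 := by
    simp only [r, dif_pos hx0]
    exact div_ne_zero hc hce
  have hrc : ContinuousAt r x0 := by
    have h1 : ContinuousAt (fun x : Ω => Z p q x / Ze p q x) x0' :=
      (Z p q).continuous.continuousAt.div (Ze p q).continuous.continuousAt hce
    have h2 : ContinuousAt (fun x : Ω => r x.1) x0' := by
      refine h1.congr (Eventually.of_forall fun x => ?_)
      simp only [r, dif_pos x.2]
    exact (hΩo.isOpenEmbedding_subtypeVal.continuousAt_iff (x := x0')).mp h2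
  obtain ⟨ρ, hρc, hρe⟩ := local_root x0 r hrc hr0 e he0
  let δ : (Fin (N / 2) → ℂ) → Fin (N / 2) → ℂˣ := fun x k => if k = k0 then ρ x else 1
  have hδc : ∀ k, ContinuousAt (fun x => ((δ x k : ℂˣ) : ℂ)) x0 := by
    intro k
    by_cases hk : k = k0
    · simp only [δ, if_pos hk]; exact hρc
    · simp only [δ, if_neg hk]; exact continuousAt_const
  have hTt : ∀ x, (Tt (δ x) : Matrix (Fin N) (Fin N) ℂ) =
      Matrix.diagonal fun i => ((ρ x : ℂˣ) : ℂ) ^ (wt N i k0) := by
    intro x
    unfold Tt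
    congr 1
    funext i
    rw [show δ x = (fun k => if k = k0 then ρ x else 1) from rfl, chi_single]
    simp
  let C : (Fin (N / 2) → ℂ) → Matrix (Fin N) (Fin N) ℂ := fun x =>
    if h : x ∈ Ω then n.map (ev ⟨x, h⟩) * Tt (δ x) * st (ne.map (ev ⟨x, h⟩)) else 0
  refine ⟨δ, C, ?_, hδc, ?_⟩
  · -- continuity
    have hTc : ContinuousAt (fun x => (Tt (δ x) : Matrix (Fin N) (Fin N) ℂ)) x0 := by
      refine (continuousAt_pi.mpr fun i => continuousAt_pi.mpr fun j => ?_)
      simp only [hTt]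
      by_cases hij : i = j
      · subst hij
        simp only [Matrix.diagonal_apply_eq]
        exact hρc.zpow₀ _ (Or.inl (Units.ne_zero _))
      · simp only [Matrix.diagonal_apply_ne _ hij]
        exact continuousAt_const
    have hmapc : ∀ m : Matrix (Fin N) (Fin N) R, ContinuousAt (fun x : Ω => m.map (ev x)) x0' := by
      intro m
      refine continuousAt_pi.mpr fun i => continuousAt_pi.mpr fun j => ?_
      exact (m i j).continuous.continuousAt
    have hstc : Continuous (fun m : Matrix (Fin N) (Fin N) ℂ => st m) := by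
      unfold st
      fun_prop
    have h1 : ContinuousAt (fun x : Ω => n.map (ev x) * Tt (δ x.1) * st (ne.map (ev x))) x0' := by
      have hT' : ContinuousAt (fun x : Ω => (Tt (δ x.1) : Matrix (Fin N) (Fin N) ℂ)) x0' :=
        hTc.comp_of_eq continuous_subtype_val.continuousAt rfl
      have hs' : ContinuousAt (fun x : Ω => st (ne.map (ev x))) x0' :=
        hstc.continuousAt.comp (hmapc ne)
      exact ((hmapc n).mul hT').mul hs'
    have h2 : ContinuousAt (fun x : Ω => C x.1) x0' := by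
      refine h1.congr (Eventually.of_forall fun x => ?_)
      simp only [C, dif_pos x.2]
    exact (hΩo.isOpenEmbedding_subtypeVal.continuousAt_iff (x := x0')).mp h2
  · -- the identity
    have hev : ∀ᶠ x in 𝓝 x0, x ∈ Ω := hΩo.mem_nhds hx0
    have hce' : ∀ᶠ x in 𝓝 x0, ∀ h : x ∈ Ω, Ze p q ⟨x, h⟩ ≠ 0 := by
      have h1 : ∀ᶠ x : Ω in 𝓝 x0', Ze p q x ≠ 0 :=
        (Ze p q).continuous.continuousAt.eventually_ne hce
      have h2 := hΩo.isOpenEmbedding_subtypeVal.map_nhds_eq x0'
      have h3 : ∀ᶠ x in Filter.map (Subtype.val : Ω → _) (𝓝 x0'), ∀ h : x ∈ Ω,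
          Ze p q ⟨x, h⟩ ≠ 0 := by
        rw [Filter.eventually_map]
        filter_upwards [h1] with x hx h
        exact hx
      rwa [h2] at h3
    filter_upwards [hev, hce', hρe] with x hxΩ hcx hρx hxreg u ue hu hue hue1 hue2
    set x' : Ω := ⟨x, hxΩ⟩ with hx'
    have hcx' : Ze p q x' ≠ 0 := hcx hxΩ
    have hρ0 : ((ρ x : ℂˣ) : ℂ) ≠ 0 := Units.ne_zero _
    set t : ℂ := ((ρ x : ℂˣ) : ℂ) with ht
    have hρx' : t ^ (wt N p k0) * Ze p q x' = Z p q x' * t ^ (wt N q k0) := by
      have h1 : t ^ e = Z p q x' / Ze p q x' := by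
        rw [hρx]; exact dif_pos hxΩ
      rw [he, zpow_sub₀ hρ0] at h1
      have h2 : t ^ (wt N q k0) ≠ 0 := zpow_ne_zero _ hρ0
      field_simp at h1
      rw [h1]; ring
    have hTZ : Tt (δ x) * Ze.map (ev x') = Z.map (ev x') * Tt (δ x) := by
      rw [hTt]
      ext k l
      rw [Matrix.diagonal_mul, Matrix.mul_diagonal, Matrix.map_apply, Matrix.map_apply]
      by_cases a1 : k = p ∧ l = q
      · rw [a1.1, a1.2]; exact hρx'
      · by_cases a2 : k = Fin.rev q ∧ l = Fin.rev p
        · rw [a2.1, a2.2, hZ2, hZe2, wt_rev_apply, wt_rev_apply, map_neg, map_neg, map_mul, map_mul,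
            _root_.zpow_neg, _root_.zpow_neg]
          have h1 : t ^ (wt N p k0) ≠ 0 := zpow_ne_zero _ hρ0
          have h2 : t ^ (wt N q k0) ≠ 0 := zpow_ne_zero _ hρ0
          have h3 : ev x' (Ze p q) = Ze p q x' := rfl
          have h4 : ev x' (Z p q) = Z p q x' := rfl
          have h5 : ev x' ((-1) ^ ((p : ℕ) + (q : ℕ))) = (-1) ^ ((p : ℕ) + (q : ℕ)) := by
            rw [map_pow, map_neg, map_one]
          have h6 : Ze p q x' * (t ^ (wt N q k0))⁻¹ = Z p q x' * (t ^ (wt N p k0))⁻¹ := by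
            rw [← div_eq_mul_inv, ← div_eq_mul_inv, div_eq_div_iff h2 h1]
            linear_combination hρx'
          rw [h3, h4, h5]
          linear_combination (-(-1) ^ ((p : ℕ) + (q : ℕ))) * h6
        · rw [hZ1 k l a1 a2, hZe1 k l a1 a2, map_zero]; ring
    -- abbreviations
    set m := n.map (ev x') with hm
    set me := ne.map (ev x') with hme
    set T : Matrix (Fin N) (Fin N) ℂ := Tt (δ x) with hT
    have hmU : UpUni m := hmapU n x' hn
    have hmeU : UpUni me := hmapU ne x' hne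
    have hmeG : IsG me := hGe.map (ev x')
    have hTG : IsG T := isG_Tt (δ x)
    have e1 : m * (Dx x + Z.map (ev x')) = (Dx x + Y) * m := hE x'
    have e2 : me * (Dx x + Ze.map (ev x')) = (Dx x + em ℂ N) * me := hEe x'
    have hTD : T * Dx x = Dx x * T := by
      rw [hT, hTt, Dx, Matrix.diagonal_mul_diagonal, Matrix.diagonal_mul_diagonal]
      congr 1
      funext i
      ring
    have hCx : C x = m * T * me⁻¹ := by
      simp only [C, dif_pos hxΩ]
      rw [hmeG.inv_eq_st]
    -- `v_e` and `v`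
    set ve := me⁻¹ * ue with hve
    have hveU : UpUni ve := hmeU.inv.mul hue
    have e3 : ve * Dx x = (Dx x + Ze.map (ev x')) * ve := by
      have h1 : me⁻¹ * (Dx x + em ℂ N) = (Dx x + Ze.map (ev x')) * me⁻¹ := by
        calc me⁻¹ * (Dx x + em ℂ N) = me⁻¹ * ((Dx x + em ℂ N) * me) * me⁻¹ := by
              rw [Matrix.mul_assoc, Matrix.mul_assoc, hmeU.mul_inv, Matrix.mul_one]
          _ = (me⁻¹ * me) * (Dx x + Ze.map (ev x')) * me⁻¹ := by
              rw [← e2]; simp only [Matrix.mul_assoc]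
          _ = _ := by rw [hmeU.inv_mul, Matrix.one_mul]
      rw [hve, Matrix.mul_assoc, hue2, ← Matrix.mul_assoc, add_comm (em ℂ N), h1,
        Matrix.mul_assoc]
    set v := T * ve * T⁻¹ with hv
    have hvU : UpUni v := by
      have hTi : T⁻¹ = Matrix.diagonal (fun i => (t ^ (wt N i k0))⁻¹) := by
        apply Matrix.inv_eq_right_inv
        rw [hT, hTt, Matrix.diagonal_mul_diagonal, ← Matrix.diagonal_one]
        congr 1
        funext i
        exact mul_inv_cancel₀ (zpow_ne_zero _ hρ0)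
      constructor
      · intro i j hij
        rw [hv, hTi, hT, hTt, Matrix.mul_diagonal, Matrix.diagonal_mul, hveU.1 i j hij]
        ring
      · intro i
        rw [hv, hTi, hT, hTt, Matrix.mul_diagonal, Matrix.diagonal_mul, hveU.2 i, mul_one]
        exact mul_inv_cancel₀ (zpow_ne_zero _ hρ0)
    have hTDi : T⁻¹ * Dx x = Dx x * T⁻¹ := by
      calc T⁻¹ * Dx x = T⁻¹ * (Dx x * T) * T⁻¹ := by
            rw [Matrix.mul_assoc, Matrix.mul_assoc, hTG.mul_inv, Matrix.mul_one]
        _ = (T⁻¹ * T) * Dx x * T⁻¹ := by rw [← hTD]; simp only [Matrix.mul_assoc]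
        _ = _ := by rw [hTG.inv_mul, Matrix.one_mul]
    have e4 : v * Dx x = (Dx x + Z.map (ev x')) * v := by
      calc v * Dx x = T * (ve * Dx x) * T⁻¹ := by
            rw [hv, Matrix.mul_assoc, hTDi]; simp only [Matrix.mul_assoc]
        _ = (T * Dx x + T * Ze.map (ev x')) * ve * T⁻¹ := by
            rw [e3, ← Matrix.mul_add]; simp only [Matrix.mul_assoc]
        _ = (Dx x + Z.map (ev x')) * (T * ve * T⁻¹) := by
            rw [hTD, hTZ, ← Matrix.add_mul]; simp only [Matrix.mul_assoc]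
    have e5 : (m * v) * Dx x = (Dx x + Y) * (m * v) := by
      rw [Matrix.mul_assoc, e4, ← Matrix.mul_assoc, e1, Matrix.mul_assoc]
    have hureg : ∀ i j : Fin N, i ≠ j → IsUnit (xx x i - xx x j) := fun i j hij =>
      (sub_ne_zero.mpr (hxreg i j hij)).isUnit
    have e6 : u = m * v := tri_unique (Dx x + Y) (xx x) hureg u (m * v) hu (hmU.mul hvU) hue1 e5
    rw [hCx, e6, hv]
    calc m * T * me⁻¹ * ue = m * T * (me⁻¹ * ue) := by simp only [Matrix.mul_assoc]
      _ = m * T * ve * (T⁻¹ * T) := by rw [hTG.inv_mul, Matrix.mul_one]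
      _ = m * (T * ve * T⁻¹) * T := by simp only [Matrix.mul_assoc]

end good

end Pool.Agent.MP_c45d35_ag
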