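import Pool.Agent.MP_c45d35_ag.Slice

/-! # The standard principal `sl_2`-triple (a check of the definitions)

`e = em`, `f = fm` and `h = [e, f] = diag(N - 1, N - 3, …, 1 - N)` lie in the Lie algebra and
satisfy `[h, e] = 2 e`, `[h, f] = - 2 f`. -/

namespace Pool.Agent.MP_c45d35_ag

open Matrix

variable {N : ℕ}

theorem triple_h (N : ℕ) : em ℂ N * fm ℂ N - fm ℂ N * em ℂ N =
    Matrix.diagonal fun i : Fin N => (N : ℂ) - 1 - 2 * (i : ℕ) := by
  ext i j
  rw [Matrix.sub_apply]
  have h1 : (em ℂ N * fm ℂ N) i j = if i = j then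
      ((((i : ℕ) + 1) * (N - ((i : ℕ) + 1)) : ℕ) : ℂ) else 0 := by
    rw [Matrix.mul_apply]
    by_cases hi : (i : ℕ) + 1 < N
    · rw [Finset.sum_eq_single (⟨(i : ℕ) + 1, hi⟩ : Fin N)]
      · simp only [em, fm, Matrix.of_apply, if_true, one_mul]
        by_cases hij : i = j
        · subst hij; simp
        · rw [if_neg (fun h => hij (Fin.ext (by simpa using h))), if_neg hij]
      · intro k _ hk
        have : ¬ ((k : ℕ) = (i : ℕ) + 1) := fun h => hk (Fin.ext h)
        simp [em, this]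
      · simp
    · have h0 : ((i : ℕ) + 1) * (N - ((i : ℕ) + 1)) = 0 := by
        have : N - ((i : ℕ) + 1) = 0 := by omega
        rw [this, mul_zero]
      rw [h0, Nat.cast_zero, ite_self]
      refine Finset.sum_eq_zero fun k _ => ?_
      have : ¬ ((k : ℕ) = (i : ℕ) + 1) := by
        have := k.2
        omega
      simp [em, this]
  have h2 : (fm ℂ N * em ℂ N) i j = if i = j then (((i : ℕ) * (N - (i : ℕ)) : ℕ) : ℂ) else 0 := by
    rw [Matrix.mul_apply]
    by_cases hi : 0 < (i : ℕ)
    · have hi' : (i : ℕ) - 1 < N := by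
        have := i.2
        omega
      rw [Finset.sum_eq_single (⟨(i : ℕ) - 1, hi'⟩ : Fin N)]
      · have h3 : (i : ℕ) = (i : ℕ) - 1 + 1 := by omega
        simp only [em, fm, Matrix.of_apply]
        rw [if_pos h3]
        by_cases hij : i = j
        · subst hij
          rw [if_pos h3, if_pos rfl, mul_one]
        · rw [if_neg (fun h => hij (Fin.ext (by omega))), if_neg hij, mul_zero]
      · intro k _ hk
        have : ¬ ((i : ℕ) = (k : ℕ) + 1) := fun h => hk (Fin.ext (by simp only; omega))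
        simp [fm, this]
      · simp
    · have h0 : (i : ℕ) = 0 := by omega
      rw [h0, zero_mul, Nat.cast_zero, ite_self]
      refine Finset.sum_eq_zero fun k _ => ?_
      have : ¬ ((i : ℕ) = (k : ℕ) + 1) := by omega
      simp [fm, this]
  rw [h1, h2, Matrix.diagonal_apply]
  split_ifs with hij
  · have := i.2
    rw [Nat.cast_mul, Nat.cast_mul, Nat.cast_sub (by omega), Nat.cast_sub (by omega)]
    push_cast
    ring
  · simp

theorem principal_triple (N : ℕ) : IsLie (em ℂ N) ∧ IsLie (fm ℂ N) ∧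
    ∃ h : Matrix (Fin N) (Fin N) ℂ, h = em ℂ N * fm ℂ N - fm ℂ N * em ℂ N ∧
      h * em ℂ N - em ℂ N * h = (2 : ℂ) • em ℂ N ∧ h * fm ℂ N - fm ℂ N * h = (-2 : ℂ) • fm ℂ N := by
  refine ⟨isLie_em, (isLie_iff_st _).2 SL.st_fm, _, rfl, ?_, ?_⟩
  · rw [triple_h]
    ext i j
    rw [Matrix.sub_apply, Matrix.diagonal_mul, Matrix.mul_diagonal, Matrix.smul_apply, smul_eq_mul]
    by_cases h : (j : ℕ) = (i : ℕ) + 1
    · simp only [em, Matrix.of_apply, if_pos h, h]
      push_cast
      ring
    · simp [em, h]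
  · rw [triple_h]
    ext i j
    rw [Matrix.sub_apply, Matrix.diagonal_mul, Matrix.mul_diagonal, Matrix.smul_apply, smul_eq_mul]
    by_cases h : (i : ℕ) = (j : ℕ) + 1
    · simp only [fm, Matrix.of_apply, if_pos h, h]
      push_cast
      ring
    · simp [fm, h]

end Pool.Agent.MP_c45d35_ag
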