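import Pool.Agent.MP_c45d35_ag.Basic

/-! Block C (TRI): triangular matrices (MP_c45d35_ag). -/

namespace Pool.Agent.MP_c45d35_ag

open Matrix

section tri
variable {R : Type*} [CommRing R] {N : ℕ}

theorem exists_tri (M : Matrix (Fin N) (Fin N) R) (hM : ∀ i j, j < i → M i j = 0)
    (hu : ∀ i j, i ≠ j → IsUnit (M i i - M j j)) :
    ∃ u, UpUni u ∧ u * Matrix.diagonal (fun i => M i i) = M * u := by
  -- successive approximation along the superdiagonals
  have key : ∀ d : ℕ, ∃ u : Matrix (Fin N) (Fin N) R, UpUni u ∧
      ∀ i k : Fin N, (k : ℕ) ≤ (i : ℕ) + d → u i k * M k k = ∑ l, M i l * u l k := by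
    intro d
    induction d with
    | zero =>
      refine ⟨1, UpUni.one, fun i k hik => ?_⟩
      rw [Finset.sum_eq_single k]
      · rcases eq_or_ne i k with h | h
        · subst h; simp
        · have : k < i := lt_of_le_of_ne hik (fun h' => h h'.symm)
          rw [Matrix.one_apply_ne h, hM i k this]; simp
      · intro l _ hl
        rw [Matrix.one_apply_ne hl, mul_zero]
      · simp
    | succ d ih =>
      obtain ⟨u, hU, hE⟩ := ih
      let c : Fin N → Fin N → R := fun i k =>
        if h : i ≠ k then ((hu k i h.symm).unit⁻¹ : Rˣ) * ∑ l ∈ Finset.univ.filter (fun l => i < l), M i l * u l k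
        else 0
      refine ⟨Matrix.of fun i k => if (k : ℕ) = (i : ℕ) + (d + 1) then c i k else u i k, ⟨?_, ?_⟩, ?_⟩
      · intro i j hij
        have h : ¬ ((j : ℕ) = (i : ℕ) + (d + 1)) := by have : (j : ℕ) < i := hij; omega
        simp only [Matrix.of_apply, if_neg h]
        exact hU.1 i j hij
      · intro i
        have h : ¬ ((i : ℕ) = (i : ℕ) + (d + 1)) := by omega
        simp only [Matrix.of_apply, if_neg h]
        exact hU.2 i
      · intro i k hik
        simp only [Matrix.of_apply]
        have hsum : ∀ l : Fin N, i < l → (if (k : ℕ) = (l : ℕ) + (d + 1) then c l k else u l k) = u l k := by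
          intro l hl
          have : (i : ℕ) < l := hl
          rw [if_neg (by omega)]
        by_cases h : (k : ℕ) = (i : ℕ) + (d + 1)
        · have hne : i ≠ k := by rintro rfl; omega
          have hs : ∑ l, M i l * (if (k : ℕ) = (l : ℕ) + (d + 1) then c l k else u l k) =
              M i i * c i k + ∑ l ∈ Finset.univ.filter (fun l => i < l), M i l * u l k := by
            rw [← Finset.sum_filter_add_sum_filter_not Finset.univ (fun l => i < l), add_comm]
            congr 1
            · rw [Finset.sum_eq_single i]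
              · rw [if_pos h]
              · intro l hl hli
                have : l < i := lt_of_le_of_ne (not_lt.mp (Finset.mem_filter.mp hl).2) hli
                rw [hM i l this, zero_mul]
              · simp
            · refine Finset.sum_congr rfl fun l hl => ?_
              rw [hsum l (Finset.mem_filter.mp hl).2]
          rw [if_pos h, hs]
          have hc : (M k k - M i i) * c i k =
              ∑ l ∈ Finset.univ.filter (fun l => i < l), M i l * u l k := by
            simp only [c, dif_pos hne]
            rw [← mul_assoc, IsUnit.mul_val_inv, one_mul]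
          linear_combination hc
        · rw [if_neg h]
          have hs : ∑ l, M i l * (if (k : ℕ) = (l : ℕ) + (d + 1) then c l k else u l k) =
              ∑ l, M i l * u l k := by
            refine Finset.sum_congr rfl fun l _ => ?_
            rcases lt_trichotomy i l with h1 | h1 | h1
            · rw [hsum l h1]
            · subst h1; rw [if_neg h]
            · rw [hM i l h1, zero_mul, zero_mul]
          rw [hs]
          exact hE i k (by omega)
  obtain ⟨u, hU, hE⟩ := key N
  refine ⟨u, hU, ?_⟩
  ext i k
  rw [Matrix.mul_diagonal, Matrix.mul_apply]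
  exact hE i k (by have := k.2; omega)

theorem commute_diagonal (d : Fin N → R) (hu : ∀ i j, i ≠ j → IsUnit (d i - d j))
    (h : Matrix (Fin N) (Fin N) R) (hc : Commute h (Matrix.diagonal d)) :
    h = Matrix.diagonal (fun i => h i i) := by
  ext i j
  rcases eq_or_ne i j with hij | hij
  · subst hij; simp
  · rw [Matrix.diagonal_apply_ne _ hij]
    have h1 := congrFun (congrFun hc.eq i) j
    rw [Matrix.mul_diagonal, Matrix.diagonal_mul] at h1
    have h2 : (d i - d j) * h i j = 0 := by linear_combination -h1
    exact ((hu i j hij).mul_right_eq_zero).mp h2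

theorem tri_unique (M : Matrix (Fin N) (Fin N) R) (d : Fin N → R)
    (hu : ∀ i j, i ≠ j → IsUnit (d i - d j)) (u u' : Matrix (Fin N) (Fin N) R) (h1 : UpUni u)
    (h1' : UpUni u') (h2 : u * Matrix.diagonal d = M * u) (h2' : u' * Matrix.diagonal d = M * u') :
    u = u' := by
  have h3 : Matrix.diagonal d * u⁻¹ = u⁻¹ * M := by
    calc Matrix.diagonal d * u⁻¹ = u⁻¹ * (u * Matrix.diagonal d) * u⁻¹ := by
          rw [← Matrix.mul_assoc, h1.inv_mul, Matrix.one_mul]
      _ = u⁻¹ * M * (u * u⁻¹) := by rw [h2]; simp only [Matrix.mul_assoc]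
      _ = u⁻¹ * M := by rw [h1.mul_inv, Matrix.mul_one]
  have hc : Commute (u⁻¹ * u') (Matrix.diagonal d) := by
    show u⁻¹ * u' * Matrix.diagonal d = Matrix.diagonal d * (u⁻¹ * u')
    rw [Matrix.mul_assoc, h2', ← Matrix.mul_assoc, ← Matrix.mul_assoc, h3]
  have hw : UpUni (u⁻¹ * u') := h1.inv.mul h1'
  have h4 := commute_diagonal d hu _ hc
  have h5 : u⁻¹ * u' = 1 := by
    rw [h4, ← Matrix.diagonal_one]
    congr 1
    funext i
    exact hw.2 i
  calc u = u * (u⁻¹ * u') := by rw [h5, Matrix.mul_one]
    _ = u' := by rw [← Matrix.mul_assoc, h1.mul_inv, Matrix.one_mul]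

theorem tri_isG (x : Fin (N / 2) → R) (Y : Matrix (Fin N) (Fin N) R)
    (hreg : ∀ i j : Fin N, i ≠ j → IsUnit (xx x i - xx x j)) (hL : IsLie Y)
    (u : Matrix (Fin N) (Fin N) R) (hu : UpUni u) (h : u * Dx x = (Dx x + Y) * u) : IsG u := by
  have hst : UpUni (st u) := hu.star
  have h1 : Dx x * st u = st u * (Dx x + Y) := by
    have h2 := congrArg st h
    rw [st_mul, st_mul, (isLie_iff_st _).mp (isLie_Dx x), (isLie_iff_st _).mp ((isLie_Dx x).add hL)] at h2
    simp only [Matrix.neg_mul, Matrix.mul_neg, neg_inj] at h2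
    exact h2
  have h3 : (st u)⁻¹ * Dx x = (Dx x + Y) * (st u)⁻¹ := by
    calc (st u)⁻¹ * Dx x = (st u)⁻¹ * (Dx x * st u) * (st u)⁻¹ := by
          rw [Matrix.mul_assoc, Matrix.mul_assoc, hst.mul_inv, Matrix.mul_one]
      _ = ((st u)⁻¹ * st u) * (Dx x + Y) * (st u)⁻¹ := by rw [h1]; simp only [Matrix.mul_assoc]
      _ = _ := by rw [hst.inv_mul, Matrix.one_mul]
  have h4 : u = (st u)⁻¹ := tri_unique (Dx x + Y) (xx x) hreg u (st u)⁻¹ hu hst.inv h h3
  rw [isG_iff_st]
  refine ⟨?_, fun _ => hu.det⟩
  nth_rewrite 2 [h4]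
  exact hst.mul_inv

/-- a diagonal matrix with the symmetry of the group is in the torus -/
theorem diagonal_eq_Tt {K : Type*} [Field K] (d : Fin N → K) (h : ∀ i, d (Fin.rev i) * d i = 1)
    (hmid : ∀ i, Fin.rev i = i → d i = 1) :
    ∃ t : Fin (N / 2) → Kˣ, Matrix.diagonal d = Tt t := by
  have hle : N / 2 ≤ N := Nat.div_le_self N 2
  let t : Fin (N / 2) → Kˣ := fun k =>
    ⟨d (Fin.castLE hle k), d (Fin.rev (Fin.castLE hle k)), by rw [mul_comm]; exact h _, h _⟩
  refine ⟨t, ?_⟩
  unfold Tt
  congr 1
  funext i
  have hi := i.2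
  by_cases h1 : (i : ℕ) < N / 2
  · have h2 : chi (wt N i) t = t ⟨i, h1⟩ := by
      unfold chi
      rw [Finset.prod_eq_single ⟨i, h1⟩]
      · have : ¬ (((Fin.rev i : Fin N) : ℕ) = (i : ℕ)) := by rw [Fin.val_rev]; omega
        simp only [wt, if_neg this, if_true]
        simp
      · intro k _ hk
        have h3 : ¬ ((i : ℕ) = (k : ℕ)) := fun h' => hk (Fin.ext h'.symm)
        have h4 : ¬ (((Fin.rev i : Fin N) : ℕ) = (k : ℕ)) := by rw [Fin.val_rev]; have := k.2; omega
        simp only [wt, if_neg h3, if_neg h4]
        simp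
      · simp
    rw [h2]
    rfl
  · by_cases h1' : ((Fin.rev i : Fin N) : ℕ) < N / 2
    · have h2 : chi (wt N i) t = (t ⟨(Fin.rev i : Fin N), h1'⟩)⁻¹ := by
        unfold chi
        rw [Finset.prod_eq_single ⟨(Fin.rev i : Fin N), h1'⟩]
        · have : ¬ ((i : ℕ) = ((Fin.rev i : Fin N) : ℕ)) := by omega
          simp only [wt, if_neg this, if_true]
          simp
        · intro k _ hk
          have h3 : ¬ ((i : ℕ) = (k : ℕ)) := by have := k.2; omega
          have h4 : ¬ (((Fin.rev i : Fin N) : ℕ) = (k : ℕ)) := fun h' => hk (Fin.ext h'.symm)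
          simp only [wt, if_neg h3, if_neg h4]
          simp
        · simp
      rw [h2]
      show d i = d (Fin.rev (Fin.castLE hle ⟨(Fin.rev i : Fin N), h1'⟩))
      congr 1
      ext
      simp only [Fin.val_rev, Fin.val_castLE]
      omega
    · have h2 : chi (wt N i) t = 1 := by
        unfold chi
        refine Finset.prod_eq_one fun k _ => ?_
        have h3 : ¬ ((i : ℕ) = (k : ℕ)) := by have := k.2; omega
        have h4 : ¬ (((Fin.rev i : Fin N) : ℕ) = (k : ℕ)) := by have := k.2; omega
        simp only [wt, if_neg h3, if_neg h4]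
        simp
      rw [h2]
      rw [hmid i]
      · rfl
      · ext
        rw [Fin.val_rev] at h1' ⊢
        omega

/-- a diagonal element of the group is in the torus -/
theorem diagonal_isG {K : Type*} [Field K] (d : Fin N → K) (h : IsG (Matrix.diagonal d)) :
    ∃ t : Fin (N / 2) → Kˣ, Matrix.diagonal d = Tt t := by
  rw [isG_iff_st] at h
  have h1 : ∀ i, d (Fin.rev i) * d i = 1 := by
    intro i
    have h2 := congrFun (congrFun h.1 i) i
    rw [st_diagonal, Matrix.diagonal_mul_diagonal, Matrix.diagonal_apply_eq, Matrix.one_apply_eq] at h2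
    exact h2
  classical
  -- replace the middle entry by one
  let d' : Fin N → K := fun i => if Fin.rev i = i then 1 else d i
  have h1' : ∀ i, d' (Fin.rev i) * d' i = 1 := by
    intro i
    by_cases hi : Fin.rev i = i
    · have hi' : Fin.rev (Fin.rev i) = Fin.rev i := by rw [hi, hi]
      simp only [d', if_pos hi, if_pos hi', mul_one]
    · have hi' : ¬ Fin.rev (Fin.rev i) = Fin.rev i := by
        rw [Fin.rev_rev]; exact fun h' => hi h'.symm
      simp only [d', if_neg hi, if_neg hi']
      exact h1 i
  have hmid' : ∀ i, Fin.rev i = i → d' i = 1 := fun i hi => by simp only [d', if_pos hi]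
  obtain ⟨t, ht⟩ := diagonal_eq_Tt d' h1' hmid'
  have hdd : d = d' := by
    funext i
    by_cases hi : Fin.rev i = i
    · have hodd : Odd N := by
        have h3 := congrArg Fin.val hi
        rw [Fin.val_rev] at h3
        have := i.2
        exact ⟨i, by omega⟩
      have h4 : ∏ j, d j = 1 := by
        have := h.2 hodd
        rwa [Matrix.det_diagonal] at this
      have h5 : ∏ j, d' j = 1 := by
        have := det_Tt t
        rwa [← ht, Matrix.det_diagonal] at this
      have h6 : ∀ j, j ≠ i → d j = d' j := by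
        intro j hj
        have : ¬ Fin.rev j = j := by
          intro h'
          apply hj
          have e1 := congrArg Fin.val h'
          have e2 := congrArg Fin.val hi
          rw [Fin.val_rev] at e1 e2
          ext
          have := i.2
          have := j.2
          omega
        simp only [d', if_neg this]
      rw [← Finset.mul_prod_erase Finset.univ _ (Finset.mem_univ i)] at h4 h5
      have h7 : ∏ j ∈ Finset.univ.erase i, d j = ∏ j ∈ Finset.univ.erase i, d' j :=
        Finset.prod_congr rfl fun j hj => h6 j (Finset.ne_of_mem_erase hj)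
      rw [hmid' i hi, one_mul] at h5
      rw [h7, h5, mul_one] at h4
      rw [h4, hmid' i hi]
    · simp only [d', if_neg hi]
  exact ⟨t, by rw [hdd]; exact ht⟩

/-- first row of `u_e` -/
theorem ue_row (x : Fin (N / 2) → ℂ) (hx : IsRegx (N := N) x) (ue : Matrix (Fin N) (Fin N) ℂ)
    (hu : UpUni ue) (h : ue * Dx x = (em ℂ N + Dx x) * ue) (i0 r : Fin N) (h0 : (i0 : ℕ) = 0) :
    ue i0 r * ∏ l ∈ Finset.univ.filter (· < r), (xx x r - xx x l) = 1 := by
  have hrec : ∀ (i i' : Fin N), (i' : ℕ) = (i : ℕ) + 1 →
      ue i' r = (xx x r - xx x i) * ue i r := by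
    intro i i' hi
    have h1 := congrFun (congrFun h i) r
    rw [Matrix.add_mul, Matrix.add_apply, Dx, Matrix.mul_diagonal, Matrix.diagonal_mul,
      Matrix.mul_apply, Finset.sum_eq_single i'] at h1
    · simp only [em, Matrix.of_apply, if_pos hi, one_mul] at h1
      linear_combination -h1
    · intro l _ hl
      have : ¬ ((l : ℕ) = (i : ℕ) + 1) := fun h' => hl (Fin.ext (h'.trans hi.symm))
      simp only [em, Matrix.of_apply, if_neg this, zero_mul]
    · simp
  have key : ∀ m : ℕ, ∀ i : Fin N, (i : ℕ) = m →
      ue i r = ue i0 r * ∏ l ∈ Finset.univ.filter (· < i), (xx x r - xx x l) := by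
    intro m
    induction m with
    | zero =>
      intro i hi
      have : i = i0 := Fin.ext (hi.trans h0.symm)
      subst this
      have : Finset.univ.filter (· < i) = ∅ := by
        apply Finset.filter_eq_empty_iff.mpr
        intro l _ hl
        have : (l : ℕ) < i := hl
        omega
      rw [this]; simp
    | succ m ih =>
      intro i hi
      have hm : m < N := by have := i.2; omega
      have h1 := hrec ⟨m, hm⟩ i hi
      have h2 := ih ⟨m, hm⟩ rfl
      have h3 : Finset.univ.filter (· < i) = insert (⟨m, hm⟩ : Fin N) (Finset.univ.filter (· < (⟨m, hm⟩ : Fin N))) := by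
        ext l
        simp only [Finset.mem_filter, Finset.mem_univ, true_and, Finset.mem_insert, Fin.lt_def, Fin.ext_iff]
        omega
      rw [h1, h2, h3, Finset.prod_insert (by simp)]
      ring
  rw [← key r r rfl]
  exact hu.2 r

end tri

end Pool.Agent.MP_c45d35_ag
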