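import Pool.Agent.MP_c45d35_ag.Adj
import Pool.Agent.MP_c45d35_ag.Sanity

/-!
# MP_c45d35_ag : finite generation of the Moore–Tachikawa rings in types B and C

For `G = Sp_N` (`N` even), `G = PSp_N` (`N` even) and `G = SO_N` (`N` odd), and every number `b`
of boundary circles, the ring `ℂ[G^b × S]^K` of regular functions on `G^b × S` that are invariant
under the group scheme `K = {(h_1, …, h_b) : h_a ∈ Z_G(s), ∏ h_a = 1}` over the slice `S` is a
finitely generated `ℂ`-algebra.
-/

namespace Pool.Agent.MP_c45d35_ag.TypesBC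

open Pool.Agent.MP_c45d35_ag

/-- The Moore–Tachikawa rings of `Sp_N`, `PSp_N` (`N` even) and `SO_N` (`N` odd) are finitely
generated `ℂ`-algebras, for every number `b` of boundary circles. -/
theorem result (N b : ℕ) : (MTring N b).FG ∧ (MTringAd N b).FG :=
  ⟨mt_fg N b, ad_fg N b⟩

end Pool.Agent.MP_c45d35_ag.TypesBC
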