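import Pool.Agent.MP_c45d35_ag.Weyl

namespace Pool.Agent.MP_c45d35_ag

open Matrix

/-! ## Walls -/

/-- The walls: `x_i = σ x_j` for `i < j`, and `x_i = 0`. -/
inductive Wall (n : ℕ) : Type
  | I (i j : Fin n) (h : i < j) (σ : ℤˣ) : Wall n
  | II (i : Fin n) : Wall n

section walls
variable {N b : ℕ}

/-- the root of a wall -/
def al (N : ℕ) : Wall (N / 2) → (Fin (N / 2) → ℤ)
  | .I i j _ σ => Pi.single i 1 - Pi.single j (σ : ℤ)
  | .II i => Pi.single i (if Odd N then 1 else 2)

/-- pairing with the coroot of a wall -/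
def cv (N : ℕ) : Wall (N / 2) → (Fin (N / 2) → ℤ) → ℤ
  | .I i j _ σ, μ => μ i - σ * μ j
  | .II i, μ => if Odd N then 2 * μ i else μ i

/-- inclusion of the first half of the indices -/
def up (k : Fin (N / 2)) : Fin N := ⟨k, by omega⟩

theorem up_ne_rev_up (i j : Fin (N / 2)) : (up i : Fin N) ≠ Fin.rev (up j) := by
  intro h
  have := congrArg Fin.val h
  rw [Fin.val_rev] at this
  simp only [up] at this
  have := i.2
  have := j.2
  omega

theorem up_inj {i j : Fin (N / 2)} : (up i : Fin N) = up j ↔ i = j := by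
  simp [up, Fin.ext_iff]

/-- the involution of a wall -/
def pw (N : ℕ) : Wall (N / 2) → Equiv.Perm (Fin N)
  | .I i j _ σ => if σ = 1 then Equiv.swap (up i) (up j) * Equiv.swap (Fin.rev (up i)) (Fin.rev (up j))
      else Equiv.swap (up i) (Fin.rev (up j)) * Equiv.swap (Fin.rev (up i)) (up j)
  | .II i => Equiv.swap (up i) (Fin.rev (up i))

theorem rev_swap (p q i : Fin N) :
    Fin.rev (Equiv.swap p q i) = Equiv.swap (Fin.rev p) (Fin.rev q) (Fin.rev i) := by
  have := Equiv.swap_apply_apply Fin.revPerm p q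
  have h : Equiv.swap (Fin.rev p) (Fin.rev q) =
      Fin.revPerm * Equiv.swap p q * (Fin.revPerm)⁻¹ := by
    simpa using this
  rw [h]
  simp

theorem pw_rev (β : Wall (N / 2)) (l : Fin N) : pw N β (Fin.rev l) = Fin.rev (pw N β l) := by
  cases β with
  | I i j h σ =>
    have hij : i ≠ j := ne_of_lt h
    have h1 : (up i : Fin N) ≠ up j := fun h' => hij (up_inj.1 h')
    have h2 : (up i : Fin N) ≠ Fin.rev (up j) := up_ne_rev_up i j
    have h3 : (up j : Fin N) ≠ Fin.rev (up i) := up_ne_rev_up j i
    have h4 : (up i : Fin N) ≠ Fin.rev (up i) := up_ne_rev_up i i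
    have h5 : (up j : Fin N) ≠ Fin.rev (up j) := up_ne_rev_up j j
    simp only [pw]
    split_ifs with hσ
    · rw [Equiv.Perm.mul_apply, Equiv.Perm.mul_apply, rev_swap, rev_swap, Fin.rev_rev, Fin.rev_rev]
      have hd : Equiv.Perm.Disjoint (Equiv.swap (up i : Fin N) (up j))
          (Equiv.swap (Fin.rev (up i)) (Fin.rev (up j))) := by
        refine Equiv.Perm.disjoint_swap_swap ?_
        simp [h1, h2, h3.symm, h4, h5]
        exact h3
      have := congrArg (fun f : Equiv.Perm (Fin N) => f (Fin.rev l)) hd.commute.eq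
      simpa [Equiv.Perm.mul_apply] using this
    · rw [Equiv.Perm.mul_apply, Equiv.Perm.mul_apply, rev_swap, rev_swap, Fin.rev_rev, Fin.rev_rev]
      have hd : Equiv.Perm.Disjoint (Equiv.swap (up i : Fin N) (Fin.rev (up j)))
          (Equiv.swap (Fin.rev (up i)) (up j)) := by
        refine Equiv.Perm.disjoint_swap_swap ?_
        simp [h1, h2, h3.symm, h4, h5.symm]
        exact h1.symm
      have := congrArg (fun f : Equiv.Perm (Fin N) => f (Fin.rev l)) hd.commute.eq
      simpa [Equiv.Perm.mul_apply] using this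
  | II i =>
    simp only [pw]
    rw [rev_swap, Fin.rev_rev, Equiv.swap_comm]

theorem pw_invol (β : Wall (N / 2)) : (pw N β).symm = pw N β := by
  cases β with
  | I i j h σ =>
    have hij : i ≠ j := ne_of_lt h
    have h1 : (up i : Fin N) ≠ up j := fun h' => hij (up_inj.1 h')
    have h2 : (up i : Fin N) ≠ Fin.rev (up j) := up_ne_rev_up i j
    have h3 : (up j : Fin N) ≠ Fin.rev (up i) := up_ne_rev_up j i
    have h4 : (up i : Fin N) ≠ Fin.rev (up i) := up_ne_rev_up i i
    have h5 : (up j : Fin N) ≠ Fin.rev (up j) := up_ne_rev_up j j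
    simp only [pw]
    split_ifs with hσ
    · have hd : Equiv.Perm.Disjoint (Equiv.swap (up i : Fin N) (up j))
          (Equiv.swap (Fin.rev (up i)) (Fin.rev (up j))) := by
        refine Equiv.Perm.disjoint_swap_swap ?_
        simp [h1, h2, h3.symm, h4, h5]
        exact h3
      show (Equiv.swap (up i : Fin N) (up j) * Equiv.swap (Fin.rev (up i)) (Fin.rev (up j)))⁻¹ = _
      rw [_root_.mul_inv_rev, Equiv.swap_inv, Equiv.swap_inv, hd.commute.eq]
    · have hd : Equiv.Perm.Disjoint (Equiv.swap (up i : Fin N) (Fin.rev (up j)))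
          (Equiv.swap (Fin.rev (up i)) (up j)) := by
        refine Equiv.Perm.disjoint_swap_swap ?_
        simp [h1, h2, h3.symm, h4, h5.symm]
        exact h1.symm
      show (Equiv.swap (up i : Fin N) (Fin.rev (up j)) * Equiv.swap (Fin.rev (up i)) (up j))⁻¹ = _
      rw [_root_.mul_inv_rev, Equiv.swap_inv, Equiv.swap_inv, hd.commute.eq]
  | II i => rfl

theorem xx_up {R : Type*} [CommRing R] (x : Fin (N / 2) → R) (k : Fin (N / 2)) :
    xx x (up k : Fin N) = x k := xx_lt x (up k) k.2

theorem act_pw (β : Wall (N / 2)) (μ : Fin (N / 2) → ℤ) :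
    act (pw N β) μ = μ - cv N β μ • al N β := by
  funext k
  show xx μ ((pw N β).symm (up k)) = _
  rw [pw_invol]
  cases β with
  | I i j h σ =>
    have hij : i ≠ j := ne_of_lt h
    have h1 : (up i : Fin N) ≠ up j := fun h' => hij (up_inj.1 h')
    have hr : ∀ a c : Fin (N / 2), (up a : Fin N) ≠ Fin.rev (up c) := up_ne_rev_up
    have hr' : ∀ a c : Fin (N / 2), Fin.rev (up c : Fin N) ≠ up a := fun a c => (hr a c).symm
    simp only [pw, cv, al, Pi.sub_apply, Pi.smul_apply, Pi.single_apply]
    rcases Int.units_eq_one_or σ with rfl | rfl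
    · rw [if_pos rfl, Equiv.Perm.mul_apply,
        Equiv.swap_apply_of_ne_of_ne (hr k i) (hr k j)]
      by_cases hki : k = i
      · subst hki
        rw [Equiv.swap_apply_left, xx_up]
        simp [hij]
      · by_cases hkj : k = j
        · subst hkj
          rw [Equiv.swap_apply_right, xx_up]
          simp [hki]
        · rw [Equiv.swap_apply_of_ne_of_ne (fun h => hki (up_inj.1 h))
            (fun h => hkj (up_inj.1 h)), xx_up]
          simp [hki, hkj]
    · rw [if_neg (by decide), Equiv.Perm.mul_apply]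
      by_cases hki : k = i
      · subst hki
        rw [Equiv.swap_apply_of_ne_of_ne (hr k k) h1, Equiv.swap_apply_left, xx_rev, xx_up]
        simp [hij]
      · by_cases hkj : k = j
        · subst hkj
          rw [Equiv.swap_apply_right, Equiv.swap_apply_of_ne_of_ne (hr' i i)
            (fun h => h1 (by simpa using h)), xx_rev, xx_up]
          simp [hki]
        · rw [Equiv.swap_apply_of_ne_of_ne (hr k i) (fun h => hkj (up_inj.1 h)),
            Equiv.swap_apply_of_ne_of_ne (fun h => hki (up_inj.1 h)) (hr k j), xx_up]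
          simp [hki, hkj]
  | II i =>
    simp only [pw, cv, al, Pi.sub_apply, Pi.smul_apply, Pi.single_apply]
    by_cases hki : k = i
    · subst hki
      rw [Equiv.swap_apply_left, xx_rev, xx_up]
      by_cases hN : Odd N
      · simp only [hN, if_true, smul_eq_mul]; ring
      · simp only [hN, if_true, if_false, smul_eq_mul]; ring
    · rw [Equiv.swap_apply_of_ne_of_ne (fun h => hki (up_inj.1 h)) (up_ne_rev_up k i), xx_up]
      simp [hki]

theorem refl_mem_supp {P : MvPolynomial (Idx N (b + 1)) ℂ} (β : Wall (N / 2))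
    {μ : Fin (N / 2) → ℤ} (hμ : μ ∈ supp P) : μ - cv N β μ • al N β ∈ supp P := by
  rw [← act_pw]
  exact act_mem_supp (pw_rev β) hμ

theorem cv_al (β : Wall (N / 2)) : cv N β (al N β) = 2 := by
  cases β with
  | I i j h σ =>
    have hij : i ≠ j := ne_of_lt h
    simp only [cv, al, Pi.sub_apply, Pi.single_apply]
    simp only [hij, hij.symm, if_true, if_false]
    rcases Int.units_eq_one_or σ with rfl | rfl <;> simp
  | II i =>
    simp only [cv, al, Pi.single_apply, if_true]
    split_ifs <;> norm_num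

theorem cv_sub_smul (β : Wall (N / 2)) (μ ν : Fin (N / 2) → ℤ) (k : ℤ) :
    cv N β (μ - k • ν) = cv N β μ - k * cv N β ν := by
  cases β with
  | I i j h σ => simp only [cv, Pi.sub_apply, Pi.smul_apply, smul_eq_mul]; ring
  | II i => simp only [cv, Pi.sub_apply, Pi.smul_apply, smul_eq_mul]; split_ifs <;> ring

/-- adding a positive multiple of a root increases the lexicographic order -/
theorem lex_lt_add (β : Wall (N / 2)) (μ : Fin (N / 2) → ℤ) (k : ℤ) (hk : 0 < k) :
    toLex μ < toLex (μ + k • al N β) := by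
  cases β with
  | I i j h σ =>
    have hij : i ≠ j := ne_of_lt h
    refine ⟨i, fun l hl => ?_, ?_⟩
    · have h1 : l ≠ i := ne_of_lt hl
      have h2 : l ≠ j := ne_of_lt (hl.trans h)
      simp [al, Pi.single_apply, h1, h2]
    · simp [al, Pi.single_apply, hij]
      exact hk
  | II i =>
    refine ⟨i, fun l hl => ?_, ?_⟩
    · have h1 : l ≠ i := ne_of_lt hl
      simp [al, Pi.single_apply, h1]
    · show μ i < (μ + k • al N (.II i)) i
      simp only [al, Pi.add_apply, Pi.smul_apply, Pi.single_apply, if_true, smul_eq_mul]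
      split_ifs <;> linarith

/-- the leading weight -/
def IsLead (P : MvPolynomial (Idx N (b + 1)) ℂ) (μ : Fin (N / 2) → ℤ) : Prop :=
  ∀ κ ∈ supp P, toLex κ ≤ toLex μ

/-- if `μ` bounds the support lexicographically, then the string `μ - k α` in the support has
`k ≤ ⟨μ, α^∨⟩` -/
theorem string_bound {P : MvPolynomial (Idx N (b + 1)) ℂ} {μ : Fin (N / 2) → ℤ}
    (hμ : IsLead P μ) (β : Wall (N / 2)) (k : ℤ) (hk : μ - k • al N β ∈ supp P) :
    0 ≤ k ∧ k ≤ cv N β μ := by
  constructor
  · by_contra h
    push Not at h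
    have h1 := lex_lt_add β μ (-k) (by linarith)
    have h2 := hμ _ hk
    rw [neg_smul, ← sub_eq_add_neg] at h1
    exact absurd h2 (not_le.2 h1)
  · by_contra h
    push Not at h
    have h1 := refl_mem_supp β hk
    rw [cv_sub_smul, cv_al] at h1
    have h2 : μ - k • al N β - (cv N β μ - k * 2) • al N β = μ + (k - cv N β μ) • al N β := by
      funext l
      simp only [Pi.sub_apply, Pi.add_apply, Pi.smul_apply, smul_eq_mul]
      ring
    rw [h2] at h1
    exact absurd (hμ _ h1) (not_le.2 (lex_lt_add β μ _ (by linarith)))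

theorem lead_cv_nonneg {P : MvPolynomial (Idx N (b + 1)) ℂ} {μ : Fin (N / 2) → ℤ}
    (hμ : IsLead P μ) (hm : μ ∈ supp P) (β : Wall (N / 2)) : 0 ≤ cv N β μ := by
  have := string_bound hμ β 0 (by simpa using hm)
  exact this.2

/-- weights with nonnegative pairings are of the form `lam m` -/
theorem exists_lam {n : ℕ} (μ : Fin n → ℤ) (h1 : ∀ i j : Fin n, i < j → μ j ≤ μ i)
    (h2 : ∀ i, 0 ≤ μ i) : ∃ m : Fin n →₀ ℕ, lam m = μ := by
  let L : ℕ → ℤ := fun k => if h : k < n then μ ⟨k, h⟩ else 0
  have hL : ∀ k, 0 ≤ L k - L (k + 1) := by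
    intro k
    simp only [L]
    split_ifs with h h'
    · exact sub_nonneg.2 (h1 _ _ (by simp [Fin.lt_def]))
    · simpa using h2 _
    · omega
    · simp
  refine ⟨Finsupp.equivFunOnFinite.symm fun k => (L k - L (k + 1)).toNat, ?_⟩
  funext i
  unfold lam
  simp only [Finsupp.equivFunOnFinite_symm_apply_apply, Int.toNat_of_nonneg (hL _)]
  have h3 : (∑ k : Fin n, if i ≤ k then L k - L ((k : ℕ) + 1) else 0) =
      ∑ k ∈ Finset.range n, if (i : ℕ) ≤ k then L k - L (k + 1) else 0 := by
    rw [Finset.sum_range]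
    rfl
  have h4 : ∀ m, (i : ℕ) ≤ m → (∑ k ∈ Finset.range m, if (i : ℕ) ≤ k then L k - L (k + 1) else 0) =
      L i - L m := by
    intro m hm
    induction m with
    | zero =>
      have : (i : ℕ) = 0 := by omega
      simp [this]
    | succ m ih =>
      rw [Finset.sum_range_succ]
      rcases Nat.lt_or_ge m i with h | h
      · have hi : (i : ℕ) = m + 1 := by omega
        rw [if_neg (by omega), add_zero, hi, sub_self]
        refine Finset.sum_eq_zero fun k hk => ?_
        rw [Finset.mem_range] at hk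
        rw [if_neg (by omega)]
      · rw [ih h, if_pos h]; ring
  rw [h3, h4 n i.2.le]
  simp [L]

theorem exists_lam_of_lead {P : MvPolynomial (Idx N (b + 1)) ℂ} {μ : Fin (N / 2) → ℤ}
    (hμ : IsLead P μ) (hm : μ ∈ supp P) : ∃ m : Fin (N / 2) →₀ ℕ, lam m = μ := by
  refine exists_lam μ (fun i j hij => ?_) (fun i => ?_)
  · have := lead_cv_nonneg hμ hm (.I i j hij 1)
    simp only [cv, Units.val_one, one_mul] at this
    linarith
  · have := lead_cv_nonneg hμ hm (.II i)
    simp only [cv] at this
    split_ifs at this <;> linarith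

/-- the pairings of `lam m` with the coroots are nonnegative -/
theorem lam_nonneg {n : ℕ} (m : Fin n →₀ ℕ) (i : Fin n) : 0 ≤ lam m i := by
  unfold lam
  refine Finset.sum_nonneg fun k _ => ?_
  split_ifs <;> simp

theorem lam_add {n : ℕ} (m m' : Fin n →₀ ℕ) : lam (m + m') = lam m + lam m' := by
  funext i
  simp only [lam, Pi.add_apply, Finsupp.add_apply, ← Finset.sum_add_distrib]
  refine Finset.sum_congr rfl fun k _ => ?_
  split_ifs <;> simp

theorem lam_zero {n : ℕ} : lam (0 : Fin n →₀ ℕ) = 0 := by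
  funext i
  simp [lam]

theorem lam_single {n : ℕ} (k i : Fin n) (c : ℕ) :
    lam (Finsupp.single k c) i = if i ≤ k then (c : ℤ) else 0 := by
  unfold lam
  rw [Finset.sum_eq_single k]
  · simp
  · intro l _ hl
    rw [Finsupp.single_apply, if_neg hl.symm]; simp
  · simp

theorem lam_injective {n : ℕ} : Function.Injective (lam (n := n)) := by
  intro m m' h
  ext k
  -- m k = lam k - lam (k+1)
  have key : ∀ (m : Fin n →₀ ℕ) (k : Fin n),
      (m k : ℤ) = lam m k - (if h : (k : ℕ) + 1 < n then lam m ⟨(k : ℕ) + 1, h⟩ else 0) := by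
    intro m k
    have h1 : lam m k = m k + ∑ l, if k < l then (m l : ℤ) else 0 := by
      unfold lam
      have : (m k : ℤ) = ∑ l, if l = k then (m l : ℤ) else 0 := by simp
      rw [this, ← Finset.sum_add_distrib]
      refine Finset.sum_congr rfl fun l _ => ?_
      rcases lt_trichotomy k l with h | h | h
      · rw [if_pos h.le, if_neg (ne_of_gt h), if_pos h, zero_add]
      · subst h; simp
      · rw [if_neg (not_le.2 h), if_neg (ne_of_lt h), if_neg (not_lt.2 h.le), zero_add]
    split_ifs with hk
    · have h2 : lam m ⟨(k : ℕ) + 1, hk⟩ = ∑ l, if k < l then (m l : ℤ) else 0 := by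
        unfold lam
        refine Finset.sum_congr rfl fun l _ => ?_
        have : (⟨(k : ℕ) + 1, hk⟩ : Fin n) ≤ l ↔ k < l := by
          rw [Fin.le_def, Fin.lt_def]
          exact Nat.succ_le_iff
        simp only [this]
      rw [h1, h2]; ring
    · have h2 : (∑ l, if k < l then (m l : ℤ) else 0) = 0 := by
        refine Finset.sum_eq_zero fun l _ => ?_
        rw [if_neg]
        rw [Fin.lt_def]
        have := l.2
        omega
      rw [h1, h2]; ring
  have h1 := key m k
  have h2 := key m' k
  rw [h] at h1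
  exact_mod_cast h1.trans h2.symm

end walls

end Pool.Agent.MP_c45d35_ag
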