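import Pool.Agent.MP_c45d35_ag.Expand2

namespace Pool.Agent.MP_c45d35_ag

open Matrix

section weyl
variable {N b : ℕ}

theorem wt_lt (l : Fin N) (h : (l : ℕ) < N / 2) : wt N l = Pi.single (⟨l, h⟩ : Fin (N / 2)) 1 := by
  funext k
  unfold wt
  have h2 : ¬ (((Fin.rev l : Fin N) : ℕ) = (k : ℕ)) := by
    rw [Fin.val_rev]
    have := k.2
    omega
  rw [if_neg h2, sub_zero, Pi.single_apply]
  simp only [Fin.ext_iff, eq_comm]

theorem wt_mid (l : Fin N) (h : 2 * (l : ℕ) + 1 = N) : wt N l = 0 := by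
  funext k
  unfold wt
  have := k.2
  have h1 : ¬ ((l : ℕ) = (k : ℕ)) := by omega
  have h2 : ¬ (((Fin.rev l : Fin N) : ℕ) = (k : ℕ)) := by
    rw [Fin.val_rev]
    omega
  rw [if_neg h1, if_neg h2]
  rfl

theorem xx_lt {R : Type*} [CommRing R] (x : Fin (N / 2) → R) (l : Fin N) (h : (l : ℕ) < N / 2) :
    xx x l = x ⟨l, h⟩ := by
  classical
  unfold xx
  rw [wt_lt l h, Finset.sum_eq_single (⟨l, h⟩ : Fin (N / 2))]
  · simp
  · intro k _ hk
    simp [hk]
  · simp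

theorem xx_mid {R : Type*} [CommRing R] (x : Fin (N / 2) → R) (l : Fin N) (h : 2 * (l : ℕ) + 1 = N) :
    xx x l = 0 := by
  unfold xx
  rw [wt_mid l h]
  simp

theorem chi_wt_lt {M : Type*} [CommGroup M] (t : Fin (N / 2) → M) (l : Fin N)
    (h : (l : ℕ) < N / 2) : chi (wt N l) t = t ⟨l, h⟩ := by
  classical
  unfold chi
  rw [wt_lt l h, Finset.prod_eq_single (⟨l, h⟩ : Fin (N / 2))]
  · simp
  · intro k _ hk
    simp [hk]
  · simp

theorem fin_cases3 (l : Fin N) : (l : ℕ) < N / 2 ∨ ((Fin.rev l : Fin N) : ℕ) < N / 2 ∨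
    2 * (l : ℕ) + 1 = N := by
  rw [Fin.val_rev]
  have := l.2
  omega

theorem rev_eq_self_iff (l : Fin N) : Fin.rev l = l ↔ 2 * (l : ℕ) + 1 = N := by
  rw [Fin.ext_iff, Fin.val_rev]
  have := l.2
  omega

/-- signed permutation action -/
def act {R : Type*} [CommRing R] (π : Equiv.Perm (Fin N)) (x : Fin (N / 2) → R) :
    Fin (N / 2) → R := fun k => xx x (π.symm ⟨k, by omega⟩)

/-- signed permutation action on the torus -/
def actT {M : Type*} [CommGroup M] (π : Equiv.Perm (Fin N)) (t : Fin (N / 2) → M) :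
    Fin (N / 2) → M := fun k => chi (wt N (π.symm ⟨k, by omega⟩)) t

theorem symm_rev {π : Equiv.Perm (Fin N)} (hπ : ∀ i, π (Fin.rev i) = Fin.rev (π i)) (i : Fin N) :
    π.symm (Fin.rev i) = Fin.rev (π.symm i) := by
  apply π.injective
  rw [hπ, π.apply_symm_apply, π.apply_symm_apply]

theorem xx_act {R : Type*} [CommRing R] {π : Equiv.Perm (Fin N)}
    (hπ : ∀ i, π (Fin.rev i) = Fin.rev (π i)) (x : Fin (N / 2) → R) (l : Fin N) :
    xx (act π x) l = xx x (π.symm l) := by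
  rcases fin_cases3 l with h | h | h
  · rw [xx_lt _ l h]
    rfl
  · have h1 : xx (act π x) (Fin.rev l) = xx x (π.symm (Fin.rev l)) := by
      rw [xx_lt _ _ h]
      rfl
    rw [xx_rev, symm_rev hπ, xx_rev] at h1
    exact neg_inj.1 h1
  · rw [xx_mid _ l h, xx_mid]
    rw [← rev_eq_self_iff, ← symm_rev hπ, (rev_eq_self_iff l).2 h]

theorem chi_wt_rev {M : Type*} [CommGroup M] (t : Fin (N / 2) → M) (l : Fin N) :
    chi (wt N (Fin.rev l)) t = (chi (wt N l) t)⁻¹ := by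
  rw [wt_rev, chi_neg]

theorem chi_wt_actT {M : Type*} [CommGroup M] {π : Equiv.Perm (Fin N)}
    (hπ : ∀ i, π (Fin.rev i) = Fin.rev (π i)) (t : Fin (N / 2) → M) (l : Fin N) :
    chi (wt N l) (actT π t) = chi (wt N (π.symm l)) t := by
  rcases fin_cases3 l with h | h | h
  · rw [chi_wt_lt _ l h]
    rfl
  · have h1 : chi (wt N (Fin.rev l)) (actT π t) = chi (wt N (π.symm (Fin.rev l))) t := by
      rw [chi_wt_lt _ _ h]
      rfl
    rw [chi_wt_rev, symm_rev hπ, chi_wt_rev] at h1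
    exact inv_injective h1
  · rw [wt_mid l h, wt_mid (π.symm l), chi_zero, chi_zero]
    rw [← rev_eq_self_iff, ← symm_rev hπ, (rev_eq_self_iff l).2 h]

theorem symm_comm {π : Equiv.Perm (Fin N)} (hπ : ∀ i, π (Fin.rev i) = Fin.rev (π i)) :
    ∀ i, π⁻¹ (Fin.rev i) = Fin.rev (π⁻¹ i) := fun i => symm_rev hπ i

theorem act_inv_act {R : Type*} [CommRing R] {π : Equiv.Perm (Fin N)}
    (hπ : ∀ i, π (Fin.rev i) = Fin.rev (π i)) (x : Fin (N / 2) → R) : act π⁻¹ (act π x) = x := by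
  funext k
  show xx (act π x) ((π⁻¹).symm ⟨k, _⟩) = x k
  rw [xx_act hπ]
  have : π.symm ((π⁻¹ : Equiv.Perm (Fin N)).symm ⟨(k : ℕ), by omega⟩) = ⟨(k : ℕ), by omega⟩ := by
    show π.symm (π _) = _
    rw [Equiv.symm_apply_apply]
  rw [this, xx_lt _ _ k.2]

theorem prod_zpow_sum {M : Type*} [CommGroup M] {κ : Type*} (s : Finset κ) (a : M) (f : κ → ℤ) :
    ∏ k ∈ s, a ^ f k = a ^ ∑ k ∈ s, f k := by
  classical
  induction s using Finset.induction_on with
  | empty => simp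
  | insert k s hk ih => rw [Finset.prod_insert hk, Finset.sum_insert hk, _root_.zpow_add, ih]

theorem wt_symm {π : Equiv.Perm (Fin N)} (hπ : ∀ i, π (Fin.rev i) = Fin.rev (π i))
    (j k : Fin (N / 2)) (hj : (j : ℕ) < N) (hk : (k : ℕ) < N) :
    wt N (π ⟨k, hk⟩) j = wt N (π.symm ⟨j, hj⟩) k := by
  unfold wt
  have h1 : (((π ⟨k, hk⟩ : Fin N) : ℕ) = (j : ℕ)) ↔ (((π.symm ⟨j, hj⟩ : Fin N) : ℕ) = (k : ℕ)) := by
    constructor
    · intro h
      have : π ⟨k, hk⟩ = ⟨j, hj⟩ := Fin.ext h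
      rw [← this, Equiv.symm_apply_apply]
    · intro h
      have : π.symm ⟨j, hj⟩ = ⟨k, hk⟩ := Fin.ext h
      rw [← this, Equiv.apply_symm_apply]
  have h2 : (((Fin.rev (π ⟨k, hk⟩) : Fin N) : ℕ) = (j : ℕ)) ↔
      (((Fin.rev (π.symm ⟨j, hj⟩) : Fin N) : ℕ) = (k : ℕ)) := by
    constructor
    · intro h
      have h' : Fin.rev (π ⟨k, hk⟩) = ⟨j, hj⟩ := Fin.ext h
      have : π (Fin.rev ⟨k, hk⟩) = ⟨j, hj⟩ := by rw [hπ, h']
      rw [← this, Equiv.symm_apply_apply, Fin.rev_rev]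
    · intro h
      have h' : Fin.rev (π.symm ⟨j, hj⟩) = ⟨k, hk⟩ := Fin.ext h
      have : π.symm (Fin.rev ⟨j, hj⟩) = ⟨k, hk⟩ := by rw [symm_rev hπ, h']
      rw [← this, Equiv.apply_symm_apply, Fin.rev_rev]
  simp only [h1, h2]

/-- the weight of the translated torus element -/
theorem chi_actT {M : Type*} [CommGroup M] {π : Equiv.Perm (Fin N)}
    (hπ : ∀ i, π (Fin.rev i) = Fin.rev (π i)) (μ : Fin (N / 2) → ℤ) (t : Fin (N / 2) → M) :
    chi μ (actT π⁻¹ t) = chi (act π μ) t := by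
  have h1 : chi μ (actT π⁻¹ t) =
      ∏ k : Fin (N / 2), ∏ j : Fin (N / 2), t j ^ (wt N (π ⟨k, by omega⟩) j * μ k) := by
    unfold chi actT chi
    refine Finset.prod_congr rfl fun k _ => ?_
    rw [← Finset.prod_zpow]
    refine Finset.prod_congr rfl fun j _ => ?_
    rw [← _root_.zpow_mul]
    rfl
  rw [h1, Finset.prod_comm]
  unfold chi
  refine Finset.prod_congr rfl fun j _ => ?_
  rw [prod_zpow_sum]
  congr 1
  unfold act xx
  refine Finset.sum_congr rfl fun k _ => ?_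
  rw [wt_symm hπ j k (by omega) (by omega)]
  simp

/-- **The support is invariant under signed permutations.** -/
theorem act_mem_supp {P : MvPolynomial (Idx N (b + 1)) ℂ} {π : Equiv.Perm (Fin N)}
    (hπ : ∀ i, π (Fin.rev i) = Fin.rev (π i)) {μ : Fin (N / 2) → ℤ} (hμ : μ ∈ supp P) :
    act π μ ∈ supp P := by
  classical
  obtain ⟨⟨g, x⟩, hy⟩ := mem_supp.1 hμ
  obtain ⟨w, hw, hwd⟩ := exists_weyl π hπ
  -- the translated point
  have hxx : ∀ l, xx (act π x.1) l = xx x.1 (π.symm l) := xx_act hπ x.1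
  have hreg : IsRegx (N := N) (act π x.1) := by
    intro i j hij
    rw [hxx, hxx]
    exact x.2 _ _ (fun h => hij (π.symm.injective h))
  set x' : RegX N := ⟨act π x.1, hreg⟩ with hx'
  have hs : sC x'.1 = sC x.1 := by
    refine (sp_spec N).2.2.2.2.2 _ _ ?_
    rw [hx']
    simp only [hxx]
    exact Equiv.prod_comp π.symm (fun l => (Polynomial.X - Polynomial.C (xx x.1 l) : Polynomial ℂ))
  have hwD : w * Dx x.1 = Dx x'.1 * w := by
    rw [Dx, hwd, Dx, hx']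
    congr 2
    funext i
    exact (hxx i).symm
  have hwT : ∀ t : Fin (N / 2) → ℂˣ, Tt t * w = w * Tt (actT π⁻¹ t) := by
    intro t
    rw [Tt, Tt, hwd]
    congr 2
    funext i
    rw [chi_wt_actT (symm_comm hπ)]
    congr 3
    exact (π.apply_symm_apply i).symm
  -- q(x)⁻¹ q(x') w is in the torus
  have hc : Commute ((qC x)⁻¹ * (qC x' * w)) (Dx x.1) := by
    have h1 := qC_conj x
    have h2 := qC_conj x'
    rw [hs] at h2
    show (qC x)⁻¹ * (qC x' * w) * Dx x.1 = Dx x.1 * ((qC x)⁻¹ * (qC x' * w))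
    calc (qC x)⁻¹ * (qC x' * w) * Dx x.1 = (qC x)⁻¹ * (qC x' * (w * Dx x.1)) := by
          simp only [Matrix.mul_assoc]
      _ = (qC x)⁻¹ * ((qC x' * Dx x'.1) * w) := by rw [hwD]; simp only [Matrix.mul_assoc]
      _ = (qC x)⁻¹ * (sC x.1 * 1 * qC x' * w) := by rw [h2, Matrix.mul_one]
      _ = (qC x)⁻¹ * ((sC x.1 * qC x) * (qC x)⁻¹ * qC x' * w) := by
          rw [← (qC_isG x).mul_inv]; simp only [Matrix.mul_assoc]
      _ = ((qC x)⁻¹ * qC x) * Dx x.1 * ((qC x)⁻¹ * (qC x' * w)) := by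
          rw [← h1]; simp only [Matrix.mul_assoc]
      _ = Dx x.1 * ((qC x)⁻¹ * (qC x' * w)) := by rw [(qC_isG x).inv_mul, Matrix.one_mul]
  have hG : IsG ((qC x)⁻¹ * (qC x' * w)) := (qC_isG x).inv.mul ((qC_isG x').mul hw)
  have hd := commute_diagonal (xx x.1) (isUnit_reg x) _ hc
  rw [hd] at hG
  obtain ⟨τ, hτ⟩ := diagonal_isG _ hG
  rw [hτ] at hd
  have hq : qC x' * w = qC x * Tt τ := by
    rw [← hd, ← Matrix.mul_assoc, (qC_isG x).mul_inv, Matrix.one_mul]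
  -- inverse
  have hqi : (qC x')⁻¹ = w * Tt τ⁻¹ * (qC x)⁻¹ := by
    refine Matrix.inv_eq_right_inv ?_
    calc qC x' * (w * Tt τ⁻¹ * (qC x)⁻¹) = (qC x' * w) * Tt τ⁻¹ * (qC x)⁻¹ := by
          simp only [Matrix.mul_assoc]
      _ = qC x * (Tt τ * Tt τ⁻¹) * (qC x)⁻¹ := by rw [hq]; simp only [Matrix.mul_assoc]
      _ = 1 := by rw [← Tt_mul, mul_inv_cancel, Tt_one, Matrix.mul_one, (qC_isG x).mul_inv]
  set g' : Fin (b + 1) → GG N := fun a =>
    ⟨(g a).1 * Tt τ * w⁻¹, ((g a).2.mul (isG_Tt τ)).mul hw.inv⟩ with hg'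
  have hPhi : ∀ t, Phi P (g', x') t = Phi P (g, x) (actT π⁻¹ t) := by
    intro t
    have hfun : (fun a : Fin (b + 1) => ((g' a).1 * (if a = 0 then Tt t else 1) * (qC x')⁻¹ :
        Matrix (Fin N) (Fin N) ℂ)) =
        fun a => (g a).1 * (if a = 0 then Tt (actT π⁻¹ t) else 1) * (qC x)⁻¹ := ?_
    · unfold Phi
      rw [hs]
      simp only []
      rw [hfun]
    funext a
    show (g a).1 * Tt τ * w⁻¹ * (if a = 0 then Tt t else 1) * (qC x')⁻¹ =
      (g a).1 * (if a = 0 then Tt (actT π⁻¹ t) else 1) * (qC x)⁻¹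
    rw [hqi]
    by_cases ha : a = 0
    · rw [if_pos ha, if_pos ha]
      calc (g a).1 * Tt τ * w⁻¹ * Tt t * (w * Tt τ⁻¹ * (qC x)⁻¹) =
          (g a).1 * Tt τ * w⁻¹ * (Tt t * w) * Tt τ⁻¹ * (qC x)⁻¹ := by simp only [Matrix.mul_assoc]
        _ = (g a).1 * Tt τ * (w⁻¹ * w) * Tt (actT π⁻¹ t) * Tt τ⁻¹ * (qC x)⁻¹ := by
            rw [hwT]; simp only [Matrix.mul_assoc]
        _ = (g a).1 * (Tt τ * (Tt (actT π⁻¹ t) * Tt τ⁻¹)) * (qC x)⁻¹ := by
            rw [hw.inv_mul, Matrix.mul_one]; simp only [Matrix.mul_assoc]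
        _ = _ := by
            rw [Tt_comm (actT π⁻¹ t), ← Matrix.mul_assoc (Tt τ), ← Tt_mul τ, mul_inv_cancel, Tt_one,
              Matrix.one_mul]
    · rw [if_neg ha, if_neg ha]
      calc (g a).1 * Tt τ * w⁻¹ * 1 * (w * Tt τ⁻¹ * (qC x)⁻¹) =
          (g a).1 * Tt τ * (w⁻¹ * w) * Tt τ⁻¹ * (qC x)⁻¹ := by
            rw [Matrix.mul_one]; simp only [Matrix.mul_assoc]
        _ = (g a).1 * (Tt τ * Tt τ⁻¹) * (qC x)⁻¹ := by
            rw [hw.inv_mul, Matrix.mul_one]; simp only [Matrix.mul_assoc]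
        _ = _ := by rw [← Tt_mul, mul_inv_cancel, Tt_one]
  -- compare coefficients
  have hinj : Function.Injective (act (R := ℤ) π) := by
    intro μ ν h
    have := congrArg (act π⁻¹) h
    rwa [act_inv_act hπ, act_inv_act hπ] at this
  have hcf := cf_unique (P := P) (s := supp P ∪ (supp P).image (act π)) Finset.subset_union_left
    (g', x') (fun ν => if ν ∈ (supp P).image (act π) then cf P (act π⁻¹ ν) (g, x) else 0)
    (fun t => by
      rw [hPhi, Phi_eq_sum (subset_refl _)]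
      simp only [ite_mul, zero_mul]
      rw [← Finset.sum_filter]
      have : (supp P ∪ (supp P).image (act π)).filter (fun ν => ν ∈ (supp P).image (act π)) =
          (supp P).image (act π) := by
        ext ν
        simp only [Finset.mem_filter, Finset.mem_union]
        tauto
      rw [this, Finset.sum_image (fun μ _ ν _ h => hinj h)]
      refine Finset.sum_congr rfl fun μ _ => ?_
      rw [act_inv_act hπ, chi_actT hπ]) (act π μ)
    (Finset.mem_union_right _ (Finset.mem_image_of_mem _ hμ))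
  simp only [Finset.mem_image_of_mem _ hμ, if_true, act_inv_act hπ] at hcf
  rw [mem_supp]
  exact ⟨(g', x'), by rw [hcf]; exact hy⟩

end weyl

end Pool.Agent.MP_c45d35_ag
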